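import Pool.Agent.Lib.MP_df59e7_lc.Defs

set_option autoImplicit false

/-! MP_df59e7_lc, module ActD. -/

namespace Pool.Agent.RM90

open MvPolynomial

/-- The hypotheses of the approximate connectivity theorem on the space `E`, the levels `f`, the
fibres of `π`, the critical set `Z`, the dense set `D` and the arcs `Γ`. -/
structure ActE {X Y : Type*} [MetricSpace X] [MetricSpace Y] (E Z D : Set X) (f : X → ℝ)
    (π : X → Y) (Γ : X → Set X) (B : ℕ) : Prop where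
  cE : IsCompact E
  lE : LCn E
  cf : Continuous f
  cπ : Continuous π
  fπ : ∀ x ∈ E, ∀ y ∈ E, π x = π y → f x = f y
  str : ∀ w, LM E f w → SLM E f w
  card : {w | LM E f w}.encard ≤ (B : ℕ∞)
  cZ : IsClosed Z
  ZE : Z ⊆ E
  meet : ∀ x ∈ E, (connectedComponentIn (E ∩ π ⁻¹' {π x}) x ∩ Z).Nonempty
  DE : D ⊆ E
  dD : E ⊆ closure D
  Γp : ∀ x ∈ D, IsPreconnected (Γ x)
  Γc : ∀ x ∈ D, IsClosed (Γ x)
  Γm : ∀ x ∈ D, x ∈ Γ x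
  Γf : ∀ x ∈ D, Γ x ⊆ E ∩ π ⁻¹' {π x}
  ΓZ : ∀ x ∈ D, (Γ x ∩ Z).Nonempty

/-- The hypotheses on the approximating sets. -/
structure ActP {X : Type*} [MetricSpace X] (E Z : Set X) (f : X → ℝ) (B : ℕ)
    (E' : ℕ → Set X) : Prop where
  cpt : ∀ p, IsCompact (E' p)
  sub : ∀ p, E' p ⊆ E
  lcn : ∀ p, LCn (E' p)
  card : ∀ p, {w | LM (E' p) f w}.encard ≤ (B : ℕ∞)
  toZ : ∀ ε > 0, ∀ᶠ p in Filter.atTop, ∀ y ∈ E' p, ∃ z ∈ Z, dist y z < ε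
  ofZ : ∀ ε > 0, ∀ᶠ p in Filter.atTop, ∀ z ∈ Z, ∃ y ∈ E' p, dist y z < ε

/-- The component of `x` in its fibre meets `Z ∩ A`. -/
def Lb {X Y : Type*} [MetricSpace X] [MetricSpace Y] (E Z : Set X) (π : X → Y) (A : Set X)
    (x : X) : Prop :=
  (connectedComponentIn (E ∩ π ⁻¹' {π x}) x ∩ (Z ∩ A)).Nonempty

/-- A splitting of the limit set inside the component `C`. -/
structure Spl {X : Type*} [MetricSpace X] (Z : Set X) (f : X → ℝ) (Γ : X → Set X)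
    (X1 Wi C A1 A2 : Set X) (θ : ℝ) : Prop where
  c1 : IsClosed A1
  c2 : IsClosed A2
  s1 : A1 ⊆ C
  s2 : A2 ⊆ C
  n1 : A1.Nonempty
  n2 : A2.Nonempty
  sep : ∀ a ∈ A1, ∀ b ∈ A2, θ ≤ dist a b
  cov : Z ∩ C ⊆ A1 ∪ A2
  covΓ : ∀ y ∈ X1, y ∈ C → Γ y ⊆ A1 ∪ A2
  sub : A1 ∪ A2 ⊆ Z ∪ ⋃ y ∈ X1, Γ y
  b1 : ∀ z ∈ Z ∩ A1, ∃ β ⊆ A1, IsPreconnected β ∧ z ∈ β ∧ (∀ x ∈ β, f x ≤ f z) ∧
    ∃ w ∈ β, w ∈ Wi
  b2 : ∀ z ∈ Z ∩ A2, ∃ β ⊆ A2, IsPreconnected β ∧ z ∈ β ∧ (∀ x ∈ β, f x ≤ f z) ∧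
    ∃ w ∈ β, w ∈ Wi

/-- The splitting with exchanged parts. -/
theorem Spl.swap {X : Type*} [MetricSpace X] {Z : Set X} {f : X → ℝ} {Γ : X → Set X}
    {X1 Wi C A1 A2 : Set X} {θ : ℝ} (h : Spl Z f Γ X1 Wi C A1 A2 θ) :
    Spl Z f Γ X1 Wi C A2 A1 θ where
  c1 := h.c2
  c2 := h.c1
  s1 := h.s2
  s2 := h.s1
  n1 := h.n2
  n2 := h.n1
  sep := fun a ha b hb => by rw [dist_comm]; exact h.sep b hb a ha
  cov := by rw [Set.union_comm]; exact h.cov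
  covΓ := fun y hy hC => by rw [Set.union_comm]; exact h.covΓ y hy hC
  sub := by rw [Set.union_comm A2 A1]; exact h.sub
  b1 := h.b2
  b2 := h.b1

end Pool.Agent.RM90
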