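import Pool.Agent.Lib.MP_df59e7_lc.Defs

set_option autoImplicit false

/-! MP_df59e7_lc, module Comp. -/

namespace Pool.Agent.RM90

open MvPolynomial

/-- Components are relatively closed. Proof: `IsPreconnected.subset_closure` for
`insert y (connectedComponentIn F x)`. -/
theorem comp_closure_inter {X : Type*} [MetricSpace X] (F : Set X) (x : X) :
    closure (connectedComponentIn F x) ∩ F ⊆ connectedComponentIn F x := by
  rintro y ⟨hy, hyF⟩
  have hne : (connectedComponentIn F x).Nonempty := closure_nonempty_iff.mp ⟨y, hy⟩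
  have hxF : x ∈ F := connectedComponentIn_nonempty_iff.mp hne
  have hx : x ∈ connectedComponentIn F x := mem_connectedComponentIn hxF
  have h1 : IsPreconnected (insert y (connectedComponentIn F x)) :=
    isPreconnected_connectedComponentIn.subset_closure (Set.subset_insert _ _)
      (Set.insert_subset hy subset_closure)
  exact h1.subset_connectedComponentIn (Set.mem_insert_of_mem _ hx)
    (Set.insert_subset hyF (connectedComponentIn_subset F x)) (Set.mem_insert _ _)

/-- Components of an open sublevel set of a locally connected set are relatively open.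
Proof: `w` in the component, `f w < a`; choose `ε` with `f < a` on `ball w ε` (continuity), `N`,
`ρ` from `LCn`: `N` is a preconnected subset of the sublevel set which contains `w`. -/
theorem comp_open_lt {X : Type*} [MetricSpace X] (E : Set X) (hl : LCn E) (f : X → ℝ)
    (hf : Continuous f) (a : ℝ) (x w : X) (hw : w ∈ connectedComponentIn (Sub E f a) x) :
    ∃ ρ > 0, E ∩ Metric.ball w ρ ⊆ connectedComponentIn (Sub E f a) x := by
  have hwS : w ∈ Sub E f a := connectedComponentIn_subset _ _ hw
  have hcw : ContinuousAt f w := hf.continuousAt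
  obtain ⟨ε, hε, hε'⟩ := Metric.continuousAt_iff.mp hcw (a - f w) (sub_pos.mpr hwS.2)
  obtain ⟨ρ, hρ, N, hN, hN1, hN2⟩ := hl w hwS.1 ε hε
  refine ⟨ρ, hρ, hN2.trans ?_⟩
  rw [connectedComponentIn_eq hw]
  refine hN.subset_connectedComponentIn (hN2 ⟨hwS.1, Metric.mem_ball_self hρ⟩) fun y hy => ?_
  obtain ⟨hyE, hyb⟩ := hN1 hy
  refine ⟨hyE, ?_⟩
  have h1 := hε' (Metric.mem_ball.mp hyb)
  rw [Real.dist_eq] at h1
  linarith [(abs_lt.mp h1).2]

/-- Components of a locally connected set are relatively open. -/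
theorem comp_open {X : Type*} [MetricSpace X] (E : Set X) (hl : LCn E) (x w : X)
    (hw : w ∈ connectedComponentIn E x) :
    ∃ ρ > 0, E ∩ Metric.ball w ρ ⊆ connectedComponentIn E x := by
  have h1 : Sub E (fun _ => (0 : ℝ)) 1 = E := by
    ext y
    exact ⟨fun h => h.1, fun h => ⟨h, zero_lt_one⟩⟩
  have h2 := comp_open_lt E hl (fun _ => (0 : ℝ)) continuous_const 1 x w
  rw [h1] at h2
  exact h2 hw

/-- Components of sublevel sets contain local minima.
Proof: let `B` be the component of `x`; `closure B ⊆ E` is compact; let `m` be a point of it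
where `f` is minimal; `f m ≤ f x < a`, so `m ∈ closure B ∩ Sub E f a ⊆ B`
(`comp_closure_inter`); by `comp_open_lt` `m` is a local minimum on `E`. -/
theorem comp_min_lt {X : Type*} [MetricSpace X] (E : Set X) (hE : IsCompact E) (hl : LCn E)
    (f : X → ℝ) (hf : Continuous f) (a : ℝ) (x : X) (hx : x ∈ Sub E f a) :
    ∃ m ∈ connectedComponentIn (Sub E f a) x, LM E f m := by
  have hxB : x ∈ connectedComponentIn (Sub E f a) x := mem_connectedComponentIn hx
  have hBE : closure (connectedComponentIn (Sub E f a) x) ⊆ E :=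
    closure_minimal ((connectedComponentIn_subset _ _).trans fun y hy => hy.1) hE.isClosed
  have hcpt : IsCompact (closure (connectedComponentIn (Sub E f a) x)) :=
    hE.of_isClosed_subset isClosed_closure hBE
  obtain ⟨m, hm, hmin⟩ := hcpt.exists_isMinOn ⟨x, subset_closure hxB⟩ hf.continuousOn
  have hmx : f m ≤ f x := hmin (subset_closure hxB)
  have hmS : m ∈ Sub E f a := ⟨hBE hm, lt_of_le_of_lt hmx hx.2⟩
  have hmB := comp_closure_inter (Sub E f a) x ⟨hm, hmS⟩
  obtain ⟨ρ, hρ, hρ'⟩ := comp_open_lt E hl f hf a x m hmB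
  exact ⟨m, hmB, hmS.1, ρ, hρ, fun y hy hyd => hmin (subset_closure (hρ' ⟨hy, hyd⟩))⟩

/-- Components contain local minima. -/
theorem comp_min {X : Type*} [MetricSpace X] (E : Set X) (hE : IsCompact E) (hl : LCn E)
    (f : X → ℝ) (hf : Continuous f) (x : X) (hx : x ∈ E) :
    ∃ m ∈ connectedComponentIn E x, LM E f m := by
  obtain ⟨b, hb⟩ := hE.bddAbove_image hf.continuousOn
  have h1 : Sub E f (b + 1) = E := by
    ext y
    refine ⟨fun h => h.1, fun h => ⟨h, ?_⟩⟩
    linarith [hb (Set.mem_image_of_mem f h)]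
  have h2 := comp_min_lt E hE hl f hf (b + 1) x (by rw [h1]; exact hx)
  rwa [h1] at h2

/-- Finitely many components. Proof: compactness and `comp_open`. -/
theorem comp_fin {X : Type*} [MetricSpace X] (E : Set X) (hE : IsCompact E) (hl : LCn E) :
    ∃ T : Finset X, ↑T ⊆ E ∧ ∀ x ∈ E, ∃ t ∈ T, x ∈ connectedComponentIn E t := by
  have h1 : ∀ x ∈ E, ∃ ρ > 0, E ∩ Metric.ball x ρ ⊆ connectedComponentIn E x :=
    fun x hx => comp_open E hl x x (mem_connectedComponentIn hx)
  choose! ρ hρ hρ' using h1
  obtain ⟨T, hT1, hT2⟩ := hE.elim_nhds_subcover (fun x => Metric.ball x (ρ x))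
    (fun x hx => Metric.ball_mem_nhds x (hρ x hx))
  refine ⟨T, fun x hx => hT1 x hx, fun x hx => ?_⟩
  obtain ⟨t, ht, hxt⟩ := Set.mem_iUnion₂.mp (hT2 hx)
  exact ⟨t, ht, hρ' t (hT1 t ht) ⟨hx, hxt⟩⟩

end Pool.Agent.RM90
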