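import Pool.Agent.Lib.MP_df59e7_lc.Defs

set_option autoImplicit false

/-! MP_df59e7_lc, module UlimA. -/

namespace Pool.Agent.RM90

open MvPolynomial

/-- Ultralimits are closed. Proof: if `x` is in the closure, for `ε > 0` choose `x'` in the
ultralimit with `dist x' x < ε/2`. -/
theorem ulim_closed {X : Type*} [MetricSpace X] (N : ℕ → Set X) : IsClosed (ulim N) := by
  refine isClosed_of_closure_subset fun x hx ε hε => ?_
  obtain ⟨x', hx', hd⟩ := Metric.mem_closure_iff.1 hx (ε / 2) (half_pos hε)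
  filter_upwards [hx' (ε / 2) (half_pos hε)] with p hp
  obtain ⟨y, hy, hyd⟩ := hp
  refine ⟨y, hy, ?_⟩
  have h1 := dist_triangle y x' x
  rw [dist_comm x x'] at hd
  linarith

/-- Sequences in a compact set converge along the ultrafilter.
Proof: `IsCompact.ultrafilter_le_nhds` for the image ultrafilter. -/
theorem exists_lim {X : Type*} [MetricSpace X] (K : Set X) (hK : IsCompact K) (a : ℕ → X)
    (ha : ∀ᶠ p in (Filter.hyperfilter ℕ : Filter ℕ), a p ∈ K) :
    ∃ x ∈ K, Filter.Tendsto a (Filter.hyperfilter ℕ : Filter ℕ) (nhds x) := by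
  have h1 : ((Filter.hyperfilter ℕ).map a : Filter X) ≤ Filter.principal K :=
    Filter.le_principal_iff.2 ha
  obtain ⟨x, hx, hxl⟩ := hK.ultrafilter_le_nhds ((Filter.hyperfilter ℕ).map a) h1
  exact ⟨x, hx, hxl⟩

/-- Limits of selections belong to the ultralimit. -/
theorem mem_ulim_of_tendsto {X : Type*} [MetricSpace X] (N : ℕ → Set X) (a : ℕ → X) (x : X)
    (ha : ∀ᶠ p in (Filter.hyperfilter ℕ : Filter ℕ), a p ∈ N p)
    (hx : Filter.Tendsto a (Filter.hyperfilter ℕ : Filter ℕ) (nhds x)) : x ∈ ulim N := by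
  intro ε hε
  filter_upwards [ha, Metric.tendsto_nhds.1 hx ε hε] with p h1 h2
  exact ⟨a p, h1, h2⟩

/-- Every point of the ultralimit is the limit of a selection.
Proof: if `N p` is nonempty let `a p ∈ N p` with `dist (a p) x < infDist x (N p) + 1/(p+1)`
(otherwise arbitrary, e.g. `x`); `1/(p+1) → 0` along the hyperfilter
(`Nat.hyperfilter_le_atTop`). -/
theorem exists_sel {X : Type*} [MetricSpace X] (N : ℕ → Set X) (x : X) (hx : x ∈ ulim N) :
    ∃ a : ℕ → X, (∀ᶠ p in (Filter.hyperfilter ℕ : Filter ℕ), a p ∈ N p) ∧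
      Filter.Tendsto a (Filter.hyperfilter ℕ : Filter ℕ) (nhds x) := by
  have hch : ∀ p : ℕ, ∃ y : X, (N p).Nonempty → y ∈ N p ∧
      dist x y < Metric.infDist x (N p) + 1 / ((p : ℝ) + 1) := by
    intro p
    by_cases h : (N p).Nonempty
    · have h1 : Metric.infDist x (N p) < Metric.infDist x (N p) + 1 / ((p : ℝ) + 1) := by
        have : (0 : ℝ) < 1 / ((p : ℝ) + 1) := by positivity
        linarith
      obtain ⟨y, hy, hd⟩ := (Metric.infDist_lt_iff h).1 h1
      exact ⟨y, fun _ => ⟨hy, hd⟩⟩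
    · exact ⟨x, fun h' => absurd h' h⟩
  choose a ha using hch
  refine ⟨a, ?_, ?_⟩
  · filter_upwards [hx 1 one_pos] with p hp
    obtain ⟨y, hy, -⟩ := hp
    exact (ha p ⟨y, hy⟩).1
  · rw [Metric.tendsto_nhds]
    intro ε hε
    have h0 : Filter.Tendsto (fun p : ℕ => 1 / ((p : ℝ) + 1))
        (Filter.hyperfilter ℕ : Filter ℕ) (nhds 0) :=
      tendsto_one_div_add_atTop_nhds_zero_nat.mono_left Nat.hyperfilter_le_atTop
    have h1 : ∀ᶠ p : ℕ in (Filter.hyperfilter ℕ : Filter ℕ), 1 / ((p : ℝ) + 1) < ε / 2 :=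
      h0.eventually_lt_const (half_pos hε)
    filter_upwards [hx (ε / 2) (half_pos hε), h1] with p hp h2
    obtain ⟨y, hy, hd⟩ := hp
    have h3 := (ha p ⟨y, hy⟩).2
    have h4 := Metric.infDist_le_dist_of_mem (x := x) hy
    rw [dist_comm] at h3
    rw [dist_comm] at hd
    linarith

/-- Monotonicity. -/
theorem ulim_mono {X : Type*} [MetricSpace X] (N N' : ℕ → Set X)
    (h : ∀ᶠ p in (Filter.hyperfilter ℕ : Filter ℕ), N p ⊆ N' p) : ulim N ⊆ ulim N' := by
  intro x hx ε hε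
  filter_upwards [h, hx ε hε] with p h1 h2
  obtain ⟨y, hy, hd⟩ := h2
  exact ⟨y, h1 hy, hd⟩

end Pool.Agent.RM90
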