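import Pool.Agent.Lib.MP_df59e7_lc.Defs
import Pool.Agent.Lib.MP_df59e7_lc.UlimA

set_option autoImplicit false

/-! MP_df59e7_lc, module UlimC. -/

namespace Pool.Agent.RM90

open MvPolynomial

/-- Ultralimits of chained sets in a compact set are preconnected.
Proof: suppose `ulim N ⊆ O1 ∪ O2`, `O1`, `O2` open, `ulim N` meets both and does not meet
`O1 ∩ O2`. `ulim N` is compact (closed and contained in `K`: by `exists_sel` and closedness of
`K`). Let `K1 = ulim N ∩ O1`, `K2 = ulim N ∩ O2`: disjoint compact sets (each is closed, being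
`ulim N` minus an open set), nonempty, with union `ulim N`; let `3 δ > 0` be smaller than their
distance. Let `S1 p = {y ∈ N p | infDist y K1 < δ}`, `S2 p = N p \ S1 p`. For almost all `p`
both are nonempty (points of `N p` near a point of `K1`, of `K2`), so by chainedness with
`θ p ≤ δ/2` (eventually) there are `a p ∈ S1 p`, `b p ∈ S2 p` with `dist (a p) (b p) ≤ θ p`. Let
`a p → a`, then `b p → a` too (`θ → 0`), `a ∈ ulim N` (`mem_ulim_of_tendsto`),
`infDist a K1 ≤ δ` so `a ∈ K1`, but `infDist (b p) K1 ≥ δ` gives `infDist a K1 ≥ δ`: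
contradiction. -/
theorem ulim_preconnected {X : Type*} [MetricSpace X] (K : Set X) (hK : IsCompact K)
    (N : ℕ → Set X) (θ : ℕ → ℝ)
    (hθ : Filter.Tendsto θ (Filter.hyperfilter ℕ : Filter ℕ) (nhds 0))
    (hN : ∀ᶠ p in (Filter.hyperfilter ℕ : Filter ℕ), N p ⊆ K ∧ Chained (θ p) (N p)) :
    IsPreconnected (ulim N) := by
  classical
  have hne : (Filter.hyperfilter ℕ : Filter ℕ).NeBot := inferInstance
  have hcl := ulim_closed N
  have hsub : ulim N ⊆ K := by
    intro x hx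
    obtain ⟨a, ha, hax⟩ := exists_sel N x hx
    refine hK.isClosed.mem_of_tendsto hax ?_
    filter_upwards [ha, hN] with p h1 h2
    exact h2.1 h1
  rw [isPreconnected_closed_iff]
  intro t t' ht ht' hcov hA hB
  by_contra hemp
  rw [Set.not_nonempty_iff_eq_empty] at hemp
  obtain ⟨A, hAd⟩ : ∃ A, A = ulim N ∩ t := ⟨_, rfl⟩
  obtain ⟨B, hBd⟩ : ∃ B, B = ulim N ∩ t' := ⟨_, rfl⟩
  have hAc : IsCompact A := by
    rw [hAd]
    exact hK.of_isClosed_subset (hcl.inter ht) (Set.inter_subset_left.trans hsub)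
  have hBc : IsClosed B := by
    rw [hBd]
    exact hcl.inter ht'
  have hdisj : Disjoint A B := by
    rw [Set.disjoint_iff]
    rintro x ⟨hx1, hx2⟩
    rw [hAd] at hx1
    rw [hBd] at hx2
    have : x ∈ ulim N ∩ (t ∩ t') := ⟨hx1.1, hx1.2, hx2.2⟩
    rw [hemp] at this
    exact this
  obtain ⟨δ, hδ, hth⟩ := hdisj.exists_thickenings hAc hBc
  rw [Set.disjoint_iff] at hth
  obtain ⟨x₁, hx₁⟩ := hA
  obtain ⟨x₂, hx₂⟩ := hB
  have hx₁A : x₁ ∈ A := by
    rw [hAd]
    exact hx₁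
  have hx₂B : x₂ ∈ B := by
    rw [hBd]
    exact hx₂
  have hex : ∀ᶠ p in (Filter.hyperfilter ℕ : Filter ℕ), ∃ ab : X × X,
      (ab.1 ∈ N p ∧ ab.1 ∈ Metric.thickening δ A) ∧
      (ab.2 ∈ N p ∧ ab.2 ∉ Metric.thickening δ A) ∧ dist ab.1 ab.2 ≤ θ p := by
    filter_upwards [hN, hx₁.1 δ hδ, hx₂.1 δ hδ] with p hp h1 h2
    obtain ⟨y₁, hy₁, hy₁'⟩ := h1
    obtain ⟨y₂, hy₂, hy₂'⟩ := h2
    have m1 : y₁ ∈ Metric.thickening δ A := Metric.mem_thickening_iff.2 ⟨x₁, hx₁A, hy₁'⟩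
    have m2 : y₂ ∈ Metric.thickening δ B := Metric.mem_thickening_iff.2 ⟨x₂, hx₂B, hy₂'⟩
    have m3 : y₂ ∉ Metric.thickening δ A := fun h => hth ⟨h, m2⟩
    obtain ⟨a, ha, b, hb, hab⟩ := hp.2 (N p ∩ Metric.thickening δ A)
      (N p \ Metric.thickening δ A) (Set.inter_union_sdiff _ _).symm ⟨y₁, hy₁, m1⟩ ⟨y₂, hy₂, m3⟩
    exact ⟨(a, b), ha, hb, hab⟩
  obtain ⟨f, hf⟩ := hex.choice
  obtain ⟨a, haK, hat⟩ := exists_lim K hK (fun p => (f p).1) (by
    filter_upwards [hN, hf] with p h1 h2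
    exact h1.1 h2.1.1)
  obtain ⟨b, hbK, hbt⟩ := exists_lim K hK (fun p => (f p).2) (by
    filter_upwards [hN, hf] with p h1 h2
    exact h1.1 h2.2.1.1)
  have hab : a = b := by
    have h1 : Filter.Tendsto (fun p => dist (f p).1 (f p).2) (Filter.hyperfilter ℕ : Filter ℕ)
        (nhds (dist a b)) := hat.dist hbt
    have h2 : dist a b ≤ 0 := by
      refine le_of_tendsto_of_tendsto h1 hθ ?_
      filter_upwards [hf] with p hp
      exact hp.2.2
    exact dist_le_zero.1 h2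
  have haN : a ∈ ulim N := by
    refine mem_ulim_of_tendsto N (fun p => (f p).1) a ?_ hat
    filter_upwards [hf] with p hp
    exact hp.1.1
  have hbA : b ∈ (Metric.thickening δ A)ᶜ := by
    refine Metric.isOpen_thickening.isClosed_compl.mem_of_tendsto hbt ?_
    filter_upwards [hf] with p hp
    exact hp.2.1.2
  have haB : a ∈ (Metric.thickening δ B)ᶜ := by
    refine Metric.isOpen_thickening.isClosed_compl.mem_of_tendsto hat ?_
    filter_upwards [hf] with p hp
    exact fun h => hth ⟨hp.1.2, h⟩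
  rcases hcov haN with h | h
  · apply hbA
    rw [← hab]
    refine Metric.self_subset_thickening hδ A ?_
    rw [hAd]
    exact ⟨haN, h⟩
  · apply haB
    refine Metric.self_subset_thickening hδ B ?_
    rw [hBd]
    exact ⟨haN, h⟩

/-- Preconnected sets are chained.
Proof: if the union `S = S1 ∪ S2` has all distances `> θ > 0`, the open `θ`-neighbourhoods...:
`S1 = S ∩ thickening (θ/2) S1`, similarly `S2`, and these thickenings are open with
`S ∩ thickening (θ/2) S1 ∩ thickening (θ/2) S2` empty. -/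
theorem chained_of_preconnected {X : Type*} [MetricSpace X] (S : Set X)
    (hS : IsPreconnected S) (θ : ℝ) (hθ : 0 < θ) : Chained θ S := by
  intro S1 S2 hSS h1 h2
  by_contra hcon
  push Not at hcon
  obtain ⟨s1, hs1⟩ := h1
  obtain ⟨s2, hs2⟩ := h2
  have hθ2 : 0 < θ / 2 := half_pos hθ
  obtain ⟨x, hxS, hx1, hx2⟩ := hS (Metric.thickening (θ / 2) S1) (Metric.thickening (θ / 2) S2)
    Metric.isOpen_thickening Metric.isOpen_thickening (by
      rw [hSS]
      exact Set.union_subset_union (Metric.self_subset_thickening hθ2 _)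
        (Metric.self_subset_thickening hθ2 _))
    ⟨s1, by rw [hSS]; exact Or.inl hs1, Metric.self_subset_thickening hθ2 _ hs1⟩
    ⟨s2, by rw [hSS]; exact Or.inr hs2, Metric.self_subset_thickening hθ2 _ hs2⟩
  obtain ⟨a, ha, hxa⟩ := Metric.mem_thickening_iff.1 hx1
  obtain ⟨b, hb, hxb⟩ := Metric.mem_thickening_iff.1 hx2
  have h3 := hcon a ha b hb
  have h4 := dist_triangle_left a b x
  linarith

/-- Monotonicity in `θ`. -/
theorem chained_mono {X : Type*} [MetricSpace X] {S : Set X} {θ θ' : ℝ} (h : θ ≤ θ')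
    (hS : Chained θ S) : Chained θ' S := by
  intro S1 S2 hSS h1 h2
  obtain ⟨a, ha, b, hb, hab⟩ := hS S1 S2 hSS h1 h2
  exact ⟨a, ha, b, hb, hab.trans h⟩

/-- Union of two chained sets which come close to each other.
Proof: given `S ∪ T = S1 ∪ S2`; if `S` (or `T`) meets both `S1` and `S2`, use chainedness of `S`
for `S = (S ∩ S1) ∪ (S ∩ S2)`. Otherwise `S` is contained in one part and `T` in the other one
and `a, b` do it. -/
theorem chained_union {X : Type*} [MetricSpace X] {S T : Set X} {θ : ℝ} (hS : Chained θ S)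
    (hT : Chained θ T) (a b : X) (ha : a ∈ S) (hb : b ∈ T) (hab : dist a b ≤ θ) :
    Chained θ (S ∪ T) := by
  intro S1 S2 hSS h1 h2
  have key : ∀ R : Set X, R ⊆ S1 ∪ S2 → Chained θ R → (R ∩ S1).Nonempty → (R ∩ S2).Nonempty →
      ∃ a ∈ S1, ∃ b ∈ S2, dist a b ≤ θ := by
    intro R hR hc n1 n2
    obtain ⟨a, ha, b, hb, hab⟩ := hc (R ∩ S1) (R ∩ S2) (by
      rw [← Set.inter_union_distrib_left, Set.inter_eq_left.2 hR]) n1 n2
    exact ⟨a, ha.2, b, hb.2, hab⟩
  have hSsub : S ⊆ S1 ∪ S2 := by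
    rw [← hSS]
    exact Set.subset_union_left
  have hTsub : T ⊆ S1 ∪ S2 := by
    rw [← hSS]
    exact Set.subset_union_right
  by_cases c1 : (S ∩ S1).Nonempty ∧ (S ∩ S2).Nonempty
  · exact key S hSsub hS c1.1 c1.2
  by_cases c2 : (T ∩ S1).Nonempty ∧ (T ∩ S2).Nonempty
  · exact key T hTsub hT c2.1 c2.2
  rcases hSsub ha with h3 | h3
  · rcases hTsub hb with h4 | h4
    · exfalso
      obtain ⟨y, hy⟩ := h2
      have hy' : y ∈ S ∪ T := by
        rw [hSS]
        exact Or.inr hy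
      rcases hy' with hy' | hy'
      · exact c1 ⟨⟨a, ha, h3⟩, ⟨y, hy', hy⟩⟩
      · exact c2 ⟨⟨b, hb, h4⟩, ⟨y, hy', hy⟩⟩
    · exact ⟨a, h3, b, h4, hab⟩
  · rcases hTsub hb with h4 | h4
    · refine ⟨b, h4, a, h3, ?_⟩
      rwa [dist_comm]
    · exfalso
      obtain ⟨y, hy⟩ := h1
      have hy' : y ∈ S ∪ T := by
        rw [hSS]
        exact Or.inl hy
      rcases hy' with hy' | hy'
      · exact c1 ⟨⟨y, hy', hy⟩, ⟨a, ha, h3⟩⟩
      · exact c2 ⟨⟨y, hy', hy⟩, ⟨b, hb, h4⟩⟩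

end Pool.Agent.RM90
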