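import Pool.Agent.Lib.MP_df59e7_lc.Defs
import Pool.Agent.Lib.MP_df59e7_lc.ActD
import Pool.Agent.Lib.MP_df59e7_lc.UlimC
import Pool.Agent.Lib.MP_df59e7_lc.Comp

set_option autoImplicit false

/-! MP_df59e7_lc, module ActS. -/

namespace Pool.Agent.RM90

open MvPolynomial

/-- Points of `Z` are in the ultralimit of `E'`. -/
private theorem actS_sel {X Y : Type*} [MetricSpace X] [MetricSpace Y] {E Z D : Set X}
    {f : X → ℝ} {π : X → Y} {Γ : X → Set X} {B : ℕ} (h : ActE E Z D f π Γ B) {E' : ℕ → Set X}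
    (h' : ActP E Z f B E') {x0 z : X} (hz : z ∈ Z) (hzC : z ∈ connectedComponentIn E x0) :
    ∃ y : ℕ → X, (∀ᶠ p in (Filter.hyperfilter ℕ : Filter ℕ),
      y p ∈ E' p ∧ y p ∈ connectedComponentIn E x0) ∧
      Filter.Tendsto y (Filter.hyperfilter ℕ : Filter ℕ) (nhds z) := by
  have hzu : z ∈ ulim E' := by
    intro ε hε
    filter_upwards [Nat.hyperfilter_le_atTop (h'.ofZ ε hε)] with p hp
    exact hp z hz
  obtain ⟨y, hy, hyz⟩ := exists_sel E' z hzu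
  obtain ⟨ρ, hρ, hρC⟩ := comp_open E h.lE x0 z hzC
  refine ⟨y, ?_, hyz⟩
  filter_upwards [hy, hyz (Metric.ball_mem_nhds z hρ)] with p h1 h2
  exact ⟨h1, hρC ⟨h'.sub p h1, h2⟩⟩

/-- `1 / (p + 1)` tends to zero along the hyperfilter. -/
private theorem actS_tend :
    Filter.Tendsto (fun p : ℕ => 1 / ((p : ℝ) + 1)) (Filter.hyperfilter ℕ : Filter ℕ)
      (nhds 0) :=
  tendsto_one_div_add_atTop_nhds_zero_nat.mono_left Nat.hyperfilter_le_atTop

/-- Separation of the ultralimits. -/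
private theorem actS_sep {X : Type*} [MetricSpace X] {S1 S2 : ℕ → Set X} {θ : ℝ}
    (hS : ∀ᶠ p in (Filter.hyperfilter ℕ : Filter ℕ), ∀ a ∈ S1 p, ∀ b ∈ S2 p, θ < dist a b) :
    ∀ a ∈ ulim S1, ∀ b ∈ ulim S2, θ ≤ dist a b := by
  intro a ha b hb
  obtain ⟨a', ha', hat⟩ := exists_sel S1 a ha
  obtain ⟨b', hb', hbt⟩ := exists_sel S2 b hb
  refine ge_of_tendsto (hat.dist hbt) ?_
  filter_upwards [hS, ha', hb'] with p h1 h2 h3
  exact (h1 _ h2 _ h3).le

/-- The branches. -/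
private theorem actS_branch {X Y : Type*} [MetricSpace X] [MetricSpace Y] {E Z D : Set X}
    {f : X → ℝ} {π : X → Y} {Γ : X → Set X} {B : ℕ} (h : ActE E Z D f π Γ B) {E' : ℕ → Set X}
    (h' : ActP E Z f B E') {θ : ℝ} (hθ : 0 < θ) {Wi : Set X}
    (hWi : ∀ (e : ℕ → X) (w : X),
      (∀ᶠ p in (Filter.hyperfilter ℕ : Filter ℕ), LM (E' p) f (e p)) →
      Filter.Tendsto e (Filter.hyperfilter ℕ : Filter ℕ) (nhds w) → w ∈ Wi)
    {x0 : X} {S1 S2 : ℕ → Set X}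
    (hcov : ∀ᶠ p in (Filter.hyperfilter ℕ : Filter ℕ),
      E' p ∩ connectedComponentIn E x0 ⊆ S1 p ∪ S2 p)
    (hsep : ∀ᶠ p in (Filter.hyperfilter ℕ : Filter ℕ), ∀ a ∈ S1 p, ∀ b ∈ S2 p, θ < dist a b)
    {z : X} (hz : z ∈ Z) (hzC : z ∈ connectedComponentIn E x0) (hz2 : z ∈ ulim S2) :
    ∃ β ⊆ ulim S2, IsPreconnected β ∧ z ∈ β ∧ (∀ x ∈ β, f x ≤ f z) ∧ ∃ w ∈ β, w ∈ Wi := by
  obtain ⟨y, hy, hyz⟩ := actS_sel h h' hz hzC
  -- `y p` is in `S2 p`
  have hy2 : ∀ᶠ p in (Filter.hyperfilter ℕ : Filter ℕ), y p ∈ S2 p := by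
    have h1 : ∀ᶠ p in (Filter.hyperfilter ℕ : Filter ℕ), y p ∈ S1 p ∨ y p ∈ S2 p := by
      filter_upwards [hcov, hy] with p h1 h2
      exact h1 h2
    rcases Ultrafilter.eventually_or.1 h1 with h2 | h2
    · exfalso
      have h3 : z ∈ ulim S1 := mem_ulim_of_tendsto S1 y z h2 hyz
      have h4 := actS_sep hsep z h3 z hz2
      rw [dist_self] at h4
      linarith
    · exact h2
  obtain ⟨β, hβ⟩ : ∃ β : ℕ → Set X, β = fun p =>
    connectedComponentIn (Sub (E' p) f (f (y p) + 1 / ((p : ℝ) + 1))) (y p) := ⟨_, rfl⟩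
  have hpc : ∀ p, IsPreconnected (β p) := by
    intro p
    rw [hβ]
    exact isPreconnected_connectedComponentIn
  have hSub : ∀ p, β p ⊆ Sub (E' p) f (f (y p) + 1 / ((p : ℝ) + 1)) := by
    intro p
    rw [hβ]
    exact connectedComponentIn_subset _ _
  have hyS : ∀ p, y p ∈ E' p → y p ∈ Sub (E' p) f (f (y p) + 1 / ((p : ℝ) + 1)) := by
    intro p hp
    refine ⟨hp, ?_⟩
    have : (0 : ℝ) < 1 / ((p : ℝ) + 1) := by positivity
    linarith
  have hym : ∀ p, y p ∈ E' p → y p ∈ β p := by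
    intro p hp
    rw [hβ]
    exact mem_connectedComponentIn (hyS p hp)
  have hβE : ∀ p, β p ⊆ E := fun p u hu => h'.sub p (hSub p hu).1
  have hβ2 : ∀ᶠ p in (Filter.hyperfilter ℕ : Filter ℕ), β p ⊆ S2 p := by
    filter_upwards [hy, hy2, hcov, hsep] with p h1 h2 h3 h4
    have hC : β p ⊆ connectedComponentIn E x0 := by
      rw [connectedComponentIn_eq h1.2]
      exact (hpc p).subset_connectedComponentIn (hym p h1.1) (hβE p)
    have hsub : β p ⊆ S1 p ∪ S2 p := fun u hu => h3 ⟨(hSub p hu).1, hC hu⟩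
    intro u hu
    rcases hsub hu with h5 | h5
    · exfalso
      obtain ⟨a, ha, b, hb, hab⟩ := chained_of_preconnected (β p) (hpc p) θ hθ (β p ∩ S1 p)
        (β p ∩ S2 p) (by rw [← Set.inter_union_distrib_left, Set.inter_eq_left.2 hsub])
        ⟨u, hu, h5⟩ ⟨y p, hym p h1.1, h2⟩
      exact absurd (h4 a ha.2 b hb.2) (not_lt.2 hab)
    · exact h5
  have hex : ∀ᶠ p in (Filter.hyperfilter ℕ : Filter ℕ), ∃ e : X, e ∈ β p ∧ LM (E' p) f e := by
    filter_upwards [hy] with p h1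
    obtain ⟨m, hm, hm'⟩ := comp_min_lt (E' p) (h'.cpt p) (h'.lcn p) f h.cf _ (y p) (hyS p h1.1)
    refine ⟨m, ?_, hm'⟩
    rw [hβ]
    exact hm
  have : Nonempty X := ⟨z⟩
  obtain ⟨e, he⟩ := hex.choice
  obtain ⟨w, -, hw⟩ := exists_lim E h.cE e (he.mono fun p hp => hβE p hp.1)
  refine ⟨ulim β, ulim_mono β S2 hβ2, ?_, ?_, ?_, w, ?_, ?_⟩
  · refine ulim_preconnected E h.cE β (fun p => 1 / ((p : ℝ) + 1)) actS_tend ?_
    exact Filter.Eventually.of_forall fun p => ⟨hβE p,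
      chained_of_preconnected (β p) (hpc p) _ (by positivity)⟩
  · exact mem_ulim_of_tendsto β y z (hy.mono fun p hp => hym p hp.1) hyz
  · intro x hx
    obtain ⟨x', hx', hxt⟩ := exists_sel β x hx
    have t1 : Filter.Tendsto (fun p => f (x' p)) (Filter.hyperfilter ℕ : Filter ℕ)
        (nhds (f x)) := (h.cf.tendsto x).comp hxt
    have t2 : Filter.Tendsto (fun p => f (y p) + 1 / ((p : ℝ) + 1))
        (Filter.hyperfilter ℕ : Filter ℕ) (nhds (f z + 0)) :=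
      ((h.cf.tendsto z).comp hyz).add actS_tend
    rw [add_zero] at t2
    refine le_of_tendsto_of_tendsto t1 t2 ?_
    filter_upwards [hx'] with p hp
    exact (hSub p hp).2.le
  · exact mem_ulim_of_tendsto β e w (he.mono fun p hp => hp.1) hw
  · exact hWi e w (he.mono fun p hp => hp.2) hw

/-- From the failure of chainedness for almost all `p` to a splitting of the limit.
Proof: let `C = connectedComponentIn E x0` (closed, relatively open in `E` by `comp_open`), and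
`R p = (E' p ∪ ⋃ y ∈ X1, Γ y) ∩ C`. For almost all `p` choose `S1 p`, `S2 p` nonempty with union
`R p` and `θ < dist a b` for `a ∈ S1 p`, `b ∈ S2 p`. Put `A_j = ulim S_j`.
`c1, c2`: `ulim_closed`; `s1, s2`: `exists_sel` and `C` closed; `n1, n2`: `exists_lim`,
`mem_ulim_of_tendsto`; `sep`: `exists_sel` and continuity of `dist`.
`cov`: for `z ∈ Z ∩ C` choose (`ofZ`) `y_p ∈ E' p` with `y_p → z` along the hyperfilter
(`Nat.hyperfilter_le_atTop`; e.g. `dist y_p z < infDist z (E' p) + 1/(p+1)`); eventually `y_p ∈ C`,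
so `y_p ∈ S1 p ∪ S2 p`; for almost all `p` it is in `S1 p`, or for almost all `p` in `S2 p`
(`Ultrafilter.eventually_or`). `covΓ`: `Γ y ⊆ C`, so every point of `Γ y` is in
`S1 p ∪ S2 p` for almost all `p`. `sub`: a point of `A_j` is a limit of `a_p ∈ R p`; either
`a_p ∈ E' p` for almost all `p`, then the limit is in `Z` (`toZ`, `Z` closed), or `a_p` is in the
closed set `⋃ y ∈ X1, Γ y` (finite union) for almost all `p`.
`b2` (`b1` is the same): `z ∈ Z ∩ A2`; `y_p ∈ E' p`, `y_p → z` as above, `y_p ∈ C` and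
`y_p ∈ S2 p` for almost all `p` (otherwise `z ∈ A1`, contradiction to `sep`). Let
`β_p = connectedComponentIn (Sub (E' p) f (f y_p + 1/(p+1))) y_p`. It is preconnected, contained
in `E' p ∩ C`, contains `y_p ∈ S2 p`, so `β_p ⊆ S2 p` (`chained_of_preconnected` for
`β_p = (β_p ∩ S1 p) ∪ (β_p ∩ S2 p)`). It contains a local minimum `e_p` of `f` on `E' p`
(`comp_min_lt`). `β = ulim β_p ⊆ A2` (`ulim_mono`) is preconnected (`ulim_preconnected` with
`θ p = 1/(p+1)`), contains `z` and the limit `w ∈ E` of `e_p` (`exists_lim`), `w ∈ Wi` by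
`hWi`, and `f ≤ f z` on `β`. -/
theorem act_spl {X Y : Type*} [MetricSpace X] [MetricSpace Y] (E Z D : Set X) (f : X → ℝ)
    (π : X → Y) (Γ : X → Set X) (B : ℕ) (h : ActE E Z D f π Γ B) (E' : ℕ → Set X)
    (h' : ActP E Z f B E') (θ : ℝ) (hθ : 0 < θ) (Wi : Set X)
    (hWi : ∀ (e : ℕ → X) (w : X),
      (∀ᶠ p in (Filter.hyperfilter ℕ : Filter ℕ), LM (E' p) f (e p)) →
      Filter.Tendsto e (Filter.hyperfilter ℕ : Filter ℕ) (nhds w) → w ∈ Wi)
    (X1 : Finset X) (hX1 : ↑X1 ⊆ D) (x0 : X) (hx0 : x0 ∈ E)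
    (hfail : ∀ᶠ p in (Filter.hyperfilter ℕ : Filter ℕ),
      ¬ Chained θ ((E' p ∪ ⋃ y ∈ X1, Γ y) ∩ connectedComponentIn E x0)) :
    ∃ A1 A2 : Set X, Spl Z f Γ (↑X1) Wi (connectedComponentIn E x0) A1 A2 θ := by
  classical
  obtain ⟨C, hCd⟩ : ∃ C, C = connectedComponentIn E x0 := ⟨_, rfl⟩
  have hCE : C ⊆ E := by
    rw [hCd]
    exact connectedComponentIn_subset _ _
  have hCc : IsClosed C := by
    refine isClosed_of_closure_subset fun u hu => ?_
    have hu' : u ∈ E := closure_minimal hCE h.cE.isClosed hu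
    rw [hCd] at hu ⊢
    exact comp_closure_inter E x0 ⟨hu, hu'⟩
  rw [← hCd] at hfail
  have hch : ∀ᶠ p in (Filter.hyperfilter ℕ : Filter ℕ), ∃ S : Set X × Set X,
      (E' p ∪ ⋃ y ∈ X1, Γ y) ∩ C = S.1 ∪ S.2 ∧ S.1.Nonempty ∧ S.2.Nonempty ∧
        ∀ a ∈ S.1, ∀ b ∈ S.2, θ < dist a b := by
    filter_upwards [hfail] with p hp
    unfold Chained at hp
    push Not at hp
    obtain ⟨S1, S2, h1, h2, h3, h4⟩ := hp
    exact ⟨(S1, S2), h1, h2, h3, h4⟩
  obtain ⟨S, hS⟩ := hch.choice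
  obtain ⟨S1, hS1⟩ : ∃ S1 : ℕ → Set X, S1 = fun p => (S p).1 := ⟨_, rfl⟩
  obtain ⟨S2, hS2⟩ : ∃ S2 : ℕ → Set X, S2 = fun p => (S p).2 := ⟨_, rfl⟩
  have hR : ∀ᶠ p in (Filter.hyperfilter ℕ : Filter ℕ),
      (E' p ∪ ⋃ y ∈ X1, Γ y) ∩ C = S1 p ∪ S2 p := by
    rw [hS1, hS2]
    exact hS.mono fun p hp => hp.1
  have hn1 : ∀ᶠ p in (Filter.hyperfilter ℕ : Filter ℕ), (S1 p).Nonempty := by
    rw [hS1]
    exact hS.mono fun p hp => hp.2.1
  have hn2 : ∀ᶠ p in (Filter.hyperfilter ℕ : Filter ℕ), (S2 p).Nonempty := by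
    rw [hS2]
    exact hS.mono fun p hp => hp.2.2.1
  have hsep : ∀ᶠ p in (Filter.hyperfilter ℕ : Filter ℕ),
      ∀ a ∈ S1 p, ∀ b ∈ S2 p, θ < dist a b := by
    rw [hS1, hS2]
    exact hS.mono fun p hp => hp.2.2.2
  have hsep' : ∀ᶠ p in (Filter.hyperfilter ℕ : Filter ℕ),
      ∀ a ∈ S2 p, ∀ b ∈ S1 p, θ < dist a b := by
    filter_upwards [hsep] with p hp a ha b hb
    rw [dist_comm]
    exact hp b hb a ha
  have hcov : ∀ᶠ p in (Filter.hyperfilter ℕ : Filter ℕ),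
      E' p ∩ connectedComponentIn E x0 ⊆ S1 p ∪ S2 p := by
    filter_upwards [hR] with p hp u hu
    rw [← hp]
    exact ⟨Or.inl hu.1, by rw [hCd]; exact hu.2⟩
  have hcov' : ∀ᶠ p in (Filter.hyperfilter ℕ : Filter ℕ),
      E' p ∩ connectedComponentIn E x0 ⊆ S2 p ∪ S1 p := by
    filter_upwards [hcov] with p hp
    rwa [Set.union_comm]
  have hsC1 : ∀ᶠ p in (Filter.hyperfilter ℕ : Filter ℕ), S1 p ⊆ C := by
    filter_upwards [hR] with p hp u hu
    have : u ∈ (E' p ∪ ⋃ y ∈ X1, Γ y) ∩ C := by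
      rw [hp]
      exact Or.inl hu
    exact this.2
  have hsC2 : ∀ᶠ p in (Filter.hyperfilter ℕ : Filter ℕ), S2 p ⊆ C := by
    filter_upwards [hR] with p hp u hu
    have : u ∈ (E' p ∪ ⋃ y ∈ X1, Γ y) ∩ C := by
      rw [hp]
      exact Or.inr hu
    exact this.2
  have hlim : ∀ T : ℕ → Set X,
      (∀ᶠ p in (Filter.hyperfilter ℕ : Filter ℕ), T p ⊆ C) → ulim T ⊆ C := by
    intro T hT a ha
    obtain ⟨a', ha', hat⟩ := exists_sel T a ha
    refine hCc.mem_of_tendsto hat ?_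
    filter_upwards [hT, ha'] with p h1 h2
    exact h1 h2
  have hnon : ∀ T : ℕ → Set X, (∀ᶠ p in (Filter.hyperfilter ℕ : Filter ℕ), T p ⊆ C) →
      (∀ᶠ p in (Filter.hyperfilter ℕ : Filter ℕ), (T p).Nonempty) → (ulim T).Nonempty := by
    intro T hT hn
    have : Nonempty X := ⟨x0⟩
    obtain ⟨a, ha⟩ := (hn.mono fun p hp => (hp : ∃ a, a ∈ T p)).choice
    obtain ⟨x, -, hx⟩ := exists_lim E h.cE a (by
      filter_upwards [hT, ha] with p h1 h2
      exact hCE (h1 h2))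
    exact ⟨x, mem_ulim_of_tendsto T a x ha hx⟩
  have hU : IsClosed (⋃ y ∈ X1, Γ y) :=
    isClosed_biUnion_finset fun y hy => h.Γc y (hX1 hy)
  have hsub : ∀ T : ℕ → Set X, (∀ᶠ p in (Filter.hyperfilter ℕ : Filter ℕ),
      T p ⊆ E' p ∪ ⋃ y ∈ X1, Γ y) → ulim T ⊆ Z ∪ ⋃ y ∈ X1, Γ y := by
    intro T hT a ha
    obtain ⟨a', ha', hat⟩ := exists_sel T a ha
    have h1 : ∀ᶠ p in (Filter.hyperfilter ℕ : Filter ℕ),
        a' p ∈ E' p ∨ a' p ∈ ⋃ y ∈ X1, Γ y := by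
      filter_upwards [hT, ha'] with p h1 h2
      exact h1 h2
    rcases Ultrafilter.eventually_or.1 h1 with h2 | h2
    · left
      rw [← h.cZ.closure_eq, Metric.mem_closure_iff]
      intro ε hε
      have h3 : ∀ᶠ p in (Filter.hyperfilter ℕ : Filter ℕ), ∀ y ∈ E' p, ∃ z ∈ Z,
          dist y z < ε / 2 := Nat.hyperfilter_le_atTop (h'.toZ (ε / 2) (half_pos hε))
      obtain ⟨p, h4, h5, h6⟩ := (h2.and (h3.and (Metric.tendsto_nhds.1 hat (ε / 2)
        (half_pos hε)))).exists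
      obtain ⟨z, hz, hzd⟩ := h5 _ h4
      refine ⟨z, hz, ?_⟩
      have h7 := dist_triangle_left a z (a' p)
      linarith
    · right
      exact hU.mem_of_tendsto hat h2
  have hmem : ∀ u : X, ∀ y : ℕ → X, Filter.Tendsto y (Filter.hyperfilter ℕ : Filter ℕ) (nhds u) →
      (∀ᶠ p in (Filter.hyperfilter ℕ : Filter ℕ), y p ∈ S1 p ∪ S2 p) →
      u ∈ ulim S1 ∪ ulim S2 := by
    intro u y hyu hy
    rcases Ultrafilter.eventually_or.1 (hy.mono fun p hp => (hp : y p ∈ S1 p ∨ y p ∈ S2 p))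
      with h2 | h2
    · exact Or.inl (mem_ulim_of_tendsto S1 y u h2 hyu)
    · exact Or.inr (mem_ulim_of_tendsto S2 y u h2 hyu)
  rw [← hCd]
  refine ⟨ulim S1, ulim S2, ?_⟩
  constructor
  · exact ulim_closed S1
  · exact ulim_closed S2
  · exact hlim S1 hsC1
  · exact hlim S2 hsC2
  · exact hnon S1 hsC1 hn1
  · exact hnon S2 hsC2 hn2
  · exact actS_sep hsep
  · rintro z ⟨hz, hzC⟩
    obtain ⟨y, hy, hyz⟩ := actS_sel h h' hz (by rw [← hCd]; exact hzC : z ∈ _)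
    refine hmem z y hyz ?_
    filter_upwards [hcov, hy] with p h1 h2
    exact h1 h2
  · intro y hy hyC u hu
    have hyD : y ∈ D := hX1 hy
    have hΓC : Γ y ⊆ C := by
      rw [hCd] at hyC ⊢
      rw [connectedComponentIn_eq hyC]
      exact (h.Γp y hyD).subset_connectedComponentIn (h.Γm y hyD)
        fun v hv => (h.Γf y hyD hv).1
    refine hmem u (fun _ => u) tendsto_const_nhds ?_
    filter_upwards [hR] with p hp
    rw [← hp]
    exact ⟨Or.inr (Set.mem_iUnion₂.2 ⟨y, hy, hu⟩), hΓC hu⟩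
  · refine Set.union_subset (hsub S1 ?_) (hsub S2 ?_)
    · filter_upwards [hR] with p hp u hu
      have : u ∈ (E' p ∪ ⋃ y ∈ X1, Γ y) ∩ C := by
        rw [hp]
        exact Or.inl hu
      exact this.1
    · filter_upwards [hR] with p hp u hu
      have : u ∈ (E' p ∪ ⋃ y ∈ X1, Γ y) ∩ C := by
        rw [hp]
        exact Or.inr hu
      exact this.1
  · rintro z ⟨hz, hz1⟩
    have hzC : z ∈ connectedComponentIn E x0 := by
      rw [← hCd]
      exact hlim S1 hsC1 hz1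
    exact actS_branch h h' hθ hWi hcov' hsep' hz hzC hz1
  · rintro z ⟨hz, hz2⟩
    have hzC : z ∈ connectedComponentIn E x0 := by
      rw [← hCd]
      exact hlim S2 hsC2 hz2
    exact actS_branch h h' hθ hWi hcov hsep hz hzC hz2

end Pool.Agent.RM90
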