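import Pool.Agent.Lib.MP_df59e7_lc.Defs
import Pool.Agent.Lib.MP_df59e7_lc.Comp

set_option autoImplicit false

/-! MP_df59e7_lc, module Birth. -/

namespace Pool.Agent.RM90

open MvPolynomial

/-- Approximation from below.
Proof: choose `x_m ∈ Sub E f (f w)` with `x_m → w`. The component of `x_m` in `Sub E f (f w)`
contains a local minimum of `f` (`comp_min_lt`), there are finitely many, so for infinitely many
`m` it is the same local minimum and so the same component `B`; so `w ∈ closure B`. Choose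
`x ∈ B` with `dist x w < ε/2`, and by `comp_open_lt` and the density of `D` a point
`x' ∈ D ∩ B` with `dist x' x < ε/2`. -/
theorem birth {X : Type*} [MetricSpace X] (E : Set X) (hE : IsCompact E) (hl : LCn E)
    (f : X → ℝ) (hf : Continuous f) (hfin : {m | LM E f m}.Finite) (D : Set X) (hD : D ⊆ E)
    (hDd : E ⊆ closure D) (w : X) (hwE : w ∈ E) (hw : w ∈ closure (Sub E f (f w)))
    (ε : ℝ) (hε : 0 < ε) :
    ∃ x ∈ D, f x < f w ∧ dist x w < ε ∧
      w ∈ closure (connectedComponentIn (Sub E f (f w)) x) := by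
  set F : Set X := Sub E f (f w) with hF
  have hcov : F ⊆ ⋃ m ∈ {m | LM E f m}, connectedComponentIn F m := by
    intro x hx
    obtain ⟨m, hm, hLM⟩ := comp_min_lt E hE hl f hf (f w) x hx
    refine Set.mem_biUnion (Set.mem_ofPred_eq ▸ hLM : m ∈ {m | LM E f m}) ?_
    rw [← connectedComponentIn_eq hm]
    exact mem_connectedComponentIn hx
  have h1 : w ∈ ⋃ m ∈ {m | LM E f m}, closure (connectedComponentIn F m) := by
    rw [← hfin.closure_biUnion]
    exact closure_mono hcov hw
  simp only [Set.mem_iUnion] at h1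
  obtain ⟨m, -, hwm⟩ := h1
  obtain ⟨x, hxB, hxw⟩ := Metric.mem_closure_iff.1 hwm (ε / 2) (by positivity)
  have hxF : x ∈ F := connectedComponentIn_subset _ _ hxB
  obtain ⟨ρ, hρ, hρB⟩ := comp_open_lt E hl f hf (f w) m x hxB
  obtain ⟨x', hx'D, hxx'⟩ := Metric.mem_closure_iff.1 (hDd hxF.1) (min ρ (ε / 2))
    (by positivity)
  have hx'B : x' ∈ connectedComponentIn F m :=
    hρB ⟨hD hx'D, by
      rw [Metric.mem_ball, dist_comm]
      exact hxx'.trans_le (min_le_left _ _)⟩
  have hx'F : x' ∈ F := connectedComponentIn_subset _ _ hx'B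
  refine ⟨x', hx'D, hx'F.2, ?_, ?_⟩
  · calc dist x' w ≤ dist x' x + dist x w := dist_triangle _ _ _
      _ < ε := by
        have a : dist x' x < ε / 2 := by
          rw [dist_comm]
          exact hxx'.trans_le (min_le_right _ _)
        have b : dist x w < ε / 2 := by
          rw [dist_comm]
          exact hxw
        linarith
  · rw [← connectedComponentIn_eq hx'B]
    exact hwm

/-- A finite set of points below the points of a finite set.
Proof: for each `w ∈ Wi` which satisfies the two hypotheses choose a point by `birth`. -/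
theorem below_pts {X : Type*} [MetricSpace X] (E : Set X) (hE : IsCompact E) (hl : LCn E)
    (f : X → ℝ) (hf : Continuous f) (hfin : {m | LM E f m}.Finite) (D : Set X) (hD : D ⊆ E)
    (hDd : E ⊆ closure D) (Wi : Finset X) (θ : ℝ) (hθ : 0 < θ) :
    ∃ X0 : Finset X, ↑X0 ⊆ D ∧ X0.card ≤ Wi.card ∧
      ∀ w ∈ Wi, w ∈ E → w ∈ closure (Sub E f (f w)) → ∃ x ∈ X0, f x < f w ∧
        dist x w ≤ θ / 4 ∧ w ∈ closure (connectedComponentIn (Sub E f (f w)) x) := by
  classical
  have key : ∀ w : X, ∃ x : X, w ∈ E → w ∈ closure (Sub E f (f w)) → x ∈ D ∧ f x < f w ∧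
      dist x w ≤ θ / 4 ∧ w ∈ closure (connectedComponentIn (Sub E f (f w)) x) := by
    intro w
    by_cases h : w ∈ E ∧ w ∈ closure (Sub E f (f w))
    · obtain ⟨x, hxD, h1, h2, h3⟩ :=
        birth E hE hl f hf hfin D hD hDd w h.1 h.2 (θ / 4) (by positivity)
      exact ⟨x, fun _ _ => ⟨hxD, h1, h2.le, h3⟩⟩
    · exact ⟨w, fun a b => absurd ⟨a, b⟩ h⟩
  choose g hg using key
  refine ⟨(Wi.filter fun w => w ∈ E ∧ w ∈ closure (Sub E f (f w))).image g, ?_, ?_, ?_⟩
  · intro x hx
    simp only [Finset.coe_image, Set.mem_image, Finset.mem_coe, Finset.mem_filter] at hx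
    obtain ⟨w, ⟨-, h1, h2⟩, rfl⟩ := hx
    exact (hg w h1 h2).1
  · exact Finset.card_image_le.trans (Finset.card_filter_le _ _)
  · intro w hw h1 h2
    exact ⟨g w, Finset.mem_image_of_mem g (Finset.mem_filter.2 ⟨hw, h1, h2⟩), (hg w h1 h2).2⟩

end Pool.Agent.RM90
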