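import Pool.Agent.Lib.MP_df59e7_lc.Defs
import Pool.Agent.Lib.MP_df59e7_lc.UlimC

set_option autoImplicit false

/-! MP_df59e7_lc, module CompRel. -/

namespace Pool.Agent.RM90

open MvPolynomial

/-- The relation `y ∈ G(x)`, `G(x)` the component of the fibre, is closed.
Proof: let `(x_m, y_m) → (x, y)` with `y_m ∈ G(x_m)`. `x ∈ E`. The sets `G(x_m)` are
preconnected subsets of the compact set `E`, so their ultralimit is preconnected
(`ulim_preconnected`, `chained_of_preconnected`, with `θ p = 1/(p+1)`), it contains `x` and `y`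
(`mem_ulim_of_tendsto`, the hyperfilter is finer than `atTop`), it is contained in `E` and in
`π ⁻¹' {π x}` (if `z_m ∈ G(x_m)`, `z_m → z` along the hyperfilter then `π z = lim π z_m =
lim π x_m = π x`, `exists_sel`). So `y ∈ G(x)` (`IsPreconnected.subset_connectedComponentIn`). -/
theorem comp_rel_closed {X Y : Type*} [MetricSpace X] [MetricSpace Y] (E : Set X)
    (hE : IsCompact E) (π : X → Y) (hπ : Continuous π) :
    IsClosed {p : X × X | p.1 ∈ E ∧
      p.2 ∈ connectedComponentIn (E ∩ π ⁻¹' {π p.1}) p.1} := by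
  refine IsSeqClosed.isClosed ?_
  rintro p ⟨x, y⟩ hp hlim
  have hxlim : Filter.Tendsto (fun n => (p n).1) Filter.atTop (nhds x) :=
    (continuous_fst.tendsto _).comp hlim
  have hylim : Filter.Tendsto (fun n => (p n).2) Filter.atTop (nhds y) :=
    (continuous_snd.tendsto _).comp hlim
  have hle := Nat.hyperfilter_le_atTop
  have hx : x ∈ E := hE.isClosed.mem_of_tendsto hxlim (Filter.Eventually.of_forall
    fun n => (hp n).1)
  refine ⟨hx, ?_⟩
  set N : ℕ → Set X := fun n => connectedComponentIn (E ∩ π ⁻¹' {π (p n).1}) (p n).1 with hN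
  have hNs : ∀ n, N n ⊆ E ∩ π ⁻¹' {π (p n).1} := fun n => connectedComponentIn_subset _ _
  have hP : IsPreconnected (ulim N) := by
    refine ulim_preconnected E hE N (fun n : ℕ => 1 / ((n : ℝ) + 1)) ?_ ?_
    · exact tendsto_one_div_add_atTop_nhds_zero_nat.mono_left hle
    · refine Filter.Eventually.of_forall fun n => ⟨fun z hz => (hNs n hz).1, ?_⟩
      exact chained_of_preconnected _ isPreconnected_connectedComponentIn _ (by positivity)
  have hxN : x ∈ ulim N := by
    refine mem_ulim_of_tendsto N (fun n => (p n).1) x (Filter.Eventually.of_forall fun n => ?_)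
      (hxlim.mono_left hle)
    exact mem_connectedComponentIn ⟨(hp n).1, rfl⟩
  have hyN : y ∈ ulim N := by
    refine mem_ulim_of_tendsto N (fun n => (p n).2) y (Filter.Eventually.of_forall fun n => ?_)
      (hylim.mono_left hle)
    exact (hp n).2
  have hsub : ulim N ⊆ E ∩ π ⁻¹' {π x} := by
    intro z hz
    obtain ⟨a, ha, hal⟩ := exists_sel N z hz
    have h1 : z ∈ E := by
      refine hE.isClosed.mem_of_tendsto hal ?_
      filter_upwards [ha] with n hn
      exact (hNs n hn).1
    refine ⟨h1, ?_⟩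
    have h2 : Filter.Tendsto (fun n => π (a n)) (Filter.hyperfilter ℕ : Filter ℕ)
        (nhds (π z)) := (hπ.tendsto _).comp hal
    have h3 : Filter.Tendsto (fun n => π (a n)) (Filter.hyperfilter ℕ : Filter ℕ)
        (nhds (π x)) := by
      have h4 : Filter.Tendsto (fun n => π (p n).1) (Filter.hyperfilter ℕ : Filter ℕ)
          (nhds (π x)) := (hπ.tendsto _).comp (hxlim.mono_left hle)
      refine h4.congr' ?_
      filter_upwards [ha] with n hn
      exact (hNs n hn).2.symm
    exact tendsto_nhds_unique h2 h3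
  exact hP.subset_connectedComponentIn hxN hsub hyN

/-- The set of points `x` of `E` whose fibre component meets a closed set `A` is closed.
Proof: it is the projection of the intersection of the closed set of `comp_rel_closed` with
`E ×ˢ (A ∩ E)`, a compact set. -/
theorem lab_closed {X Y : Type*} [MetricSpace X] [MetricSpace Y] (E : Set X)
    (hE : IsCompact E) (π : X → Y) (hπ : Continuous π) (A : Set X) (hA : IsClosed A) :
    IsClosed {x | x ∈ E ∧ (connectedComponentIn (E ∩ π ⁻¹' {π x}) x ∩ A).Nonempty} := by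
  have hR := comp_rel_closed E hE π hπ
  have hK : IsCompact ({p : X × X | p.1 ∈ E ∧
      p.2 ∈ connectedComponentIn (E ∩ π ⁻¹' {π p.1}) p.1} ∩ E ×ˢ (A ∩ E)) :=
    (hE.prod (hE.inter_left hA)).inter_left hR
  have heq : {x | x ∈ E ∧ (connectedComponentIn (E ∩ π ⁻¹' {π x}) x ∩ A).Nonempty} =
      Prod.fst '' ({p : X × X | p.1 ∈ E ∧
        p.2 ∈ connectedComponentIn (E ∩ π ⁻¹' {π p.1}) p.1} ∩ E ×ˢ (A ∩ E)) := by
    ext x
    constructor
    · rintro ⟨hx, y, hy, hyA⟩
      exact ⟨(x, y), ⟨⟨hx, hy⟩, hx, hyA, (connectedComponentIn_subset _ _ hy).1⟩, rfl⟩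
    · rintro ⟨⟨x', y⟩, ⟨⟨hx, hy⟩, _, hyA, _⟩, rfl⟩
      exact ⟨hx, y, hy, hyA⟩
  rw [heq]
  exact (hK.image continuous_fst).isClosed

end Pool.Agent.RM90
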