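import Pool.Agent.Lib.MP_df59e7_lc.Defs
import Pool.Agent.Lib.MP_df59e7_lc.ActD
import Pool.Agent.Lib.MP_df59e7_lc.CompRel
import Pool.Agent.Lib.MP_df59e7_lc.Comp

set_option autoImplicit false

/-! MP_df59e7_lc, module CoreA. -/

namespace Pool.Agent.RM90

open MvPolynomial

/-- The fibre component of a point is contained in its component. -/
theorem fib_sub {X Y : Type*} [MetricSpace X] [MetricSpace Y] (E : Set X) (π : X → Y)
    (x0 x : X) (hx : x ∈ connectedComponentIn E x0) :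
    connectedComponentIn (E ∩ π ⁻¹' {π x}) x ⊆ connectedComponentIn E x0 := by
  have hxE : x ∈ E := connectedComponentIn_subset _ _ hx
  rw [connectedComponentIn_eq hx]
  exact isPreconnected_connectedComponentIn.subset_connectedComponentIn
    (mem_connectedComponentIn ⟨hxE, rfl⟩)
    ((connectedComponentIn_subset _ _).trans Set.inter_subset_left)

/-- Every point of `C` has one of the two labels.
Proof: `G(x) ∩ Z` is nonempty (`ActE.meet`), `G(x) ⊆ C` (it is preconnected, contained in `E` and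
contains `x`), so `G(x) ∩ Z ⊆ A1 ∪ A2` by `Spl.cov`. -/
theorem lb_or {X Y : Type*} [MetricSpace X] [MetricSpace Y] (E Z D : Set X) (f : X → ℝ)
    (π : X → Y) (Γ : X → Set X) (B : ℕ) (h : ActE E Z D f π Γ B) (X1 Wi A1 A2 : Set X)
    (hX1 : X1 ⊆ D) (θ : ℝ) (hθ : 0 < θ) (x0 : X) (hx0 : x0 ∈ E)
    (hS : Spl Z f Γ X1 Wi (connectedComponentIn E x0) A1 A2 θ)
    (x : X) (hx : x ∈ connectedComponentIn E x0) : Lb E Z π A1 x ∨ Lb E Z π A2 x := by
  have hxE : x ∈ E := connectedComponentIn_subset _ _ hx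
  obtain ⟨z, hz1, hz2⟩ := h.meet x hxE
  rcases hS.cov ⟨hz2, fib_sub E π x0 x hx hz1⟩ with h1 | h1
  · exact Or.inl ⟨z, hz1, hz2, h1⟩
  · exact Or.inr ⟨z, hz1, hz2, h1⟩

/-- The labelled points of the component form a closed set. -/
theorem lb_closed {X Y : Type*} [MetricSpace X] [MetricSpace Y] (E Z D : Set X) (f : X → ℝ)
    (π : X → Y) (Γ : X → Set X) (B : ℕ) (h : ActE E Z D f π Γ B) (A : Set X)
    (hA : IsClosed A) : IsClosed {x | x ∈ E ∧ Lb E Z π A x} :=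
  lab_closed E h.cE π h.cπ (Z ∩ A) (h.cZ.inter hA)

/-- A preconnected set in the union of the two parts lies in one of them. -/
theorem spl_pre {X : Type*} [MetricSpace X] (A1 A2 : Set X) (hc1 : IsClosed A1)
    (hc2 : IsClosed A2) (θ : ℝ) (hθ : 0 < θ) (sep : ∀ a ∈ A1, ∀ b ∈ A2, θ ≤ dist a b)
    (T : Set X) (hT : IsPreconnected T) (hTA : T ⊆ A1 ∪ A2) (a : X) (ha : a ∈ T)
    (ha1 : a ∈ A1) : T ⊆ A1 := by
  intro b hb
  rcases hTA hb with h1 | h1
  · exact h1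
  · exfalso
    obtain ⟨c, _, hc, hc'⟩ := isPreconnected_closed_iff.mp hT A1 A2 hc1 hc2 hTA
      ⟨a, ha, ha1⟩ ⟨b, hb, h1⟩
    have := sep c hc c hc'
    rw [dist_self] at this
    linarith

/-- The first label occurs. -/
theorem lb_nonempty {X Y : Type*} [MetricSpace X] [MetricSpace Y] (E Z D : Set X) (f : X → ℝ)
    (π : X → Y) (Γ : X → Set X) (B : ℕ) (h : ActE E Z D f π Γ B) (X1 Wi A1 A2 : Set X)
    (hX1 : X1 ⊆ D) (θ : ℝ) (hθ : 0 < θ) (x0 : X)
    (hS : Spl Z f Γ X1 Wi (connectedComponentIn E x0) A1 A2 θ) :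
    ∃ x ∈ connectedComponentIn E x0, Lb E Z π A1 x := by
  obtain ⟨a, ha⟩ := hS.n1
  have haC := hS.s1 ha
  rcases hS.sub (Or.inl ha) with hz | hz
  · exact ⟨a, haC, a, mem_connectedComponentIn ⟨h.ZE hz, rfl⟩, hz, ha⟩
  · obtain ⟨y, hy, hay⟩ := Set.mem_iUnion₂.mp hz
    have hyD := hX1 hy
    have hyE : y ∈ E := h.DE hyD
    have hΓE : Γ y ⊆ E := (h.Γf y hyD).trans Set.inter_subset_left
    have hΓC : Γ y ⊆ connectedComponentIn E x0 := by
      rw [connectedComponentIn_eq haC]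
      exact (h.Γp y hyD).subset_connectedComponentIn hay hΓE
    have hΓA : Γ y ⊆ A1 := spl_pre A1 A2 hS.c1 hS.c2 θ hθ hS.sep (Γ y) (h.Γp y hyD)
      (hS.covΓ y hy (hΓC (h.Γm y hyD))) a hay ha
    obtain ⟨z, hzΓ, hzZ⟩ := h.ΓZ y hyD
    exact ⟨z, hΓC hzΓ, z, mem_connectedComponentIn ⟨h.ZE hzZ, rfl⟩, hzZ, hΓA hzΓ⟩

/-- There is a point with both labels on a minimal level.
Proof: let `C = connectedComponentIn E x0` (compact) and `C_j = {x ∈ C | Lb E Z π A_j x}`: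
closed by `lab_closed` (applied to the closed set `Z ∩ A_j`; `Lb` is the condition there),
`C = C_1 ∪ C_2` by `lb_or`. `C_j` is nonempty: let `a ∈ A_j`; by `Spl.sub` either `a ∈ Z`, then
`a ∈ C_j` as `a` is in its own fibre component; or `a ∈ Γ y`, `y ∈ X1`: `Γ y` is preconnected,
contained in `E`, contains `a ∈ C`, so `Γ y ⊆ C`, `Γ y ⊆ A1 ∪ A2` (`Spl.covΓ`), and as `A1`, `A2`
are disjoint closed sets, `Γ y ⊆ A_j`; take `z ∈ Γ y ∩ Z`. As `C` is preconnected,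
`C_1 ∩ C_2` is nonempty (`isPreconnected_closed_iff`); it is compact, so `f` has a minimum. -/
theorem core_min {X Y : Type*} [MetricSpace X] [MetricSpace Y] (E Z D : Set X) (f : X → ℝ)
    (π : X → Y) (Γ : X → Set X) (B : ℕ) (h : ActE E Z D f π Γ B) (X1 Wi A1 A2 : Set X)
    (hX1 : X1 ⊆ D) (θ : ℝ) (hθ : 0 < θ) (x0 : X) (hx0 : x0 ∈ E)
    (hS : Spl Z f Γ X1 Wi (connectedComponentIn E x0) A1 A2 θ) :
    ∃ x ∈ connectedComponentIn E x0, Lb E Z π A1 x ∧ Lb E Z π A2 x ∧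
      ∀ y ∈ connectedComponentIn E x0, Lb E Z π A1 y → Lb E Z π A2 y → f x ≤ f y := by
  have hcl1 := lb_closed E Z D f π Γ B h A1 hS.c1
  have hcl2 := lb_closed E Z D f π Γ B h A2 hS.c2
  obtain ⟨a, haC, ha⟩ := lb_nonempty E Z D f π Γ B h X1 Wi A1 A2 hX1 θ hθ x0 hS
  obtain ⟨b, hbC, hb⟩ := lb_nonempty E Z D f π Γ B h X1 Wi A2 A1 hX1 θ hθ x0 hS.swap
  have hCE : connectedComponentIn E x0 ⊆ E := connectedComponentIn_subset _ _
  have hne : (connectedComponentIn E x0 ∩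
      ({x | x ∈ E ∧ Lb E Z π A1 x} ∩ {x | x ∈ E ∧ Lb E Z π A2 x})).Nonempty := by
    refine isPreconnected_closed_iff.mp isPreconnected_connectedComponentIn _ _ hcl1 hcl2 ?_
      ⟨a, haC, hCE haC, ha⟩ ⟨b, hbC, hCE hbC, hb⟩
    intro x hx
    rcases lb_or E Z D f π Γ B h X1 Wi A1 A2 hX1 θ hθ x0 hx0 hS x hx with h1 | h1
    · exact Or.inl ⟨hCE hx, h1⟩
    · exact Or.inr ⟨hCE hx, h1⟩
  have hCcl : IsClosed (connectedComponentIn E x0) := by
    refine isClosed_of_closure_subset fun y hy => ?_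
    exact comp_closure_inter E x0 ⟨hy, closure_minimal hCE h.cE.isClosed hy⟩
  have hcpt : IsCompact (connectedComponentIn E x0 ∩
      ({x | x ∈ E ∧ Lb E Z π A1 x} ∩ {x | x ∈ E ∧ Lb E Z π A2 x})) :=
    h.cE.of_isClosed_subset (hCcl.inter (hcl1.inter hcl2)) (Set.inter_subset_left.trans hCE)
  obtain ⟨x, hx, hmin⟩ := hcpt.exists_isMinOn hne h.cf.continuousOn
  exact ⟨x, hx.1, hx.2.1.2, hx.2.2.2, fun y hy h1 h2 =>
    hmin ⟨hy, ⟨hCE hy, h1⟩, ⟨hCE hy, h2⟩⟩⟩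

end Pool.Agent.RM90
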