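import Pool.Agent.Lib.MP_df59e7_lc.Defs
import Pool.Agent.Lib.MP_df59e7_lc.ActD
import Pool.Agent.Lib.MP_df59e7_lc.CompRel
import Pool.Agent.Lib.MP_df59e7_lc.Comp
import Pool.Agent.Lib.MP_df59e7_lc.CoreA

set_option autoImplicit false

/-! MP_df59e7_lc, module CoreB. -/

namespace Pool.Agent.RM90

open MvPolynomial

/-- Labels are constant on components of sublevel sets below the first bad level.
Proof: `B' = connectedComponentIn (Sub E f a) x` is preconnected, contained in
`C = connectedComponentIn E x0`; `B' = {y ∈ B' | Lb A1} ∪ {y ∈ B' | Lb A2}` (`lb_or`), both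
relatively closed (`lab_closed`) and disjoint (`hmin`: points of `B'` have `f y < a`); `x` is in
the first one. -/
theorem core_lab {X Y : Type*} [MetricSpace X] [MetricSpace Y] (E Z D : Set X) (f : X → ℝ)
    (π : X → Y) (Γ : X → Set X) (B : ℕ) (h : ActE E Z D f π Γ B) (X1 Wi A1 A2 : Set X)
    (hX1 : X1 ⊆ D) (θ : ℝ) (hθ : 0 < θ) (x0 : X) (hx0 : x0 ∈ E)
    (hS : Spl Z f Γ X1 Wi (connectedComponentIn E x0) A1 A2 θ) (a : ℝ)
    (hmin : ∀ y ∈ connectedComponentIn E x0, Lb E Z π A1 y → Lb E Z π A2 y → a ≤ f y)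
    (x : X) (hx : x ∈ connectedComponentIn E x0) (hxa : f x < a) (hL : Lb E Z π A1 x)
    (y : X) (hy : y ∈ connectedComponentIn (Sub E f a) x) : Lb E Z π A1 y := by
  have hxE : x ∈ E := connectedComponentIn_subset _ _ hx
  have hxB : x ∈ connectedComponentIn (Sub E f a) x := mem_connectedComponentIn ⟨hxE, hxa⟩
  have hBC : connectedComponentIn (Sub E f a) x ⊆ connectedComponentIn E x0 := by
    rw [connectedComponentIn_eq hx]
    exact isPreconnected_connectedComponentIn.subset_connectedComponentIn hxB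
      ((connectedComponentIn_subset _ _).trans fun z hz => hz.1)
  have hCE : connectedComponentIn E x0 ⊆ E := connectedComponentIn_subset _ _
  rcases lb_or E Z D f π Γ B h X1 Wi A1 A2 hX1 θ hθ x0 hx0 hS y (hBC hy) with h1 | h1
  · exact h1
  · exfalso
    have hcl1 := lb_closed E Z D f π Γ B h A1 hS.c1
    have hcl2 := lb_closed E Z D f π Γ B h A2 hS.c2
    obtain ⟨z, hz, hz1, hz2⟩ := isPreconnected_closed_iff.mp
      (isPreconnected_connectedComponentIn (x := x) (F := Sub E f a)) _ _ hcl1 hcl2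
      (fun w hw => by
        rcases lb_or E Z D f π Γ B h X1 Wi A1 A2 hX1 θ hθ x0 hx0 hS w (hBC hw) with h2 | h2
        · exact Or.inl ⟨hCE (hBC hw), h2⟩
        · exact Or.inr ⟨hCE (hBC hw), h2⟩)
      ⟨x, hxB, hxE, hL⟩ ⟨y, hy, hCE (hBC hy), h1⟩
    have h3 := hmin z (hBC hz) hz1.2 hz2.2
    have h4 : f z < a := (connectedComponentIn_subset _ _ hz).2
    linarith

/-- The arc through a point of `X1` without the second label is contained in `A1`.
Proof: `Γ y ⊆ A1 ∪ A2`, `A1` and `A2` are closed and disjoint (`Spl.sep`, `0 < θ`), `Γ y` is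
preconnected, so it is contained in one of them. If `Γ y ⊆ A2`, a point `z ∈ Γ y ∩ Z` is in the
fibre component of `y` (`Γ y` is a preconnected subset of the fibre containing `y`), so
`Lb E Z π A2 y`. -/
theorem core_gam {X Y : Type*} [MetricSpace X] [MetricSpace Y] (E Z D : Set X) (f : X → ℝ)
    (π : X → Y) (Γ : X → Set X) (B : ℕ) (h : ActE E Z D f π Γ B) (X1 Wi A1 A2 : Set X)
    (hX1 : X1 ⊆ D) (θ : ℝ) (hθ : 0 < θ) (x0 : X) (hx0 : x0 ∈ E)
    (hS : Spl Z f Γ X1 Wi (connectedComponentIn E x0) A1 A2 θ)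
    (y : X) (hy : y ∈ X1) (hyC : y ∈ connectedComponentIn E x0) (hL : ¬ Lb E Z π A2 y) :
    Γ y ⊆ A1 := by
  have hyD := hX1 hy
  have hcov := hS.covΓ y hy hyC
  rcases hcov (h.Γm y hyD) with h1 | h1
  · exact spl_pre A1 A2 hS.c1 hS.c2 θ hθ hS.sep (Γ y) (h.Γp y hyD) hcov y (h.Γm y hyD) h1
  · exfalso
    have h2 : Γ y ⊆ A2 := spl_pre A2 A1 hS.c2 hS.c1 θ hθ hS.swap.sep (Γ y) (h.Γp y hyD)
      (by rw [Set.union_comm]; exact hcov) y (h.Γm y hyD) h1
    obtain ⟨z, hzΓ, hzZ⟩ := h.ΓZ y hyD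
    exact hL ⟨z, (h.Γp y hyD).subset_connectedComponentIn (h.Γm y hyD) (h.Γf y hyD) hzΓ, hzZ,
      h2 hzΓ⟩

/-- Points of level `a` in a nontrivial connected set in `{f ≤ a}` are limits of points below.
Proof: otherwise `f ≥ a = f w` on `E` near `w`, so `w` is a local minimum, so a strict one, so
`T ∩ ball w ε = {w}` for some `ε > 0`, and `T` preconnected gives `T = {w}`. -/
theorem core_cl {X : Type*} [MetricSpace X] (E : Set X) (f : X → ℝ)
    (hstr : ∀ w, LM E f w → SLM E f w) (a : ℝ) (T : Set X) (hT : IsPreconnected T)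
    (hTE : T ⊆ E) (hTa : ∀ x ∈ T, f x ≤ a) (w w' : X) (hw : w ∈ T) (hw' : w' ∈ T)
    (hne : w' ≠ w) (hfw : f w = a) : w ∈ closure (Sub E f a) := by
  by_contra hcon
  rw [Metric.mem_closure_iff] at hcon
  push Not at hcon
  obtain ⟨ε, hε, hε'⟩ := hcon
  have hlm : LM E f w := by
    refine ⟨hTE hw, ε, hε, fun y hy hyd => ?_⟩
    by_contra hlt
    push Not at hlt
    have h1 := hε' y ⟨hy, by rw [← hfw]; exact hlt⟩
    rw [dist_comm] at h1
    linarith
  obtain ⟨_, δ, hδ, hδ'⟩ := hstr w hlm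
  -- `T` meets the ball only in `w`
  have hball : ∀ y ∈ T, dist y w < δ → y = w := by
    intro y hy hyd
    by_contra hyw
    have h1 := hδ' y (hTE hy) hyd hyw
    have h2 := hTa y hy
    linarith
  obtain ⟨z, hzT, hz1, hz2⟩ := hT (Metric.ball w δ) {w}ᶜ Metric.isOpen_ball
    isOpen_compl_singleton (fun y hy => by
      by_cases hyw : y = w
      · rw [hyw]
        exact Or.inl (Metric.mem_ball_self hδ)
      · exact Or.inr hyw) ⟨w, hw, Metric.mem_ball_self hδ⟩ ⟨w', hw', hne⟩
  exact hz2 (hball z hzT hz1)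

/-- Limits of points below lie in the closure of one component.
Proof: let `x_m → w` be points of the set. The component of `x_m` contains a local minimum
(`comp_min_lt`), there are finitely many, so infinitely many `x_m` are in the same component. -/
theorem mem_closure_comp {X : Type*} [MetricSpace X] (E : Set X) (hE : IsCompact E)
    (hl : LCn E) (f : X → ℝ) (hf : Continuous f) (hfin : {m | LM E f m}.Finite) (a : ℝ)
    (P : Set X) (w : X) (hw : w ∈ closure (Sub E f a ∩ P)) :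
    ∃ x ∈ Sub E f a, x ∈ P ∧ w ∈ closure (connectedComponentIn (Sub E f a) x) := by
  have h1 : Sub E f a ∩ P ⊆ ⋃ m ∈ {m | LM E f m},
      (connectedComponentIn (Sub E f a) m ∩ (Sub E f a ∩ P)) := by
    intro x hx
    obtain ⟨m, hm, hlm⟩ := comp_min_lt E hE hl f hf a x hx.1
    refine Set.mem_iUnion₂.mpr ⟨m, hlm, ?_, hx⟩
    rw [← connectedComponentIn_eq hm]
    exact mem_connectedComponentIn hx.1
  have h2 := closure_mono h1 hw
  rw [hfin.closure_biUnion] at h2
  obtain ⟨m, _, hm2⟩ := Set.mem_iUnion₂.mp h2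
  have h3 : (connectedComponentIn (Sub E f a) m ∩ (Sub E f a ∩ P)).Nonempty :=
    closure_nonempty_iff.mp ⟨w, hm2⟩
  obtain ⟨x, hx1, hx2⟩ := h3
  refine ⟨x, hx2.1, hx2.2, ?_⟩
  rw [← connectedComponentIn_eq hx1]
  exact closure_mono Set.inter_subset_left hm2

end Pool.Agent.RM90
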