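import Pool.Agent.Lib.MP_df59e7_lc.Defs
import Pool.Agent.Lib.MP_df59e7_lc.CoreB
import Pool.Agent.Lib.MP_df59e7_lc.Comp

set_option autoImplicit false

/-! MP_df59e7_lc, module CoreC. -/

namespace Pool.Agent.RM90

open MvPolynomial

/-- The component of a closed sublevel set is contained in the component. -/
theorem lev_sub {X : Type*} [MetricSpace X] (E : Set X) (f : X → ℝ) (x0 t0 : X) (a : ℝ)
    (ht0 : t0 ∈ connectedComponentIn E x0) (hta : f t0 ≤ a) :
    connectedComponentIn {x | x ∈ E ∧ f x ≤ a} t0 ⊆ connectedComponentIn E x0 := by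
  have hE : t0 ∈ E := connectedComponentIn_subset _ _ ht0
  rw [connectedComponentIn_eq ht0]
  exact isPreconnected_connectedComponentIn.subset_connectedComponentIn
    (mem_connectedComponentIn ⟨hE, hta⟩)
    ((connectedComponentIn_subset _ _).trans fun z hz => hz.1)

/-- Components of the open sublevel set adherent to `T` are contained in `T`. -/
theorem lev_adh {X : Type*} [MetricSpace X] (E : Set X) (f : X → ℝ) (t0 : X) (a : ℝ)
    (w x : X) (hw : w ∈ connectedComponentIn {x | x ∈ E ∧ f x ≤ a} t0)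
    (hx : w ∈ closure (connectedComponentIn (Sub E f a) x)) :
    connectedComponentIn (Sub E f a) x ⊆ connectedComponentIn {x | x ∈ E ∧ f x ≤ a} t0 := by
  have h1 : IsPreconnected (insert w (connectedComponentIn (Sub E f a) x)) :=
    isPreconnected_connectedComponentIn.subset_closure (Set.subset_insert _ _)
      (Set.insert_subset hx subset_closure)
  rw [connectedComponentIn_eq hw]
  refine (Set.subset_insert w _).trans
    (h1.subset_connectedComponentIn (Set.mem_insert _ _) (Set.insert_subset ?_ ?_))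
  · exact connectedComponentIn_subset _ _ hw
  · exact (connectedComponentIn_subset _ _).trans fun z hz => ⟨hz.1, hz.2.le⟩

/-- One half of the covering in case I. -/
theorem case1_cov {X Y : Type*} [MetricSpace X] [MetricSpace Y] (E Z D : Set X) (f : X → ℝ)
    (π : X → Y) (Γ : X → Set X) (B : ℕ) (h : ActE E Z D f π Γ B) (X1 Wi A1 A2 : Set X)
    (hX1 : X1 ⊆ D) (θ : ℝ) (hθ : 0 < θ) (x0 : X) (hx0 : x0 ∈ E)
    (hS : Spl Z f Γ X1 Wi (connectedComponentIn E x0) A1 A2 θ) (a : ℝ)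
    (hmin : ∀ y ∈ connectedComponentIn E x0, Lb E Z π A1 y → Lb E Z π A2 y → a ≤ f y)
    (t0 : X) (ht0 : t0 ∈ connectedComponentIn E x0) (hta : f t0 ≤ a) (w x : X)
    (hw : w ∈ connectedComponentIn {x | x ∈ E ∧ f x ≤ a} t0)
    (hxS : x ∈ Sub E f a) (hx : w ∈ closure (connectedComponentIn (Sub E f a) x))
    (hL : Lb E Z π A1 x) :
    w ∈ closure (Sub E f a ∩ {x | x ∈ connectedComponentIn {x | x ∈ E ∧ f x ≤ a} t0 ∧
      Lb E Z π A1 x}) := by
  have hsub := lev_adh E f t0 a w x hw hx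
  have hxB : x ∈ connectedComponentIn (Sub E f a) x := mem_connectedComponentIn hxS
  have hxC := lev_sub E f x0 t0 a ht0 hta (hsub hxB)
  refine closure_mono (fun y hy => ?_) hx
  exact ⟨connectedComponentIn_subset _ _ hy, hsub hy,
    core_lab E Z D f π Γ B h X1 Wi A1 A2 hX1 θ hθ x0 hx0 hS a hmin x hxC hxS.2 hL y hy⟩

/-- Case I: both labels occur below `a` in the preconnected set `T`, a component of `{f ≤ a}`.
Proof: here `T = connectedComponentIn {x | x ∈ E ∧ f x ≤ a} t0` with `t0 ∈ C`, so `T ⊆ C`. Let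
`K_j` be the closure of `{x ∈ T | f x < a ∧ Lb A_j x}`, nonempty (`x1`, `x2`). `T ⊆ K_1 ∪ K_2`:
a point `w ∈ T` with `f w < a` is in one of the sets (`lb_or`); if `f w = a` then
`w ∈ closure (Sub E f a)` by `core_cl` (`T` has the points `x1`, `x2` with `f < a`, different from
`w`), so `w ∈ closure B'` for a component `B'` of `Sub E f a` (`mem_closure_comp`, `P = univ`),
`insert w B'` is preconnected in `{f ≤ a}`, so `B' ⊆ T`, and all points of `B'` have a
common label (`core_lab`, or its mirror image with `Spl.swap`). As `T` is preconnected and closed,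
there is `x° ∈ T ∩ K_1 ∩ K_2`. By `mem_closure_comp` (`P = {x ∈ T | Lb A_j x}`) there are
components `B_j` of `Sub E f a` with `x° ∈ closure B_j`, containing a point of `C` with label
`j`; take local minima `m ∈ B_1`, `m' ∈ B_2` (`comp_min_lt`); by `core_lab` all points of `B_1`
have the label 1 and all of `B_2` the label 2; `B_1 ≠ B_2` by `hmin`. Note
`connectedComponentIn (Sub E f a) m = B_1` (`connectedComponentIn_eq`). -/
theorem case1 {X Y : Type*} [MetricSpace X] [MetricSpace Y] (E Z D : Set X) (f : X → ℝ)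
    (π : X → Y) (Γ : X → Set X) (B : ℕ) (h : ActE E Z D f π Γ B) (X1 Wi A1 A2 : Set X)
    (hX1 : X1 ⊆ D) (θ : ℝ) (hθ : 0 < θ) (x0 : X) (hx0 : x0 ∈ E)
    (hS : Spl Z f Γ X1 Wi (connectedComponentIn E x0) A1 A2 θ) (a : ℝ)
    (hmin : ∀ y ∈ connectedComponentIn E x0, Lb E Z π A1 y → Lb E Z π A2 y → a ≤ f y)
    (t0 : X) (ht0 : t0 ∈ connectedComponentIn E x0) (hta : f t0 ≤ a)
    (x1 x2 : X) (hx1 : x1 ∈ connectedComponentIn {x | x ∈ E ∧ f x ≤ a} t0)
    (hx2 : x2 ∈ connectedComponentIn {x | x ∈ E ∧ f x ≤ a} t0) (hf1 : f x1 < a)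
    (hf2 : f x2 < a) (hL1 : Lb E Z π A1 x1) (hL2 : Lb E Z π A2 x2) :
    ∃ m m' : X, LM E f m ∧ LM E f m' ∧ f m < a ∧ f m' < a ∧
      m' ∉ connectedComponentIn (Sub E f a) m ∧
      (closure (connectedComponentIn (Sub E f a) m) ∩
        closure (connectedComponentIn (Sub E f a) m')).Nonempty ∧
      (∀ y ∈ connectedComponentIn (Sub E f a) m,
        y ∈ connectedComponentIn E x0 ∧ Lb E Z π A1 y) ∧
      (∀ y ∈ connectedComponentIn (Sub E f a) m',
        y ∈ connectedComponentIn E x0 ∧ Lb E Z π A2 y) := by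
  have hTE : connectedComponentIn {x | x ∈ E ∧ f x ≤ a} t0 ⊆ {x | x ∈ E ∧ f x ≤ a} :=
    connectedComponentIn_subset _ _
  have hTC := lev_sub E f x0 t0 a ht0 hta
  have hmin' : ∀ y ∈ connectedComponentIn E x0, Lb E Z π A2 y → Lb E Z π A1 y → a ≤ f y :=
    fun y hy h1 h2 => hmin y hy h2 h1
  have hfin : {m | LM E f m}.Finite :=
    Set.finite_of_encard_le_coe h.card
  -- the covering
  have hcov : connectedComponentIn {x | x ∈ E ∧ f x ≤ a} t0 ⊆
      closure (Sub E f a ∩ {x | x ∈ connectedComponentIn {x | x ∈ E ∧ f x ≤ a} t0 ∧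
        Lb E Z π A1 x}) ∪
      closure (Sub E f a ∩ {x | x ∈ connectedComponentIn {x | x ∈ E ∧ f x ≤ a} t0 ∧
        Lb E Z π A2 x}) := by
    intro w hw
    rcases lt_or_eq_of_le (hTE hw).2 with hlt | heq
    · rcases lb_or E Z D f π Γ B h X1 Wi A1 A2 hX1 θ hθ x0 hx0 hS w (hTC hw) with h1 | h1
      · exact Or.inl (subset_closure ⟨⟨(hTE hw).1, hlt⟩, hw, h1⟩)
      · exact Or.inr (subset_closure ⟨⟨(hTE hw).1, hlt⟩, hw, h1⟩)
    · have hne : x1 ≠ w := by
        rintro rfl
        linarith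
      have hcl := core_cl E f h.str a (connectedComponentIn {x | x ∈ E ∧ f x ≤ a} t0)
        isPreconnected_connectedComponentIn (fun y hy => (hTE hy).1) (fun y hy => (hTE hy).2)
        w x1 hw hx1 hne heq
      obtain ⟨x, hxS, _, hx⟩ := mem_closure_comp E h.cE h.lE f h.cf hfin a Set.univ w
        (by rwa [Set.inter_univ])
      have hxB : x ∈ connectedComponentIn (Sub E f a) x := mem_connectedComponentIn hxS
      have hxC := hTC (lev_adh E f t0 a w x hw hx hxB)
      rcases lb_or E Z D f π Γ B h X1 Wi A1 A2 hX1 θ hθ x0 hx0 hS x hxC with h1 | h1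
      · exact Or.inl (case1_cov E Z D f π Γ B h X1 Wi A1 A2 hX1 θ hθ x0 hx0 hS a hmin t0 ht0
          hta w x hw hxS hx h1)
      · exact Or.inr (case1_cov E Z D f π Γ B h X1 Wi A2 A1 hX1 θ hθ x0 hx0 hS.swap a hmin' t0
          ht0 hta w x hw hxS hx h1)
  obtain ⟨c, _, hc1, hc2⟩ := isPreconnected_closed_iff.mp
    (isPreconnected_connectedComponentIn (x := t0) (F := {x | x ∈ E ∧ f x ≤ a})) _ _
    isClosed_closure isClosed_closure hcov
    ⟨x1, hx1, subset_closure ⟨⟨(hTE hx1).1, hf1⟩, hx1, hL1⟩⟩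
    ⟨x2, hx2, subset_closure ⟨⟨(hTE hx2).1, hf2⟩, hx2, hL2⟩⟩
  obtain ⟨u1, hu1, ⟨hu1T, hu1L⟩, hu1c⟩ := mem_closure_comp E h.cE h.lE f h.cf hfin a _ c hc1
  obtain ⟨u2, hu2, ⟨hu2T, hu2L⟩, hu2c⟩ := mem_closure_comp E h.cE h.lE f h.cf hfin a _ c hc2
  obtain ⟨m, hm, hml⟩ := comp_min_lt E h.cE h.lE f h.cf a u1 hu1
  obtain ⟨m', hm', hml'⟩ := comp_min_lt E h.cE h.lE f h.cf a u2 hu2
  have hsC : ∀ u, u ∈ Sub E f a → u ∈ connectedComponentIn E x0 →
      connectedComponentIn (Sub E f a) u ⊆ connectedComponentIn E x0 := by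
    intro u hu huC
    rw [connectedComponentIn_eq huC]
    exact isPreconnected_connectedComponentIn.subset_connectedComponentIn
      (mem_connectedComponentIn hu) ((connectedComponentIn_subset _ _).trans fun z hz => hz.1)
  have hl1 : ∀ y ∈ connectedComponentIn (Sub E f a) u1,
      y ∈ connectedComponentIn E x0 ∧ Lb E Z π A1 y := fun y hy =>
    ⟨hsC u1 hu1 (hTC hu1T) hy, core_lab E Z D f π Γ B h X1 Wi A1 A2 hX1 θ hθ x0 hx0 hS a hmin
      u1 (hTC hu1T) hu1.2 hu1L y hy⟩
  have hl2 : ∀ y ∈ connectedComponentIn (Sub E f a) u2,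
      y ∈ connectedComponentIn E x0 ∧ Lb E Z π A2 y := fun y hy =>
    ⟨hsC u2 hu2 (hTC hu2T) hy, core_lab E Z D f π Γ B h X1 Wi A2 A1 hX1 θ hθ x0 hx0 hS.swap a
      hmin' u2 (hTC hu2T) hu2.2 hu2L y hy⟩
  have hmS := connectedComponentIn_subset _ _ hm
  have hmS' := connectedComponentIn_subset _ _ hm'
  refine ⟨m, m', hml, hml', hmS.2, hmS'.2, ?_, ?_, ?_, ?_⟩
  · rw [← connectedComponentIn_eq hm]
    intro hcon
    have h1 := hl1 m' hcon
    have h2 := hl2 m' hm'
    have h3 := hmin m' h1.1 h1.2 h2.2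
    have h4 := hmS'.2
    linarith
  · rw [← connectedComponentIn_eq hm, ← connectedComponentIn_eq hm']
    exact ⟨c, hu1c, hu2c⟩
  · rw [← connectedComponentIn_eq hm]
    exact hl1
  · rw [← connectedComponentIn_eq hm']
    exact hl2

end Pool.Agent.RM90
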