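import Pool.Agent.Lib.MP_df59e7_lc.Defs
import Pool.Agent.Lib.MP_df59e7_lc.CoreB
import Pool.Agent.Lib.MP_df59e7_lc.CoreC
import Pool.Agent.Lib.MP_df59e7_lc.Comp

set_option autoImplicit false

/-! MP_df59e7_lc, module CoreE. -/

namespace Pool.Agent.RM90

open MvPolynomial

/-- Case II: no point below `a` in `T` has the second label.
Proof: let `T = connectedComponentIn {x | x ∈ E ∧ f x ≤ a} t0`, `t0 ∈ C`, so `T ⊆ C`; `z1`, `z2`
are in `T`, different by `Spl.sep`. `Spl.b2` for `z2` gives `β ⊆ A2` preconnected with `z2 ∈ β`,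
`f ≤ f z2 ≤ a` on `β` and `w ∈ β ∩ Wi`; `β ⊆ C ⊆ E`, so `β ⊆ T`. Claim `f w = a`: if `f w < a`,
then by `Spl.sub` either `w ∈ Z`, so `Lb A2 w` (`w` is in its own fibre component), contradicting
`hno`; or `w ∈ Γ y`, `y ∈ X1`; `Γ y` is preconnected in `E`, `f = f w` on it (`ActE.fπ`), it
contains `w ∈ T`, so `Γ y ⊆ T`, `y ∈ T`, `f y < a`, `¬ Lb A2 y` (`hno`), so `Γ y ⊆ A1` by
`core_gam`, `w ∈ A1 ∩ A2`, contradiction to `Spl.sep`. By `core_cl` (`T` has two points)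
`w ∈ closure (Sub E f a)`. `hP2` gives `x ∈ X1` with `f x < a`, `dist x w ≤ θ/4` and
`w ∈ closure B'`, `B' = connectedComponentIn (Sub E f a) x`. `insert w B'` is preconnected in
`{f ≤ a}`, so `x ∈ B' ⊆ T`, `¬ Lb A2 x`, `x ∈ Γ x ⊆ A1`, `w ∈ A2`, contradiction to `Spl.sep`. -/
theorem case2 {X Y : Type*} [MetricSpace X] [MetricSpace Y] (E Z D : Set X) (f : X → ℝ)
    (π : X → Y) (Γ : X → Set X) (B : ℕ) (h : ActE E Z D f π Γ B) (X1 Wi A1 A2 : Set X)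
    (hX1 : X1 ⊆ D) (θ : ℝ) (hθ : 0 < θ) (x0 : X) (hx0 : x0 ∈ E)
    (hS : Spl Z f Γ X1 Wi (connectedComponentIn E x0) A1 A2 θ) (a : ℝ)
    (hP2 : ∀ w ∈ Wi, w ∈ E → w ∈ closure (Sub E f (f w)) → ∃ x ∈ X1, f x < f w ∧
        dist x w ≤ θ / 4 ∧ w ∈ closure (connectedComponentIn (Sub E f (f w)) x))
    (t0 : X) (ht0 : t0 ∈ connectedComponentIn E x0) (hta : f t0 ≤ a)
    (hno : ∀ x ∈ connectedComponentIn {x | x ∈ E ∧ f x ≤ a} t0, f x < a → ¬ Lb E Z π A2 x)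
    (z1 z2 : X) (hz1 : z1 ∈ connectedComponentIn {x | x ∈ E ∧ f x ≤ a} t0)
    (hz2 : z2 ∈ connectedComponentIn {x | x ∈ E ∧ f x ≤ a} t0)
    (hzA1 : z1 ∈ Z ∩ A1) (hzA2 : z2 ∈ Z ∩ A2) : False := by
  have hTE : connectedComponentIn {x | x ∈ E ∧ f x ≤ a} t0 ⊆ {x | x ∈ E ∧ f x ≤ a} :=
    connectedComponentIn_subset _ _
  have hTC := lev_sub E f x0 t0 a ht0 hta
  have hCE : connectedComponentIn E x0 ⊆ E := connectedComponentIn_subset _ _
  have hz12 : z1 ≠ z2 := by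
    rintro rfl
    have := hS.sep z1 hzA1.2 z1 hzA2.2
    rw [dist_self] at this
    linarith
  obtain ⟨β, hβA, hβp, hzβ, hβf, w, hwβ, hwW⟩ := hS.b2 z2 hzA2
  have hβT : β ⊆ connectedComponentIn {x | x ∈ E ∧ f x ≤ a} t0 := by
    rw [connectedComponentIn_eq hz2]
    exact hβp.subset_connectedComponentIn hzβ fun y hy =>
      ⟨hCE (hS.s2 (hβA hy)), (hβf y hy).trans (hTE hz2).2⟩
  have hwT := hβT hwβ
  have hwE : w ∈ E := (hTE hwT).1
  have hwA : w ∈ A2 := hβA hwβ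
  have hfw : f w = a := by
    refine le_antisymm (hTE hwT).2 ?_
    by_contra hlt
    push Not at hlt
    rcases hS.sub (Or.inr hwA) with hz | hz
    · exact hno w hwT hlt ⟨w, mem_connectedComponentIn ⟨hwE, rfl⟩, hz, hwA⟩
    · obtain ⟨y, hy, hwy⟩ := Set.mem_iUnion₂.mp hz
      have hyD := hX1 hy
      have hyE : y ∈ E := h.DE hyD
      have hΓf : ∀ v ∈ Γ y, v ∈ E ∧ f v = f y := fun v hv =>
        ⟨(h.Γf y hyD hv).1, h.fπ v (h.Γf y hyD hv).1 y hyE (h.Γf y hyD hv).2⟩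
      have hfy : f w = f y := (hΓf w hwy).2
      have hΓT : Γ y ⊆ connectedComponentIn {x | x ∈ E ∧ f x ≤ a} t0 := by
        rw [connectedComponentIn_eq hwT]
        refine (h.Γp y hyD).subset_connectedComponentIn hwy fun v hv => ⟨(hΓf v hv).1, ?_⟩
        rw [(hΓf v hv).2, ← hfy]
        exact hlt.le
      have hyT := hΓT (h.Γm y hyD)
      have hnL : ¬ Lb E Z π A2 y := hno y hyT (by rw [← hfy]; exact hlt)
      have hΓA := core_gam E Z D f π Γ B h X1 Wi A1 A2 hX1 θ hθ x0 hx0 hS y hy (hTC hyT) hnL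
      have := hS.sep w (hΓA hwy) w hwA
      rw [dist_self] at this
      linarith
  obtain ⟨w', hw', hne⟩ : ∃ w' ∈ connectedComponentIn {x | x ∈ E ∧ f x ≤ a} t0, w' ≠ w := by
    by_cases hc : z1 = w
    · exact ⟨z2, hz2, fun h2 => hz12 (hc.trans h2.symm)⟩
    · exact ⟨z1, hz1, hc⟩
  have hcl := core_cl E f h.str a _ isPreconnected_connectedComponentIn
    (fun y hy => (hTE hy).1) (fun y hy => (hTE hy).2) w w' hwT hw' hne hfw
  obtain ⟨x, hx, hxf, hxd, hxc⟩ := hP2 w hwW hwE (by rw [hfw]; exact hcl)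
  rw [hfw] at hxf hxc
  have hxD := hX1 hx
  have hxE : x ∈ E := h.DE hxD
  have hxT := lev_adh E f t0 a w x hwT hxc (mem_connectedComponentIn ⟨hxE, hxf⟩)
  have hΓA := core_gam E Z D f π Γ B h X1 Wi A1 A2 hX1 θ hθ x0 hx0 hS x hx (hTC hxT)
    (hno x hxT hxf)
  have := hS.sep x (hΓA (h.Γm x hxD)) w hwA
  linarith

end Pool.Agent.RM90
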