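import Pool.Agent.Lib.MP_df59e7_lc.Defs
import Pool.Agent.Lib.MP_df59e7_lc.Comp

set_option autoImplicit false

/-! MP_df59e7_lc, module Pairs. -/

namespace Pool.Agent.RM90

open MvPolynomial

private theorem Pairs_near {X : Type*} [MetricSpace X] (E : Set X) (hl : LCn E)
    (f : X → ℝ) (hf : Continuous f) (D : Set X) (hD : D ⊆ E) (hDd : E ⊆ closure D) (θ : ℝ)
    (hθ : 0 < θ)
    (a : ℝ) (m x0 : X) (hx0 : x0 ∈ closure (connectedComponentIn (Sub E f a) m)) :
    ∃ y ∈ D, y ∈ connectedComponentIn (Sub E f a) m ∧ dist x0 y < θ / 4 := by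
  obtain ⟨w, hw, hw2⟩ := Metric.mem_closure_iff.mp hx0 (θ / 8) (by linarith)
  obtain ⟨ρ, hρ, hρ2⟩ := comp_open_lt E hl f hf a m w hw
  have hwE : w ∈ E := (connectedComponentIn_subset _ _ hw).1
  obtain ⟨y, hy, hy2⟩ := Metric.mem_closure_iff.mp (hDd hwE) (min ρ (θ / 8))
    (lt_min hρ (by linarith))
  have h1 : dist w y < ρ := lt_of_lt_of_le hy2 (min_le_left _ _)
  have h2 : dist w y < θ / 8 := lt_of_lt_of_le hy2 (min_le_right _ _)
  refine ⟨y, hy, hρ2 ⟨hD hy, by rw [Metric.mem_ball, dist_comm]; exact h1⟩, ?_⟩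
  have := dist_triangle x0 w y
  linarith

/-- The property of a pair and a level. -/
private def PairsP {X : Type*} [MetricSpace X] (E : Set X) (f : X → ℝ) (p : X × X) (a : ℝ) :
    Prop :=
  LM E f p.1 ∧ LM E f p.2 ∧ f p.1 < a ∧ f p.2 < a ∧
    p.2 ∉ connectedComponentIn (Sub E f a) p.1 ∧
    (closure (connectedComponentIn (Sub E f a) p.1) ∩
      closure (connectedComponentIn (Sub E f a) p.2)).Nonempty

private theorem Pairs_unique_aux {X : Type*} [MetricSpace X] (E : Set X) (hE : IsCompact E)
    (f : X → ℝ) (hf : Continuous f) (p : X × X) (a a' : ℝ) (h : PairsP E f p a)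
    (h' : PairsP E f p a') (hlt : a < a') : False := by
  obtain ⟨h1, h2, h3, h4, -, x0, hx1, hx2⟩ := h
  apply h'.2.2.2.2.1
  have hsub : ∀ m : X, closure (connectedComponentIn (Sub E f a) m) ⊆ Sub E f a' := by
    intro m
    have hcl : IsClosed {x | x ∈ E ∧ f x ≤ a} :=
      hE.isClosed.inter (isClosed_le hf continuous_const)
    have : closure (connectedComponentIn (Sub E f a) m) ⊆ {x | x ∈ E ∧ f x ≤ a} := by
      refine closure_minimal ?_ hcl
      intro x hx
      have := connectedComponentIn_subset _ _ hx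
      exact ⟨this.1, this.2.le⟩
    intro x hx
    have := this hx
    exact ⟨this.1, lt_of_le_of_lt this.2 hlt⟩
  have hpre : IsPreconnected (closure (connectedComponentIn (Sub E f a) p.1) ∪
      closure (connectedComponentIn (Sub E f a) p.2)) :=
    IsPreconnected.union x0 hx1 hx2 isPreconnected_connectedComponentIn.closure
      isPreconnected_connectedComponentIn.closure
  have hm1 : p.1 ∈ connectedComponentIn (Sub E f a) p.1 :=
    mem_connectedComponentIn ⟨h1.1, h3⟩
  have hm2 : p.2 ∈ connectedComponentIn (Sub E f a) p.2 :=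
    mem_connectedComponentIn ⟨h2.1, h4⟩
  exact hpre.subset_connectedComponentIn (Or.inl (subset_closure hm1))
    (Set.union_subset (hsub _) (hsub _)) (Or.inr (subset_closure hm2))

private theorem Pairs_unique {X : Type*} [MetricSpace X] (E : Set X) (hE : IsCompact E)
    (f : X → ℝ) (hf : Continuous f) (p : X × X) (a a' : ℝ) (h : PairsP E f p a)
    (h' : PairsP E f p a') : a' = a := by
  rcases lt_trichotomy a a' with hlt | heq | hgt
  · exact (Pairs_unique_aux E hE f hf p a a' h h' hlt).elim
  · exact heq.symm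
  · exact (Pairs_unique_aux E hE f hf p a' a h' h hgt).elim

/-- Points at the merging of two components.
Proof: for every pair `(m, m')` of local minima for which there is some `a` with the hypotheses
below, choose `a` and a point `x°` in the intersection of the closures, and points `x1`, `x2` of
`D` in the two components within `θ/4` of `x°` (the components are relatively open in `E` by
`comp_open_lt` and `D` is dense). This gives at most `2 B^2` points. The level `a` is determined
by the pair: if `a < a'` both had the property, the closures of the two components at level `a`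
would have a union which is preconnected and contained in `{x ∈ E | f x ≤ a}`, so in
`Sub E f a'`, so `m` and `m'` would be in the same component at level `a'`. -/
theorem pairs {X : Type*} [MetricSpace X] (E : Set X) (hE : IsCompact E) (hl : LCn E)
    (f : X → ℝ) (hf : Continuous f) (B : ℕ) (hfin : {m | LM E f m}.encard ≤ (B : ℕ∞))
    (D : Set X) (hD : D ⊆ E) (hDd : E ⊆ closure D) (θ : ℝ) (hθ : 0 < θ) :
    ∃ X0 : Finset X, ↑X0 ⊆ D ∧ X0.card ≤ 2 * B ^ 2 ∧
      ∀ (a : ℝ) (m m' : X), LM E f m → LM E f m' → f m < a → f m' < a →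
        m' ∉ connectedComponentIn (Sub E f a) m →
        (closure (connectedComponentIn (Sub E f a) m) ∩
          closure (connectedComponentIn (Sub E f a) m')).Nonempty →
        ∃ x1 ∈ X0, ∃ x2 ∈ X0, x1 ∈ connectedComponentIn (Sub E f a) m ∧
          x2 ∈ connectedComponentIn (Sub E f a) m' ∧ dist x1 x2 ≤ θ / 2 := by
  classical
  have hfinite : {m | LM E f m}.Finite := Set.finite_of_encard_le_coe hfin
  set S : Finset X := hfinite.toFinset with hS
  have hScard : S.card ≤ B := by
    rw [hfinite.encard_eq_coe_toFinset_card] at hfin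
    exact_mod_cast hfin
  have key : ∀ p : X × X, ∃ t : Finset X, (↑t : Set X) ⊆ D ∧ t.card ≤ 2 ∧
      ∀ a, PairsP E f p a → ∃ x1 ∈ t, ∃ x2 ∈ t, x1 ∈ connectedComponentIn (Sub E f a) p.1 ∧
        x2 ∈ connectedComponentIn (Sub E f a) p.2 ∧ dist x1 x2 ≤ θ / 2 := by
    intro p
    by_cases hp : ∃ a, PairsP E f p a
    · obtain ⟨a, ha⟩ := hp
      obtain ⟨x0, hx1, hx2⟩ := ha.2.2.2.2.2
      obtain ⟨y1, hy1, hy1c, hy1d⟩ := Pairs_near E hl f hf D hD hDd θ hθ a p.1 x0 hx1
      obtain ⟨y2, hy2, hy2c, hy2d⟩ := Pairs_near E hl f hf D hD hDd θ hθ a p.2 x0 hx2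
      refine ⟨{y1, y2}, ?_, Finset.card_le_two, ?_⟩
      · intro y hy
        rw [Finset.coe_insert, Finset.coe_singleton] at hy
        rcases hy with rfl | hy
        · exact hy1
        · rw [Set.mem_singleton_iff] at hy
          rw [hy]; exact hy2
      · intro a' ha'
        rw [Pairs_unique E hE f hf p a a' ha ha']
        refine ⟨y1, by simp, y2, by simp, hy1c, hy2c, ?_⟩
        have := dist_triangle_left y1 y2 x0
        linarith
    · exact ⟨∅, by simp, by simp, fun a ha => absurd ⟨a, ha⟩ hp⟩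
  choose t ht1 ht2 ht3 using key
  refine ⟨(S ×ˢ S).biUnion t, ?_, ?_, ?_⟩
  · intro x hx
    rw [Finset.mem_coe, Finset.mem_biUnion] at hx
    obtain ⟨p, -, hxp⟩ := hx
    exact ht1 p hxp
  · refine le_trans (Finset.card_biUnion_le_card_mul _ _ 2 fun p _ => ht2 p) ?_
    rw [Finset.card_product]
    nlinarith [hScard]
  · intro a m m' hm hm' ha ha' hn hne
    obtain ⟨x1, hx1, x2, hx2, h⟩ := ht3 (m, m') a ⟨hm, hm', ha, ha', hn, hne⟩
    have hmem : (m, m') ∈ S ×ˢ S := by
      rw [Finset.mem_product]
      exact ⟨by simpa [hS] using hm, by simpa [hS] using hm'⟩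
    exact ⟨x1, Finset.mem_biUnion.mpr ⟨_, hmem, hx1⟩, x2,
      Finset.mem_biUnion.mpr ⟨_, hmem, hx2⟩, h⟩

end Pool.Agent.RM90
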