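import Pool.Agent.Lib.MP_df59e7_lc.Defs
import Pool.Agent.Lib.MP_df59e7_lc.CoreC
import Pool.Agent.Lib.MP_df59e7_lc.CoreE
import Pool.Agent.Lib.MP_df59e7_lc.Pairs
import Pool.Agent.Lib.MP_df59e7_lc.Birth

set_option autoImplicit false

/-! MP_df59e7_lc, module Core. -/

namespace Pool.Agent.RM90

open MvPolynomial

/-- The topological core of the approximate connectivity theorem.
Proof: let `x` be the point of `core_min`, `a = f x`,
`T = connectedComponentIn {y | y ∈ E ∧ f y ≤ a} x`. `G(x)` (the fibre component) is contained in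
`T` (`f = a` on it, `ActE.fπ`), so there are `z1 ∈ T ∩ Z ∩ A1`, `z2 ∈ T ∩ Z ∩ A2`. If some point
of `T` below `a` has label 1 and some point label 2: `case1` gives `m, m'`, `hP1` gives
`x1, x2 ∈ X1` with `dist x1 x2 ≤ θ/2`; `x1` has label 1 and by minimality not label 2, so
`x1 ∈ Γ x1 ⊆ A1` (`core_gam`), similarly `x2 ∈ A2` (`core_gam` for `Spl.swap`), contradiction to
`Spl.sep`. Otherwise `case2`, for `hS` or for `hS.swap`. -/
theorem core {X Y : Type*} [MetricSpace X] [MetricSpace Y] (E Z D : Set X) (f : X → ℝ)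
    (π : X → Y) (Γ : X → Set X) (B : ℕ) (h : ActE E Z D f π Γ B) (X1 Wi A1 A2 : Set X)
    (hX1 : X1 ⊆ D) (θ : ℝ) (hθ : 0 < θ) (x0 : X) (hx0 : x0 ∈ E)
    (hP1 : ∀ (a : ℝ) (m m' : X), LM E f m → LM E f m' → f m < a → f m' < a →
        m' ∉ connectedComponentIn (Sub E f a) m →
        (closure (connectedComponentIn (Sub E f a) m) ∩
          closure (connectedComponentIn (Sub E f a) m')).Nonempty →
        ∃ x1 ∈ X1, ∃ x2 ∈ X1, x1 ∈ connectedComponentIn (Sub E f a) m ∧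
          x2 ∈ connectedComponentIn (Sub E f a) m' ∧ dist x1 x2 ≤ θ / 2)
    (hP2 : ∀ w ∈ Wi, w ∈ E → w ∈ closure (Sub E f (f w)) → ∃ x ∈ X1, f x < f w ∧
        dist x w ≤ θ / 4 ∧ w ∈ closure (connectedComponentIn (Sub E f (f w)) x))
    (hS : Spl Z f Γ X1 Wi (connectedComponentIn E x0) A1 A2 θ) : False := by
  obtain ⟨x, hxC, ⟨z1, hz1, hz1A⟩, ⟨z2, hz2, hz2A⟩, hmin⟩ :=
    core_min E Z D f π Γ B h X1 Wi A1 A2 hX1 θ hθ x0 hx0 hS
  have hxE : x ∈ E := connectedComponentIn_subset _ _ hxC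
  have hGT : connectedComponentIn (E ∩ π ⁻¹' {π x}) x ⊆
      connectedComponentIn {y | y ∈ E ∧ f y ≤ f x} x := by
    refine isPreconnected_connectedComponentIn.subset_connectedComponentIn
      (mem_connectedComponentIn ⟨hxE, rfl⟩) fun y hy => ?_
    have h1 := connectedComponentIn_subset _ _ hy
    exact ⟨h1.1, (h.fπ y h1.1 x hxE h1.2).le⟩
  by_cases h1 : ∃ x1 ∈ connectedComponentIn {y | y ∈ E ∧ f y ≤ f x} x, f x1 < f x ∧
      Lb E Z π A1 x1
  · by_cases h2 : ∃ x2 ∈ connectedComponentIn {y | y ∈ E ∧ f y ≤ f x} x, f x2 < f x ∧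
        Lb E Z π A2 x2
    · obtain ⟨x1, hx1, hf1, hL1⟩ := h1
      obtain ⟨x2, hx2, hf2, hL2⟩ := h2
      obtain ⟨m, m', hm, hm', hfm, hfm', hnot, hne, hl1, hl2⟩ :=
        case1 E Z D f π Γ B h X1 Wi A1 A2 hX1 θ hθ x0 hx0 hS (f x) hmin x hxC le_rfl
          x1 x2 hx1 hx2 hf1 hf2 hL1 hL2
      obtain ⟨y1, hy1, y2, hy2, hy1B, hy2B, hd⟩ := hP1 (f x) m m' hm hm' hfm hfm' hnot hne
      have hn1 : ¬ Lb E Z π A2 y1 := by
        intro hcon
        have h3 := hmin y1 (hl1 y1 hy1B).1 (hl1 y1 hy1B).2 hcon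
        have h4 : f y1 < f x := (connectedComponentIn_subset _ _ hy1B).2
        linarith
      have hn2 : ¬ Lb E Z π A1 y2 := by
        intro hcon
        have h3 := hmin y2 (hl2 y2 hy2B).1 hcon (hl2 y2 hy2B).2
        have h4 : f y2 < f x := (connectedComponentIn_subset _ _ hy2B).2
        linarith
      have hg1 := core_gam E Z D f π Γ B h X1 Wi A1 A2 hX1 θ hθ x0 hx0 hS y1 hy1
        (hl1 y1 hy1B).1 hn1
      have hg2 := core_gam E Z D f π Γ B h X1 Wi A2 A1 hX1 θ hθ x0 hx0 hS.swap y2 hy2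
        (hl2 y2 hy2B).1 hn2
      have := hS.sep y1 (hg1 (h.Γm y1 (hX1 hy1))) y2 (hg2 (h.Γm y2 (hX1 hy2)))
      linarith
    · push Not at h2
      exact case2 E Z D f π Γ B h X1 Wi A1 A2 hX1 θ hθ x0 hx0 hS (f x) hP2 x hxC le_rfl h2
        z1 z2 (hGT hz1) (hGT hz2) hz1A hz2A
  · push Not at h1
    exact case2 E Z D f π Γ B h X1 Wi A2 A1 hX1 θ hθ x0 hx0 hS.swap (f x) hP2 x hxC le_rfl h1
      z2 z1 (hGT hz2) (hGT hz1) hz2A hz1A

end Pool.Agent.RM90
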