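import Pool.Agent.Lib.MP_df59e7_lc.Defs
import Pool.Agent.Lib.MP_df59e7_lc.UlimA

set_option autoImplicit false

/-! MP_df59e7_lc, module SelLim. -/

namespace Pool.Agent.RM90

open MvPolynomial

/-- The limits of selections from sets with at most `B` elements form a set with at most `B`
elements.
Proof: for every `p` enumerate: there is `g p : Fin B → X` whose range contains `W p` (if
`W p` is empty, any constant in `K`; if `B = 0` all `W p` are empty and `Wi = ∅`). For `k : Fin B`
let `x k` be the limit of `g p k` along the hyperfilter if it exists in the compact set `K`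
(choose `g p k ∈ K`). `Wi = {x k}`. For a selection `e` the sets `{p | e p = g p k}`, `k : Fin B`,
cover almost all `p`, so one of them belongs to the ultrafilter, and `w = x k`
(`tendsto_nhds_unique`). -/
theorem sel_lim {X : Type*} [MetricSpace X] (K : Set X) (hK : IsCompact K) (B : ℕ)
    (W : ℕ → Set X) (hW : ∀ p, (W p).encard ≤ (B : ℕ∞)) (hWK : ∀ p, W p ⊆ K) :
    ∃ Wi : Finset X, Wi.card ≤ B ∧ ∀ (e : ℕ → X) (w : X),
      (∀ᶠ p in (Filter.hyperfilter ℕ : Filter ℕ), e p ∈ W p) →
      Filter.Tendsto e (Filter.hyperfilter ℕ : Filter ℕ) (nhds w) → w ∈ Wi := by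
  classical
  rcases K.eq_empty_or_nonempty with hKe | ⟨x0, hx0⟩
  · refine ⟨∅, by simp, fun e w he _ => ?_⟩
    obtain ⟨p, hp⟩ := he.exists
    have h1 := hWK p hp
    rw [hKe] at h1
    exact h1.elim
  have key : ∀ p, ∃ g : Fin B → X, (∀ k, g k ∈ K) ∧ ∀ y ∈ W p, ∃ k, y = g k := by
    intro p
    have hfin : (W p).Finite := Set.finite_of_encard_le_coe (hW p)
    have hcard : hfin.toFinset.card ≤ B := by
      have h2 := hW p
      rw [hfin.encard_eq_coe_toFinset_card] at h2
      exact_mod_cast h2
    refine ⟨fun k => if h : (k : ℕ) < hfin.toFinset.card then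
      (hfin.toFinset.equivFin.symm ⟨k, h⟩ : X) else x0, ?_, ?_⟩
    · intro k
      by_cases h : (k : ℕ) < hfin.toFinset.card
      · simp only [h, dite_true]
        have h3 := (hfin.toFinset.equivFin.symm ⟨k, h⟩).2
        exact hWK p (hfin.mem_toFinset.1 h3)
      · simp only [h, dite_false]
        exact hx0
    · intro y hy
      have hy' : y ∈ hfin.toFinset := hfin.mem_toFinset.2 hy
      have h4 := (hfin.toFinset.equivFin ⟨y, hy'⟩).2
      refine ⟨⟨hfin.toFinset.equivFin ⟨y, hy'⟩, lt_of_lt_of_le h4 hcard⟩, ?_⟩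
      simp only [h4, dite_true]
      simp
  choose g hgK hgW using key
  have hx : ∀ k : Fin B, ∃ x : X,
      Filter.Tendsto (fun p => g p k) (Filter.hyperfilter ℕ : Filter ℕ) (nhds x) := by
    intro k
    obtain ⟨x, -, hx⟩ := hK.ultrafilter_le_nhds ((Filter.hyperfilter ℕ).map (fun p => g p k))
      (by
        rw [Filter.le_principal_iff]
        have h10 : ∀ᶠ p in (Filter.hyperfilter ℕ : Filter ℕ), g p k ∈ K :=
          Filter.Eventually.of_forall (fun p => hgK p k)
        exact h10)
    exact ⟨x, hx⟩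
  choose x hx using hx
  refine ⟨Finset.univ.image x, ?_, ?_⟩
  · refine Finset.card_image_le.trans ?_
    simp
  · intro e w he hew
    have h5 : ∃ k : Fin B, ∀ᶠ p in (Filter.hyperfilter ℕ : Filter ℕ), e p = g p k := by
      by_contra hcon
      push Not at hcon
      have h6 : ∀ k : Fin B, ∀ᶠ p in (Filter.hyperfilter ℕ : Filter ℕ), ¬ e p = g p k := by
        intro k
        exact hcon k
      have h7 := Filter.eventually_all.2 h6
      obtain ⟨p, hp1, hp2⟩ := (h7.and he).exists
      obtain ⟨k, hk⟩ := hgW p (e p) hp2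
      exact hp1 k hk
    obtain ⟨k, hk⟩ := h5
    have h8 : Filter.Tendsto (fun p => g p k) (Filter.hyperfilter ℕ : Filter ℕ) (nhds w) :=
      hew.congr' hk
    have h9 := tendsto_nhds_unique (hx k) h8
    exact Finset.mem_image.2 ⟨k, Finset.mem_univ _, h9⟩

end Pool.Agent.RM90
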