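import Pool.Agent.Lib.MP_df59e7_lc.Defs
import Pool.Agent.Lib.MP_df59e7_lc.Core
import Pool.Agent.Lib.MP_df59e7_lc.ActS
import Pool.Agent.Lib.MP_df59e7_lc.SelLim
import Pool.Agent.Lib.MP_df59e7_lc.Birth
import Pool.Agent.Lib.MP_df59e7_lc.Pairs

set_option autoImplicit false

/-! MP_df59e7_lc, module Act. -/

namespace Pool.Agent.RM90

open MvPolynomial

/-- The approximate connectivity theorem.
Proof: `X0` = union of the finite sets of `pairs` and of `below_pts` for the finite set `Wi` of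
`sel_lim` (`K = E`, `W p = {w | LM (E' p) f w}`). Let `X1` be given. `E` has finitely many
components (`comp_fin`), so it suffices to treat one component `connectedComponentIn E t`
(components of `x` and `t` are equal: `connectedComponentIn_eq`). If chainedness does not hold for
almost all `p`, it fails for almost all `p` (`Ultrafilter.eventually_not`), `act_spl` gives a
splitting and `core` a contradiction. -/
theorem act {X Y : Type*} [MetricSpace X] [MetricSpace Y] (E Z D : Set X) (f : X → ℝ)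
    (π : X → Y) (Γ : X → Set X) (B : ℕ) (h : ActE E Z D f π Γ B) (E' : ℕ → Set X)
    (h' : ActP E Z f B E') (θ : ℝ) (hθ : 0 < θ) :
    ∃ X0 : Finset X, ↑X0 ⊆ D ∧ X0.card ≤ 2 * B ^ 2 + B ∧
      ∀ X1 : Finset X, X0 ⊆ X1 → ↑X1 ⊆ D → ∀ᶠ p in (Filter.hyperfilter ℕ : Filter ℕ),
        ∀ x ∈ E, Chained θ ((E' p ∪ ⋃ y ∈ X1, Γ y) ∩ connectedComponentIn E x) := by
  classical
  have hfin : {m | LM E f m}.Finite := Set.finite_of_encard_le_coe h.card
  obtain ⟨Wi, hWc, hWi⟩ := sel_lim E h.cE B (fun p => {w | LM (E' p) f w}) h'.card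
    (fun p w hw => h'.sub p hw.1)
  obtain ⟨XA, hAD, hAc, hA⟩ := pairs E h.cE h.lE f h.cf B h.card D h.DE h.dD θ hθ
  obtain ⟨XB, hBD, hBc, hB⟩ := below_pts E h.cE h.lE f h.cf hfin D h.DE h.dD Wi θ hθ
  refine ⟨XA ∪ XB, ?_, ?_, fun X1 hX hX1 => ?_⟩
  · intro x hx
    rcases Finset.mem_union.mp (Finset.mem_coe.mp hx) with h1 | h1
    · exact hAD h1
    · exact hBD h1
  · exact (Finset.card_union_le _ _).trans (add_le_add hAc (hBc.trans hWc))
  · obtain ⟨T, hTE, hT⟩ := comp_fin E h.cE h.lE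
    have hone : ∀ t ∈ T, ∀ᶠ p in (Filter.hyperfilter ℕ : Filter ℕ),
        Chained θ ((E' p ∪ ⋃ y ∈ X1, Γ y) ∩ connectedComponentIn E t) := by
      intro t ht
      by_contra hcon
      have hfail : ∀ᶠ p in (Filter.hyperfilter ℕ : Filter ℕ),
          ¬ Chained θ ((E' p ∪ ⋃ y ∈ X1, Γ y) ∩ connectedComponentIn E t) :=
        Ultrafilter.eventually_not.mpr hcon
      obtain ⟨A1, A2, hS⟩ := act_spl E Z D f π Γ B h E' h' θ hθ (Wi : Set X)
        (fun e w he hew => hWi e w he hew) X1 hX1 t (hTE ht) hfail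
      refine core E Z D f π Γ B h (X1 : Set X) (Wi : Set X) A1 A2 hX1 θ hθ t (hTE ht) ?_ ?_ hS
      · intro a m m' hm hm' hfm hfm' hnot hne
        obtain ⟨x1, hx1, x2, hx2, h1, h2, h3⟩ := hA a m m' hm hm' hfm hfm' hnot hne
        exact ⟨x1, hX (Finset.mem_union_left _ hx1), x2, hX (Finset.mem_union_left _ hx2),
          h1, h2, h3⟩
      · intro w hw hwE hwc
        obtain ⟨x, hx, h1, h2, h3⟩ := hB w hw hwE hwc
        exact ⟨x, hX (Finset.mem_union_right _ hx), h1, h2, h3⟩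
    have hall : ∀ᶠ p in (Filter.hyperfilter ℕ : Filter ℕ), ∀ t ∈ T,
        Chained θ ((E' p ∪ ⋃ y ∈ X1, Γ y) ∩ connectedComponentIn E t) :=
      (Finset.eventually_all T).mpr hone
    filter_upwards [hall] with p hp x hx
    obtain ⟨t, ht, hxt⟩ := hT x hx
    rw [← connectedComponentIn_eq hxt]
    exact hp t ht

end Pool.Agent.RM90
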