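import Pool.Agent.Lib.MP_df59e7_lc.Defs

set_option autoImplicit false

/-! MP_df59e7_lc, module AlgU. -/

namespace Pool.Agent.RM90

open MvPolynomial

/-- Monotonicity. -/
theorem alg_mono {n : ℕ} {N N' : ℕ} (hN : N ≤ N') {R R' : Set (Fin n → ℝ)} (hR : R' ⊆ R)
    (h : Alg N R) : Alg N' R' := by
  intro u v
  obtain ⟨q, h1, h2, h3⟩ := h u v
  exact ⟨q, h1, h2.trans hN, fun x hx => h3 x (hR hx)⟩

/-- The empty set. Proof: `q = 1`. -/
theorem alg_empty {n : ℕ} : Alg 0 (∅ : Set (Fin n → ℝ)) := by
  intro u v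
  exact ⟨1, one_ne_zero, by simp, fun x hx => absurd hx (Set.notMem_empty x)⟩

/-- Union of two sets. Proof: the product of the two polynomials. -/
theorem alg_union {n : ℕ} {N N' : ℕ} {R R' : Set (Fin n → ℝ)} (h : Alg N R) (h' : Alg N' R') :
    Alg (N + N') (R ∪ R') := by
  intro u v
  obtain ⟨q, h1, h2, h3⟩ := h u v
  obtain ⟨q', h1', h2', h3'⟩ := h' u v
  refine ⟨q * q', mul_ne_zero h1 h1', (totalDegree_mul q q').trans (add_le_add h2 h2'), ?_⟩
  rintro x (hx | hx)
  · rw [map_mul, h3 x hx, zero_mul]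
  · rw [map_mul, h3' x hx, mul_zero]

/-- Finite unions. Proof: induction. -/
theorem alg_biUnion {n : ℕ} {α : Type*} (s : Finset α) (K : ℕ) (R : α → Set (Fin n → ℝ))
    (h : ∀ a ∈ s, Alg K (R a)) : Alg (s.card * K) (⋃ a ∈ s, R a) := by
  classical
  induction s using Finset.induction_on with
  | empty =>
    simp only [Finset.notMem_empty, Set.iUnion_of_empty, Set.iUnion_empty, Finset.card_empty,
      zero_mul]
    exact alg_empty
  | insert a s ha ih =>
    rw [Finset.card_insert_of_notMem ha, Finset.set_biUnion_insert, add_mul, one_mul, add_comm]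
    exact alg_union (h a (Finset.mem_insert_self a s))
      (ih fun b hb => h b (Finset.mem_insert_of_mem hb))

/-- Closure. Proof: the zero set of the polynomial is closed. -/
theorem alg_closure {n : ℕ} {N : ℕ} {R : Set (Fin n → ℝ)} (h : Alg N R) :
    Alg N (closure R) := by
  intro u v
  obtain ⟨q, h1, h2, h3⟩ := h u v
  refine ⟨q, h1, h2, ?_⟩
  have hc : Continuous fun x : Fin n → ℝ => eval ![u ⬝ᵥ x, v ⬝ᵥ x] q := by
    have hd : ∀ w : Fin n → ℝ, Continuous fun x : Fin n → ℝ => w ⬝ᵥ x := by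
      intro w
      simp only [dotProduct]
      fun_prop
    refine (MvPolynomial.continuous_eval q).comp (continuous_pi fun i => ?_)
    fin_cases i
    · exact hd u
    · exact hd v
  exact fun x hx => closure_minimal (s := R) (fun y hy => h3 y hy)
    (isClosed_eq hc continuous_const) hx

end Pool.Agent.RM90
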