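import Pool.Agent.Lib.MP_df59e7_lc.Defs

set_option autoImplicit false

/-! MP_df59e7_lc, module Inv. -/

namespace Pool.Agent.RM90

open MvPolynomial

private theorem inv_an {n : ℕ} (F : Fin n → MvPolynomial (Fin n) ℝ) (x : Fin n → ℝ) :
    AnalyticAt ℝ (evm F) x := by
  rw [analyticAt_pi_iff]
  intro i
  exact AnalyticOnNhd.eval_continuousLinearMap (ContinuousLinearMap.id ℝ (Fin n → ℝ)) (F i) x
    (Set.mem_univ x)

private theorem inv_det {n : ℕ} (F : Fin n → MvPolynomial (Fin n) ℝ) (x : Fin n → ℝ) :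
    eval x (jac F) = (Jm F x).det := by
  rw [jac, RingHom.map_det]
  rfl

private theorem inv_fd {n : ℕ} (F : Fin n → MvPolynomial (Fin n) ℝ) (x : Fin n → ℝ) :
    fderiv ℝ (evm F) x = ContinuousLinearMap.pi fun j => Warren46.gradL (F j) x :=
  (hasFDerivAt_pi.2 fun j => Warren46.hasFDerivAt_eval (F j) x).fderiv

private theorem inv_eq {n : ℕ} (F : Fin n → MvPolynomial (Fin n) ℝ) (x : Fin n → ℝ)
    (h : eval x (jac F) ≠ 0) :
    ∃ L : (Fin n → ℝ) ≃L[ℝ] (Fin n → ℝ),
      fderiv ℝ (evm F) x = (L : (Fin n → ℝ) →L[ℝ] (Fin n → ℝ)) := by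
  have hinj : Function.Injective
      (ContinuousLinearMap.pi fun j => Warren46.gradL (F j) x :
        (Fin n → ℝ) →L[ℝ] (Fin n → ℝ)).toLinearMap := by
    rw [injective_iff_map_eq_zero]
    intro v hv
    rw [inv_det] at h
    refine Matrix.eq_zero_of_mulVec_eq_zero h ?_
    funext j
    have h1 := congrFun hv j
    rw [← show Warren46.gradL (F j) x v = (Jm F x).mulVec v j from ?_]
    · exact h1
    · rw [Warren46.gradL_apply]
      rfl
  refine ⟨(LinearEquiv.ofInjectiveEndo _ hinj).toContinuousLinearEquiv, ?_⟩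
  rw [inv_fd]
  ext v j
  rfl

/-- Local inverse. If `jac F` does not vanish at `w` in the open set `U`, then `evm F` maps an
open neighbourhood `V` of `w` in `U` bijectively onto a ball around `evm F w`, with analytic
inverse `s`, and `jac F` does not vanish on `V`.
Proof: `evm F` is analytic with strict derivative `Jm F w` (see `Warren46.hasFDerivAt_eval`,
polynomials are analytic: `AnalyticAt.aeval_mvPolynomial` or induction;
`ContDiffAt.hasStrictFDerivAt`),
whose determinant is `eval w (jac F)` (`RingHom.map_det`). Take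
`HasStrictFDerivAt.toOpenPartialHomeomorph`, restrict it to the open set of points of `U` where
`jac F` is nonzero, choose a ball around `evm F w` in the target and `V` = its preimage in the
source. Analyticity of the inverse at every point of the ball:
`OpenPartialHomeomorph.analyticAt_symm` (the derivative at every point of `V` is invertible). -/
theorem loc_inv {n : ℕ} (F : Fin n → MvPolynomial (Fin n) ℝ) (U : Set (Fin n → ℝ))
    (hU : IsOpen U) (w : Fin n → ℝ) (hw : w ∈ U) (hj : eval w (jac F) ≠ 0) :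
    ∃ ρ > 0, ∃ s : (Fin n → ℝ) → (Fin n → ℝ), ∃ V : Set (Fin n → ℝ),
      IsOpen V ∧ w ∈ V ∧ V ⊆ U ∧ (∀ x ∈ V, eval x (jac F) ≠ 0) ∧
      (∀ x ∈ V, evm F x ∈ Metric.ball (evm F w) ρ ∧ s (evm F x) = x) ∧
      (∀ y ∈ Metric.ball (evm F w) ρ, s y ∈ V ∧ evm F (s y) = y) ∧
      AnalyticOnNhd ℝ s (Metric.ball (evm F w) ρ) := by
  obtain ⟨L, hL⟩ := inv_eq F w hj
  have hstr : HasStrictFDerivAt (evm F) (L : (Fin n → ℝ) →L[ℝ] (Fin n → ℝ)) w := by
    have h1 := (inv_an F w).hasStrictFDerivAt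
    rw [hL] at h1
    exact h1
  let e := hstr.toOpenPartialHomeomorph (evm F)
  have he : ∀ x, e x = evm F x := fun x => rfl
  have hw0 : w ∈ e.source := hstr.mem_toOpenPartialHomeomorph_source
  have hWo : IsOpen (U ∩ {x : Fin n → ℝ | eval x (jac F) ≠ 0}) := by
    refine hU.inter (isOpen_ne_fun ?_ continuous_const)
    exact MvPolynomial.continuous_eval _
  have hO : IsOpen (e.target ∩ e.symm ⁻¹' (U ∩ {x : Fin n → ℝ | eval x (jac F) ≠ 0})) :=
    e.isOpen_inter_preimage_symm hWo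
  have hwO : evm F w ∈ e.target ∩ e.symm ⁻¹' (U ∩ {x : Fin n → ℝ | eval x (jac F) ≠ 0}) := by
    refine ⟨e.map_source hw0, ?_⟩
    have h1 : e.symm (evm F w) = w := e.left_inv hw0
    rw [Set.mem_preimage, h1]
    exact ⟨hw, hj⟩
  obtain ⟨ρ, hρ, hball⟩ := Metric.isOpen_iff.1 hO _ hwO
  have hV : ∀ x ∈ e.source ∩ e ⁻¹' Metric.ball (evm F w) ρ,
      x ∈ U ∩ {x : Fin n → ℝ | eval x (jac F) ≠ 0} := by
    intro x hx
    have h1 := (hball hx.2).2
    rw [Set.mem_preimage, e.left_inv hx.1] at h1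
    exact h1
  refine ⟨ρ, hρ, e.symm, e.source ∩ e ⁻¹' Metric.ball (evm F w) ρ,
    e.isOpen_inter_preimage Metric.isOpen_ball, ⟨hw0, Metric.mem_ball_self hρ⟩,
    fun x hx => (hV x hx).1, fun x hx => (hV x hx).2, fun x hx => ⟨hx.2, e.left_inv hx.1⟩, ?_, ?_⟩
  · intro y hy
    have h1 := hball hy
    have h2 : e (e.symm y) = y := e.right_inv h1.1
    refine ⟨⟨e.map_target h1.1, ?_⟩, h2⟩
    rw [Set.mem_preimage, h2]
    exact hy
  · intro y hy
    have h1 := hball hy
    obtain ⟨L', hL'⟩ := inv_eq F (e.symm y) h1.2.2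
    exact e.analyticAt_symm h1.1 (inv_an F (e.symm y)) hL'

end Pool.Agent.RM90
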