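import Pool.Agent.Lib.MP_df59e7_lc.Defs
import Pool.Agent.Lib.MP_df59e7_lc.Inv

set_option autoImplicit false

/-! MP_df59e7_lc, module Ndg. -/

namespace Pool.Agent.RM90

open MvPolynomial

private theorem ndg_line {n : ℕ} (Q : MvPolynomial (Fin n) ℝ) (z v : Fin n → ℝ) :
    HasDerivAt (fun t : ℝ => eval (z + t • v) Q) (Warren46.gradL Q z v) 0 := by
  have h1 : HasDerivAt (fun t : ℝ => z + t • v) v 0 := by
    have h2 := ((hasDerivAt_id (0 : ℝ)).smul_const v).const_add z
    simpa using h2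
  have h3 := Warren46.hasFDerivAt_eval Q (z + (0 : ℝ) • v)
  have h4 := h3.comp_hasDerivAt (0 : ℝ) h1
  rw [zero_smul, add_zero] at h4
  exact h4

/-- Nondegeneracy of the system `H_j` (`j ≠ e`), `p - δ` at a point of the curve.
Proof: let `u0 = evm H x + t0 e_e` and `z = s u0`. `s` is differentiable at `u0` and
`evm H ∘ s = id` near `u0`. Given `y`, look for `v = Ds(u0) b`: for `j ≠ e` the derivative of
`t ↦ eval (z + t v) (H j)` at `0` is `dH_j(z) v = (D(evm H)(z) Ds(u0) b)_j = b_j`, and the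
derivative of `p` is `dp(z) Ds(u0) b = sum_j b_j q_j` with `q_e = dp(z) Ds(u0) e_e =
deriv (fun t => eval (s (evm H x + t e_e)) p) t0 ≠ 0`. So take `b_j = y_j` for `j ≠ e` and
`b_e = (y_e - sum_{j ≠ e} y_j q_j) / q_e`. Use `Warren46.hasFDerivAt_eval`. -/
theorem ndg {n : ℕ} (H : Fin n → MvPolynomial (Fin n) ℝ) (e : Fin n) (x : Fin n → ℝ) (ρ : ℝ)
    (s : (Fin n → ℝ) → (Fin n → ℝ))
    (hs : ∀ y ∈ Metric.ball (evm H x) ρ, evm H (s y) = y)
    (hsa : AnalyticOnNhd ℝ s (Metric.ball (evm H x) ρ))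
    (p : MvPolynomial (Fin n) ℝ) (δ t0 : ℝ) (ht : |t0| < ρ)
    (hd : deriv (fun t : ℝ => eval (s (evm H x + t • (Pi.single e 1 : Fin n → ℝ))) p) t0 ≠ 0) :
    ∀ y : Fin n → ℝ, ∃ v : Fin n → ℝ, ∀ j,
      HasDerivAt (fun t : ℝ => eval (s (evm H x + t0 • (Pi.single e 1 : Fin n → ℝ)) + t • v)
        (Function.update H e (p - C δ) j)) (y j) 0 := by
  classical
  intro y
  have hnorm : ‖(Pi.single e 1 : Fin n → ℝ)‖ = 1 := by
    apply le_antisymm
    · rw [pi_norm_le_iff_of_nonneg zero_le_one]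
      intro j
      by_cases hj : j = e
      · rw [hj, Pi.single_eq_same, norm_one]
      · rw [Pi.single_eq_of_ne hj, norm_zero]
        exact zero_le_one
    · have h1 := norm_le_pi_norm (Pi.single e 1 : Fin n → ℝ) e
      rwa [Pi.single_eq_same, norm_one] at h1
  obtain ⟨u0, hu0⟩ : ∃ u0 : Fin n → ℝ, u0 = evm H x + t0 • (Pi.single e 1 : Fin n → ℝ) :=
    ⟨_, rfl⟩
  have hball : u0 ∈ Metric.ball (evm H x) ρ := by
    rw [Metric.mem_ball, dist_eq_norm, hu0, add_sub_cancel_left, norm_smul, hnorm, mul_one,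
      Real.norm_eq_abs]
    exact ht
  have hD : HasFDerivAt s (fderiv ℝ s u0) u0 := (hsa u0 hball).differentiableAt.hasFDerivAt
  obtain ⟨D, hDd⟩ : ∃ D, D = fderiv ℝ s u0 := ⟨_, rfl⟩
  rw [← hDd] at hD
  -- the inverse relation
  have hinv : ∀ (j : Fin n) (b : Fin n → ℝ), Warren46.gradL (H j) (s u0) (D b) = b j := by
    intro j b
    have h1 : HasFDerivAt (fun u => eval (s u) (H j)) ((Warren46.gradL (H j) (s u0)).comp D) u0 :=
      (Warren46.hasFDerivAt_eval (H j) (s u0)).comp u0 hD
    have h2 : HasFDerivAt (fun u : Fin n → ℝ => u j)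
        (ContinuousLinearMap.proj (R := ℝ) (φ := fun _ : Fin n => ℝ) j) u0 :=
      hasFDerivAt_apply j u0
    have h3 : (fun u => eval (s u) (H j)) =ᶠ[nhds u0] fun u : Fin n → ℝ => u j := by
      filter_upwards [Metric.isOpen_ball.mem_nhds hball] with u hu
      exact congrFun (hs u hu) j
    have h4 := (h2.congr_of_eventuallyEq h3).unique h1
    have h5 := congrArg (fun L : (Fin n → ℝ) →L[ℝ] ℝ => L b) h4
    exact h5.symm
  -- the derivative of `p` along the curve
  have hq : Warren46.gradL p (s u0) (D (Pi.single e 1)) ≠ 0 := by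
    have h1 : HasDerivAt (fun t : ℝ => evm H x + t • (Pi.single e 1 : Fin n → ℝ))
        (Pi.single e 1 : Fin n → ℝ) t0 := by
      have h2 := ((hasDerivAt_id t0).smul_const (Pi.single e 1 : Fin n → ℝ)).const_add (evm H x)
      rw [one_smul] at h2
      exact h2
    have hD' : HasFDerivAt s D (evm H x + t0 • (Pi.single e 1 : Fin n → ℝ)) := by
      rw [← hu0]
      exact hD
    have h3 : HasDerivAt (fun t : ℝ => s (evm H x + t • (Pi.single e 1 : Fin n → ℝ)))
        (D (Pi.single e 1)) t0 := hD'.comp_hasDerivAt t0 h1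
    have h4 := Warren46.hasFDerivAt_eval p (s (evm H x + t0 • (Pi.single e 1 : Fin n → ℝ)))
    have h5 : HasDerivAt (fun t : ℝ => eval (s (evm H x + t • (Pi.single e 1 : Fin n → ℝ))) p)
        (Warren46.gradL p (s (evm H x + t0 • (Pi.single e 1 : Fin n → ℝ)))
          (D (Pi.single e 1))) t0 := by
      have h6 := h4.comp_hasDerivAt t0 h3
      exact h6
    rw [h5.deriv, ← hu0] at hd
    exact hd
  obtain ⟨β, hβ⟩ : ∃ β : ℝ, Warren46.gradL p (s u0) (D (Function.update y e 0)) +
      β * Warren46.gradL p (s u0) (D (Pi.single e 1)) = y e := by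
    refine ⟨(y e - Warren46.gradL p (s u0) (D (Function.update y e 0))) /
      Warren46.gradL p (s u0) (D (Pi.single e 1)), ?_⟩
    rw [div_mul_cancel₀ _ hq]
    ring
  refine ⟨D (Function.update y e 0 + β • (Pi.single e 1 : Fin n → ℝ)), fun j => ?_⟩
  rw [← hu0]
  by_cases hj : j = e
  · subst hj
    have h1 := ndg_line (p - C δ) (s u0)
      (D (Function.update y j 0 + β • (Pi.single j 1 : Fin n → ℝ)))
    have h2 : Warren46.gradL (p - C δ) (s u0)
        (D (Function.update y j 0 + β • (Pi.single j 1 : Fin n → ℝ))) = y j := by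
      have h3 : Warren46.gradL (p - C δ) (s u0) = Warren46.gradL p (s u0) := by
        have h4 := Warren46.hasFDerivAt_eval (p - C δ) (s u0)
        have h5 := (Warren46.hasFDerivAt_eval p (s u0)).sub_const δ
        refine h4.unique (h5.congr_of_eventuallyEq ?_)
        filter_upwards with u
        rw [map_sub, eval_C]
      rw [h3, map_add, map_smul, map_add, map_smul, smul_eq_mul]
      exact hβ
    rw [h2] at h1
    rw [Function.update_self]
    exact h1
  · have h1 := ndg_line (H j) (s u0)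
      (D (Function.update y e 0 + β • (Pi.single e 1 : Fin n → ℝ)))
    have h2 : Warren46.gradL (H j) (s u0)
        (D (Function.update y e 0 + β • (Pi.single e 1 : Fin n → ℝ))) = y j := by
      rw [hinv, Pi.add_apply, Pi.smul_apply, Function.update_of_ne hj, Pi.single_eq_of_ne hj,
        smul_zero, add_zero]
    rw [h2] at h1
    rw [Function.update_of_ne hj]
    exact h1

end Pool.Agent.RM90
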