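import Pool.Agent.Lib.MP_df59e7_lc.Defs

set_option autoImplicit false

/-! MP_df59e7_lc, module PolQ. -/

namespace Pool.Agent.RM90

open MvPolynomial

/-- The bivariate polynomial with coefficients `c` and exponents less than `m`. -/
noncomputable def qpol (m : ℕ) (c : Fin m × Fin m → ℝ) : MvPolynomial (Fin 2) ℝ :=
  ∑ a : Fin m × Fin m, C (c a) * (X 0 ^ (a.1 : ℕ) * X 1 ^ (a.2 : ℕ))

/-- The same polynomial with two linear forms substituted. -/
noncomputable def qlin {n : ℕ} (m : ℕ) (c : Fin m × Fin m → ℝ) (u v : Fin n → ℝ) :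
    MvPolynomial (Fin n) ℝ :=
  ∑ a : Fin m × Fin m, C (c a) * ((∑ j, C (u j) * X j) ^ (a.1 : ℕ) *
    (∑ j, C (v j) * X j) ^ (a.2 : ℕ))

private theorem PolQ_mono (i j : ℕ) (r : ℝ) :
    (C r * (X 0 ^ i * X 1 ^ j) : MvPolynomial (Fin 2) ℝ) =
      monomial (Finsupp.single 0 i + Finsupp.single 1 j) r := by
  rw [X_pow_eq_monomial, X_pow_eq_monomial, monomial_mul, C_mul_monomial]
  simp

/-- Proof: the coefficient of `X 0 ^ a.1 * X 1 ^ a.2` is `c a`. -/
theorem qpol_ne_zero (m : ℕ) (c : Fin m × Fin m → ℝ) (hc : c ≠ 0) : qpol m c ≠ 0 := by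
  classical
  obtain ⟨a0, ha0⟩ := Function.ne_iff.mp hc
  intro h0
  apply ha0
  have hco := congrArg (coeff (Finsupp.single 0 (a0.1 : ℕ) + Finsupp.single 1 (a0.2 : ℕ))) h0
  unfold qpol at hco
  rw [coeff_sum, coeff_zero, Finset.sum_eq_single a0] at hco
  · rw [PolQ_mono, coeff_monomial, if_pos rfl] at hco
    simpa using hco
  · intro b _ hb
    rw [PolQ_mono, coeff_monomial, if_neg]
    intro heq
    apply hb
    have e0 := DFunLike.congr_fun heq 0
    have e1 := DFunLike.congr_fun heq 1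
    simp at e0 e1
    exact Prod.ext (Fin.ext e0) (Fin.ext e1)
  · intro h; exact absurd (Finset.mem_univ _) h

private theorem PolQ_pow {n : ℕ} (m : ℕ) (a b : Fin m) (r : ℝ) (p q : MvPolynomial (Fin n) ℝ)
    (hp : p.totalDegree ≤ 1) (hq : q.totalDegree ≤ 1) :
    (C r * (p ^ (a : ℕ) * q ^ (b : ℕ))).totalDegree ≤ 2 * (m - 1) := by
  have ha : (a : ℕ) ≤ m - 1 := by have := a.2; omega
  have hb : (b : ℕ) ≤ m - 1 := by have := b.2; omega
  have h1 : (p ^ (a : ℕ)).totalDegree ≤ m - 1 := by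
    refine le_trans (totalDegree_pow _ _) ?_
    calc (a : ℕ) * p.totalDegree ≤ (m - 1) * 1 := Nat.mul_le_mul ha hp
      _ = m - 1 := Nat.mul_one _
  have h2 : (q ^ (b : ℕ)).totalDegree ≤ m - 1 := by
    refine le_trans (totalDegree_pow _ _) ?_
    calc (b : ℕ) * q.totalDegree ≤ (m - 1) * 1 := Nat.mul_le_mul hb hq
      _ = m - 1 := Nat.mul_one _
  refine le_trans (totalDegree_mul _ _) ?_
  rw [totalDegree_C, Nat.zero_add]
  refine le_trans (totalDegree_mul _ _) ?_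
  omega

private theorem PolQ_lin {n : ℕ} (u : Fin n → ℝ) :
    (∑ j, C (u j) * X j : MvPolynomial (Fin n) ℝ).totalDegree ≤ 1 := by
  refine totalDegree_finsetSum_le fun j _ => ?_
  refine le_trans (totalDegree_mul _ _) ?_
  rw [totalDegree_C, totalDegree_X]

theorem qpol_deg (m : ℕ) (c : Fin m × Fin m → ℝ) : (qpol m c).totalDegree ≤ 2 * (m - 1) := by
  unfold qpol
  refine totalDegree_finsetSum_le fun a _ => ?_
  exact PolQ_pow m a.1 a.2 (c a) _ _ (totalDegree_X _).le (totalDegree_X _).le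

theorem qlin_deg {n : ℕ} (m : ℕ) (c : Fin m × Fin m → ℝ) (u v : Fin n → ℝ) :
    (qlin m c u v).totalDegree ≤ 2 * (m - 1) := by
  unfold qlin
  refine totalDegree_finsetSum_le fun a _ => ?_
  exact PolQ_pow m a.1 a.2 (c a) _ _ (PolQ_lin u) (PolQ_lin v)

theorem eval_qlin {n : ℕ} (m : ℕ) (c : Fin m × Fin m → ℝ) (u v x : Fin n → ℝ) :
    eval x (qlin m c u v) = ∑ a : Fin m × Fin m, c a * ((u ⬝ᵥ x) ^ (a.1 : ℕ) *
      (v ⬝ᵥ x) ^ (a.2 : ℕ)) := by
  unfold qlin
  simp only [map_sum, map_mul, map_pow, eval_C, eval_X, dotProduct]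

theorem eval_qpol (m : ℕ) (c : Fin m × Fin m → ℝ) (x y : ℝ) :
    eval ![x, y] (qpol m c) = ∑ a : Fin m × Fin m, c a * (x ^ (a.1 : ℕ) * y ^ (a.2 : ℕ)) := by
  unfold qpol
  simp only [map_sum, map_mul, map_pow, eval_C, eval_X, Matrix.cons_val_zero, Matrix.cons_val_one]

end Pool.Agent.RM90
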