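import Pool.Agent.Lib.MP_df59e7_lc.Defs

set_option autoImplicit false

/-! MP_df59e7_lc, module Pts. -/

namespace Pool.Agent.RM90

open MvPolynomial

private theorem Pts_dual {N : ℕ} (S : Submodule ℝ (Fin N → ℝ))
    (h : ∀ c : Fin N → ℝ, (∀ v ∈ S, ∑ m, c m * v m = 0) → c = 0) : S = ⊤ := by
  by_contra hS
  obtain ⟨f, hf0, hf⟩ := S.exists_le_ker_of_lt_top (lt_top_iff_ne_top.2 hS)
  have hfe : ∀ v : Fin N → ℝ, f v = ∑ m, f (Pi.single m 1) * v m := by
    intro v
    conv_lhs => rw [← Finset.univ_sum_single v]
    rw [map_sum]
    refine Finset.sum_congr rfl fun m _ => ?_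
    have h1 : (Pi.single m (v m) : Fin N → ℝ) = v m • (Pi.single m (1 : ℝ) : Fin N → ℝ) := by
      rw [← Pi.single_smul, smul_eq_mul, mul_one]
    rw [h1, map_smul, smul_eq_mul, mul_comm]
  have h1 := h (fun m => f (Pi.single m 1)) fun v hv => by
    rw [← hfe]
    exact hf hv
  apply hf0
  refine LinearMap.ext fun v => ?_
  rw [hfe, LinearMap.zero_apply]
  refine Finset.sum_eq_zero fun m _ => ?_
  have h2 := congrFun h1 m
  simp only [Pi.zero_apply] at h2
  rw [h2, zero_mul]

/-- Unisolvent points: `N` functions which are linearly independent on `I` can be interpolated at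
`N` points of `I`, listed in increasing order.
Proof: induction on `m ≤ N` (or dimension of the span of the evaluation vectors): the vectors
`(φ_1(t), ..., φ_N(t))`, `t ∈ I`, span `Fin N → ℝ` (otherwise a nonzero linear functional `c`
kills them all), so `N` of them form a basis; they belong to distinct `t`; sort these `t`
(`Finset.orderEmbOfFin` or `Tuple.sort`). For the interpolation: the square matrix
`(φ_m(t_l))` is invertible. -/
theorem exists_points {N : ℕ} (φ : Fin N → ℝ → ℝ) (I : Set ℝ)
    (hind : ∀ c : Fin N → ℝ, (∀ t ∈ I, ∑ m, c m * φ m t = 0) → c = 0) :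
    ∃ t : Fin N → ℝ, (∀ l, t l ∈ I) ∧ StrictMono t ∧
      ∀ y : Fin N → ℝ, ∃ c : Fin N → ℝ, ∀ l, ∑ m, c m * φ m (t l) = y l := by
  classical
  set E : ℝ → (Fin N → ℝ) := fun t m => φ m t with hE
  have hspan : Submodule.span ℝ (E '' I) = ⊤ := by
    refine Pts_dual _ fun c hc => hind c fun t ht => ?_
    exact hc (E t) (Submodule.subset_span ⟨t, ht, rfl⟩)
  obtain ⟨b, hbI, hbs, hbl⟩ := exists_linearIndependent ℝ (E '' I)
  rw [hspan] at hbs
  have hfin : b.Finite := hbl.setFinite
  haveI : Fintype b := hfin.fintype
  have hcard : Fintype.card b = N := by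
    have hB := Module.finrank_eq_card_basis (Module.Basis.mk hbl (by
      rw [Subtype.range_coe_subtype, Set.setOf_mem_eq, hbs]))
    rw [Module.finrank_fin_fun] at hB
    exact hB.symm
  have hch : ∀ v : b, ∃ t ∈ I, E t = v := fun v => hbI v.2
  choose g hgI hgE using hch
  have hginj : Function.Injective g := fun v w hvw => Subtype.ext (by
    rw [← hgE v, ← hgE w, hvw])
  set T : Finset ℝ := Finset.univ.image g with hT
  have hTc : T.card = N := by
    rw [hT, Finset.card_image_of_injective _ hginj, Finset.card_univ, hcard]
  set t := T.orderEmbOfFin hTc with ht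
  have hrange : Set.range t = ↑T := Finset.range_orderEmbOfFin T hTc
  refine ⟨t, fun l => ?_, t.strictMono, ?_⟩
  · have h1 : t l ∈ T := Finset.orderEmbOfFin_mem T hTc l
    rw [hT, Finset.mem_image] at h1
    obtain ⟨v, -, hv⟩ := h1
    rw [← hv]
    exact hgI v
  · set L : (Fin N → ℝ) →ₗ[ℝ] (Fin N → ℝ) :=
      { toFun := fun c l => ∑ m, c m * φ m (t l)
        map_add' := fun c d => by
          funext l
          simp only [Pi.add_apply, add_mul, Finset.sum_add_distrib]
        map_smul' := fun r c => by
          funext l
          simp only [Pi.smul_apply, smul_eq_mul, mul_assoc, Finset.mul_sum, RingHom.id_apply] }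
      with hL
    have hinj : Function.Injective L := by
      rw [← LinearMap.ker_eq_bot, LinearMap.ker_eq_bot']
      intro c hc
      have hk : ∀ v ∈ Submodule.span ℝ b, ∑ m, c m * v m = 0 := by
        intro v hv
        induction hv using Submodule.span_induction with
        | mem v hv =>
          have h1 : g ⟨v, hv⟩ ∈ Set.range t := by
            rw [hrange, hT, Finset.mem_coe, Finset.mem_image]
            exact ⟨⟨v, hv⟩, Finset.mem_univ _, rfl⟩
          obtain ⟨l, hl⟩ := h1
          have h2 : E (t l) = v := by
            rw [hl]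
            exact hgE ⟨v, hv⟩
          rw [← h2]
          exact congrFun hc l
        | zero => simp
        | add v w _ _ hv hw =>
          simp only [Pi.add_apply, mul_add, Finset.sum_add_distrib, hv, hw, add_zero]
        | smul r v _ hv =>
          have h1 : ∑ m, c m * (r • v) m = r * ∑ m, c m * v m := by
            rw [Finset.mul_sum]
            refine Finset.sum_congr rfl fun m _ => ?_
            rw [Pi.smul_apply, smul_eq_mul]
            ring
          rw [h1, hv, mul_zero]
      rw [hbs] at hk
      funext m
      have h1 := hk (Pi.single m 1) Submodule.mem_top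
      rw [Finset.sum_eq_single m (fun k _ hk => by rw [Pi.single_eq_of_ne hk, mul_zero])
        (fun h => absurd (Finset.mem_univ m) h), Pi.single_eq_same, mul_one] at h1
      exact h1
    intro y
    obtain ⟨c, hc⟩ := LinearMap.injective_iff_surjective.1 hinj y
    exact ⟨c, fun l => congrFun hc l⟩

end Pool.Agent.RM90
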