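import Pool.Agent.Lib.MP_df59e7_lc.Defs
import Pool.Agent.Lib.Warren46.Bezout

set_option autoImplicit false

/-! MP_df59e7_lc, module RefBez. -/

namespace Pool.Agent.RM90

open MvPolynomial

/-- Bezout bound with different degrees: a system with degrees (in every variable) at most `D i`
has at most `(N+1)^N * prod_i D i` nondegenerate zeros.
Proof: as `Pool.Agent.Warren46.bezout` (file Lib/Warren46/Bezout.lean), with exponents
`a_i ≤ M i`: let `D0` bound the degrees of the interpolation polynomials `h z`,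
`L = (D0 + 1) * prod_i D i`, `M i = L / D i` (exact division). The polynomials
`h z * prod_i f_i ^ a_i`, `z ∈ Z`, `a_i ≤ M i`, are linearly independent: apply
`Warren46.auxMap_injective` with one bound `M = max M i` (extend the coefficients by zero). They
have degree at most `D0 + N L` in every variable. So
`|Z| * prod (M i + 1) ≤ (D0 + N L + 1)^N ≤ ((N + 1) L)^N` and `prod M i * prod D i = L^N`. -/
theorem ref_bezout {ι : Type} [Fintype ι] [DecidableEq ι] (f : ι → MvPolynomial ι ℝ)
    (D : ι → ℕ) (hD1 : ∀ i, 1 ≤ D i) (hD : ∀ i j, degreeOf j (f i) ≤ D i)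
    (Z : Finset (ι → ℝ)) (hz : ∀ z ∈ Z, ∀ i, eval z (f i) = 0)
    (hnd : ∀ z ∈ Z, ∀ y : ι → ℝ, ∃ v : ι → ℝ, ∀ i,
      HasDerivAt (fun t : ℝ => eval (z + t • v) (f i)) (y i) 0) :
    Z.card ≤ (Fintype.card ι + 1) ^ Fintype.card ι * ∏ i, D i := by
  classical
  choose h hh1 hh2 using Warren46.exists_interp Z
  set D0 : ℕ := Z.sup (fun z => Finset.univ.sup (fun j => degreeOf j (h z))) with hD0
  have hD0le : ∀ z ∈ Z, ∀ j, degreeOf j (h z) ≤ D0 := by
    intro z hzZ j
    refine le_trans ?_ (Finset.le_sup (f := fun z => Finset.univ.sup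
      (fun j => degreeOf j (h z))) hzZ)
    exact Finset.le_sup (f := fun j => degreeOf j (h z)) (Finset.mem_univ j)
  set N : ℕ := Fintype.card ι with hN
  set P : ℕ := ∏ i, D i with hP
  set L : ℕ := (D0 + 1) * P with hL
  have hPpos : 0 < P := Finset.prod_pos fun i _ => hD1 i
  have hLpos : 0 < L := Nat.mul_pos (Nat.succ_pos _) hPpos
  have hdvd : ∀ i, D i ∣ L := fun i =>
    Dvd.dvd.mul_left (Finset.dvd_prod_of_mem D (Finset.mem_univ i)) _
  set Mi : ι → ℕ := fun i => L / D i with hMi
  have hMD : ∀ i, Mi i * D i = L := fun i => Nat.div_mul_cancel (hdvd i)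
  have hMpos : ∀ i, 0 < Mi i := by
    intro i
    rcases Nat.eq_zero_or_pos (Mi i) with h0 | h0
    · have := hMD i
      rw [h0, Nat.zero_mul] at this
      omega
    · exact h0
  have hML : ∀ i, Mi i ≤ L := fun i => Nat.div_le_self _ _
  set E : ℕ := D0 + N * L with hE
  let T : MvPolynomial ι ℝ →ₗ[ℝ] ((ι → Fin (E + 1)) → ℝ) :=
    { toFun := fun p b => coeff (Finsupp.equivFunOnFinite.symm (fun i => (b i : ℕ))) p
      map_add' := fun p q => by funext b; simp
      map_smul' := fun r p => by funext b; simp }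
  let s : Z × ((i : ι) → Fin (Mi i + 1)) → Z × (ι → Fin (L + 1)) :=
    fun x => (x.1, fun i => ⟨(x.2 i : ℕ), by
      have := (x.2 i).2
      have := hML i
      omega⟩)
  have hs : Function.Injective s := by
    rintro ⟨z, a⟩ ⟨z', a'⟩ hxy
    have h1 : z = z' := congrArg Prod.fst hxy
    have h2 := congrArg Prod.snd hxy
    subst h1
    have h3 : a = a' := by
      funext i
      have := congrArg Fin.val (congrFun h2 i)
      exact Fin.ext this
    rw [h3]
  let X : (Z × ((i : ι) → Fin (Mi i + 1)) → ℝ) →ₗ[ℝ] (Z × (ι → Fin (L + 1)) → ℝ) :=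
    Function.ExtendByZero.linearMap ℝ s
  have hXs : ∀ c x, X c (s x) = c x := by
    intro c x
    exact hs.extend_apply _ _ _
  have hX0 : ∀ c y, X c y ≠ 0 → ∀ i, ((y.2 i : Fin (L + 1)) : ℕ) ≤ Mi i := by
    intro c y hy i
    by_contra hcon
    apply hy
    have : ¬ ∃ x, s x = y := by
      rintro ⟨x, rfl⟩
      apply hcon
      exact Nat.lt_succ_iff.mp (x.2 i).2
    exact Function.extend_apply' _ _ _ this
  have hdeg : ∀ c, ∀ j, degreeOf j (Warren46.auxMap f h Z L (X c)) ≤ E := by
    intro c j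
    unfold Warren46.auxMap
    simp only [LinearMap.coe_mk, AddHom.coe_mk]
    refine le_trans (degreeOf_sum_le _ _ _) (Finset.sup_le fun x _ => ?_)
    by_cases hx : X c x = 0
    · rw [hx, zero_smul]; simp
    rw [MvPolynomial.smul_eq_C_mul]
    refine le_trans (degreeOf_C_mul_le _ _ _) (le_trans (degreeOf_mul_le _ _ _) ?_)
    refine add_le_add (hD0le x.1 x.1.2 j) ?_
    refine le_trans (degreeOf_prod_le _ _ _) ?_
    have : ∀ i ∈ (Finset.univ : Finset ι), degreeOf j (f i ^ (x.2 i : ℕ)) ≤ L := by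
      intro i _
      refine le_trans (degreeOf_pow_le _ _ _) ?_
      calc (x.2 i : ℕ) * degreeOf j (f i) ≤ Mi i * D i := Nat.mul_le_mul (hX0 c x hx i) (hD i j)
        _ = L := hMD i
    refine le_trans (Finset.sum_le_card_nsmul _ _ _ this) ?_
    rw [Finset.card_univ, smul_eq_mul]
  have hinj : Function.Injective (T ∘ₗ (Warren46.auxMap f h Z L) ∘ₗ X) := by
    rw [← LinearMap.ker_eq_bot, LinearMap.ker_eq_bot']
    intro c hc
    have hXc : X c = 0 := by
      apply Warren46.auxMap_injective f h Z L (fun z _ => hh1 z)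
        (fun z hzZ z' _ hne => hh2 z' z hzZ (Ne.symm hne)) hz hnd
      ext m
      rw [coeff_zero]
      by_cases hm : ∀ i, m i ≤ E
      · have h1 := congrFun hc (fun i => ⟨m i, Nat.lt_succ_of_le (hm i)⟩)
        have h2 : (Finsupp.equivFunOnFinite.symm (fun i => m i) : ι →₀ ℕ) = m := by
          ext i; rfl
        simp only [LinearMap.comp_apply, Pi.zero_apply] at h1
        change coeff (Finsupp.equivFunOnFinite.symm (fun i => m i))
          (Warren46.auxMap f h Z L (X c)) = 0 at h1
        rwa [h2] at h1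
      · push Not at hm
        obtain ⟨i, hi⟩ := hm
        by_contra hne
        have := degreeOf_le_iff.mp (hdeg c i) m (mem_support_iff.mpr hne)
        omega
    funext x
    rw [← hXs c x, hXc]
    rfl
  have hfin := LinearMap.finrank_le_finrank_of_injective hinj
  rw [Module.finrank_fintype_fun_eq_card, Module.finrank_fintype_fun_eq_card] at hfin
  simp only [Fintype.card_prod, Fintype.card_coe, Fintype.card_fun, Fintype.card_fin,
    Fintype.card_pi] at hfin
  have hL1 : D0 + 1 ≤ L := Nat.le_mul_of_pos_right _ hPpos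
  have hE' : E + 1 ≤ (N + 1) * L := by
    rw [hE, Nat.add_mul, Nat.one_mul]
    omega
  have hprod : (∏ i, Mi i) * P = L ^ N := by
    rw [hP, ← Finset.prod_mul_distrib, Finset.prod_congr rfl fun i _ => hMD i,
      Finset.prod_const, Finset.card_univ]
  have h1 : Z.card * (∏ i, Mi i) ≤ ((N + 1) ^ N * P) * (∏ i, Mi i) := by
    calc Z.card * (∏ i, Mi i) ≤ Z.card * ∏ i, (Mi i + 1) :=
          Nat.mul_le_mul_left _ (Finset.prod_le_prod' fun i _ => Nat.le_succ _)
      _ ≤ (E + 1) ^ N := hfin
      _ ≤ ((N + 1) * L) ^ N := Nat.pow_le_pow_left hE' N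
      _ = (N + 1) ^ N * L ^ N := mul_pow _ _ _
      _ = ((N + 1) ^ N * P) * (∏ i, Mi i) := by rw [← hprod]; ring
  exact Nat.le_of_mul_le_mul_right h1 (Finset.prod_pos fun i _ => hMpos i)

end Pool.Agent.RM90
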