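import Pool.Agent.Lib.MP_df59e7_lc.Defs

set_option autoImplicit false

/-! MP_df59e7_lc, module Zer. -/

namespace Pool.Agent.RM90

open MvPolynomial

/-- Nondegenerate zeros from alternating signs.
Proof: one-dimensional Sard: the set of critical values `{ψ t : t ∈ Ioo a b, deriv ψ t = 0}` is a
null set (`MeasureTheory.addHaar_image_eq_zero_of_det_fderivWithin_eq_zero` on `ℝ`, or
`addHaar_image_eq_zero...`), so some `δ ∈ (-1, 1)` is not a critical value. For consecutive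
points `t_l < t_{l+1}` the values are `±1`, so `ψ = δ` at some point of the open interval
`(t_l, t_{l+1})`; these `N` points are distinct. -/
theorem alternating {N : ℕ} (a b : ℝ) (ψ : ℝ → ℝ)
    (hψ : ∀ t ∈ Set.Ioo a b, DifferentiableAt ℝ ψ t) (t : Fin (N + 1) → ℝ)
    (ht : ∀ l, t l ∈ Set.Ioo a b) (hmono : StrictMono t)
    (hval : ∀ l, ψ (t l) = (-1) ^ (l : ℕ)) :
    ∃ δ : ℝ, ∃ Z : Finset ℝ, Z.card = N ∧
      ∀ z ∈ Z, z ∈ Set.Ioo a b ∧ ψ z = δ ∧ deriv ψ z ≠ 0 := by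
  classical
  have hsard : MeasureTheory.volume (ψ '' {x | x ∈ Set.Ioo a b ∧ deriv ψ x = 0}) = 0 := by
    refine MeasureTheory.addHaar_image_eq_zero_of_det_fderivWithin_eq_zero
      MeasureTheory.volume (f' := fun _ => (0 : ℝ →L[ℝ] ℝ)) (fun x hx => ?_) fun x _ => ?_
    · have h1 := (hψ x hx.1).hasDerivAt
      rw [hx.2] at h1
      have h2 := h1.hasFDerivAt
      have h3 : (ContinuousLinearMap.toSpanSingleton ℝ (0 : ℝ)) = (0 : ℝ →L[ℝ] ℝ) := by
        ext
        simp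
      rw [h3] at h2
      exact h2.hasFDerivWithinAt
    · have h1 : ((0 : ℝ →L[ℝ] ℝ)).det = LinearMap.det (0 : ℝ →ₗ[ℝ] ℝ) := rfl
      rw [h1, LinearMap.det_zero]
      simp
  obtain ⟨δ, hδ, hδn⟩ : ∃ δ ∈ Set.Ioo (-1 : ℝ) 1,
      δ ∉ ψ '' {x | x ∈ Set.Ioo a b ∧ deriv ψ x = 0} := by
    by_contra hcon
    push Not at hcon
    have h1 : MeasureTheory.volume (Set.Ioo (-1 : ℝ) 1) ≤
        MeasureTheory.volume (ψ '' {x | x ∈ Set.Ioo a b ∧ deriv ψ x = 0}) :=
      MeasureTheory.measure_mono hcon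
    rw [hsard, Real.volume_Ioo] at h1
    norm_num at h1
  have hpm : ∀ k : ℕ, ((-1 : ℝ)) ^ k ≠ δ := by
    intro k hk
    rcases neg_one_pow_eq_or ℝ k with h | h
    · rw [h] at hk
      exact absurd hk.symm hδ.2.ne
    · rw [h] at hk
      exact absurd hk hδ.1.ne
  have key : ∀ l : Fin N, ∃ z ∈ Set.Ioo (t l.castSucc) (t l.succ), ψ z = δ := by
    intro l
    have hlt : t l.castSucc < t l.succ := hmono (Fin.castSucc_lt_succ)
    have hc : ContinuousOn ψ (Set.uIcc (t l.castSucc) (t l.succ)) := by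
      rw [Set.uIcc_of_le hlt.le]
      intro x hx
      exact (hψ x ⟨(ht _).1.trans_le hx.1, hx.2.trans_lt (ht _).2⟩).continuousAt.continuousWithinAt
    have h1 : δ ∈ Set.uIcc (ψ (t l.castSucc)) (ψ (t l.succ)) := by
      rw [hval, hval, Fin.val_succ, Fin.val_castSucc, pow_succ, Set.mem_uIcc]
      rcases neg_one_pow_eq_or ℝ (l : ℕ) with h | h
      · rw [h]
        right
        exact ⟨by linarith [hδ.1], by linarith [hδ.2]⟩
      · rw [h]
        left
        exact ⟨by linarith [hδ.1], by linarith [hδ.2]⟩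
    obtain ⟨z, hz, hzδ⟩ := intermediate_value_uIcc hc h1
    rw [Set.uIcc_of_le hlt.le] at hz
    refine ⟨z, ⟨lt_of_le_of_ne hz.1 ?_, lt_of_le_of_ne hz.2 ?_⟩, hzδ⟩
    · intro h
      rw [← h, hval] at hzδ
      exact hpm _ hzδ
    · intro h
      rw [h, hval] at hzδ
      exact hpm _ hzδ
  choose z hz hzδ using key
  have hzm : StrictMono z := by
    intro l m hlm
    have h1 : l.succ ≤ m.castSucc := by
      rw [Fin.le_iff_val_le_val, Fin.val_succ, Fin.val_castSucc]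
      exact hlm
    exact (hz l).2.trans_le ((hmono.monotone h1).trans (hz m).1.le)
  refine ⟨δ, Finset.univ.image z, ?_, ?_⟩
  · rw [Finset.card_image_of_injective _ hzm.injective, Finset.card_univ, Fintype.card_fin]
  · intro x hx
    obtain ⟨l, -, rfl⟩ := Finset.mem_image.1 hx
    have h1 : z l ∈ Set.Ioo a b := ⟨(ht _).1.trans (hz l).1, (hz l).2.trans (ht _).2⟩
    exact ⟨h1, hzδ l, fun h => hδn ⟨z l, ⟨h1, h⟩, hzδ l⟩⟩

end Pool.Agent.RM90
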