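import Pool.Agent.Lib.MP_df59e7_lc.Defs
import Pool.Agent.Lib.MP_df59e7_lc.Cont
import Pool.Agent.Lib.MP_df59e7_lc.Ndg
import Pool.Agent.Lib.MP_df59e7_lc.Zer
import Pool.Agent.Lib.MP_df59e7_lc.Pts
import Pool.Agent.Lib.MP_df59e7_lc.RefBez
import Pool.Agent.Lib.MP_df59e7_lc.PolQ
import Pool.Agent.Lib.MP_df59e7_lc.AlgU
import Pool.Agent.Lib.MP_df59e7_lc.Inv

set_option autoImplicit false

/-! MP_df59e7_lc, module AlgArc. -/

namespace Pool.Agent.RM90

open MvPolynomial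

/-- Arcs lie on curves of small degree: main counting argument.
Proof: let `A = (n+1)^n * prod_j D j ≥ 1`, `m = 2 A + 1`, `u v` given. Suppose that for every
`c ≠ 0` (`c : Fin m × Fin m → ℝ`) the polynomial `p_c = qlin m c u v` does not vanish on the
whole component `B` of `x` (otherwise `qpol m c` is as desired: degree `≤ 2 (m-1) = 4 A`,
`eval_qlin`, `eval_qpol`, and pass to the closure). Take `ρ, s, V` from `loc_inv` for `H` at `x`
and `σ(t) = s (evm H x + t e_e)`, `|t| < ρ`. For `c ≠ 0`, `p_c ∘ σ` is not identically zero on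
`(-ρ, ρ)`, as the points of `Crv U H e ∩ V` are the `σ(t)` and by `continuation`. So
`exists_points` (with `N = m^2`, functions `(u ⬝ᵥ σ(t))^a (v ⬝ᵥ σ(t))^b`, indexed through an
equivalence `Fin (m*m) ≃ Fin m × Fin m`) gives `m^2` points and a `c` with
`p_c(σ(t_l)) = (-1)^l`. `alternating` gives `δ` and `m^2 - 1` points `t` with
`p_c(σ(t)) = δ` and nonzero derivative. By `ndg` the points `σ(t)` (distinct as
`evm H (σ t) = evm H x + t e_e`) are nondegenerate zeros of the system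
`Function.update H e (p_c - C δ)`, whose degrees are at most `D j` (`j ≠ e`) and `2 (m-1)`
(`degreeOf_le_totalDegree`). `ref_bezout`:
`m^2 - 1 ≤ (n+1)^n * prod_{j ≠ e} D j * 2 (m-1) ≤ 2 A (m - 1)`, i.e. `m + 1 ≤ 2 A`,
contradiction. -/
theorem alg_arc {n : ℕ} (U : Set (Fin n → ℝ)) (hU : IsOpen U)
    (H : Fin n → MvPolynomial (Fin n) ℝ) (e : Fin n) (D : Fin n → ℕ) (hD1 : ∀ j, 1 ≤ D j)
    (hD : ∀ j, j ≠ e → (H j).totalDegree ≤ D j) (x : Fin n → ℝ) (hx : x ∈ Crv U H e) :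
    Alg (4 * ((n + 1) ^ n * ∏ j, D j)) (closure (connectedComponentIn (Crv U H e) x)) := by
  classical
  apply alg_closure
  intro u v
  obtain ⟨A, hA⟩ : ∃ A : ℕ, A = (n + 1) ^ n * ∏ j, D j := ⟨_, rfl⟩
  have hApos : 0 < A := by
    rw [hA]
    exact Nat.mul_pos (pow_pos (Nat.succ_pos n) n) (Finset.prod_pos fun j _ => hD1 j)
  obtain ⟨m, hm⟩ : ∃ m : ℕ, m = 2 * A + 1 := ⟨_, rfl⟩
  rw [← hA]
  suffices hmain : ∃ c : Fin m × Fin m → ℝ, c ≠ 0 ∧
      ∀ y ∈ connectedComponentIn (Crv U H e) x, eval y (qlin m c u v) = 0 by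
    obtain ⟨c, hc, hcB⟩ := hmain
    refine ⟨qpol m c, qpol_ne_zero m c hc, (qpol_deg m c).trans (by omega), fun y hy => ?_⟩
    rw [eval_qpol, ← eval_qlin]
    exact hcB y hy
  by_contra hcon
  push Not at hcon
  obtain ⟨ρ, hρ, s, V, hVo, hxV, hVU, hVj, h1, h2, h3⟩ := loc_inv H U hU x hx.1 hx.2.2
  have hball : ∀ t : ℝ, |t| < ρ →
      evm H x + t • (Pi.single e 1 : Fin n → ℝ) ∈ Metric.ball (evm H x) ρ := by
    intro t ht
    rw [Metric.mem_ball, dist_pi_lt_iff hρ]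
    intro j
    rw [Pi.add_apply, Pi.smul_apply, Real.dist_eq, add_sub_cancel_left, smul_eq_mul]
    rcases eq_or_ne j e with rfl | hj
    · rwa [Pi.single_eq_same, mul_one]
    · rw [Pi.single_eq_of_ne hj, mul_zero, abs_zero]
      exact hρ
  obtain ⟨σ, hσ⟩ : ∃ σ : ℝ → (Fin n → ℝ),
      ∀ t, σ t = s (evm H x + t • (Pi.single e 1 : Fin n → ℝ)) := ⟨_, fun t => rfl⟩
  have hσev : ∀ t, |t| < ρ → evm H (σ t) = evm H x + t • (Pi.single e 1 : Fin n → ℝ) := by
    intro t ht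
    rw [hσ]
    exact (h2 _ (hball t ht)).2
  have hσC : ∀ t, |t| < ρ → σ t ∈ Crv U H e := by
    intro t ht
    have hV : σ t ∈ V := by
      rw [hσ]
      exact (h2 _ (hball t ht)).1
    refine ⟨hVU hV, fun j hj => ?_, hVj _ hV⟩
    have h4 := congrFun (hσev t ht) j
    rw [Pi.add_apply, Pi.smul_apply, Pi.single_eq_of_ne hj, smul_zero, add_zero] at h4
    have h5 : evm H x j = 0 := hx.2.1 j hj
    rw [h5] at h4
    exact h4
  have hkey : ∀ c : Fin m × Fin m → ℝ,
      (∀ t, |t| < ρ → eval (σ t) (qlin m c u v) = 0) → c = 0 := by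
    intro c hc
    by_contra hc0
    obtain ⟨y, hy, hy0⟩ := hcon c hc0
    refine hy0 (continuation U hU H e x hx _ ?_ y hy)
    have hVn : V ∈ nhdsWithin x (Crv U H e) := mem_nhdsWithin_of_mem_nhds (hVo.mem_nhds hxV)
    filter_upwards [hVn, self_mem_nhdsWithin] with y hyV hyC
    have h4 := h1 y hyV
    obtain ⟨t, ht⟩ : ∃ t : ℝ, t = evm H y e - evm H x e := ⟨_, rfl⟩
    have h5 : evm H y = evm H x + t • (Pi.single e 1 : Fin n → ℝ) := by
      funext j
      rw [Pi.add_apply, Pi.smul_apply, smul_eq_mul]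
      rcases eq_or_ne j e with rfl | hj
      · rw [Pi.single_eq_same, mul_one, ht]
        ring
      · rw [Pi.single_eq_of_ne hj, mul_zero, add_zero]
        exact (hyC.2.1 j hj).trans (hx.2.1 j hj).symm
    have h6 : |t| < ρ := by
      have := (dist_pi_lt_iff hρ).mp (Metric.mem_ball.mp h4.1) e
      rwa [Real.dist_eq, ← ht] at this
    have h7 := hc t h6
    rw [hσ, ← h5, h4.2] at h7
    exact h7
  obtain ⟨N, hN⟩ : ∃ N : ℕ, N = 4 * A * (A + 1) := ⟨_, rfl⟩
  have hcard : Fintype.card (Fin m × Fin m) = N + 1 := by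
    rw [Fintype.card_prod, Fintype.card_fin, hm, hN]
    ring
  let q : Fin m × Fin m ≃ Fin (N + 1) := Fintype.equivFinOfCardEq hcard
  have hsum : ∀ (c : Fin (N + 1) → ℝ) (y : Fin n → ℝ),
      eval y (qlin m (fun a => c (q a)) u v) = ∑ l, c l *
        ((u ⬝ᵥ y) ^ ((q.symm l).1 : ℕ) * (v ⬝ᵥ y) ^ ((q.symm l).2 : ℕ)) := by
    intro c y
    rw [eval_qlin, ← Equiv.sum_comp q]
    refine Finset.sum_congr rfl fun a _ => ?_
    rw [Equiv.symm_apply_apply]
  have hind : ∀ c : Fin (N + 1) → ℝ, (∀ t ∈ Set.Ioo (-ρ) ρ, ∑ l, c l *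
      ((u ⬝ᵥ σ t) ^ ((q.symm l).1 : ℕ) * (v ⬝ᵥ σ t) ^ ((q.symm l).2 : ℕ)) = 0) → c = 0 := by
    intro c hc
    have h4 : (fun a => c (q a)) = 0 := hkey _ fun t ht => by
      rw [hsum]
      exact hc t (abs_lt.mp ht)
    funext l
    have h5 := congrFun h4 (q.symm l)
    simpa using h5
  obtain ⟨t, htI, htm, hint⟩ := exists_points (N := N + 1)
    (fun l t => (u ⬝ᵥ σ t) ^ ((q.symm l).1 : ℕ) * (v ⬝ᵥ σ t) ^ ((q.symm l).2 : ℕ))
    (Set.Ioo (-ρ) ρ) hind
  obtain ⟨c, hc⟩ := hint (fun l => (-1) ^ (l : ℕ))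
  obtain ⟨p, hp⟩ : ∃ p, p = qlin m (fun a => c (q a)) u v := ⟨_, rfl⟩
  have hpdeg : p.totalDegree ≤ 4 * A := by
    rw [hp]
    refine (qlin_deg _ _ _ _).trans (by omega)
  have hσd : ∀ t ∈ Set.Ioo (-ρ) ρ, DifferentiableAt ℝ σ t := by
    intro t ht
    have h4 : DifferentiableAt ℝ s (evm H x + t • (Pi.single e 1 : Fin n → ℝ)) :=
      (h3 _ (hball t (abs_lt.mpr ht))).differentiableAt
    have h5 : DifferentiableAt ℝ (fun t : ℝ => evm H x + t • (Pi.single e 1 : Fin n → ℝ)) t := by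
      fun_prop
    have h6 := h4.comp t h5
    have h7 : σ = s ∘ (fun t : ℝ => evm H x + t • (Pi.single e 1 : Fin n → ℝ)) := funext hσ
    rwa [h7]
  have hdiff : ∀ t ∈ Set.Ioo (-ρ) ρ, DifferentiableAt ℝ (fun t => eval (σ t) p) t := by
    intro t ht
    exact (Warren46.hasFDerivAt_eval p (σ t)).differentiableAt.comp t (hσd t ht)
  have hval : ∀ l, eval (σ (t l)) p = (-1) ^ (l : ℕ) := by
    intro l
    rw [hp, hsum]
    exact hc l
  obtain ⟨δ, Z, hZc, hZ⟩ := alternating (-ρ) ρ (fun t => eval (σ t) p) hdiff t htI htm hval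
  have hinj : Set.InjOn σ (Z : Set ℝ) := by
    intro t₁ ht₁ t₂ ht₂ h4
    have h5 := hσev t₁ (abs_lt.mpr (hZ t₁ ht₁).1)
    have h6 := hσev t₂ (abs_lt.mpr (hZ t₂ ht₂).1)
    rw [h4, h6] at h5
    have h7 := congrFun h5 e
    simpa using h7.symm
  have hbez := ref_bezout (Function.update H e (p - C δ)) (Function.update D e (4 * A))
    (fun i => by
      rcases eq_or_ne i e with rfl | hi
      · rw [Function.update_self]
        omega
      · rw [Function.update_of_ne hi]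
        exact hD1 i)
    (fun i j => by
      rcases eq_or_ne i e with rfl | hi
      · rw [Function.update_self, Function.update_self]
        refine (degreeOf_le_totalDegree _ _).trans ((totalDegree_sub p (C δ)).trans ?_)
        rw [totalDegree_C]
        exact max_le hpdeg (Nat.zero_le _)
      · rw [Function.update_of_ne hi, Function.update_of_ne hi]
        exact (degreeOf_le_totalDegree _ _).trans (hD i hi))
    (Z.image σ)
    (fun z hz i => by
      obtain ⟨τ, hτ, rfl⟩ := Finset.mem_image.mp hz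
      rcases eq_or_ne i e with rfl | hi
      · rw [Function.update_self, map_sub, eval_C, sub_eq_zero]
        exact (hZ τ hτ).2.1
      · rw [Function.update_of_ne hi]
        exact (hσC τ (abs_lt.mpr (hZ τ hτ).1)).2.1 i hi)
    (fun z hz => by
      obtain ⟨τ, hτ, rfl⟩ := Finset.mem_image.mp hz
      have h4 := (hZ τ hτ).2.2
      have h5 : (fun t => eval (σ t) p) =
          fun t : ℝ => eval (s (evm H x + t • (Pi.single e 1 : Fin n → ℝ))) p := by
        funext t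
        rw [hσ]
      rw [h5] at h4
      rw [hσ τ]
      exact ndg H e x ρ s (fun y hy => (h2 y hy).2) h3 p δ τ (abs_lt.mpr (hZ τ hτ).1) h4)
  rw [Finset.card_image_of_injOn hinj, hZc, Fintype.card_fin,
    Finset.prod_update_of_mem (Finset.mem_univ e)] at hbez
  have hprod : ∏ j ∈ Finset.univ \ {e}, D j ≤ ∏ j, D j :=
    Finset.prod_le_prod_of_subset_of_one_le' (Finset.subset_univ _) fun j _ _ => hD1 j
  have hle : (n + 1) ^ n * (4 * A * ∏ j ∈ Finset.univ \ {e}, D j) ≤ 4 * A * A := by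
    calc (n + 1) ^ n * (4 * A * ∏ j ∈ Finset.univ \ {e}, D j)
        ≤ (n + 1) ^ n * (4 * A * ∏ j, D j) :=
          Nat.mul_le_mul_left _ (Nat.mul_le_mul_left _ hprod)
      _ = 4 * A * ((n + 1) ^ n * ∏ j, D j) := by ring
      _ = 4 * A * A := by rw [← hA]
  have h8 := hbez.trans hle
  rw [hN] at h8
  nlinarith

end Pool.Agent.RM90
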