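import Pool.Agent.Lib.MP_df59e7_lc.Defs

set_option autoImplicit false

/-! MP_df59e7_lc, module DegJ. -/

namespace Pool.Agent.RM90

open MvPolynomial

private theorem degJ_pderiv {n : ℕ} (P : MvPolynomial (Fin n) ℝ) (l : Fin n) :
    (pderiv l P).totalDegree ≤ P.totalDegree := by
  refine Finset.sup_le fun s hs => ?_
  have h1 : MvPolynomial.coeff (s + Finsupp.single l 1) P ≠ 0 := by
    intro h0
    rw [MvPolynomial.mem_support_iff, MvPolynomial.coeff_pderiv, h0, zero_mul] at hs
    exact hs rfl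
  have h2 := MvPolynomial.le_totalDegree (MvPolynomial.mem_support_iff.2 h1)
  rw [Finsupp.sum_add_index' (fun _ => rfl) (fun _ _ _ => rfl), Finsupp.sum_single_index rfl] at h2
  omega

private theorem degJ_sum (i m : ℕ) :
    2 * (∑ j ∈ Finset.range (i + m), if i ≤ j then 3 ^ (i + m - 1 - j) else 0) + 1 = 3 ^ m := by
  induction m with
  | zero => simp
  | succ m ih =>
    have h1 : ∀ j ∈ Finset.range (i + m), (if i ≤ j then 3 ^ (i + (m + 1) - 1 - j) else 0) =
        3 * (if i ≤ j then 3 ^ (i + m - 1 - j) else 0) := by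
      intro j hj
      rw [Finset.mem_range] at hj
      split_ifs with h2
      · have h3 : i + (m + 1) - 1 - j = (i + m - 1 - j) + 1 := by omega
        rw [h3, pow_succ]
        ring
      · rfl
    have h2 : i + (m + 1) = (i + m) + 1 := by ring
    rw [show Finset.range (i + (m + 1)) = Finset.range ((i + m) + 1) by rw [h2],
      Finset.sum_range_succ, Finset.sum_congr rfl h1, ← Finset.mul_sum,
      if_pos (Nat.le_add_right i m)]
    have h3 : i + (m + 1) - 1 - (i + m) = 0 := by omega
    rw [h3, pow_zero, pow_succ]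
    omega

/-- Degree of the square of the Jacobian.
Proof: the rows `j < i` of the Jacobian matrix are unit vectors, the entries of a row `j ≥ i`
have total degree at most `3^(n-1-j) d0`; every term of the determinant has total degree at most
`sum_{j ≥ i} 3^(n-1-j) d0`, and twice this sum is `(3^(n-i) - 1) d0`. -/
theorem deg_jac {n : ℕ} (i : ℕ) (hi : i ≤ n) (F : Fin n → MvPolynomial (Fin n) ℝ)
    (hstd : Std i F) (d0 : ℕ)
    (hd : ∀ j : Fin n, i ≤ (j : ℕ) → (F j).totalDegree ≤ 3 ^ (n - 1 - (j : ℕ)) * d0) :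
    ((jac F) ^ 2).totalDegree ≤ 3 ^ (n - i) * d0 := by
  obtain ⟨r, hr⟩ : ∃ r : ℕ → ℕ, r = fun j => if i ≤ j then 3 ^ (n - 1 - j) * d0 else 0 :=
    ⟨_, rfl⟩
  have hent : ∀ j l : Fin n, (pderiv l (F j)).totalDegree ≤ r j := by
    intro j l
    rw [hr]
    show _ ≤ if i ≤ (j : ℕ) then 3 ^ (n - 1 - (j : ℕ)) * d0 else 0
    split_ifs with h
    · exact (degJ_pderiv _ _).trans (hd j h)
    · rw [hstd j (not_le.1 h), pderiv_X]
      rcases eq_or_ne l j with rfl | hne
      · rw [Pi.single_eq_same, totalDegree_one]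
      · rw [Pi.single_eq_of_ne' hne, totalDegree_zero]
  have hdet : (jac F).totalDegree ≤ ∑ j : Fin n, r j := by
    unfold jac
    rw [Matrix.det_apply]
    refine totalDegree_finsetSum_le fun τ _ => ?_
    have h1 : (∏ k, (Matrix.of fun j l => pderiv l (F j)) (τ k) k).totalDegree ≤
        ∑ j : Fin n, r j := by
      refine (totalDegree_finsetProd _ _).trans ?_
      rw [← Equiv.sum_comp τ fun j : Fin n => r j]
      exact Finset.sum_le_sum fun k _ => hent (τ k) k
    have h2 : ∀ P : MvPolynomial (Fin n) ℝ,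
        (Equiv.Perm.sign τ • P).totalDegree ≤ P.totalDegree := by
      intro P
      rcases Int.units_eq_one_or (Equiv.Perm.sign τ) with h3 | h3
      · rw [h3, one_smul]
      · rw [h3, Units.neg_smul, one_smul, totalDegree_neg]
    exact (h2 _).trans h1
  refine (totalDegree_pow _ _).trans ((Nat.mul_le_mul_left 2 hdet).trans ?_)
  obtain ⟨m, hm⟩ : ∃ m, n = i + m := ⟨n - i, by omega⟩
  have h1 : ∑ j : Fin n, r j =
      (∑ j ∈ Finset.range (i + m), if i ≤ j then 3 ^ (i + m - 1 - j) else 0) * d0 := by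
    rw [Fin.sum_univ_eq_sum_range r n, hm, Finset.sum_mul, hr, hm]
    refine Finset.sum_congr rfl fun j _ => ?_
    rw [ite_mul, zero_mul]
  have h2 := degJ_sum i m
  have h3 : n - i = m := by omega
  rw [h1, h3, ← mul_assoc]
  refine Nat.mul_le_mul_right d0 ?_
  omega

/-- Degree of the linear form. -/
theorem deg_lf {n : ℕ} (i : ℕ) (c : Fin n → ℝ) : (lf i c).totalDegree ≤ 1 := by
  unfold lf
  refine totalDegree_finsetSum_le fun j _ => ?_
  split_ifs
  · rw [totalDegree_C]
    exact Nat.zero_le 1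
  · refine (totalDegree_mul _ _).trans ?_
    rw [totalDegree_C, totalDegree_X]
  · rw [totalDegree_zero]
    exact Nat.zero_le 1

end Pool.Agent.RM90
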