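import Pool.Agent.Lib.MP_df59e7_lc.Defs

set_option autoImplicit false

/-! MP_df59e7_lc, module LamC. -/

namespace Pool.Agent.RM90

open MvPolynomial

private theorem lamC_eval {n : ℕ} (p : MvPolynomial (Fin n) ℝ) :
    ContDiff ℝ 1 (fun w : Fin n → ℝ => eval w p) := by
  induction p using MvPolynomial.induction_on with
  | C a => simpa using contDiff_const
  | add p q hp hq => simpa using hp.add hq
  | mul_X p i hp => simpa using hp.mul (contDiff_apply ℝ ℝ i)

private theorem lamC_Jm {n : ℕ} (F : Fin n → MvPolynomial (Fin n) ℝ) (w : Fin n → ℝ) :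
    Jm F w = (eval w).mapMatrix (Matrix.of fun j l => pderiv l (F j)) := by
  ext j l
  simp [Jm]

private theorem lamC_lam {n : ℕ} (F : Fin n → MvPolynomial (Fin n) ℝ)
    (G : MvPolynomial (Fin n) ℝ) (w : Fin n → ℝ) (a : Fin n) :
    lam F G w a = (eval w (jac F))⁻¹ *
      eval w (∑ l : Fin n, pderiv l G *
        (Matrix.of fun j l => pderiv l (F j)).adjugate l a) := by
  have h1 : (Jm F w)⁻¹ = (eval w (jac F))⁻¹ •
      (eval w).mapMatrix (Matrix.of fun j l => pderiv l (F j)).adjugate := by
    rw [Matrix.inv_def, Ring.inverse_eq_inv', lamC_Jm, ← RingHom.map_det, RingHom.map_adjugate]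
    rfl
  unfold lam
  rw [h1, Matrix.vecMul_smul, Pi.smul_apply, smul_eq_mul, map_sum]
  congr 1
  simp only [Matrix.vecMul, dotProduct, RingHom.mapMatrix_apply, Matrix.map_apply, map_mul]

private theorem lamC_lam_cda {n : ℕ} (F : Fin n → MvPolynomial (Fin n) ℝ)
    (G : MvPolynomial (Fin n) ℝ) (w : Fin n → ℝ) (hj : eval w (jac F) ≠ 0) (a : Fin n) :
    ContDiffAt ℝ 1 (fun w => lam F G w a) w := by
  simp only [lamC_lam]
  exact ((lamC_eval _).contDiffAt.inv hj).mul (lamC_eval _).contDiffAt

/-- The auxiliary map `TT i F G` is strictly differentiable (even `C^1`, analytic) wherever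
`jac F` does not vanish.
Proof: `lam F G w a = sum_l (pderiv l G)(w) * (Jm F w)⁻¹ l a` and the inverse matrix is
`(det)⁻¹ * adjugate`, whose entries are polynomials in the entries of `Jm F w`, i.e. polynomial
functions of `w`; `det (Jm F w) = eval w (jac F)` (`RingHom.map_det`). -/
theorem tt_contDiffAt {n : ℕ} (i : ℕ) (F : Fin n → MvPolynomial (Fin n) ℝ)
    (G : MvPolynomial (Fin n) ℝ) (w : Fin n → ℝ) (hj : eval w (jac F) ≠ 0) :
    ContDiffAt ℝ 1 (TT i F G) w := by
  rw [contDiffAt_pi]
  intro j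
  unfold TT
  by_cases h1 : i ≤ (j : ℕ)
  · simp only [if_pos h1]
    exact (lamC_eval _).contDiffAt
  · simp only [if_neg h1]
    by_cases h2 : (j : ℕ) = 0
    · simp only [if_pos h2]
      refine (lamC_eval _).contDiffAt.sub (ContDiffAt.sum fun l _ => ?_)
      by_cases h3 : 1 ≤ (l : ℕ) ∧ (l : ℕ) < i
      · simp only [if_pos h3]
        exact (contDiff_apply ℝ ℝ l).contDiffAt.mul (lamC_lam_cda F G w hj l)
      · simp only [if_neg h3]
        exact contDiffAt_const
    · simp only [if_neg h2]
      exact lamC_lam_cda F G w hj j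

end Pool.Agent.RM90
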