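import Pool.Agent.Lib.MP_df59e7_lc.Defs
import Pool.Agent.Lib.MP_df59e7_lc.Inv

set_option autoImplicit false

/-! MP_df59e7_lc, module Move. -/

namespace Pool.Agent.RM90

open MvPolynomial

/-- Moving down in the last free coordinate.
Proof: `ρ, s, V` from `loc_inv` for `F, U` at `z`;
`N = {s (evm F z + t e_e) : |t| < ρ}` (continuous image of an interval). `evm F` of such a point
has the components `F_j = 0` for `j ≥ i`, `z_j` for `j < i`, `j ≠ e`, and `z_e + t` for `j = e`. -/
theorem move {n : ℕ} (i : ℕ) (e : Fin n) (he : (e : ℕ) + 1 = i)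
    (F : Fin n → MvPolynomial (Fin n) ℝ) (hstd : Std i F)
    (U : Set (Fin n → ℝ)) (hU : IsOpen U) (z : Fin n → ℝ) (hz : z ∈ Est U i F)
    (hj : eval z (jac F) ≠ 0) :
    ∃ N : Set (Fin n → ℝ), IsPreconnected N ∧ z ∈ N ∧
      (∀ y ∈ N, y ∈ Est U i F ∧ prj i y = prj i z ∧ eval y (jac F) ≠ 0) ∧
      ∃ y ∈ N, y e < z e := by
  obtain ⟨ρ, hρ, s, V, hVo, hzV, hVU, hVj, hVs, hsV, han⟩ := loc_inv F U hU z hz.1 hj
  set p : ℝ → Fin n → ℝ := fun t => Function.update (evm F z) e (evm F z e + t) with hp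
  have hpb : ∀ t, |t| < ρ → p t ∈ Metric.ball (evm F z) ρ := by
    intro t ht
    rw [Metric.mem_ball, dist_pi_lt_iff hρ]
    intro j
    simp only [hp]
    by_cases hje : j = e
    · subst hje
      rw [Function.update_self, Real.dist_eq, add_sub_cancel_left]
      exact ht
    · rw [Function.update_of_ne hje, dist_self]
      exact hρ
  have hIoo : ∀ t ∈ Set.Ioo (-ρ) ρ, |t| < ρ := fun t ht => abs_lt.2 ht
  have hpc : Continuous p := by
    refine continuous_pi fun j => ?_
    simp only [hp]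
    by_cases hje : j = e
    · subst hje
      simp only [Function.update_self]
      fun_prop
    · simp only [Function.update_of_ne hje]
      exact continuous_const
  have hsc : ContinuousOn (fun t => s (p t)) (Set.Ioo (-ρ) ρ) :=
    han.continuousOn.comp hpc.continuousOn fun t ht => hpb t (hIoo t ht)
  have h0 : (0 : ℝ) ∈ Set.Ioo (-ρ) ρ := ⟨by linarith, hρ⟩
  have hp0 : p 0 = evm F z := by
    simp only [hp, add_zero, Function.update_eq_self]
  have hz0 : s (p 0) = z := by
    rw [hp0]
    exact (hVs z hzV).2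
  refine ⟨(fun t => s (p t)) '' Set.Ioo (-ρ) ρ, isPreconnected_Ioo.image _ hsc,
    ⟨0, h0, hz0⟩, ?_, ?_⟩
  · rintro y ⟨t, ht, rfl⟩
    obtain ⟨h1, h2⟩ := hsV (p t) (hpb t (hIoo t ht))
    have h3 : ∀ j, j ≠ e → eval (s (p t)) (F j) = eval z (F j) := by
      intro j hje
      have h4 := congrFun h2 j
      simp only [hp] at h4
      rw [Function.update_of_ne hje] at h4
      exact h4
    refine ⟨⟨hVU h1, fun j hji => ?_⟩, ?_, hVj _ h1⟩
    · show eval (s (p t)) (F j) = 0
      rw [h3 j (by rintro rfl; omega)]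
      exact hz.2 j hji
    · funext j
      unfold prj
      by_cases hji : (j : ℕ) + 1 < i
      · rw [if_pos hji, if_pos hji]
        have h4 := h3 j (by rintro rfl; omega)
        rw [hstd j (by omega), eval_X, eval_X] at h4
        exact h4
      · rw [if_neg hji, if_neg hji]
  · have ht : -(ρ / 2) ∈ Set.Ioo (-ρ) ρ := ⟨by linarith, by linarith⟩
    refine ⟨s (p (-(ρ / 2))), ⟨_, ht, rfl⟩, ?_⟩
    obtain ⟨h1, h2⟩ := hsV (p (-(ρ / 2))) (hpb _ (hIoo _ ht))
    have h4 := congrFun h2 e
    have h5 : ∀ x : Fin n → ℝ, evm F x e = x e := by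
      intro x
      show eval x (F e) = x e
      rw [hstd e (by omega), eval_X]
    simp only [hp] at h4
    rw [Function.update_self, h5, h5] at h4
    simp only [hp]
    rw [h5, h4]
    linarith

end Pool.Agent.RM90
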