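import Pool.Agent.Lib.MP_df59e7_lc.Defs
import Pool.Agent.Lib.MP_df59e7_lc.Move

set_option autoImplicit false

/-! MP_df59e7_lc, module Meet. -/

namespace Pool.Agent.RM90

open MvPolynomial

private theorem Meet_cont_prj {n : ℕ} (i : ℕ) : Continuous (prj (n := n) i) := by
  unfold prj
  refine continuous_pi fun j => ?_
  by_cases h : (j : ℕ) + 1 < i
  · simp only [if_pos h]
    exact continuous_apply j
  · simp only [if_neg h]
    exact continuous_const

private theorem Meet_fib_closed {n : ℕ} (i : ℕ) (c : Fin n → ℝ) :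
    IsClosed (prj (n := n) i ⁻¹' {c}) :=
  isClosed_singleton.preimage (Meet_cont_prj i)

private theorem Meet_comp_closed {X : Type*} [TopologicalSpace X] {S : Set X} (hS : IsClosed S)
    {x : X} (hx : x ∈ S) : IsClosed (connectedComponentIn S x) := by
  refine isClosed_of_closure_subset ?_
  exact isPreconnected_connectedComponentIn.closure.subset_connectedComponentIn
    (subset_closure (mem_connectedComponentIn hx))
    (closure_minimal (connectedComponentIn_subset S x) hS)

/-- Every component of a fibre of `prj i` on a compact `Est U i F` contains a critical point.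
Proof: the fibre `Est U i F ∩ prj i ⁻¹' {prj i x}` is compact, so its component `G` of `x` is
compact; let `z` be a point of `G` with minimal coordinate `z_e`. If `jac F (z) ≠ 0`, the set `N`
of `move` is contained in `G` and contains a point with smaller coordinate `e`. -/
theorem meet {n : ℕ} (i : ℕ) (e : Fin n) (he : (e : ℕ) + 1 = i)
    (F : Fin n → MvPolynomial (Fin n) ℝ) (hstd : Std i F)
    (U : Set (Fin n → ℝ)) (hU : IsOpen U) (hc : IsCompact (Est U i F))
    (x : Fin n → ℝ) (hx : x ∈ Est U i F) :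
    (connectedComponentIn (Est U i F ∩ prj i ⁻¹' {prj i x}) x ∩
      {z | eval z (jac F) = 0}).Nonempty := by
  have hSc : IsCompact (Est U i F ∩ prj i ⁻¹' {prj i x}) :=
    hc.inter_right (Meet_fib_closed i _)
  have hxS : x ∈ Est U i F ∩ prj i ⁻¹' {prj i x} := ⟨hx, rfl⟩
  have hGc : IsCompact (connectedComponentIn (Est U i F ∩ prj i ⁻¹' {prj i x}) x) :=
    hSc.of_isClosed_subset (Meet_comp_closed hSc.isClosed hxS) (connectedComponentIn_subset _ _)
  obtain ⟨z, hzG, hzmin⟩ := hGc.exists_isMinOn ⟨x, mem_connectedComponentIn hxS⟩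
    (f := fun y : Fin n → ℝ => y e) (continuous_apply e).continuousOn
  by_cases hj : eval z (jac F) = 0
  · exact ⟨z, hzG, hj⟩
  exfalso
  have hzS := connectedComponentIn_subset _ _ hzG
  obtain ⟨N, hN, hzN, hNs, y, hyN, hy⟩ := move i e he F hstd U hU z hzS.1 hj
  have hzx : prj i z = prj i x := hzS.2
  have hNG : N ⊆ connectedComponentIn (Est U i F ∩ prj i ⁻¹' {prj i x}) z :=
    hN.subset_connectedComponentIn hzN fun w hw => ⟨(hNs w hw).1, by
      rw [Set.mem_preimage, Set.mem_singleton_iff, (hNs w hw).2.1, hzx]⟩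
  rw [← connectedComponentIn_eq hzG] at hNG
  have h1 : z e ≤ y e := hzmin (hNG hyN)
  exact absurd hy (not_lt.2 h1)

/-- The arc through a nonsingular point.
Proof: let `A` be the component in `{y ∈ Est U i F | prj i y = prj i x ∧ jac F (y) ≠ 0}`, its
closure is `Gam`. `A` is preconnected, contained in the compact fibre. If `jac F` had no zero on
`Gam`, `Gam` would be a preconnected subset of that set containing `x`, so `Gam ⊆ A`; take a
point `z` of `Gam` with minimal coordinate `z_e` and apply `move`: `N ⊆ A`, contradiction. -/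
theorem arc {n : ℕ} (i : ℕ) (e : Fin n) (he : (e : ℕ) + 1 = i)
    (F : Fin n → MvPolynomial (Fin n) ℝ) (hstd : Std i F)
    (U : Set (Fin n → ℝ)) (hU : IsOpen U) (hc : IsCompact (Est U i F))
    (x : Fin n → ℝ) (hx : x ∈ Est U i F) (hj : eval x (jac F) ≠ 0) :
    IsCompact (Gam U i F x) ∧ IsPreconnected (Gam U i F x) ∧ x ∈ Gam U i F x ∧
      Gam U i F x ⊆ Est U i F ∩ prj i ⁻¹' {prj i x} ∧
      (Gam U i F x ∩ {z | eval z (jac F) = 0}).Nonempty := by
  have hSc : IsCompact (Est U i F ∩ prj i ⁻¹' {prj i x}) :=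
    hc.inter_right (Meet_fib_closed i _)
  have hxT : x ∈ {y | y ∈ Est U i F ∧ prj i y = prj i x ∧ eval y (jac F) ≠ 0} := ⟨hx, rfl, hj⟩
  have hsub : Gam U i F x ⊆ Est U i F ∩ prj i ⁻¹' {prj i x} :=
    closure_minimal (fun y hy => by
      have h1 := connectedComponentIn_subset _ _ hy
      exact ⟨h1.1, h1.2.1⟩) hSc.isClosed
  have hGc : IsCompact (Gam U i F x) := hSc.of_isClosed_subset isClosed_closure hsub
  have hGp : IsPreconnected (Gam U i F x) := isPreconnected_connectedComponentIn.closure
  have hxG : x ∈ Gam U i F x := subset_closure (mem_connectedComponentIn hxT)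
  refine ⟨hGc, hGp, hxG, hsub, ?_⟩
  by_contra hne
  rw [Set.not_nonempty_iff_eq_empty] at hne
  have hj0 : ∀ y ∈ Gam U i F x, eval y (jac F) ≠ 0 := by
    intro y hy h0
    have h1 : y ∈ Gam U i F x ∩ {z | eval z (jac F) = 0} := ⟨hy, h0⟩
    rw [hne] at h1
    exact h1
  have hGA : Gam U i F x ⊆
      connectedComponentIn {y | y ∈ Est U i F ∧ prj i y = prj i x ∧ eval y (jac F) ≠ 0} x :=
    hGp.subset_connectedComponentIn hxG fun y hy => ⟨(hsub hy).1, (hsub hy).2, hj0 y hy⟩
  obtain ⟨z, hzG, hzmin⟩ := hGc.exists_isMinOn ⟨x, hxG⟩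
    (f := fun y : Fin n → ℝ => y e) (continuous_apply e).continuousOn
  have hzx : prj i z = prj i x := (hsub hzG).2
  obtain ⟨N, hN, hzN, hNs, y, hyN, hy⟩ := move i e he F hstd U hU z (hsub hzG).1 (hj0 z hzG)
  have hNA : N ⊆
      connectedComponentIn {y | y ∈ Est U i F ∧ prj i y = prj i x ∧ eval y (jac F) ≠ 0} z :=
    hN.subset_connectedComponentIn hzN fun w hw =>
      ⟨(hNs w hw).1, (hNs w hw).2.1.trans hzx, (hNs w hw).2.2⟩
  rw [← connectedComponentIn_eq (hGA hzG)] at hNA
  have h1 : z e ≤ y e := hzmin (subset_closure (hNA hyN))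
  exact absurd hy (not_lt.2 h1)

end Pool.Agent.RM90
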