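import Pool.Agent.Lib.MP_df59e7_lc.Defs

set_option autoImplicit false

/-! MP_df59e7_lc, module LamF. -/

namespace Pool.Agent.RM90

open MvPolynomial

/-- `dG = sum_a lam_a dF_a`.
Proof: `vecMul (vecMul g J⁻¹) J = g` as `det J = eval w (jac F) ≠ 0` (`RingHom.map_det`). -/
theorem grad_eq {n : ℕ} (F : Fin n → MvPolynomial (Fin n) ℝ) (G : MvPolynomial (Fin n) ℝ)
    (w : Fin n → ℝ) (hj : eval w (jac F) ≠ 0) (l : Fin n) :
    eval w (pderiv l G) = ∑ a, lam F G w a * eval w (pderiv l (F a)) := by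
  have h1 : (Jm F w).det = eval w (jac F) := by
    unfold jac
    rw [RingHom.map_det]
    rfl
  have h2 : IsUnit (Jm F w).det := by
    rw [h1]
    exact isUnit_iff_ne_zero.2 hj
  have h3 : Matrix.vecMul (lam F G w) (Jm F w) = fun l => eval w (pderiv l G) := by
    rw [lam, Matrix.vecMul_vecMul, Matrix.nonsing_inv_mul _ h2, Matrix.vecMul_one]
  have h4 := congrFun h3 l
  rw [← h4]
  rfl

/-- `dh = sum_a (lam_a - v_a) dF_a` for `h = G - lf i c`.
Proof: `pderiv l (lf i c) = C (vv i c l)` and `F a = X a` for `a < i`, `vv i c a = 0` for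
`a ≥ i` and for `a = 0`. -/
theorem grad_h {n : ℕ} (i : ℕ) (F : Fin n → MvPolynomial (Fin n) ℝ) (hstd : Std i F)
    (G : MvPolynomial (Fin n) ℝ) (c w : Fin n → ℝ) (hj : eval w (jac F) ≠ 0) (l : Fin n) :
    eval w (pderiv l (G - lf i c)) =
      ∑ a, (lam F G w a - vv i c a) * eval w (pderiv l (F a)) := by
  have h1 : eval w (pderiv l (lf i c)) = ∑ a, vv i c a * eval w (pderiv l (F a)) := by
    unfold lf
    rw [map_sum, map_sum]
    refine Finset.sum_congr rfl fun a _ => ?_
    unfold vv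
    split_ifs with h2 h3
    · rw [pderiv_C, map_zero, zero_mul]
    · rw [hstd a h3, pderiv_C_mul, map_mul, eval_C]
    · rw [map_zero, map_zero, zero_mul]
  rw [map_sub, map_sub, grad_eq F G w hj l, h1, ← Finset.sum_sub_distrib]
  exact Finset.sum_congr rfl fun a _ => (sub_mul _ _ _).symm

/-- Value of the linear form. Proof: definition, `0 : Fin n` is the only index with value 0. -/
theorem eval_lf {n : ℕ} [NeZero n] (i : ℕ) (c w : Fin n → ℝ) :
    eval w (lf i c) = c 0 +
      ∑ l : Fin n, (if 1 ≤ (l : ℕ) ∧ (l : ℕ) < i then w l * c l else 0) := by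
  have h1 : c 0 = ∑ l : Fin n, if (0 : Fin n) = l then c l else 0 := by
    rw [Finset.sum_ite_eq]
    simp
  unfold lf
  rw [h1, ← Finset.sum_add_distrib, map_sum]
  refine Finset.sum_congr rfl fun a _ => ?_
  by_cases h2 : (a : ℕ) = 0
  · have h3 : (0 : Fin n) = a := by
      apply Fin.ext
      rw [h2]
      simp
    rw [if_pos h2, if_pos h3, if_neg (by omega), eval_C, add_zero]
  · have h3 : ¬ (0 : Fin n) = a := by
      intro h4
      apply h2
      rw [← h4]
      simp
    rw [if_neg h2, if_neg h3, zero_add]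
    by_cases h4 : (a : ℕ) < i
    · rw [if_pos h4, if_pos ⟨by omega, h4⟩, map_mul, eval_C, eval_X, mul_comm]
    · rw [if_neg h4, if_neg (fun h => h4 h.2), map_zero]

end Pool.Agent.RM90
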