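import Pool.Agent.Lib.MP_df59e7_lc.Defs
import Pool.Agent.Lib.MP_df59e7_lc.LamF

set_option autoImplicit false

/-! MP_df59e7_lc, module Par. -/

namespace Pool.Agent.RM90

open MvPolynomial

/-- Choice of small generic parameters.
Proof: the set of all `c` with `|c_j| < δ'` for all `j`, and `c_0 > R' * sum_{j ≠ 0} |c_j|`,
where `R' = max R 0` and `δ' ≤ δ` is so small that `c_0 + R' sum |c_j| < δ`, is open and
nonempty (it contains `c = (δ'/2, 0, ..., 0)`), so it has positive measure and meets the set of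
full measure `{c | P c}` (`MeasureTheory.ae_iff`, `IsOpen.measure_pos`). Use `eval_lf`. -/
theorem exists_par {n : ℕ} [NeZero n] (i : ℕ) (P : (Fin n → ℝ) → Prop)
    (hP : ∀ᵐ c : Fin n → ℝ, P c) (R δ : ℝ) (hδ : 0 < δ) :
    ∃ c : Fin n → ℝ, P c ∧ (∀ j, |c j| < δ) ∧
      ∀ x : Fin n → ℝ, (∀ j, |x j| ≤ R) → 0 < eval x (lf i c) ∧ eval x (lf i c) < δ := by
  classical
  have hR0 : 0 ≤ max R 0 := le_max_right _ _
  set S : (Fin n → ℝ) → ℝ := fun c => ∑ j : Fin n, (if (j : ℕ) = 0 then 0 else |c j|) with hS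
  have hSc : Continuous S := by
    rw [hS]
    refine continuous_finsetSum _ fun j _ => ?_
    split_ifs
    · exact continuous_const
    · exact (continuous_apply j).abs
  set O : Set (Fin n → ℝ) := {c | (∀ j, |c j| < δ) ∧ max R 0 * S c < c 0 ∧
    c 0 + max R 0 * S c < δ} with hO
  have hOo : IsOpen O := by
    have h1 : O = (⋂ j, {c : Fin n → ℝ | |c j| < δ}) ∩
        ({c | max R 0 * S c < c 0} ∩ {c | c 0 + max R 0 * S c < δ}) := by
      ext c
      rw [hO, Set.mem_inter_iff, Set.mem_inter_iff, Set.mem_iInter]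
      rfl
    rw [h1]
    refine IsOpen.inter (isOpen_iInter_of_finite fun j =>
      isOpen_lt (continuous_apply j).abs continuous_const) (IsOpen.inter ?_ ?_)
    · exact isOpen_lt (continuous_const.mul hSc) (continuous_apply 0)
    · exact isOpen_lt ((continuous_apply 0).add (continuous_const.mul hSc)) continuous_const
  have hOn : O.Nonempty := by
    refine ⟨fun j => if (j : ℕ) = 0 then δ / 2 else 0, ?_⟩
    have h0 : S (fun j : Fin n => if (j : ℕ) = 0 then δ / 2 else 0) = 0 := by
      rw [hS]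
      refine Finset.sum_eq_zero fun j _ => ?_
      by_cases hj : (j : ℕ) = 0
      · rw [if_pos hj]
      · rw [if_neg hj]
        beta_reduce
        rw [if_neg hj, abs_zero]
    have h00 : ((0 : Fin n) : ℕ) = 0 := by simp
    rw [hO]
    refine ⟨fun j => ?_, ?_, ?_⟩
    · beta_reduce
      split_ifs
      · rw [abs_of_pos (by linarith)]
        linarith
      · rw [abs_zero]
        exact hδ
    · rw [h0]
      beta_reduce
      rw [if_pos h00, mul_zero]
      linarith
    · rw [h0]
      beta_reduce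
      rw [if_pos h00, mul_zero]
      linarith
  have hpos : 0 < MeasureTheory.volume O := hOo.measure_pos _ hOn
  have hex : ∃ c ∈ O, P c := by
    by_contra hcon
    push Not at hcon
    have h1 : O ⊆ {c | ¬ P c} := fun c hc => hcon c hc
    have h2 : MeasureTheory.volume {c : Fin n → ℝ | ¬ P c} = 0 := MeasureTheory.ae_iff.1 hP
    have h3 := MeasureTheory.measure_mono_null h1 h2
    rw [h3] at hpos
    exact lt_irrefl _ hpos
  obtain ⟨c, ⟨hc1, hc2, hc3⟩, hPc⟩ := hex
  refine ⟨c, hPc, hc1, fun x hx => ?_⟩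
  have hb : |∑ l : Fin n, (if 1 ≤ (l : ℕ) ∧ (l : ℕ) < i then x l * c l else 0)| ≤
      max R 0 * S c := by
    rw [hS, Finset.mul_sum]
    refine (Finset.abs_sum_le_sum_abs _ _).trans (Finset.sum_le_sum fun l _ => ?_)
    by_cases hl : (l : ℕ) = 0
    · rw [if_neg (by omega), if_pos hl, abs_zero, mul_zero]
    · rw [if_neg hl]
      split_ifs
      · rw [abs_mul]
        exact mul_le_mul_of_nonneg_right ((hx l).trans (le_max_left _ _)) (abs_nonneg _)
      · rw [abs_zero]
        exact mul_nonneg hR0 (abs_nonneg _)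
  have hb' := abs_le.1 hb
  rw [eval_lf]
  constructor
  · linarith [hb'.1]
  · linarith [hb'.2]

end Pool.Agent.RM90
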