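import Pool.Agent.Lib.MP_df59e7_lc.Defs
import Pool.Agent.Lib.MP_df59e7_lc.Inv
import Pool.Agent.Lib.MP_df59e7_lc.LamC

set_option autoImplicit false

/-! MP_df59e7_lc, module Sard. -/

namespace Pool.Agent.RM90

open MvPolynomial

/-- Projection to the coordinates below `i`. -/
private noncomputable def Sard_pi (n i : ℕ) : (Fin n → ℝ) →L[ℝ] (Fin n → ℝ) :=
  ContinuousLinearMap.pi fun j =>
    if (j : ℕ) < i then ContinuousLinearMap.proj j else 0

private theorem Sard_pi_lt {n i : ℕ} (y : Fin n → ℝ) (j : Fin n) (hj : (j : ℕ) < i) :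
    Sard_pi n i y j = y j := by
  simp [Sard_pi, hj]

private theorem Sard_pi_ge {n i : ℕ} (y : Fin n → ℝ) (j : Fin n) (hj : i ≤ (j : ℕ)) :
    Sard_pi n i y j = 0 := by
  simp [Sard_pi, Nat.not_lt.mpr hj]

private theorem Sard_det_ne {n : ℕ} (A : (Fin n → ℝ) →L[ℝ] (Fin n → ℝ)) (hA : A.det ≠ 0)
    (v : Fin n → ℝ) (hv : A v = 0) : v = 0 := by
  have h1 : LinearMap.det (A : (Fin n → ℝ) →ₗ[ℝ] (Fin n → ℝ)) ≠ 0 := hA
  have h2 : Function.Injective (A : (Fin n → ℝ) →ₗ[ℝ] (Fin n → ℝ)) := by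
    have h3 : IsUnit (A : (Fin n → ℝ) →ₗ[ℝ] (Fin n → ℝ)) :=
      LinearMap.isUnit_iff_isUnit_det _ |>.mpr (isUnit_iff_ne_zero.mpr h1)
    exact ((Module.End.isUnit_iff _).mp h3).1
  apply h2
  simpa using hv

/-- The local form. -/
private theorem Sard_loc {n : ℕ} (i : ℕ) (F : Fin n → MvPolynomial (Fin n) ℝ)
    (G : MvPolynomial (Fin n) ℝ) (w0 : Fin n → ℝ) (hj0 : eval w0 (jac F) ≠ 0) :
    ∃ V : Set (Fin n → ℝ), IsOpen V ∧ w0 ∈ V ∧ ∀ᵐ c : Fin n → ℝ, ∀ w ∈ V,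
      (∀ j : Fin n, i ≤ (j : ℕ) → eval w (F j) = 0) →
      (∀ j : Fin n, (j : ℕ) < i → TT i F G w j = c j) →
      ∃ L : (Fin n → ℝ) ≃L[ℝ] (Fin n → ℝ),
        HasStrictFDerivAt (TT i F G) (L : (Fin n → ℝ) →L[ℝ] (Fin n → ℝ)) w := by
  obtain ⟨ρ, hρ, s, V, hVo, hwV, -, hVj, hV1, hV2, hs⟩ :=
    loc_inv F Set.univ isOpen_univ w0 (Set.mem_univ _) hj0
  refine ⟨V, hVo, hwV, ?_⟩
  -- the map in the coordinates `evm F`
  obtain ⟨T, hT⟩ : ∃ T : (Fin n → ℝ) → (Fin n → ℝ), T = fun y => TT i F G (s y) := ⟨_, rfl⟩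
  have hTge : ∀ y ∈ Metric.ball (evm F w0) ρ, ∀ j : Fin n, i ≤ (j : ℕ) → T y j = y j := by
    intro y hy j hj
    have h1 := (hV2 y hy).2
    have h2 : evm F (s y) j = y j := by rw [h1]
    rw [hT]
    simp only [TT, if_pos hj]
    exact h2
  -- strict derivatives
  have hTT : ∀ w ∈ V, HasStrictFDerivAt (TT i F G) (fderiv ℝ (TT i F G) w) w := fun w hw =>
    (tt_contDiffAt i F G w (hVj w hw)).hasStrictFDerivAt one_ne_zero
  have hsd : ∀ y ∈ Metric.ball (evm F w0) ρ, HasStrictFDerivAt s (fderiv ℝ s y) y := fun y hy =>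
    (hs y hy).hasStrictFDerivAt
  obtain ⟨T', hT'⟩ : ∃ T' : (Fin n → ℝ) → ((Fin n → ℝ) →L[ℝ] (Fin n → ℝ)),
      T' = fun y => (fderiv ℝ (TT i F G) (s y)).comp (fderiv ℝ s y) := ⟨_, rfl⟩
  have hTd : ∀ y ∈ Metric.ball (evm F w0) ρ, HasFDerivAt T (T' y) y := by
    intro y hy
    have h1 := (hTT (s y) (hV2 y hy).1).hasFDerivAt
    have h2 := (hsd y hy).hasFDerivAt
    rw [hT, hT']
    exact h1.comp y h2
  obtain ⟨P, hP⟩ : ∃ P : (Fin n → ℝ) →L[ℝ] (Fin n → ℝ), P = Sard_pi n i := ⟨_, rfl⟩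
  have hPlt : ∀ (y : Fin n → ℝ) (j : Fin n), (j : ℕ) < i → P y j = y j := by
    intro y j hj; rw [hP]; exact Sard_pi_lt y j hj
  have hPge : ∀ (y : Fin n → ℝ) (j : Fin n), i ≤ (j : ℕ) → P y j = 0 := by
    intro y j hj; rw [hP]; exact Sard_pi_ge y j hj
  obtain ⟨Φ, hΦ⟩ : ∃ Φ : (Fin n → ℝ) → (Fin n → ℝ), Φ = fun y => P (T (P y)) + (y - P y) :=
    ⟨_, rfl⟩
  obtain ⟨Φ', hΦ'⟩ : ∃ Φ' : (Fin n → ℝ) → ((Fin n → ℝ) →L[ℝ] (Fin n → ℝ)),
      Φ' = fun y => P.comp ((T' (P y)).comp P) +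
        (ContinuousLinearMap.id ℝ (Fin n → ℝ) - P) := ⟨_, rfl⟩
  have hΦd : ∀ y, P y ∈ Metric.ball (evm F w0) ρ → HasFDerivAt Φ (Φ' y) y := by
    intro y hy
    rw [hΦ, hΦ']
    have h1 : HasFDerivAt (fun y => T (P y)) ((T' (P y)).comp P) y :=
      (hTd (P y) hy).comp y P.hasFDerivAt
    have h2 : HasFDerivAt (fun y => P (T (P y))) (P.comp ((T' (P y)).comp P)) y :=
      P.hasFDerivAt.comp y h1
    exact h2.add ((hasFDerivAt_id y).sub P.hasFDerivAt)
  have hnull : MeasureTheory.volume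
      (Φ '' {y | P y ∈ Metric.ball (evm F w0) ρ ∧ (Φ' y).det = 0}) = 0 := by
    apply MeasureTheory.addHaar_image_eq_zero_of_det_fderivWithin_eq_zero (f' := Φ')
    · intro y hy
      exact (hΦd y hy.1).hasFDerivWithinAt
    · intro y hy
      exact hy.2
  have hae : ∀ᵐ c : Fin n → ℝ, c ∉ Φ '' {y | P y ∈ Metric.ball (evm F w0) ρ ∧
      (Φ' y).det = 0} := MeasureTheory.measure_eq_zero_iff_ae_notMem.mp hnull
  filter_upwards [hae] with c hc w hw hF hTw
  obtain ⟨hub, hsu⟩ := hV1 w hw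
  obtain ⟨u, hu⟩ : ∃ u, u = evm F w := ⟨_, rfl⟩
  rw [← hu] at hub hsu
  have hPu : P u = u := by
    funext j
    by_cases hj : (j : ℕ) < i
    · exact hPlt u j hj
    · rw [hPge u j (not_lt.mp hj), hu]
      exact (hF j (not_lt.mp hj)).symm
  obtain ⟨y, hy⟩ : ∃ y, y = u + (c - P c) := ⟨_, rfl⟩
  have hPP : ∀ z, P (P z) = P z := by
    intro z
    funext j
    by_cases hj : (j : ℕ) < i
    · exact hPlt _ j hj
    · rw [hPge _ j (not_lt.mp hj), hPge _ j (not_lt.mp hj)]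
  have hPy : P y = u := by
    rw [hy, map_add, map_sub, hPP, hPu]
    simp
  have hΦy : Φ y = c := by
    rw [hΦ]
    simp only [hPy]
    funext j
    by_cases hj : (j : ℕ) < i
    · have h1 : P (T u) j = c j := by
        rw [hPlt _ j hj, hT]
        simp only [hsu]
        exact hTw j hj
      have h2 : y j = u j := by
        rw [hy]
        simp [hPlt c j hj]
      simp [h1, h2]
    · have hj' := not_lt.mp hj
      have h1 : P (T u) j = 0 := hPge _ j hj'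
      have h2 : u j = 0 := by
        rw [hu]; exact hF j hj'
      have h3 : y j = c j := by
        rw [hy]
        simp [hPge c j hj', h2]
      simp [h1, h2, h3]
  have hdet : (Φ' y).det ≠ 0 := by
    intro h0
    exact hc ⟨y, ⟨by rw [hPy]; exact hub, h0⟩, hΦy⟩
  -- components of the derivative
  have hT'ge : ∀ (v : Fin n → ℝ) (j : Fin n), i ≤ (j : ℕ) → T' u v j = v j := by
    intro v j hj
    have h1 : HasFDerivAt (fun y => T y j) ((ContinuousLinearMap.proj j).comp (T' u)) u := by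
      have := (hasFDerivAt_pi'.mp (hTd u hub)) j
      exact this
    have h2 : HasFDerivAt (fun y : Fin n → ℝ => y j)
        (ContinuousLinearMap.proj (R := ℝ) (φ := fun _ : Fin n => ℝ) j) u :=
      (ContinuousLinearMap.proj (R := ℝ) (φ := fun _ : Fin n => ℝ) j).hasFDerivAt
    have h3 : (fun y => T y j) =ᶠ[nhds u] fun y => y j := by
      filter_upwards [Metric.isOpen_ball.mem_nhds hub] with z hz
      exact hTge z hz j hj
    have h4 := h1.congr_of_eventuallyEq h3.symm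
    have h5 := h4.unique h2
    have h6 := congrArg (fun A => A v) h5
    simpa using h6
  have hinj : ∀ v : Fin n → ℝ, T' u v = 0 → v = 0 := by
    intro v hv
    have hPv : P v = v := by
      funext j
      by_cases hj : (j : ℕ) < i
      · exact hPlt v j hj
      · have hj' := not_lt.mp hj
        rw [hPge v j hj', ← hT'ge v j hj', hv]
        rfl
    apply Sard_det_ne (Φ' y) hdet
    rw [hΦ']
    simp [hPy, hPv, hv]
  have hsurj : Function.Surjective (T' u : (Fin n → ℝ) →ₗ[ℝ] (Fin n → ℝ)) := by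
    apply LinearMap.surjective_of_injective
    rw [← LinearMap.ker_eq_bot, LinearMap.ker_eq_bot']
    intro v hv
    exact hinj v hv
  obtain ⟨A, hA⟩ : ∃ A, A = fderiv ℝ (TT i F G) w := ⟨_, rfl⟩
  have hAs : Function.Surjective (A : (Fin n → ℝ) →ₗ[ℝ] (Fin n → ℝ)) := by
    intro z
    obtain ⟨v, hv⟩ := hsurj z
    refine ⟨fderiv ℝ s u v, ?_⟩
    rw [← hv, hT', hA]
    simp [hsu]
  have hAi : Function.Injective (A : (Fin n → ℝ) →ₗ[ℝ] (Fin n → ℝ)) :=
    LinearMap.injective_iff_surjective.mpr hAs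
  refine ⟨(LinearEquiv.ofBijective (A : (Fin n → ℝ) →ₗ[ℝ] (Fin n → ℝ))
    ⟨hAi, hAs⟩).toContinuousLinearEquiv, ?_⟩
  have h1 := hTT w hw
  rw [← hA] at h1
  have h2 : (((LinearEquiv.ofBijective (A : (Fin n → ℝ) →ₗ[ℝ] (Fin n → ℝ))
      ⟨hAi, hAs⟩).toContinuousLinearEquiv : (Fin n → ℝ) ≃L[ℝ] (Fin n → ℝ)) :
      (Fin n → ℝ) →L[ℝ] (Fin n → ℝ)) = A := by
    ext v
    simp
  rw [h2]
  exact h1

/-- Genericity holds for almost every parameter `c` (Sard).
Proof: for a point `w0` with `jac F (w0) ≠ 0` take `ρ, s, V` from `loc_inv` (with `U` = the whole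
space). Let `π y = (y_j)_{j<i}` completed by zeros for `j ≥ i`, `D = {y | π y ∈ ball}` (open), and
`Φ : D → ℝ^n`, `Φ(y)_j = TT i F G (s (π y)) j` for `j < i`, `Φ(y)_j = y_j` for `j ≥ i`. `Φ` is
differentiable on `D`, so `{Φ(y) : y ∈ D, det DΦ(y) = 0}` is a null set by
`MeasureTheory.addHaar_image_eq_zero_of_det_fderivWithin_eq_zero`. Let `c` be outside of it and
`w ∈ V` with `F_j(w) = 0` (`j ≥ i`), `TT_j(w) = c_j` (`j < i`). Put `y_j = F_j(w)` for `j < i` and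
`y_j = c_j` for `j ≥ i`: then `π y = evm F w`, `y ∈ D`, `Φ(y) = c`, so `DΦ(y)` is injective.
Let `M = D(TT ∘ s)(evm F w)`. As `TT(s u)_j = u_j` for `j ≥ i`, `M v = 0` gives `v_j = 0` for
`j ≥ i`, so `v = π v`, and then `DΦ(y) v = 0` (its components `j < i` are those of `M (π v)`, the
others are `v_j`), so `v = 0`: `M` is invertible. Hence `D TT (w) = M ∘ D(evm F)(w)` is
invertible (`TT` is strictly differentiable at `w` by `tt_contDiffAt`; on `V`,
`TT = (TT ∘ s) ∘ evm F`). Finally countably many of the sets `V` cover `{w | jac F (w) ≠ 0}`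
(`TopologicalSpace.countable_cover_nhds` or `TopologicalSpace.isOpen_iUnion_countable`), use
`MeasureTheory.ae_all_iff` / countable unions. -/
theorem sard_gen {n : ℕ} (i : ℕ) (F : Fin n → MvPolynomial (Fin n) ℝ)
    (G : MvPolynomial (Fin n) ℝ) : ∀ᵐ c : Fin n → ℝ, Gen i F G c := by
  choose V hVo hwV hVae using fun w0 : {w : Fin n → ℝ // eval w (jac F) ≠ 0} =>
    Sard_loc i F G w0.1 w0.2
  obtain ⟨S, hSc, hSV⟩ := TopologicalSpace.isOpen_iUnion_countable V hVo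
  have h1 := (MeasureTheory.ae_ball_iff hSc).mpr (fun w0 (_ : w0 ∈ S) => hVae w0)
  filter_upwards [h1] with c hc w hjw hF hT
  have h2 : w ∈ ⋃ w0 ∈ S, V w0 := by
    rw [hSV]
    exact Set.mem_iUnion.mpr ⟨⟨w, hjw⟩, hwV ⟨w, hjw⟩⟩
  simp only [Set.mem_iUnion] at h2
  obtain ⟨w0, hw0, hwV0⟩ := h2
  exact hc w0 hw0 w hwV0 hF hT

end Pool.Agent.RM90
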