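import Pool.Agent.Lib.MP_df59e7_lc.Defs
import Pool.Agent.Lib.MP_df59e7_lc.Sard
import Pool.Agent.Lib.MP_df59e7_lc.Par
import Pool.Agent.Lib.MP_df59e7_lc.Meet
import Pool.Agent.Lib.MP_df59e7_lc.RefBez
import Pool.Agent.Lib.MP_df59e7_lc.DegJ
import Pool.Agent.Lib.MP_df59e7_lc.LamC

set_option autoImplicit false

/-! MP_df59e7_lc, module CntArc. -/

namespace Pool.Agent.RM90

open MvPolynomial

private theorem CntArc_cont {n : ℕ} (p : MvPolynomial (Fin n) ℝ) :
    Continuous fun w : Fin n → ℝ => eval w p := MvPolynomial.continuous_eval p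

private theorem CntArc_prj {n : ℕ} (x : Fin n → ℝ) : prj 1 x = 0 := by
  funext j
  unfold prj
  rw [if_neg (by omega)]
  rfl

private theorem CntArc_sum {n : ℕ} (g : Fin n → ℝ) :
    (∑ l : Fin n, (if 1 ≤ (l : ℕ) ∧ (l : ℕ) < 1 then g l else 0)) = 0 :=
  Finset.sum_eq_zero fun l _ => if_neg (by omega)

/-- the point on the arc -/
private theorem CntArc_pt {n : ℕ} [NeZero n] (U : Set (Fin n → ℝ))
    (F : Fin n → MvPolynomial (Fin n) ℝ) (d0 : ℕ) (hG : Good U 1 F d0) (w : Fin n → ℝ)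
    (hw : w ∈ Est U 1 F) (hj : eval w (jac F) ≠ 0) (a : ℝ) (ha : 0 < a)
    (haw : a ≤ (eval w (jac F)) ^ 2) :
    ∃ y ∈ connectedComponentIn {y | y ∈ Est U 1 F ∧ eval y (jac F) ≠ 0} w,
      (eval y (jac F)) ^ 2 = a := by
  have he : ((0 : Fin n) : ℕ) + 1 = 1 := by simp
  obtain ⟨-, hpre, hwG, hsub, z, hzG, hz0⟩ := arc 1 0 he F hG.std U hG.isOpen hG.cpt w hw hj
  have hset : {y | y ∈ Est U 1 F ∧ prj 1 y = prj 1 w ∧ eval y (jac F) ≠ 0} =
      {y | y ∈ Est U 1 F ∧ eval y (jac F) ≠ 0} := by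
    ext y
    rw [Set.mem_ofPred_eq, Set.mem_ofPred_eq, CntArc_prj, CntArc_prj]
    simp
  have hGam : Gam U 1 F w =
      closure (connectedComponentIn {y | y ∈ Est U 1 F ∧ eval y (jac F) ≠ 0} w) := by
    unfold Gam
    rw [hset]
  have hf : ContinuousOn (fun y : Fin n → ℝ => (eval y (jac F)) ^ 2) (Gam U 1 F w) :=
    ((CntArc_cont (jac F)).pow 2).continuousOn
  have hivt := hpre.intermediate_value hzG hwG hf
  have hz0' : eval z (jac F) = 0 := hz0
  obtain ⟨y, hyG, hy⟩ := hivt (show a ∈ Set.Icc _ _ from by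
    refine ⟨?_, haw⟩
    beta_reduce
    rw [hz0']
    simpa using ha.le)
  beta_reduce at hy
  have hyE : y ∈ Est U 1 F := (hsub hyG).1
  have hyj : eval y (jac F) ≠ 0 := by
    intro h0
    rw [h0] at hy
    simp at hy
    linarith
  refine ⟨y, ?_, hy⟩
  have hwS : w ∈ {y | y ∈ Est U 1 F ∧ eval y (jac F) ≠ 0} := ⟨hw, hj⟩
  set A := connectedComponentIn {y | y ∈ Est U 1 F ∧ eval y (jac F) ≠ 0} w with hA
  have hAp : IsPreconnected A := isPreconnected_connectedComponentIn
  have hwA : w ∈ A := mem_connectedComponentIn hwS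
  rw [hGam] at hyG
  have hp2 : IsPreconnected (insert y A) :=
    hAp.subset_closure (Set.subset_insert _ _)
      (Set.insert_subset hyG subset_closure)
  have hsub2 : insert y A ⊆ {y | y ∈ Est U 1 F ∧ eval y (jac F) ≠ 0} :=
    Set.insert_subset ⟨hyE, hyj⟩ (connectedComponentIn_subset _ _)
  exact hp2.subset_connectedComponentIn (Set.mem_insert_of_mem _ hwA) hsub2
    (Set.mem_insert _ _)

/-- The number of arcs of the curve `Est U 1 F`.
Proof: for `w ∈ W` let `A_w` be the component of `w` in `S = {y ∈ Est U 1 F | jac F (y) ≠ 0}`;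
these are pairwise disjoint. `Gam U 1 F w` is the closure of `A_w` (`prj 1 y = 0` for all `y`).
By `arc` (`e = 0`) it is preconnected and contains a zero of `jac F`. By `sard_gen` (for `i = 1`,
`G = (jac F)^2`) and `exists_par` there is `c` with `Gen 1 F ((jac F)^2) c` and
`0 < c_0 < (jac F (w))^2` for all `w ∈ W` (`lf 1 c = C (c 0)`). By the intermediate value theorem
there is `y_w ∈ Gam U 1 F w` with `(jac F (y_w))^2 = c_0`; `y_w ∈ Est U 1 F` (closed) and
`jac F (y_w) ≠ 0`, so `y_w ∈ closure A_w ∩ S ⊆ A_w` and the `y_w` are distinct.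
`TT 1 F G = (G, F_1, ..., F_{n-1})` and `Gen` say that the system `(G - C c_0, F_1, ..., F_{n-1})`
is nondegenerate at `y_w`. `ref_bezout` with `D j = 3^n d0` (`deg_jac` for `G`):
`|W| ≤ (n+1)^n (3^n d0)^n ≤ BB n d0`. -/
theorem cnt_arc {n : ℕ} [NeZero n] (U : Set (Fin n → ℝ)) (F : Fin n → MvPolynomial (Fin n) ℝ)
    (d0 : ℕ) (hd0 : 1 ≤ d0) (hG : Good U 1 F d0) (W : Finset (Fin n → ℝ))
    (hW : ∀ w ∈ W, w ∈ Est U 1 F ∧ eval w (jac F) ≠ 0)
    (hdis : ∀ w ∈ W, ∀ w' ∈ W, w ≠ w' →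
      w' ∉ connectedComponentIn {y | y ∈ Est U 1 F ∧ eval y (jac F) ≠ 0} w) :
    W.card ≤ BB n d0 := by
  classical
  rcases W.eq_empty_or_nonempty with rfl | hne
  · simp
  have hn : 1 ≤ n := Nat.one_le_iff_ne_zero.2 (NeZero.ne n)
  obtain ⟨w1, hw1, hmin⟩ := W.exists_min_image (fun w => (eval w (jac F)) ^ 2) hne
  have hδ : 0 < (eval w1 (jac F)) ^ 2 := by
    have := (hW w1 hw1).2
    positivity
  obtain ⟨c, hgen, -, hc⟩ := exists_par 1 (Gen 1 F ((jac F) ^ 2))
    (sard_gen 1 F ((jac F) ^ 2)) 0 _ hδ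
  have hlf : ∀ x : Fin n → ℝ, eval x (lf 1 c) = c 0 := by
    intro x
    rw [eval_lf, CntArc_sum (fun l => x l * c l), add_zero]
  obtain ⟨hc0, hc1⟩ := hc 0 (fun j => by simp)
  rw [hlf] at hc0 hc1
  have hpt : ∀ w ∈ W, ∃ y ∈ connectedComponentIn {y | y ∈ Est U 1 F ∧ eval y (jac F) ≠ 0} w,
      (eval y (jac F)) ^ 2 = c 0 := fun w hw =>
    CntArc_pt U F d0 hG w (hW w hw).1 (hW w hw).2 (c 0) hc0 (hc1.le.trans (hmin w hw))
  choose! y hy1 hy2 using hpt
  have hinj : Set.InjOn y W := by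
    intro w hw w' hw' hyy
    by_contra hne'
    have h1 := connectedComponentIn_eq (hy1 w hw)
    have h2 := connectedComponentIn_eq (hy1 w' hw')
    rw [← hyy, ← h1] at h2
    apply hdis w hw w' hw' hne'
    rw [← h2]
    exact mem_connectedComponentIn (hW w' hw')
  have hcard : (W.image y).card = W.card := Finset.card_image_of_injOn hinj
  have hyS : ∀ w ∈ W, y w ∈ Est U 1 F ∧ eval (y w) (jac F) ≠ 0 := fun w hw =>
    connectedComponentIn_subset {y | y ∈ Est U 1 F ∧ eval y (jac F) ≠ 0} w (hy1 w hw)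
  have hfe : ∀ (x : Fin n → ℝ) (j : Fin n), eval x (nxt 1 F ((jac F) ^ 2) c j) =
      TT 1 F ((jac F) ^ 2) x j - (if (j : ℕ) = 0 then c 0 else 0) := by
    intro x j
    unfold nxt TT
    by_cases hj : (j : ℕ) = 0
    · rw [if_pos (by omega), if_neg (by omega), if_pos hj, if_pos hj, map_sub, hlf,
        CntArc_sum (fun l => x l * lam F ((jac F) ^ 2) x l), sub_zero]
    · rw [if_neg (by omega), if_pos (by omega), if_neg hj, sub_zero]
  have hTT0 : ∀ w ∈ W, ∀ j : Fin n, (j : ℕ) < 1 → TT 1 F ((jac F) ^ 2) (y w) j = c j := by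
    intro w hw j hj
    have h00 : ((0 : Fin n) : ℕ) = 0 := by simp
    have hj0 : j = 0 := Fin.ext (by rw [h00]; omega)
    unfold TT
    rw [if_neg (by omega), if_pos (by omega),
      CntArc_sum (fun l => y w l * lam F ((jac F) ^ 2) (y w) l), sub_zero, map_pow,
      hy2 w hw, hj0]
  have hbez := ref_bezout (nxt 1 F ((jac F) ^ 2) c) (fun _ => 3 ^ n * d0)
    (fun _ => Nat.one_le_iff_ne_zero.2 (by positivity)) (fun i j => by
      refine (degreeOf_le_totalDegree _ _).trans ?_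
      unfold nxt
      split_ifs with hi
      · refine (totalDegree_sub _ _).trans (max_le ?_ ?_)
        · refine (deg_jac 1 hn F hG.std d0 hG.deg).trans ?_
          exact Nat.mul_le_mul_right _ (Nat.pow_le_pow_right (by norm_num) (by omega))
        · refine (deg_lf 1 c).trans ?_
          exact Nat.one_le_iff_ne_zero.2 (by positivity)
      · refine (hG.deg i (by omega)).trans ?_
        exact Nat.mul_le_mul_right _ (Nat.pow_le_pow_right (by norm_num) (by omega)))
    (W.image y) (fun z hz i => by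
      obtain ⟨w, hw, rfl⟩ := Finset.mem_image.1 hz
      rw [hfe]
      by_cases hi : (i : ℕ) = 0
      · have hi0 : i = 0 := Fin.ext (by simpa using hi)
        rw [if_pos hi, hTT0 w hw i (by omega), hi0, sub_self]
      · rw [if_neg hi, sub_zero]
        unfold TT
        rw [if_pos (by omega)]
        exact (hyS w hw).1.2 i (by omega))
    (fun z hz v => by
      obtain ⟨w, hw, rfl⟩ := Finset.mem_image.1 hz
      obtain ⟨L, hL⟩ := hgen (y w) (hyS w hw).2 (hyS w hw).1.2 (hTT0 w hw)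
      refine ⟨L.symm v, fun i => ?_⟩
      have h1 : HasDerivAt (fun t : ℝ => y w + t • L.symm v) (L.symm v) 0 := by
        have h2 := ((hasDerivAt_id (0 : ℝ)).smul_const (L.symm v)).const_add (y w)
        simpa using h2
      have h3 : HasFDerivAt (TT 1 F ((jac F) ^ 2)) (L : (Fin n → ℝ) →L[ℝ] (Fin n → ℝ))
          (y w + (0 : ℝ) • L.symm v) := by
        rw [zero_smul, add_zero]
        exact hL.hasFDerivAt
      have h4 := h3.comp_hasDerivAt (0 : ℝ) h1
      have h5 := hasDerivAt_pi.1 h4 i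
      have h6 : (L : (Fin n → ℝ) →L[ℝ] (Fin n → ℝ)) (L.symm v) i = v i := by
        rw [ContinuousLinearEquiv.coe_coe, ContinuousLinearEquiv.apply_symm_apply]
      rw [h6] at h5
      have h7 := h5.sub_const (if (i : ℕ) = 0 then c 0 else 0)
      have h8 : (fun t : ℝ => eval (y w + t • L.symm v) (nxt 1 F ((jac F) ^ 2) c i)) =
          fun t : ℝ => (TT 1 F ((jac F) ^ 2) ∘ fun t : ℝ => y w + t • L.symm v) t i -
            (if (i : ℕ) = 0 then c 0 else 0) := by
        funext t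
        rw [hfe]
        rfl
      rw [h8]
      exact h7)
  rw [hcard, Fintype.card_fin, Finset.prod_const, Finset.card_univ, Fintype.card_fin,
    ← mul_pow] at hbez
  refine hbez.trans ?_
  unfold BB
  apply Nat.pow_le_pow_left
  have h1 : n + 1 ≤ 2 * n := by omega
  calc (n + 1) * (3 ^ n * d0) ≤ (2 * n) * (3 ^ n * d0) := Nat.mul_le_mul_right _ h1
    _ = 2 * n * 3 ^ n * d0 := by ring
    _ ≤ _ := Nat.le_succ _

end Pool.Agent.RM90
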