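import Pool.Agent.Lib.MP_df59e7_lc.Defs
import Pool.Agent.Lib.MP_df59e7_lc.AlgArc
import Pool.Agent.Lib.MP_df59e7_lc.AlgU

set_option autoImplicit false

/-! MP_df59e7_lc, module GamAlg. -/

namespace Pool.Agent.RM90

open MvPolynomial

/-- The arcs `Gam` lie on curves of small degree.
Proof: `alg_arc` for `H j = X j - C (x j)` if `j + 1 < i`, `H j = F j` otherwise (so `H e = X e`),
with `D j = 3^n * d0` for all `j` (each degree is `≤ 1` or `≤ 3^(n-1-j) d0 ≤ 3^n d0`).
`jac H = jac F` (the derivatives are the same by `hstd`), and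
`Crv U H e = {y | y ∈ Est U i F ∧ prj i y = prj i x ∧ eval y (jac F) ≠ 0}`.
`(n+1)^n (3^n d0)^n ≤ (2 n 3^n d0 + 1)^n = BB n d0` as `n + 1 ≤ 2 n`; `alg_mono`. -/
theorem gam_alg {n : ℕ} [NeZero n] (i : ℕ) (e : Fin n) (he : (e : ℕ) + 1 = i)
    (F : Fin n → MvPolynomial (Fin n) ℝ) (hstd : Std i F)
    (U : Set (Fin n → ℝ)) (hU : IsOpen U) (d0 : ℕ) (hd0 : 1 ≤ d0)
    (hd : ∀ j : Fin n, i ≤ (j : ℕ) → (F j).totalDegree ≤ 3 ^ (n - 1 - (j : ℕ)) * d0)
    (x : Fin n → ℝ) (hx : x ∈ Est U i F) (hj : eval x (jac F) ≠ 0) :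
    Alg (4 * BB n d0) (Gam U i F x) := by
  set H : Fin n → MvPolynomial (Fin n) ℝ :=
    fun j => if (j : ℕ) + 1 < i then X j - C (x j) else F j with hH
  have hH1 : ∀ j : Fin n, (j : ℕ) + 1 < i → H j = X j - C (x j) := fun j h => if_pos h
  have hH2 : ∀ j : Fin n, ¬ (j : ℕ) + 1 < i → H j = F j := fun j h => if_neg h
  have hjac : jac H = jac F := by
    unfold jac
    congr 2
    funext j l
    by_cases h : (j : ℕ) + 1 < i
    · rw [hH1 j h, hstd j (by omega), map_sub, pderiv_C, sub_zero]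
    · rw [hH2 j h]
  have hset : Crv U H e = {y | y ∈ Est U i F ∧ prj i y = prj i x ∧ eval y (jac F) ≠ 0} := by
    ext y
    constructor
    · rintro ⟨h1, h2, h3⟩
      rw [hjac] at h3
      refine ⟨⟨h1, fun j hji => ?_⟩, ?_, h3⟩
      · have hje : j ≠ e := by
          rintro rfl
          omega
        have h4 := h2 j hje
        rwa [hH2 j (by omega)] at h4
      · funext j
        unfold prj
        by_cases h : (j : ℕ) + 1 < i
        · rw [if_pos h, if_pos h]
          have hje : j ≠ e := by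
            rintro rfl
            omega
          have h4 := h2 j hje
          rw [hH1 j h, map_sub, eval_X, eval_C] at h4
          linarith
        · rw [if_neg h, if_neg h]
    · rintro ⟨⟨h1, h2⟩, h3, h4⟩
      refine ⟨h1, fun j hje => ?_, by rwa [hjac]⟩
      by_cases h : (j : ℕ) + 1 < i
      · rw [hH1 j h, map_sub, eval_X, eval_C]
        have h5 := congrFun h3 j
        unfold prj at h5
        rw [if_pos h, if_pos h] at h5
        linarith
      · rw [hH2 j h]
        have hje' : (j : ℕ) ≠ (e : ℕ) := fun hh => hje (Fin.ext hh)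
        exact h2 j (by omega)
  have hxC : x ∈ Crv U H e := by
    rw [hset]
    exact ⟨hx, rfl, hj⟩
  have h3n : 1 ≤ 3 ^ n * d0 := Nat.mul_pos (by positivity) hd0
  have hdeg : ∀ j : Fin n, j ≠ e → (H j).totalDegree ≤ 3 ^ n * d0 := by
    intro j hje
    by_cases h : (j : ℕ) + 1 < i
    · rw [hH1 j h]
      refine (totalDegree_sub_C_le _ _).trans ?_
      rw [totalDegree_X]
      exact h3n
    · rw [hH2 j h]
      have hje' : (j : ℕ) ≠ (e : ℕ) := fun hh => hje (Fin.ext hh)
      refine (hd j (by omega)).trans (Nat.mul_le_mul_right _ ?_)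
      exact Nat.pow_le_pow_right (by norm_num) (by omega)
  have h1 := alg_arc U hU H e (fun _ => 3 ^ n * d0) (fun _ => h3n) hdeg x hxC
  rw [hset] at h1
  refine alg_mono ?_ (le_refl _) h1
  refine Nat.mul_le_mul_left 4 ?_
  rw [Finset.prod_const, Finset.card_univ, Fintype.card_fin, ← mul_pow]
  unfold BB
  apply Nat.pow_le_pow_left
  have hn : 1 ≤ n := Nat.one_le_iff_ne_zero.2 (NeZero.ne n)
  calc (n + 1) * (3 ^ n * d0) ≤ (2 * n) * (3 ^ n * d0) := Nat.mul_le_mul_right _ (by omega)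
    _ = 2 * n * 3 ^ n * d0 := by ring
    _ ≤ 2 * n * 3 ^ n * d0 + 1 := Nat.le_succ _

end Pool.Agent.RM90
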