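import Pool.Agent.Lib.MP_df59e7_lc.Defs
import Pool.Agent.Lib.MP_df59e7_lc.CntArc
import Pool.Agent.Lib.MP_df59e7_lc.GamAlg
import Pool.Agent.Lib.MP_df59e7_lc.AlgU

set_option autoImplicit false

/-! MP_df59e7_lc, module AlgE1. -/

namespace Pool.Agent.RM90

open MvPolynomial

/-- Representatives of the components, if their number is bounded. -/
private theorem AlgE1_reps {X : Type*} [TopologicalSpace X] (S : Set X) (B : ℕ)
    (hB : ∀ W : Finset X, (∀ w ∈ W, w ∈ S) →
      (∀ w ∈ W, ∀ w' ∈ W, w ≠ w' → w' ∉ connectedComponentIn S w) → W.card ≤ B) :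
    ∃ W : Finset X, (∀ w ∈ W, w ∈ S) ∧ W.card ≤ B ∧
      ∀ y ∈ S, ∃ w ∈ W, y ∈ connectedComponentIn S w := by
  classical
  by_contra hcon
  push Not at hcon
  have key : ∀ m : ℕ, ∃ W : Finset X, (∀ w ∈ W, w ∈ S) ∧
      (∀ w ∈ W, ∀ w' ∈ W, w ≠ w' → w' ∉ connectedComponentIn S w) ∧ W.card = m := by
    intro m
    induction m with
    | zero => exact ⟨∅, by simp, by simp, rfl⟩
    | succ m ih =>
      obtain ⟨W, h1, h2, h3⟩ := ih
      obtain ⟨y, hy, hyW⟩ := hcon W h1 (hB W h1 h2)
      have hyn : y ∉ W := fun h => hyW y h (mem_connectedComponentIn hy)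
      refine ⟨insert y W, ?_, ?_, by rw [Finset.card_insert_of_notMem hyn, h3]⟩
      · intro w hw
        rcases Finset.mem_insert.1 hw with rfl | hw
        · exact hy
        · exact h1 w hw
      · intro w hw w' hw' hne
        rcases Finset.mem_insert.1 hw with h5 | h5
        · rcases Finset.mem_insert.1 hw' with h6 | h6
          · exact absurd (h5.trans h6.symm) hne
          · intro h
            have h4 := connectedComponentIn_eq h
            apply hyW w' h6
            rw [← h4, h5]
            exact mem_connectedComponentIn hy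
        · rcases Finset.mem_insert.1 hw' with h6 | h6
          · rw [h6]
            exact hyW w h5
          · exact h2 w h5 w' h6 hne
  obtain ⟨W, h1, h2, h3⟩ := key (B + 1)
  have := hB W h1 h2
  omega

/-- The curve `Est U 1 F` lies on curves of small degree.
Proof: let `S = {y ∈ Est U 1 F | jac F (y) ≠ 0}`. Among the finite subsets `W` of `S` with points
in pairwise different components of `S` (sizes bounded by `cnt_arc`) take one of maximal size:
then every component of `S` contains a point of `W`. For `w ∈ W`, `Gam U 1 F w` is the closure of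
its component (`prj 1 y = prj 1 w` always) and `Alg (4 BB) (Gam U 1 F w)` by `gam_alg` (`e = 0`).
`Est U 1 F` is contained in the closure of `S` (`Good.dns`), so in the finite union of the closed
sets `Gam U 1 F w`: `alg_biUnion`, `alg_mono`. -/
theorem alg_E1 {n : ℕ} [NeZero n] (U : Set (Fin n → ℝ)) (F : Fin n → MvPolynomial (Fin n) ℝ)
    (d0 : ℕ) (hd0 : 1 ≤ d0) (hG : Good U 1 F d0) :
    Alg (BB n d0 * (4 * BB n d0)) (Est U 1 F) := by
  classical
  set S : Set (Fin n → ℝ) := {y | y ∈ Est U 1 F ∧ eval y (jac F) ≠ 0} with hS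
  obtain ⟨W, hW, hWc, hcov⟩ := AlgE1_reps S (BB n d0) fun W h1 h2 =>
    cnt_arc U F d0 hd0 hG W h1 h2
  have hprj : ∀ y z : Fin n → ℝ, prj 1 y = prj 1 z := by
    intro y z
    funext j
    have h : ¬ ((j : ℕ) + 1 < 1) := by omega
    rw [prj, prj, if_neg h, if_neg h]
  have hGam : ∀ w : Fin n → ℝ, Gam U 1 F w = closure (connectedComponentIn S w) := by
    intro w
    have h1 : {y | y ∈ Est U 1 F ∧ prj 1 y = prj 1 w ∧ eval y (jac F) ≠ 0} = S := by
      ext y
      constructor
      · rintro ⟨h2, -, h3⟩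
        exact ⟨h2, h3⟩
      · rintro ⟨h2, h3⟩
        exact ⟨h2, hprj y w, h3⟩
    rw [Gam, h1]
  have halg : Alg (W.card * (4 * BB n d0)) (⋃ w ∈ W, Gam U 1 F w) := by
    refine alg_biUnion W _ _ fun w hw => ?_
    exact gam_alg 1 (0 : Fin n) (by simp) F hG.std U hG.isOpen d0 hd0 hG.deg w (hW w hw).1
      (hW w hw).2
  refine alg_mono (Nat.mul_le_mul_right _ hWc) ?_ halg
  have hclosed : IsClosed (⋃ w ∈ W, Gam U 1 F w) := by
    refine isClosed_biUnion_finset fun w _ => ?_
    rw [hGam]
    exact isClosed_closure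
  have hsub : S ⊆ ⋃ w ∈ W, Gam U 1 F w := by
    intro y hy
    obtain ⟨w, hw, hyw⟩ := hcov y hy
    refine Set.mem_biUnion hw ?_
    rw [hGam]
    exact subset_closure hyw
  intro x hx
  refine closure_minimal hsub hclosed ?_
  rw [Metric.mem_closure_iff]
  intro ε hε
  obtain ⟨y, hy, hd, hj⟩ := hG.dns x hx ε hε
  exact ⟨y, ⟨hy, hj⟩, by rwa [dist_comm]⟩

end Pool.Agent.RM90
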