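import Pool.Agent.Lib.MP_df59e7_lc.Defs
import Pool.Agent.Lib.MP_df59e7_lc.UlimA

set_option autoImplicit false

/-! MP_df59e7_lc, module AlgLim. -/

namespace Pool.Agent.RM90

open MvPolynomial

/-- The exponents of total degree at most `N`. -/
noncomputable def alT (N : ℕ) : Finset (Fin 2 →₀ ℕ) :=
  (Finset.range (N + 1)).biUnion fun n => Finset.finsuppAntidiag Finset.univ n

theorem mem_alT {N : ℕ} {e : Fin 2 →₀ ℕ} : e ∈ alT N ↔ ∑ i, e i ≤ N := by
  unfold alT
  simp only [Finset.mem_biUnion, Finset.mem_range, Finset.mem_finsuppAntidiag]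
  constructor
  · rintro ⟨n, hn, h1, _⟩
    rw [h1]
    omega
  · intro h
    exact ⟨_, Nat.lt_succ_of_le h, rfl, Finset.subset_univ _⟩

/-- The polynomial with given coefficients. -/
noncomputable def alP {N : ℕ} (a : alT N → ℝ) : MvPolynomial (Fin 2) ℝ :=
  ∑ e : alT N, monomial e.1 (a e)

theorem coeff_alP {N : ℕ} (a : alT N → ℝ) (e : alT N) : coeff e.1 (alP a) = a e := by
  unfold alP
  rw [coeff_sum]
  rw [Finset.sum_eq_single e]
  · rw [coeff_monomial, if_pos rfl]
  · intro b _ hb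
    rw [coeff_monomial, if_neg]
    exact fun h => hb (Subtype.ext h)
  · intro h
    exact absurd (Finset.mem_univ e) h

theorem deg_alP {N : ℕ} (a : alT N → ℝ) : (alP a).totalDegree ≤ N := by
  unfold alP
  refine totalDegree_finsetSum_le fun e _ => ?_
  refine (totalDegree_monomial_le _ _).trans ?_
  rw [Finsupp.sum_fintype _ _ (fun _ => rfl)]
  exact mem_alT.mp e.2

theorem eval_alP {N : ℕ} (a : alT N → ℝ) (z : Fin 2 → ℝ) :
    eval z (alP a) = ∑ e : alT N, a e * (z 0 ^ e.1 0 * z 1 ^ e.1 1) := by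
  unfold alP
  rw [map_sum]
  refine Finset.sum_congr rfl fun e _ => ?_
  rw [eval_monomial, Finsupp.prod_fintype _ _ (fun _ => pow_zero _), Fin.prod_univ_two]

theorem alP_coeff {N : ℕ} (q : MvPolynomial (Fin 2) ℝ) (hq : q.totalDegree ≤ N) :
    alP (fun e : alT N => coeff e.1 q) = q := by
  ext e
  by_cases he : e ∈ alT N
  · exact coeff_alP (fun e : alT N => coeff e.1 q) ⟨e, he⟩
  · have h1 : coeff e q = 0 := by
      by_contra hne
      refine he (mem_alT.mpr ?_)
      have := le_totalDegree (mem_support_iff.mpr hne)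
      rw [Finsupp.sum_fintype _ _ (fun _ => rfl)] at this
      exact this.trans hq
    rw [h1]
    unfold alP
    rw [coeff_sum]
    refine Finset.sum_eq_zero fun b _ => ?_
    rw [coeff_monomial, if_neg]
    rintro rfl
    exact he b.2

/-- Ultralimits of sets on curves of degree at most `N`.
Proof: given `u v`, choose `q_p ≠ 0` for `R p`, normalised so that the maximum of the absolute
values of the coefficients is `1`. The coefficients (finitely many exponents of total degree at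
most `N`) converge along the hyperfilter (`exists_lim` for a compact cube), the limits are the
coefficients of a polynomial `q`, with some coefficient of absolute value `1` (the maximum is
attained at the same exponent for almost all `p`), total degree at most `N`. For `x ∈ ulim R`
take `y_p ∈ R p`, `y_p → x` (`exists_sel`): `q(u ⬝ᵥ x, v ⬝ᵥ x) = lim q_p(u ⬝ᵥ y_p, v ⬝ᵥ y_p) = 0`
(finite sums of products of convergent sequences). -/
theorem alg_ulim {k : ℕ} (N : ℕ) (R : ℕ → Set (Fin k → ℝ)) (hR : ∀ p, Alg N (R p)) :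
    Alg N (ulim R) := by
  intro u v
  choose q hq0 hqN hq using fun p => hR p u v
  -- normalised coefficients
  have hb : ∀ p, ∃ b : alT N → ℝ, ‖b‖ = 1 ∧
      ∀ x ∈ R p, ∑ e : alT N, b e * ((u ⬝ᵥ x) ^ e.1 0 * (v ⬝ᵥ x) ^ e.1 1) = 0 := by
    intro p
    set a : alT N → ℝ := fun e => coeff e.1 (q p) with ha
    have ha0 : a ≠ 0 := by
      intro h0
      have h1 := alP_coeff (q p) (hqN p)
      rw [← ha, h0] at h1
      refine hq0 p (h1.symm.trans ?_)
      unfold alP
      simp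
    have hn : ‖a‖ ≠ 0 := norm_ne_zero_iff.mpr ha0
    refine ⟨‖a‖⁻¹ • a, ?_, fun x hx => ?_⟩
    · rw [norm_smul, norm_inv, norm_norm, inv_mul_cancel₀ hn]
    · have h1 := hq p x hx
      rw [← alP_coeff (q p) (hqN p), eval_alP] at h1
      have h2 : ∑ e : alT N, (‖a‖⁻¹ • a) e * ((u ⬝ᵥ x) ^ e.1 0 * (v ⬝ᵥ x) ^ e.1 1) =
          ‖a‖⁻¹ * ∑ e : alT N, a e * ((u ⬝ᵥ x) ^ e.1 0 * (v ⬝ᵥ x) ^ e.1 1) := by
        rw [Finset.mul_sum]
        refine Finset.sum_congr rfl fun e _ => ?_
        rw [Pi.smul_apply, smul_eq_mul, mul_assoc]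
      rw [h2]
      have h3 : ∑ e : alT N, a e * ((u ⬝ᵥ x) ^ e.1 0 * (v ⬝ᵥ x) ^ e.1 1) = 0 := h1
      rw [h3, mul_zero]
  choose b hb1 hb2 using hb
  obtain ⟨c, hc, hlim⟩ := exists_lim (Metric.sphere (0 : alT N → ℝ) 1) (isCompact_sphere _ _) b
    (Filter.Eventually.of_forall fun p => mem_sphere_zero_iff_norm.mpr (hb1 p))
  have hcn : ‖c‖ = 1 := mem_sphere_zero_iff_norm.mp hc
  refine ⟨alP c, ?_, deg_alP c, fun x hx => ?_⟩
  · intro h0
    have h1 : c = 0 := by
      funext e
      rw [← coeff_alP c e, h0]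
      simp
    rw [h1, norm_zero] at hcn
    exact zero_ne_one hcn
  · obtain ⟨y, hy1, hy2⟩ := exists_sel R x hx
    have hu : Filter.Tendsto (fun p => u ⬝ᵥ y p) (Filter.hyperfilter ℕ : Filter ℕ)
        (nhds (u ⬝ᵥ x)) := by
      unfold dotProduct
      exact tendsto_finsetSum _ fun i _ => ((tendsto_pi_nhds.mp hy2) i).const_mul _
    have hv : Filter.Tendsto (fun p => v ⬝ᵥ y p) (Filter.hyperfilter ℕ : Filter ℕ)
        (nhds (v ⬝ᵥ x)) := by
      unfold dotProduct
      exact tendsto_finsetSum _ fun i _ => ((tendsto_pi_nhds.mp hy2) i).const_mul _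
    have h1 : Filter.Tendsto
        (fun p => ∑ e : alT N, b p e * ((u ⬝ᵥ y p) ^ e.1 0 * (v ⬝ᵥ y p) ^ e.1 1))
        (Filter.hyperfilter ℕ : Filter ℕ)
        (nhds (∑ e : alT N, c e * ((u ⬝ᵥ x) ^ e.1 0 * (v ⬝ᵥ x) ^ e.1 1))) :=
      tendsto_finsetSum _ fun e _ => ((tendsto_pi_nhds.mp hlim) e).mul
        ((hu.pow _).mul (hv.pow _))
    have h2 : (fun p => ∑ e : alT N, b p e * ((u ⬝ᵥ y p) ^ e.1 0 * (v ⬝ᵥ y p) ^ e.1 1))
        =ᶠ[(Filter.hyperfilter ℕ : Filter ℕ)] fun _ => (0 : ℝ) := by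
      filter_upwards [hy1] with p hp
      exact hb2 p (y p) hp
    have h3 := tendsto_nhds_unique_of_eventuallyEq h1 tendsto_const_nhds h2
    rw [eval_alP]
    exact h3

end Pool.Agent.RM90
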