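import Pool.Agent.Lib.MP_df59e7_lc.Defs

set_option autoImplicit false

/-! MP_df59e7_lc, module AlgPr. -/

namespace Pool.Agent.RM90

open MvPolynomial

/-- Projection along the last coordinate. Proof: extend `u`, `v` by `0` in the last
coordinate. -/
theorem alg_pr {k : ℕ} (N : ℕ) (R : Set (Fin (k + 1) → ℝ)) (h : Alg N R) :
    Alg N ((fun (y : Fin (k + 1) → ℝ) (j : Fin k) => y j.castSucc) '' R) := by
  intro u v
  have key : ∀ (w : Fin k → ℝ) (y : Fin (k + 1) → ℝ),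
      (Fin.snoc (α := fun _ => ℝ) w 0 : Fin (k + 1) → ℝ) ⬝ᵥ y =
        w ⬝ᵥ (fun j : Fin k => y j.castSucc) := by
    intro w y
    unfold dotProduct
    rw [Fin.sum_univ_castSucc]
    simp only [Fin.snoc_castSucc, Fin.snoc_last, zero_mul, add_zero]
  obtain ⟨q, hq0, hqN, hq⟩ := h (Fin.snoc (α := fun _ => ℝ) u 0) (Fin.snoc (α := fun _ => ℝ) v 0)
  refine ⟨q, hq0, hqN, ?_⟩
  rintro _ ⟨y, hy, rfl⟩
  have := hq y hy
  rwa [key, key] at this

end Pool.Agent.RM90
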