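import Pool.Agent.Lib.MP_df59e7_lc.Defs

set_option autoImplicit false

/-! MP_df59e7_lc, module Apx. -/

namespace Pool.Agent.RM90

open MvPolynomial

/-- Approximation of the zero set of `J` on `E` by the sets `{J = l_p}`.
Proof: (a) if not, there are `ε > 0`, infinitely many `p` and `y_p ∈ E` with
`J(y_p) = l_p(y_p) < 1/(p+1)` and no zero of `J` in `E` within `ε`; a limit point `y ∈ E` of
`y_p` has `J(y) = 0`, contradiction.
(b) `Z = {z ∈ E | J z = 0}` is compact. For `z0 ∈ Z` take (`LCn`) a preconnected `N` with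
`N ⊆ E ∩ ball z0 (ε/2)` and `E ∩ ball z0 ρ ⊆ N`, `ρ ≤ ε/2`, and a point `y0 ∈ E` with
`dist y0 z0 < ρ` and `J y0 ≠ 0`, so `J y0 > 0`, `y0 ∈ N`. Finitely many balls `ball z0 ρ` cover
`Z`; let `p` be so large that `1/(p+1) < J y0` for all these `y0`. For `z ∈ Z` in `ball z0 ρ`:
`z, y0 ∈ N`, `J - l_p` is `< 0` at `z` and `> 0` at `y0`, so it has a zero `y ∈ N`
(`IsPreconnected.intermediate_value`); `N ⊆ connectedComponentIn E z` and `dist y z < ε`. -/
theorem apx {X : Type*} [MetricSpace X] (E : Set X) (hE : IsCompact E) (hl : LCn E)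
    (J : X → ℝ) (hJ : Continuous J) (hJ0 : ∀ x, 0 ≤ J x)
    (hd : ∀ w ∈ E, ∀ ε > 0, ∃ y ∈ E, dist y w < ε ∧ J y ≠ 0)
    (l : ℕ → X → ℝ) (hlc : ∀ p, Continuous (l p)) (hlpos : ∀ p, ∀ x ∈ E, 0 < l p x)
    (hl0 : ∀ p : ℕ, ∀ x ∈ E, l p x < 1 / ((p : ℝ) + 1)) :
    (∀ ε > 0, ∀ᶠ p in Filter.atTop, ∀ y ∈ E, J y = l p y → ∃ z ∈ E, J z = 0 ∧ dist y z < ε) ∧
    (∀ ε > 0, ∀ᶠ p in Filter.atTop, ∀ z ∈ E, J z = 0 →
      ∃ y ∈ connectedComponentIn E z, J y = l p y ∧ dist y z < ε) := by
  have hev : ∀ c : ℝ, 0 < c → ∀ᶠ p : ℕ in Filter.atTop, 1 / ((p : ℝ) + 1) < c := fun c hc =>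
    tendsto_one_div_add_atTop_nhds_zero_nat.eventually_lt_const hc
  refine ⟨fun ε hε => ?_, fun ε hε => ?_⟩
  · set K : Set X := E ∩ {y | ∀ z ∈ E, J z = 0 → ε ≤ dist y z} with hK
    have hcl : IsClosed {y : X | ∀ z ∈ E, J z = 0 → ε ≤ dist y z} := by
      have h1 : {y : X | ∀ z ∈ E, J z = 0 → ε ≤ dist y z} =
          ⋂ z : X, ⋂ _ : z ∈ E, ⋂ _ : J z = 0, {y | ε ≤ dist y z} := by
        ext y
        simp
      rw [h1]
      refine isClosed_iInter fun z => isClosed_iInter fun _ => isClosed_iInter fun _ => ?_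
      exact isClosed_le continuous_const (continuous_id.dist continuous_const)
    have hKc : IsCompact K := hE.inter_right hcl
    rcases K.eq_empty_or_nonempty with h0 | h0
    · refine Filter.Eventually.of_forall fun p y hy _ => ?_
      have h1 : y ∉ K := by
        rw [h0]
        exact Set.notMem_empty y
      by_contra hcon
      refine h1 ⟨hy, fun z hz hJz => ?_⟩
      by_contra hlt
      exact hcon ⟨z, hz, hJz, not_le.1 hlt⟩
    · obtain ⟨x₀, hx₀, hmin⟩ := hKc.exists_isMinOn h0 hJ.continuousOn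
      have hpos : 0 < J x₀ := by
        refine lt_of_le_of_ne (hJ0 x₀) fun h => ?_
        have h1 := hx₀.2 x₀ hx₀.1 h.symm
        rw [dist_self] at h1
        linarith
      filter_upwards [hev _ hpos] with p hp
      intro y hy hJy
      by_contra hcon
      have h1 : y ∈ K := by
        refine ⟨hy, fun z hz hJz => ?_⟩
        by_contra hlt
        exact hcon ⟨z, hz, hJz, not_le.1 hlt⟩
      have h2 : J x₀ ≤ J y := hmin h1
      have h3 := hl0 p y hy
      rw [← hJy] at h3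
      linarith
  · have hZ : IsCompact (E ∩ J ⁻¹' {0}) := hE.inter_right (isClosed_singleton.preimage hJ)
    have key : ∀ᶠ p : ℕ in Filter.atTop, ∀ z ∈ E ∩ J ⁻¹' {0}, z ∈ E → J z = 0 →
        ∃ y ∈ connectedComponentIn E z, J y = l p y ∧ dist y z < ε := by
      refine hZ.induction_on (p := fun s => ∀ᶠ p : ℕ in Filter.atTop, ∀ z ∈ s, z ∈ E → J z = 0 →
        ∃ y ∈ connectedComponentIn E z, J y = l p y ∧ dist y z < ε) ?_ ?_ ?_ ?_
      · exact Filter.Eventually.of_forall fun p z hz => absurd hz (Set.notMem_empty z)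
      · intro s t hst ht
        filter_upwards [ht] with p hp z hz
        exact hp z (hst hz)
      · intro s t hs ht
        filter_upwards [hs, ht] with p h1 h2 z hz
        rcases hz with hz | hz
        · exact h1 z hz
        · exact h2 z hz
      · rintro z₀ ⟨hz₀, hJz₀⟩
        obtain ⟨ρ, hρ, N, hN, hNE, hEN⟩ := hl z₀ hz₀ (ε / 2) (by linarith)
        obtain ⟨y₀, hy₀, hd₀, hJy₀⟩ := hd z₀ hz₀ ρ hρ
        have hpos : 0 < J y₀ := lt_of_le_of_ne (hJ0 y₀) (Ne.symm hJy₀)
        have hy₀N : y₀ ∈ N := hEN ⟨hy₀, Metric.mem_ball.2 hd₀⟩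
        refine ⟨Metric.ball z₀ ρ, mem_nhdsWithin_of_mem_nhds (Metric.ball_mem_nhds z₀ hρ), ?_⟩
        filter_upwards [hev _ hpos] with p hp z hz hzE hJz
        have hzN : z ∈ N := hEN ⟨hzE, hz⟩
        have h1 : (0 : ℝ) ∈ Set.Icc (J z - l p z) (J y₀ - l p y₀) := by
          have h2 := hlpos p z hzE
          have h3 := hl0 p y₀ hy₀
          rw [hJz]
          constructor
          · linarith
          · linarith
        obtain ⟨y, hyN, hy⟩ := hN.intermediate_value hzN hy₀N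
          (f := fun x => J x - l p x) (hJ.sub (hlc p)).continuousOn h1
        have hy' : J y - l p y = 0 := hy
        refine ⟨y, ?_, by linarith, ?_⟩
        · exact hN.subset_connectedComponentIn hzN (fun x hx => (hNE hx).1) hyN
        · have h4 : dist y z₀ < ε / 2 := Metric.mem_ball.1 (hNE hyN).2
          have h5 : dist z z₀ < ε / 2 := Metric.mem_ball.1 (hNE hzN).2
          have h6 := dist_triangle_right y z z₀
          linarith
    filter_upwards [key] with p hp z hz hJz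
    exact hp z ⟨hz, hJz⟩ hz hJz

end Pool.Agent.RM90
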