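import Pool.Agent.Lib.MP_df59e7_lc.Defs

set_option autoImplicit false

/-! MP_df59e7_lc, module CntA. -/

namespace Pool.Agent.RM90

open MvPolynomial

/-- Penalty: for a strict local minimum `w` of `x_0` on `{x in U : g = 0}`, `g ≥ 0`, for all
small `r`, for all large `t`, `x_0 + t g` is on the sphere of radius `r` around `w` larger than
its value at `w`, uniformly.
Proof: choose `r0` with `closedBall w r0 ⊆ U` and smaller than the radius of strict minimality.
On the compact set `sphere w r`: if the claim fails there are `t_m → ∞`, `y_m ∈ sphere w r` with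
`y_m 0 + t_m g(y_m) < w 0 + 1/m`; a limit point `y` satisfies `g(y) = 0` (as `t_m g(y_m)` is
bounded above) and `y 0 ≤ w 0` (as `g ≥ 0`), `y ≠ w`, `y ∈ U`: contradiction. -/
theorem penalty {n : ℕ} [NeZero n] (U : Set (Fin n → ℝ)) (hU : IsOpen U)
    (g : MvPolynomial (Fin n) ℝ) (hg0 : ∀ x, 0 ≤ eval x g) (w : Fin n → ℝ)
    (hw : SLM {x | x ∈ U ∧ eval x g = 0} (fun x => x 0) w) :
    ∃ r0 > 0, ∀ r, 0 < r → r ≤ r0 → Metric.closedBall w r ⊆ U ∧ ∃ t0 : ℝ, ∃ η > 0,
      ∀ t ≥ t0, ∀ y ∈ Metric.sphere w r, w 0 + η ≤ y 0 + t * eval y g := by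
  obtain ⟨⟨hwU, -⟩, ε, hε, hmin⟩ := hw
  obtain ⟨ρ, hρ, hball⟩ := Metric.isOpen_iff.1 hU w hwU
  refine ⟨min ε ρ / 2, by positivity, fun r hr hr0 => ?_⟩
  have hrε : r < ε := by
    have := min_le_left ε ρ
    linarith
  have hrρ : r < ρ := by
    have := min_le_right ε ρ
    linarith
  have hsub : Metric.closedBall w r ⊆ U :=
    (Metric.closedBall_subset_ball hrρ).trans hball
  refine ⟨hsub, ?_⟩
  have hgc : Continuous fun y : Fin n → ℝ => eval y g := MvPolynomial.continuous_eval g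
  let V : ℕ → Set (Fin n → ℝ) := fun m => {y | w 0 + 1 / ((m : ℝ) + 1) < y 0 + m * eval y g}
  have hVo : ∀ m, IsOpen (V m) := fun m =>
    isOpen_lt continuous_const ((continuous_apply 0).add (continuous_const.mul hgc))
  have hVm : Monotone V := by
    intro a b hab y hy
    have hab' : (a : ℝ) ≤ b := by exact_mod_cast hab
    have h1 : 1 / ((b : ℝ) + 1) ≤ 1 / ((a : ℝ) + 1) :=
      one_div_le_one_div_of_le (by positivity) (by linarith)
    have h2 : (a : ℝ) * eval y g ≤ b * eval y g := mul_le_mul_of_nonneg_right hab' (hg0 y)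
    have h3 : w 0 + 1 / ((a : ℝ) + 1) < y 0 + a * eval y g := hy
    change w 0 + 1 / ((b : ℝ) + 1) < y 0 + b * eval y g
    linarith
  have hcov : Metric.sphere w r ⊆ ⋃ m, V m := by
    intro y hy
    rw [Metric.mem_sphere] at hy
    rw [Set.mem_iUnion]
    rcases (hg0 y).eq_or_lt with h0 | h0
    · have hyU : y ∈ U := hsub (Metric.mem_closedBall.2 hy.le)
      have hne : y ≠ w := by
        rintro rfl
        rw [dist_self] at hy
        exact hr.ne hy
      have h1 : w 0 < y 0 := hmin y ⟨hyU, h0.symm⟩ (by rw [hy]; exact hrε) hne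
      obtain ⟨m, hm⟩ := exists_nat_one_div_lt (sub_pos.2 h1)
      refine ⟨m, ?_⟩
      change w 0 + 1 / ((m : ℝ) + 1) < y 0 + m * eval y g
      rw [← h0, mul_zero]
      linarith
    · obtain ⟨m, hm⟩ := exists_nat_gt ((w 0 + 1 - y 0) / eval y g)
      refine ⟨m, ?_⟩
      change w 0 + 1 / ((m : ℝ) + 1) < y 0 + m * eval y g
      rw [div_lt_iff₀ h0] at hm
      have h2 : 1 / ((m : ℝ) + 1) ≤ 1 := by
        rw [div_le_one (by positivity)]
        have : (0 : ℝ) ≤ m := Nat.cast_nonneg m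
        linarith
      linarith
  obtain ⟨m, hm⟩ := (isCompact_sphere w r).elim_directed_cover V hVo hcov hVm.directed_le
  refine ⟨m, 1 / ((m : ℝ) + 1), by positivity, fun t ht y hy => ?_⟩
  have h1 : w 0 + 1 / ((m : ℝ) + 1) < y 0 + m * eval y g := hm hy
  have h2 : (m : ℝ) * eval y g ≤ t * eval y g := mul_le_mul_of_nonneg_right ht (hg0 y)
  linarith

end Pool.Agent.RM90
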