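import Pool.Agent.Lib.MP_df59e7_lc.Defs
import Pool.Agent.Lib.MP_df59e7_lc.CntA

set_option autoImplicit false

/-! MP_df59e7_lc, module CntB. -/

namespace Pool.Agent.RM90

open MvPolynomial

private lemma CntB_common {X : Type*} (W : Finset X) (f : X → ℝ) (hf : ∀ w ∈ W, 0 < f w) :
    ∃ r > 0, ∀ w ∈ W, r ≤ f w := by
  classical
  induction W using Finset.induction_on with
  | empty => exact ⟨1, one_pos, by simp⟩
  | insert a s ha ih =>
    obtain ⟨r, hr, h⟩ := ih (fun w hw => hf w (Finset.mem_insert_of_mem hw))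
    refine ⟨min r (f a), lt_min hr (hf a (Finset.mem_insert_self _ _)), ?_⟩
    intro w hw
    rcases Finset.mem_insert.1 hw with rfl | hw
    · exact min_le_right _ _
    · exact le_trans (min_le_left _ _) (h w hw)

private lemma CntB_sep {X : Type*} [MetricSpace X] (W : Finset X) :
    ∃ r > 0, ∀ w ∈ W, ∀ v ∈ W, w ≠ v → r ≤ dist w v := by
  classical
  obtain ⟨r, hr, h⟩ := CntB_common ((W ×ˢ W).filter (fun p => p.1 ≠ p.2))
    (fun p => dist p.1 p.2) (by
      intro p hp
      exact dist_pos.2 (Finset.mem_filter.1 hp).2)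
  refine ⟨r, hr, ?_⟩
  intro w hw v hv hne
  exact h (w, v) (Finset.mem_filter.2 ⟨Finset.mem_product.2 ⟨hw, hv⟩, hne⟩)

/-- The number of strict local minima of `x_0` on the zero set of a nonnegative polynomial.
Proof: let `W` be given (nonempty). Choose `r` with the closed balls `closedBall w r` (`w ∈ W`)
pairwise disjoint and with the conclusion of `penalty` for all `w ∈ W`, with common `t` and `η`.
For small `c : Fin n → ℝ` the function `ψ(x) = x_0 + t g(x) + sum c_j x_j` satisfies
`ψ(w) < ψ(y)` for all `y ∈ sphere w r`, `w ∈ W` (note `eval w g = 0`), so it has a minimum on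
`closedBall w r` at an interior point `x_w`, where all polynomials
`f_j = pderiv j (X 0 + C t * g) + C (c j)` vanish. By Sard
(`MeasureTheory.addHaar_image_eq_zero_of_det_fderivWithin_eq_zero` for the map
`x ↦ (eval x (pderiv j (X 0 + C t * g)))_j`) for almost every `c`, in particular for some
arbitrarily small `c`, the derivative of this map is invertible at all points where it equals
`-c`. Then `Pool.Agent.Warren46.bezout` applies to `f` and `Z = {x_w}` with the degree bound `D`
(`degreeOf_pderiv_le`; see the end of `Warren46.card_cells` for the same pattern). -/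
theorem cnt_min {n : ℕ} [NeZero n] (U : Set (Fin n → ℝ)) (hU : IsOpen U)
    (g : MvPolynomial (Fin n) ℝ) (hg0 : ∀ x, 0 ≤ eval x g) (D : ℕ) (hD1 : 1 ≤ D)
    (hD : ∀ j, degreeOf j g ≤ D) (W : Finset (Fin n → ℝ))
    (hW : ∀ w ∈ W, SLM {x | x ∈ U ∧ eval x g = 0} (fun x => x 0) w) :
    W.card ≤ (n * D + 1) ^ n := by
  classical
  -- common radius
  have hex : ∀ w, ∃ r0 : ℝ, w ∈ W → (0 < r0 ∧ ∀ r, 0 < r → r ≤ r0 →
      Metric.closedBall w r ⊆ U ∧ ∃ t0 : ℝ, ∃ η > 0,
      ∀ t ≥ t0, ∀ y ∈ Metric.sphere w r, w 0 + η ≤ y 0 + t * eval y g) := by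
    intro w
    by_cases hw : w ∈ W
    · obtain ⟨r0, h1, h2⟩ := penalty U hU g hg0 w (hW w hw)
      exact ⟨r0, fun _ => ⟨h1, h2⟩⟩
    · exact ⟨1, fun h => absurd h hw⟩
  choose r0 hr0 using hex
  obtain ⟨r1, hr1, hr1'⟩ := CntB_common W r0 (fun w hw => (hr0 w hw).1)
  obtain ⟨r2, hr2, hr2'⟩ := CntB_sep W
  set r : ℝ := min r1 (r2 / 3) with hr
  have hrpos : 0 < r := lt_min hr1 (by positivity)
  have hrr1 : r ≤ r1 := min_le_left _ _
  have hrr2 : r ≤ r2 / 3 := min_le_right _ _
  have hex2 : ∀ w, ∃ t0 : ℝ, ∃ η : ℝ, w ∈ W → (0 < η ∧ ∀ t ≥ t0,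
      ∀ y ∈ Metric.sphere w r, w 0 + η ≤ y 0 + t * eval y g) := by
    intro w
    by_cases hw : w ∈ W
    · obtain ⟨-, t0, η, h1, h2⟩ := (hr0 w hw).2 r hrpos (hrr1.trans (hr1' w hw))
      exact ⟨t0, η, fun _ => ⟨h1, h2⟩⟩
    · exact ⟨0, 1, fun h => absurd h hw⟩
  choose t0 η0 hη0 using hex2
  obtain ⟨η, hη, hη'⟩ := CntB_common W η0 (fun w hw => (hη0 w hw).1)
  obtain ⟨t, ht⟩ : ∃ t : ℝ, ∀ w ∈ W, t0 w ≤ t := by
    obtain ⟨t, ht⟩ := (W.image t0).bddAbove
    exact ⟨t, fun w hw => ht (Finset.mem_coe.2 (Finset.mem_image_of_mem _ hw))⟩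
  have hpen : ∀ w ∈ W, ∀ y ∈ Metric.sphere w r, w 0 + η ≤ y 0 + t * eval y g := by
    intro w hw y hy
    have := (hη0 w hw).2 t (ht w hw) y hy
    have := hη' w hw
    linarith
  -- Sard
  set P : MvPolynomial (Fin n) ℝ := X 0 + C t * g with hP
  set Ψ : (Fin n → ℝ) → (Fin n → ℝ) := fun x j => eval x (pderiv j P) with hΨ
  set Ψ' : (Fin n → ℝ) → ((Fin n → ℝ) →L[ℝ] (Fin n → ℝ)) := fun x =>
    ContinuousLinearMap.pi (fun j => Warren46.gradL (pderiv j P) x) with hΨ'
  have hΨd : ∀ x, HasFDerivAt Ψ (Ψ' x) x := by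
    intro x
    rw [hasFDerivAt_pi']
    intro j
    exact Warren46.hasFDerivAt_eval (pderiv j P) x
  set s : Set (Fin n → ℝ) := {x | (Ψ' x).det = 0} with hs
  have hnull : MeasureTheory.volume (Ψ '' s) = 0 :=
    MeasureTheory.addHaar_image_eq_zero_of_det_fderivWithin_eq_zero MeasureTheory.volume
      (f' := Ψ') (fun x _ => (hΨd x).hasFDerivWithinAt) (fun x hx => hx)
  set δ : ℝ := η / (n * r + 1) with hδ
  have hδpos : 0 < δ := by positivity
  have hδr : n * δ * r < η := by
    rw [hδ]
    have h1 : (0 : ℝ) < n * r + 1 := by positivity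
    have h2 : (n : ℝ) * (η / (n * r + 1)) * r = η * ((n * r) / (n * r + 1)) := by
      field_simp
    rw [h2]
    have h3 : ((n : ℝ) * r) / (n * r + 1) < 1 := by
      rw [div_lt_one h1]
      linarith
    nlinarith
  obtain ⟨v, hvb, hv⟩ : ∃ v ∈ Metric.ball (0 : Fin n → ℝ) δ, v ∉ Ψ '' s := by
    by_contra hcon
    push Not at hcon
    have h1 : Metric.ball (0 : Fin n → ℝ) δ ⊆ Ψ '' s := hcon
    have h2 := MeasureTheory.measure_mono_null h1 hnull
    exact Metric.isOpen_ball.measure_ne_zero MeasureTheory.volume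
      ⟨0, Metric.mem_ball_self hδpos⟩ h2
  have hvj : ∀ j, |v j| ≤ δ := by
    intro j
    have h1 : ‖v‖ < δ := by simpa using hvb
    exact (norm_le_pi_norm v j).trans h1.le
  -- critical points
  set lin : (Fin n → ℝ) →L[ℝ] ℝ := ∑ j, (-v j) • ContinuousLinearMap.proj j with hlin
  have hlin_apply : ∀ x, lin x = ∑ j, -v j * x j := by
    intro x; simp [hlin]
  set ψ : (Fin n → ℝ) → ℝ := fun x => eval x P + lin x with hψ
  have hψd : ∀ x, HasFDerivAt ψ (Warren46.gradL P x + lin) x := by
    intro x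
    exact (Warren46.hasFDerivAt_eval P x).add lin.hasFDerivAt
  have hψc : Continuous ψ := continuous_iff_continuousAt.mpr fun x => (hψd x).continuousAt
  have hPe : ∀ x, eval x P = x 0 + t * eval x g := by
    intro x; simp [hP]
  have hsph : ∀ w ∈ W, ∀ y ∈ Metric.sphere w r, ψ w < ψ y := by
    intro w hw y hy
    have h1 := hpen w hw y hy
    have h2 : eval w g = 0 := (hW w hw).1.2
    have h3 : |lin (y - w)| ≤ n * δ * r := by
      rw [hlin_apply]
      refine (Finset.abs_sum_le_sum_abs _ _).trans ?_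
      have h4 : ∀ j ∈ (Finset.univ : Finset (Fin n)), |-v j * (y - w) j| ≤ δ * r := by
        intro j _
        rw [abs_mul, abs_neg]
        have h5 : |(y - w) j| ≤ r := by
          have h6 : ‖y - w‖ = r := by
            rw [← dist_eq_norm]; exact hy
          rw [← h6]
          exact norm_le_pi_norm (y - w) j
        exact mul_le_mul (hvj j) h5 (abs_nonneg _) hδpos.le
      refine (Finset.sum_le_sum h4).trans ?_
      simp [mul_assoc]
    have h5 : lin y = lin w + lin (y - w) := by
      rw [map_sub]; ring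
    simp only [hψ]
    rw [hPe, hPe, h2, h5]
    have h6 := neg_le_of_abs_le h3
    linarith
  have hcrit : ∀ w, ∃ x, w ∈ W → (x ∈ Metric.ball w r ∧ IsLocalMin ψ x) := by
    intro w
    by_cases hw : w ∈ W
    · have hcomp : IsCompact (Metric.closedBall w r) := isCompact_closedBall w r
      obtain ⟨x, hx, hmin⟩ := hcomp.exists_isMinOn
        ⟨w, Metric.mem_closedBall_self hrpos.le⟩ hψc.continuousOn
      refine ⟨x, fun _ => ?_⟩
      have hxs : x ∉ Metric.sphere w r := by
        intro hxs
        have h1 := hsph w hw x hxs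
        have h2 := hmin (Metric.mem_closedBall_self hrpos.le)
        exact absurd h1 (not_lt.2 h2)
      have hxb : x ∈ Metric.ball w r := by
        rcases lt_or_eq_of_le (Metric.mem_closedBall.1 hx) with h | h
        · exact h
        · exact absurd h hxs
      refine ⟨hxb, ?_⟩
      have hnhds : Metric.ball w r ∈ nhds x := Metric.isOpen_ball.mem_nhds hxb
      exact Filter.mem_of_superset hnhds fun z hz => hmin (Metric.ball_subset_closedBall hz)
    · exact ⟨0, fun h => absurd h hw⟩
  choose x hx using hcrit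
  set E : Fin n → MvPolynomial (Fin n) ℝ := fun j => pderiv j P + C (-v j) with hE
  have hE0 : ∀ w ∈ W, ∀ j, eval (x w) (E j) = 0 := by
    intro w hw j
    have h1 := (hx w hw).2.hasFDerivAt_eq_zero (hψd (x w))
    have h2 := congrArg (fun L : (Fin n → ℝ) →L[ℝ] ℝ => L (Pi.single j 1)) h1
    simp only [ContinuousLinearMap.add_apply, hlin_apply, Warren46.gradL_apply,
      ContinuousLinearMap.zero_apply] at h2
    have s1 : ∑ i, -v i * (Pi.single j 1 : Fin n → ℝ) i = -v j := by
      rw [Finset.sum_eq_single j]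
      · simp
      · intro i _ hi; simp [hi]
      · intro h; exact absurd (Finset.mem_univ _) h
    have s2 : ∑ i, eval (x w) (pderiv i P) * (Pi.single j 1 : Fin n → ℝ) i =
        eval (x w) (pderiv j P) := by
      rw [Finset.sum_eq_single j]
      · simp
      · intro i _ hi; simp [hi]
      · intro h; exact absurd (Finset.mem_univ _) h
    rw [s1, s2] at h2
    simp only [hE, map_add, eval_C]
    exact h2
  have hΨx : ∀ w ∈ W, Ψ (x w) = v := by
    intro w hw
    funext j
    have h1 := hE0 w hw j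
    simp only [hE, map_add, eval_C] at h1
    simp only [hΨ]
    linarith
  have hdet : ∀ w ∈ W, (Ψ' (x w)).det ≠ 0 := by
    intro w hw h0
    exact hv ⟨x w, h0, hΨx w hw⟩
  have hxinj : Set.InjOn x (W : Set (Fin n → ℝ)) := by
    intro w hw u hu hwu
    by_contra hne
    have h1 := hr2' w hw u hu hne
    have h2 := (hx w hw).1
    have h3 := (hx u hu).1
    rw [← hwu] at h3
    have h4 : dist w u ≤ dist w (x w) + dist (x w) u := dist_triangle _ _ _
    rw [Metric.mem_ball] at h2 h3
    rw [dist_comm w (x w)] at h4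
    linarith
  have hdegP : ∀ j, degreeOf j P ≤ D := by
    intro j
    rw [hP]
    refine le_trans (degreeOf_add_le _ _ _) (max_le ?_ ?_)
    · rw [degreeOf_X]
      split_ifs
      · exact hD1
      · exact Nat.zero_le _
    · exact le_trans (degreeOf_C_mul_le _ _ _) (hD j)
  have hbz := Warren46.bezout E D (fun i j => by
      simp only [hE]
      refine le_trans (degreeOf_add_le _ _ _) (max_le ?_ ?_)
      · exact Warren46.degreeOf_pderiv_le P D hdegP i j
      · rw [degreeOf_C]; exact Nat.zero_le _)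
    (W.image x)
    (fun z hz i => by
      obtain ⟨w, hw, rfl⟩ := Finset.mem_image.mp hz
      exact hE0 w hw i)
    (fun z hz y => by
      obtain ⟨w, hw, rfl⟩ := Finset.mem_image.mp hz
      have hsurj : Function.Surjective (Ψ' (x w)) := by
        have := (LinearMap.equivOfDetNeZero (Ψ' (x w) : (Fin n → ℝ) →ₗ[ℝ] (Fin n → ℝ))
          (hdet w hw)).surjective
        exact this
      obtain ⟨u, hu⟩ := hsurj y
      refine ⟨u, ?_⟩
      intro i
      have h1 : HasFDerivAt (fun z => eval z (E i)) (Warren46.gradL (E i) (x w)) (x w) :=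
        Warren46.hasFDerivAt_eval (E i) (x w)
      have h2 : HasFDerivAt (fun z => Ψ z i)
          ((ContinuousLinearMap.proj i : (Fin n → ℝ) →L[ℝ] ℝ).comp (Ψ' (x w))) (x w) :=
        (hasFDerivAt_pi'.mp (hΨd (x w))) i
      have h3 : HasFDerivAt (fun z => eval z (E i))
          ((ContinuousLinearMap.proj i : (Fin n → ℝ) →L[ℝ] ℝ).comp (Ψ' (x w))) (x w) := by
        have h4 := h2.add_const (-v i)
        have h5 : (fun z => eval z (E i)) = fun z => Ψ z i + -v i := by
          funext z
          simp [hE, hΨ]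
        rw [h5]
        exact h4
      have hl : HasDerivAt (fun τ : ℝ => x w + τ • u) u 0 := by
        have := ((hasDerivAt_id (0 : ℝ)).smul_const u).const_add (x w)
        simpa using this
      have h6 : HasFDerivAt (fun z => eval z (E i))
          ((ContinuousLinearMap.proj i : (Fin n → ℝ) →L[ℝ] ℝ).comp (Ψ' (x w)))
          (x w + (0 : ℝ) • u) := by
        rw [zero_smul, add_zero]; exact h3
      have h7 := h6.comp_hasDerivAt (0 : ℝ) hl
      have h8 : ((ContinuousLinearMap.proj i : (Fin n → ℝ) →L[ℝ] ℝ).comp (Ψ' (x w))) u = y i := by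
        rw [ContinuousLinearMap.comp_apply, hu]
        rfl
      rw [h8] at h7
      exact h7)
  rw [Finset.card_image_of_injOn hxinj, Fintype.card_fin] at hbz
  exact hbz

end Pool.Agent.RM90
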