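import Pool.Agent.Lib.MP_df59e7_lc.Defs
import Pool.Agent.Lib.MP_df59e7_lc.CntB

set_option autoImplicit false

/-! MP_df59e7_lc, module CntG. -/

namespace Pool.Agent.RM90

open MvPolynomial

/-- Number of local minima of `x_0` at a good stage.
Proof: all local minima are strict (`Good.str`). Apply `cnt_min` to finite sets of local minima,
`g = sum_{j ≥ i} (F j)^2`, `D = 2 * 3^n * d0` (`degreeOf ≤ totalDegree`); then
`(n * D + 1)^n = BB n d0`. To pass from finite subsets to the set itself use
`Set.encard_le_of_...`: an infinite set, or a set with more than `B` elements, has a finite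
subset with `B + 1` elements. -/
theorem cnt_good {n : ℕ} [NeZero n] (U : Set (Fin n → ℝ)) (i : ℕ)
    (F : Fin n → MvPolynomial (Fin n) ℝ) (d0 : ℕ) (hd0 : 1 ≤ d0) (hG : Good U i F d0) :
    {w | LM (Est U i F) (fun x => x 0) w}.encard ≤ (BB n d0 : ℕ∞) := by
  set g : MvPolynomial (Fin n) ℝ := ∑ j : Fin n, if i ≤ (j : ℕ) then (F j) ^ 2 else 0 with hg
  have hev : ∀ x, eval x g = ∑ j : Fin n, if i ≤ (j : ℕ) then (eval x (F j)) ^ 2 else 0 := by
    intro x
    rw [hg, map_sum]
    apply Finset.sum_congr rfl
    intro j _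
    split_ifs <;> simp
  have hg0 : ∀ x, 0 ≤ eval x g := by
    intro x
    rw [hev]
    apply Finset.sum_nonneg
    intro j _
    split_ifs
    · positivity
    · exact le_refl _
  have hE : Est U i F = {x | x ∈ U ∧ eval x g = 0} := by
    ext x
    simp only [Est, Set.mem_setOf_eq]
    constructor
    · rintro ⟨h1, h2⟩
      refine ⟨h1, ?_⟩
      rw [hev]
      apply Finset.sum_eq_zero
      intro j _
      split_ifs with h
      · rw [h2 j h]; simp
      · rfl
    · rintro ⟨h1, h2⟩
      refine ⟨h1, ?_⟩
      intro j hj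
      rw [hev, Finset.sum_eq_zero_iff_of_nonneg] at h2
      · have := h2 j (Finset.mem_univ j)
        rw [if_pos hj] at this
        exact pow_eq_zero_iff (two_ne_zero) |>.1 this
      · intro j _
        split_ifs
        · positivity
        · exact le_refl _
  have hdeg : ∀ j, degreeOf j g ≤ 2 * 3 ^ n * d0 := by
    intro j
    refine le_trans (degreeOf_le_totalDegree _ _) ?_
    rw [hg]
    refine le_trans (totalDegree_finset_sum _ _) ?_
    apply Finset.sup_le
    intro l _
    split_ifs with h
    · refine le_trans (totalDegree_pow _ _) ?_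
      have h1 := hG.deg l h
      have h2 : 3 ^ (n - 1 - (l : ℕ)) ≤ 3 ^ n := Nat.pow_le_pow_right (by norm_num) (by omega)
      calc 2 * (F l).totalDegree ≤ 2 * (3 ^ (n - 1 - (l : ℕ)) * d0) :=
            Nat.mul_le_mul_left _ h1
        _ ≤ 2 * (3 ^ n * d0) := Nat.mul_le_mul_left _ (Nat.mul_le_mul_right _ h2)
        _ = 2 * 3 ^ n * d0 := by ring
    · simp
  have hD1 : 1 ≤ 2 * 3 ^ n * d0 := by
    have : 0 < 2 * 3 ^ n * d0 := by positivity
    exact this
  have key : ∀ W : Finset (Fin n → ℝ), (∀ w ∈ W, LM (Est U i F) (fun x => x 0) w) →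
      W.card ≤ BB n d0 := by
    intro W hW
    have h := cnt_min U hG.isOpen g hg0 (2 * 3 ^ n * d0) hD1 hdeg W (by
      intro w hw
      have := hG.str w (hW w hw)
      rwa [hE] at this)
    have e : (n * (2 * 3 ^ n * d0) + 1) ^ n = BB n d0 := by
      unfold BB
      congr 1
      ring
    rwa [e] at h
  by_contra hlt
  rw [not_le] at hlt
  have h1 : ((BB n d0 + 1 : ℕ) : ℕ∞) ≤ {w | LM (Est U i F) (fun x => x 0) w}.encard := by
    push_cast
    exact Order.add_one_le_of_lt hlt
  obtain ⟨t, ht, htc⟩ := Set.exists_subset_encard_eq h1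
  have hfin : t.Finite := by
    apply Set.finite_of_encard_eq_coe htc
  have h2 := key hfin.toFinset (by
    intro w hw
    exact ht (hfin.mem_toFinset.1 hw))
  rw [hfin.encard_eq_coe_toFinset_card] at htc
  have h3 : hfin.toFinset.card = BB n d0 + 1 := by exact_mod_cast htc
  omega

end Pool.Agent.RM90
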