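import Pool.Agent.Lib.MP_df59e7_lc.Lim

set_option autoImplicit false

/-! MP_df59e7_lc, assembly: the number of components of a basic closed set. -/

namespace Pool.Agent.RM90

open MvPolynomial Filter

theorem comp_count {k s : ℕ} [NeZero k] (d : ℕ) (P : Fin s → MvPolynomial (Fin k) ℝ)
    (hdeg : ∀ i, (P i).totalDegree ≤ d)
    (hb : Bornology.IsBounded {x : Fin k → ℝ | ∀ i, 0 ≤ eval x (P i)})
    (T : Finset (Fin k → ℝ)) (hT : ↑T ⊆ {x : Fin k → ℝ | ∀ i, 0 ≤ eval x (P i)})
    (hdis : ∀ x ∈ T, ∀ y ∈ T,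
      y ∈ connectedComponentIn {x : Fin k → ℝ | ∀ i, 0 ≤ eval x (P i)} x → x = y) :
    T.card ≤ BB (k + 1) (s * d + 2) := by
  classical
  have hk : 1 ≤ k := Nat.one_le_iff_ne_zero.mpr (NeZero.ne k)
  set S : Set (Fin k → ℝ) := {x | ∀ i, 0 ≤ eval x (P i)} with hS
  obtain ⟨R00, hR00⟩ := hb.exists_norm_le
  set R0 : ℝ := R00 + 1 with hR0d
  have hR0 : ∀ x : Fin k → ℝ, (∀ i, 0 ≤ eval x (P i)) → ‖x‖ < R0 := fun x hx => by
    have := hR00 x hx; rw [hR0d]; linarith
  have hpos : ∀ p : ℕ, (0 : ℝ) < 1 / ((p : ℝ) + 1) := fun p => by positivity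
  have hst := fun p : ℕ => init_stage hk d P hdeg R0 hR0 (1 / ((p : ℝ) + 1)) (hpos p)
  choose U F hG hE1 L hLc hL using hst
  set E : ℕ → Set (Fin (k + 1) → ℝ) := fun p => Est (U p) k (F p) with hE
  have hLS : ∀ p, ∀ x ∈ S, L p x ∈ E p ∧ prl (L p x) = x := fun p x hx => hL p x hx
  have hK : IsCompact (Metric.closedBall (0 : Fin k → ℝ) R0) := isCompact_closedBall 0 R0
  have hEK : ∀ p, prl '' E p ⊆ Metric.closedBall (0 : Fin k → ℝ) R0 := by
    rintro p _ ⟨y, hy, rfl⟩
    rw [mem_closedBall_zero_iff]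
    exact (hE1 p y hy).2
  have hES : ulim (fun p => prl '' E p) ⊆ S := by
    intro x hx i
    obtain ⟨a, ha, hax⟩ := exists_sel _ x hx
    have h1 : Tendsto (fun p => eval (a p) (P i)) (Filter.hyperfilter ℕ : Filter ℕ)
        (nhds (eval x (P i))) := ((continuous_evalp (P i)).tendsto x).comp hax
    have h2 : Tendsto (fun p : ℕ => -(1 / ((p : ℝ) + 1))) (Filter.hyperfilter ℕ : Filter ℕ)
        (nhds 0) := by simpa using tendsto_inv.neg
    refine le_of_tendsto_of_tendsto h2 h1 ?_
    filter_upwards [ha] with p hp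
    obtain ⟨y, hy, hya⟩ := hp
    rw [← hya]
    exact (hE1 p y hy).1 i
  set C : ℕ → (Fin k → ℝ) → Set (Fin (k + 1) → ℝ) :=
    fun p x => connectedComponentIn (E p) (L p x) with hC
  have hCE : ∀ p x, C p x ⊆ E p := fun p x => connectedComponentIn_subset _ _
  have hCcomp : ∀ x ∈ S, ulim (fun p => prl '' C p x) ⊆ connectedComponentIn S x := by
    intro x hx
    have hpre : IsPreconnected (ulim (fun p => prl '' C p x)) := by
      refine ulim_preconnected _ hK _ (fun p => 1 / ((p : ℝ) + 1)) tendsto_inv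
        (Eventually.of_forall fun p => ⟨(Set.image_mono (hCE p x)).trans (hEK p), ?_⟩)
      exact chained_prl (chained_of_preconnected _ isPreconnected_connectedComponentIn _
        (hpos p))
    refine hpre.subset_connectedComponentIn ?_ ?_
    · refine mem_ulim_of_tendsto _ (fun _ => x) x (Eventually.of_forall fun p => ?_)
        tendsto_const_nhds
      exact ⟨L p x, mem_connectedComponentIn (hLS p x hx).1, (hLS p x hx).2⟩
    · exact (ulim_mono _ _ (Eventually.of_forall fun p => Set.image_mono (hCE p x))).trans hES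
  -- for almost all `p` the points `L p x`, `x ∈ T`, are in different components
  have hev : ∀ x ∈ T, ∀ y ∈ T, ∀ᶠ p in (Filter.hyperfilter ℕ : Filter ℕ),
      L p y ∈ C p x → x = y := by
    intro x hx y hy
    by_cases hxy : x = y
    · exact Eventually.of_forall fun _ _ => hxy
    by_contra hcon
    have h1 : ∀ᶠ p in (Filter.hyperfilter ℕ : Filter ℕ), ¬(L p y ∈ C p x → x = y) :=
      (Ultrafilter.eventually_not).mpr hcon
    have h2 : y ∈ ulim (fun p => prl '' C p x) := by
      refine mem_ulim_of_tendsto _ (fun _ => y) y ?_ tendsto_const_nhds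
      filter_upwards [h1] with p hp
      push Not at hp
      exact ⟨L p y, hp.1, (hLS p y (hT hy)).2⟩
    exact hxy (hdis x hx y hy (hCcomp x (hT hx) h2))
  have hall : ∀ᶠ p in (Filter.hyperfilter ℕ : Filter ℕ), ∀ x ∈ T, ∀ y ∈ T,
      L p y ∈ C p x → x = y := by
    rw [Filter.eventually_all_finset]
    intro x hx
    rw [Filter.eventually_all_finset]
    exact fun y hy => hev x hx y hy
  obtain ⟨p, hp⟩ := hall.exists
  have hmin : ∀ x : Fin k → ℝ, ∃ m, x ∈ T → m ∈ C p x ∧ LM (E p) (fun x => x 0) m := by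
    intro x
    by_cases hx : x ∈ T
    · obtain ⟨m, hm1, hm2⟩ := comp_min (E p) (hG p).cpt (hG p).lcn (fun x => x 0)
        (continuous_apply 0) (L p x) (hLS p x (hT hx)).1
      exact ⟨m, fun _ => ⟨hm1, hm2⟩⟩
    · exact ⟨fun _ => 0, fun h => absurd h hx⟩
  choose m hm using hmin
  have hinj : Set.InjOn m ↑T := by
    intro x hx y hy hxy
    have h1 := (hm x hx).1
    have h2 := (hm y hy).1
    rw [← hxy] at h2
    have h3 : C p x = C p y := by
      simp only [hC] at h1 h2 ⊢
      rw [connectedComponentIn_eq h1, connectedComponentIn_eq h2]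
    refine hp x hx y hy ?_
    rw [h3]
    exact mem_connectedComponentIn (hLS p y (hT hy)).1
  have hcard := cnt_good (U p) k (F p) (s * d + 2) (by omega) (hG p)
  have hsub : (↑(T.image m) : Set (Fin (k + 1) → ℝ)) ⊆ {w | LM (E p) (fun x => x 0) w} := by
    intro w hw
    rw [Finset.coe_image] at hw
    obtain ⟨x, hx, rfl⟩ := hw
    exact (hm x hx).2
  have h5 := (Set.encard_le_encard hsub).trans hcard
  rw [Set.encard_coe_eq_coe_finsetCard, Finset.card_image_of_injOn hinj] at h5
  exact_mod_cast h5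

end Pool.Agent.RM90
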