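import Pool.Agent.Lib.Warren46.Cells

set_option autoImplicit false

/-! Definitions for the roadmap theorem (MP_df59e7_lc). -/

namespace Pool.Agent.RM90

open MvPolynomial

variable {n : ℕ}

/-- The set `{x in U : F_j(x) = 0 for all j >= i}`. -/
def Est (U : Set (Fin n → ℝ)) (i : ℕ) (F : Fin n → MvPolynomial (Fin n) ℝ) :
    Set (Fin n → ℝ) :=
  {x | x ∈ U ∧ ∀ j : Fin n, i ≤ (j : ℕ) → eval x (F j) = 0}

/-- The Jacobian determinant of a polynomial map. -/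
noncomputable def jac (F : Fin n → MvPolynomial (Fin n) ℝ) : MvPolynomial (Fin n) ℝ :=
  (Matrix.of fun j l => pderiv l (F j)).det

/-- The polynomial map itself. -/
noncomputable def evm (F : Fin n → MvPolynomial (Fin n) ℝ) (x : Fin n → ℝ) : Fin n → ℝ :=
  fun j => eval x (F j)

/-- The first `i` components are the coordinates. -/
def Std (i : ℕ) (F : Fin n → MvPolynomial (Fin n) ℝ) : Prop :=
  ∀ j : Fin n, (j : ℕ) < i → F j = X j

/-- The linear polynomial `c_0 + sum_{1 <= j < i} c_j X_j`. -/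
noncomputable def lf (i : ℕ) (c : Fin n → ℝ) : MvPolynomial (Fin n) ℝ :=
  ∑ j : Fin n, if (j : ℕ) = 0 then C (c j) else if (j : ℕ) < i then C (c j) * X j else 0

/-- The next system: component `i - 1` is replaced by `G - lf i c`. -/
noncomputable def nxt (i : ℕ) (F : Fin n → MvPolynomial (Fin n) ℝ) (G : MvPolynomial (Fin n) ℝ)
    (c : Fin n → ℝ) : Fin n → MvPolynomial (Fin n) ℝ :=
  fun j => if (j : ℕ) + 1 = i then G - lf i c else F j

/-- The next set `{x in U : F_j(x) = 0 for all j >= i, G(x) = l_c(x)}`. -/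
def Ehs (U : Set (Fin n → ℝ)) (i : ℕ) (F : Fin n → MvPolynomial (Fin n) ℝ)
    (G : MvPolynomial (Fin n) ℝ) (c : Fin n → ℝ) : Set (Fin n → ℝ) :=
  {x | x ∈ U ∧ (∀ j : Fin n, i ≤ (j : ℕ) → eval x (F j) = 0) ∧ eval x (G - lf i c) = 0}

/-- The Jacobian matrix at a point. -/
noncomputable def Jm (F : Fin n → MvPolynomial (Fin n) ℝ) (w : Fin n → ℝ) :
    Matrix (Fin n) (Fin n) ℝ :=
  Matrix.of fun j l => eval w (pderiv l (F j))

/-- The coefficients of `dG` in the basis `dF_a`. -/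
noncomputable def lam (F : Fin n → MvPolynomial (Fin n) ℝ) (G : MvPolynomial (Fin n) ℝ)
    (w : Fin n → ℝ) : Fin n → ℝ :=
  Matrix.vecMul (fun l => eval w (pderiv l G)) (Jm F w)⁻¹

/-- The auxiliary map `(T_0, ..., T_{i-1}, F_i, ..., F_{n-1})`, where `T_j = lam_j` for
`1 <= j < i` and `T_0 = G - sum_{1 <= l < i} x_l lam_l`. -/
noncomputable def TT (i : ℕ) (F : Fin n → MvPolynomial (Fin n) ℝ) (G : MvPolynomial (Fin n) ℝ)
    (w : Fin n → ℝ) : Fin n → ℝ :=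
  fun j => if i ≤ (j : ℕ) then eval w (F j) else
    if (j : ℕ) = 0 then
      eval w G - ∑ l : Fin n, (if 1 ≤ (l : ℕ) ∧ (l : ℕ) < i then w l * lam F G w l else 0)
    else lam F G w j

/-- The coefficients of the differential of the linear form `lf i c`. -/
noncomputable def vv (i : ℕ) (c : Fin n → ℝ) : Fin n → ℝ :=
  fun j => if (j : ℕ) = 0 then 0 else if (j : ℕ) < i then c j else 0

/-- Genericity of the parameter `c`. -/
def Gen (i : ℕ) (F : Fin n → MvPolynomial (Fin n) ℝ) (G : MvPolynomial (Fin n) ℝ)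
    (c : Fin n → ℝ) : Prop :=
  ∀ w : Fin n → ℝ, eval w (jac F) ≠ 0 → (∀ j : Fin n, i ≤ (j : ℕ) → eval w (F j) = 0) →
    (∀ j : Fin n, (j : ℕ) < i → TT i F G w j = c j) →
    ∃ L : (Fin n → ℝ) ≃L[ℝ] (Fin n → ℝ),
      HasStrictFDerivAt (TT i F G) (L : (Fin n → ℝ) →L[ℝ] (Fin n → ℝ)) w

/-- Projection to the coordinates `x_0, ..., x_{i-2}`. -/
noncomputable def prj (i : ℕ) (x : Fin n → ℝ) : Fin n → ℝ :=
  fun j => if (j : ℕ) + 1 < i then x j else 0

/-- The closed arc through `x` in the fibre of `prj i`. -/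
def Gam (U : Set (Fin n → ℝ)) (i : ℕ) (F : Fin n → MvPolynomial (Fin n) ℝ)
    (x : Fin n → ℝ) : Set (Fin n → ℝ) :=
  closure (connectedComponentIn
    {y | y ∈ Est U i F ∧ prj i y = prj i x ∧ eval y (jac F) ≠ 0} x)

/-- The nonsingular points of the curve `H_j = 0` for all `j ≠ e`. -/
def Crv (U : Set (Fin n → ℝ)) (H : Fin n → MvPolynomial (Fin n) ℝ) (e : Fin n) :
    Set (Fin n → ℝ) :=
  {y | y ∈ U ∧ (∀ j, j ≠ e → eval y (H j) = 0) ∧ eval y (jac H) ≠ 0}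

/-- All planar linear projections of `R` lie on curves of degree at most `N`. -/
def Alg (N : ℕ) (R : Set (Fin n → ℝ)) : Prop :=
  ∀ u v : Fin n → ℝ, ∃ q : MvPolynomial (Fin 2) ℝ, q ≠ 0 ∧ q.totalDegree ≤ N ∧
    ∀ x ∈ R, eval ![u ⬝ᵥ x, v ⬝ᵥ x] q = 0

/-- The bound for numbers of components, of local minima and of arcs. -/
def BB (n d0 : ℕ) : ℕ := (2 * n * 3 ^ n * d0 + 1) ^ n

section metric

variable {X : Type*} [PseudoMetricSpace X]

/-- Local connectedness of a set, in a convenient form. -/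
def LCn (E : Set X) : Prop :=
  ∀ w ∈ E, ∀ ε > 0, ∃ ρ > 0, ∃ N : Set X, IsPreconnected N ∧ N ⊆ E ∩ Metric.ball w ε ∧
    E ∩ Metric.ball w ρ ⊆ N

/-- `w` is a local minimum of `f` on `E`. -/
def LM (E : Set X) (f : X → ℝ) (w : X) : Prop :=
  w ∈ E ∧ ∃ ε > 0, ∀ y ∈ E, dist y w < ε → f w ≤ f y

/-- `w` is a strict local minimum of `f` on `E`. -/
def SLM (E : Set X) (f : X → ℝ) (w : X) : Prop :=
  w ∈ E ∧ ∃ ε > 0, ∀ y ∈ E, dist y w < ε → y ≠ w → f w < f y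

/-- `S` cannot be split into two nonempty parts at distance more than `θ`. -/
def Chained (θ : ℝ) (S : Set X) : Prop :=
  ∀ S1 S2 : Set X, S = S1 ∪ S2 → S1.Nonempty → S2.Nonempty → ∃ a ∈ S1, ∃ b ∈ S2, dist a b ≤ θ

/-- The open sublevel set. -/
def Sub (E : Set X) (f : X → ℝ) (a : ℝ) : Set X := {x | x ∈ E ∧ f x < a}

/-- The ultralimit of a sequence of sets. -/
def ulim (N : ℕ → Set X) : Set X :=
  {x | ∀ ε > 0, ∀ᶠ p in (Filter.hyperfilter ℕ : Filter ℕ), ∃ y ∈ N p, dist y x < ε}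

end metric

/-- The good stages. -/
structure Good [NeZero n] (U : Set (Fin n → ℝ)) (i : ℕ)
    (F : Fin n → MvPolynomial (Fin n) ℝ) (d0 : ℕ) : Prop where
  isOpen : IsOpen U
  bdd : Bornology.IsBounded U
  std : Std i F
  deg : ∀ j : Fin n, i ≤ (j : ℕ) → (F j).totalDegree ≤ 3 ^ (n - 1 - (j : ℕ)) * d0
  cpt : IsCompact (Est U i F)
  lcn : LCn (Est U i F)
  str : ∀ w, LM (Est U i F) (fun x => x 0) w → SLM (Est U i F) (fun x => x 0) w
  dns : ∀ w ∈ Est U i F, ∀ ε > 0, ∃ y ∈ Est U i F, dist y w < ε ∧ eval y (jac F) ≠ 0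

/-- Approximate roadmaps. -/
structure RMap [NeZero n] (θ : ℝ) (E : Set (Fin n → ℝ)) (A : Finset (Fin n → ℝ)) (N : ℕ)
    (R : Set (Fin n → ℝ)) : Prop where
  sub : R ⊆ E
  alg : Alg N R
  ne : ∀ x ∈ E, (R ∩ connectedComponentIn E x).Nonempty
  chn : ∀ x ∈ E, Chained θ (R ∩ connectedComponentIn E x)
  pts : ∀ a ∈ A, ∃ r ∈ R ∩ connectedComponentIn E a, dist a r ≤ θ
  fib : ∀ x ∈ E, ∃ S ⊆ connectedComponentIn E x, Chained θ S ∧ x ∈ S ∧ (S ∩ R).Nonempty ∧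
    ∀ y ∈ S, |y 0 - x 0| ≤ θ

end Pool.Agent.RM90
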