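import Pool.Agent.Lib.MP_df59e7_lc.Defs
import Pool.Agent.Lib.MP_df59e7_lc.LamF

set_option autoImplicit false

/-! MP_df59e7_lc, module Lam0. -/

namespace Pool.Agent.RM90

open MvPolynomial

private theorem lam0_line {n : ℕ} (w v : Fin n → ℝ) :
    HasDerivAt (fun t : ℝ => w + t • v) v 0 := by
  have h := ((hasDerivAt_id (0 : ℝ)).smul_const v).const_add w
  simpa using h

private theorem lam0_comp {n : ℕ} {f : (Fin n → ℝ) → ℝ} {f' : (Fin n → ℝ) →L[ℝ] ℝ}
    {w : Fin n → ℝ} (v : Fin n → ℝ) (h : HasFDerivAt f f' w) :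
    HasDerivAt (fun t : ℝ => f (w + t • v)) (f' v) 0 := by
  have e : w = w + (0 : ℝ) • v := by simp
  exact HasFDerivAt.comp_hasDerivAt_of_eq 0 h (lam0_line w v) e

private theorem lam0_poly {n : ℕ} (p : MvPolynomial (Fin n) ℝ) (w v : Fin n → ℝ) :
    HasDerivAt (fun t : ℝ => eval (w + t • v) p) (∑ l, eval w (pderiv l p) * v l) 0 := by
  have h := lam0_comp v (Warren46.hasFDerivAt_eval p w)
  rwa [Warren46.gradL_apply] at h

/-- If the derivative of `TT i F G` at `w` is invertible then `lam_0(w) ≠ 0`.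
Proof: let `lam = lam F G w`, and let `T_j` be the components of `TT`. For `x` near `w` the
functions `lam F G x l` (`1 ≤ l < i`) are components of `TT`, so differentiable with derivative
`(L v)_l`. From `T_0 = G - sum_{1 ≤ l < i} x_l lam_l(x)` and `dG = sum_a lam_a dF_a` (`grad_eq`
and `Warren46.hasFDerivAt_eval`), where `F_l = X_l` for `l < i` and `dF_a(v) = (L v)_a` for
`a ≥ i`:
`(L v)_0 = lam_0 v_0 + sum_{1≤l<i} lam_l v_l + sum_{a≥i} lam_a (L v)_a`
`          - sum_{1≤l<i} (v_l lam_l + w_l (L v)_l)`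
`        = lam_0 v_0 + sum_{a≥i} lam_a (L v)_a - sum_{1≤l<i} w_l (L v)_l`.
If `lam_0 = 0`, choose `v` with `L v = e_0` (`L` is surjective): `1 = 0`, contradiction. -/
theorem lam0_ne {n : ℕ} [NeZero n] (i : ℕ) (hi : 1 ≤ i) (F : Fin n → MvPolynomial (Fin n) ℝ)
    (hstd : Std i F) (G : MvPolynomial (Fin n) ℝ) (w : Fin n → ℝ) (hj : eval w (jac F) ≠ 0)
    (L : (Fin n → ℝ) ≃L[ℝ] (Fin n → ℝ))
    (hL : HasStrictFDerivAt (TT i F G) (L : (Fin n → ℝ) →L[ℝ] (Fin n → ℝ)) w) :
    lam F G w 0 ≠ 0 := by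
  intro h0
  set v : Fin n → ℝ := L.symm (Pi.single 0 1) with hv
  have hLv : L v = Pi.single 0 1 := L.apply_symm_apply _
  have hT : ∀ j, HasDerivAt (fun t : ℝ => TT i F G (w + t • v) j)
      ((Pi.single 0 1 : Fin n → ℝ) j) 0 := by
    intro j
    have h1 : HasFDerivAt (fun x => TT i F G x j)
        ((ContinuousLinearMap.proj j : (Fin n → ℝ) →L[ℝ] ℝ).comp
          (L : (Fin n → ℝ) →L[ℝ] (Fin n → ℝ))) w :=
      (hasFDerivAt_pi'.mp hL.hasFDerivAt) j
    have h2 := lam0_comp v h1
    have h3 : ((ContinuousLinearMap.proj j : (Fin n → ℝ) →L[ℝ] ℝ).comp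
          (L : (Fin n → ℝ) →L[ℝ] (Fin n → ℝ))) v = (Pi.single 0 1 : Fin n → ℝ) j := by
      rw [← hLv]
      rfl
    rwa [h3] at h2
  have h00 : ((0 : Fin n) : ℕ) = 0 := rfl
  -- the derivatives of the functions `F_a`
  have hF : ∀ a : Fin n, lam F G w a * (∑ l, eval w (pderiv l (F a)) * v l) =
      if 1 ≤ (a : ℕ) ∧ (a : ℕ) < i then v a * lam F G w a else 0 := by
    intro a
    by_cases ha : i ≤ (a : ℕ)
    · have ha0 : a ≠ 0 := by
        rintro rfl
        rw [h00] at ha
        omega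
      have h1 := hT a
      have h2 : (fun t : ℝ => TT i F G (w + t • v) a) = fun t => eval (w + t • v) (F a) := by
        funext t
        simp only [TT, if_pos ha]
      rw [h2, Pi.single_eq_of_ne ha0] at h1
      have h3 := (lam0_poly (F a) w v).unique h1
      rw [h3, mul_zero, if_neg (by omega)]
    · have ha' : (a : ℕ) < i := by omega
      have h1 : ∑ l, eval w (pderiv l (F a)) * v l = v a := by
        rw [hstd a ha']
        rw [Finset.sum_eq_single a]
        · rw [pderiv_X_self, map_one, one_mul]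
        · intro b _ hb
          rw [pderiv_X_of_ne (Ne.symm hb), map_zero, zero_mul]
        · intro h
          exact absurd (Finset.mem_univ a) h
      rw [h1]
      by_cases ha1 : 1 ≤ (a : ℕ)
      · rw [if_pos ⟨ha1, ha'⟩, mul_comm]
      · have ha0 : a = 0 := by
          apply Fin.ext
          rw [h00]
          omega
        rw [if_neg (by omega), ha0, h0, zero_mul]
  -- the derivative of `G`
  have hG : ∑ l, eval w (pderiv l G) * v l =
      ∑ a : Fin n, if 1 ≤ (a : ℕ) ∧ (a : ℕ) < i then v a * lam F G w a else 0 := by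
    simp_rw [grad_eq F G w hj, Finset.sum_mul]
    rw [Finset.sum_comm]
    refine Finset.sum_congr rfl fun a _ => ?_
    rw [← hF a, Finset.mul_sum]
    refine Finset.sum_congr rfl fun l _ => ?_
    ring
  -- the derivative of the sum
  have hS : HasDerivAt (fun t : ℝ => ∑ l : Fin n,
      (if 1 ≤ (l : ℕ) ∧ (l : ℕ) < i then (w + t • v) l * lam F G (w + t • v) l else 0))
      (∑ a : Fin n, if 1 ≤ (a : ℕ) ∧ (a : ℕ) < i then v a * lam F G w a else 0) 0 := by
    refine HasDerivAt.fun_sum fun l _ => ?_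
    by_cases hl : 1 ≤ (l : ℕ) ∧ (l : ℕ) < i
    · simp only [if_pos hl]
      have hl0 : l ≠ 0 := by
        rintro rfl
        rw [h00] at hl
        omega
      have h1 := hT l
      have h2 : (fun t : ℝ => TT i F G (w + t • v) l) = fun t => lam F G (w + t • v) l := by
        funext t
        simp only [TT]
        rw [if_neg (by omega), if_neg (by omega)]
      rw [h2, Pi.single_eq_of_ne hl0] at h1
      have h3 : HasDerivAt (fun t : ℝ => (w + t • v) l) (v l) 0 :=
        (hasDerivAt_pi.mp (lam0_line w v)) l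
      have h4 := h3.fun_mul h1
      simpa using h4
    · simp only [if_neg hl]
      exact hasDerivAt_const 0 (0 : ℝ)
  have h1 := hT 0
  have h2 : (fun t : ℝ => TT i F G (w + t • v) 0) = fun t => eval (w + t • v) G -
      ∑ l : Fin n, (if 1 ≤ (l : ℕ) ∧ (l : ℕ) < i then
        (w + t • v) l * lam F G (w + t • v) l else 0) := by
    funext t
    simp only [TT]
    rw [if_neg (by omega), if_pos h00]
  rw [h2] at h1
  have h3 := h1.unique ((lam0_poly G w v).fun_sub hS)
  rw [hG, sub_self, Pi.single_eq_same] at h3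
  exact one_ne_zero h3

end Pool.Agent.RM90
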