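import Pool.Agent.Lib.MP_df59e7_lc.Defs
import Pool.Agent.Lib.MP_df59e7_lc.LamF
import Pool.Agent.Lib.MP_df59e7_lc.Lam0

set_option autoImplicit false

/-! MP_df59e7_lc, module Reg. -/

namespace Pool.Agent.RM90

open MvPolynomial

/-- Regularity: some coefficient `lam_a - v_a` with `a < i` does not vanish.
Proof: otherwise `lam_a = v_a` for all `a < i`; then `TT_j(w) = lam_j = c_j` for `1 ≤ j < i`, and
`TT_0(w) = G(w) - sum w_l lam_l = G(w) - sum w_l c_l = c_0` by `hh` and `eval_lf`. So `Gen` gives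
an invertible derivative `L`, `lam0_ne` gives `lam_0 ≠ 0`, but `lam_0 = v_0 = 0`. -/
theorem reg {n : ℕ} [NeZero n] (i : ℕ) (hi : 1 ≤ i) (F : Fin n → MvPolynomial (Fin n) ℝ)
    (hstd : Std i F) (G : MvPolynomial (Fin n) ℝ) (c : Fin n → ℝ) (hg : Gen i F G c)
    (w : Fin n → ℝ) (hj : eval w (jac F) ≠ 0) (hF : ∀ j : Fin n, i ≤ (j : ℕ) → eval w (F j) = 0)
    (hh : eval w (G - lf i c) = 0) :
    ∃ a : Fin n, (a : ℕ) < i ∧ lam F G w a ≠ vv i c a := by
  by_contra hcon
  push Not at hcon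
  have hT : ∀ j : Fin n, (j : ℕ) < i → TT i F G w j = c j := by
    intro j hji
    unfold TT
    rw [if_neg (not_le.2 hji)]
    by_cases h0 : (j : ℕ) = 0
    · rw [if_pos h0]
      have hj0 : j = 0 := Fin.ext (by simpa using h0)
      rw [map_sub, sub_eq_zero, eval_lf] at hh
      have hs : (∑ l : Fin n, (if 1 ≤ (l : ℕ) ∧ (l : ℕ) < i then w l * lam F G w l else 0)) =
          ∑ l : Fin n, (if 1 ≤ (l : ℕ) ∧ (l : ℕ) < i then w l * c l else 0) := by
        refine Finset.sum_congr rfl fun l _ => ?_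
        split_ifs with hl
        · rw [hcon l hl.2]
          unfold vv
          rw [if_neg (by omega), if_pos hl.2]
        · rfl
      rw [hs, hh, hj0]
      ring
    · rw [if_neg h0, hcon j hji]
      unfold vv
      rw [if_neg h0, if_pos hji]
  obtain ⟨L, hL⟩ := hg w hj hF hT
  refine lam0_ne i hi F hstd G w hj L hL ?_
  have h00 : ((0 : Fin n) : ℕ) = 0 := by simp
  rw [hcon 0 (by omega)]
  unfold vv
  rw [if_pos h00]

end Pool.Agent.RM90
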