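import Pool.Agent.Lib.MP_df59e7_lc.Defs
import Pool.Agent.Lib.MP_df59e7_lc.LamF

set_option autoImplicit false

/-! MP_df59e7_lc, module Upd. -/

namespace Pool.Agent.RM90

open MvPolynomial

private theorem upd_jac {n : ℕ} (F : Fin n → MvPolynomial (Fin n) ℝ) (w : Fin n → ℝ) :
    eval w (jac F) = (Jm F w).det := by
  unfold jac Jm
  rw [RingHom.map_det]
  congr 1

/-- The Jacobian after replacing the component `a` by `h = G - lf i c`.
Proof: `RingHom.map_det`; row `a` of the new matrix is `sum_b (lam_b - v_b) * row_b` by `grad_h`,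
the other rows are unchanged; `Matrix.det_updateRow_sum`. -/
theorem jac_upd {n : ℕ} (i : ℕ) (F : Fin n → MvPolynomial (Fin n) ℝ) (hstd : Std i F)
    (G : MvPolynomial (Fin n) ℝ) (c w : Fin n → ℝ) (hj : eval w (jac F) ≠ 0) (a : Fin n) :
    eval w (jac (Function.update F a (G - lf i c))) =
      (lam F G w a - vv i c a) * eval w (jac F) := by
  rw [upd_jac, upd_jac]
  have h1 : Jm (Function.update F a (G - lf i c)) w =
      (Jm F w).updateRow a (∑ k, (lam F G w k - vv i c k) • (Jm F w) k) := by
    ext j l
    by_cases hja : j = a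
    · subst hja
      rw [Matrix.updateRow_self, Finset.sum_apply]
      simp only [Jm, Matrix.of_apply, Function.update_self, Pi.smul_apply, smul_eq_mul]
      exact grad_h i F hstd G c w hj l
    · rw [Matrix.updateRow_ne hja]
      simp only [Jm, Matrix.of_apply, Function.update_of_ne hja]
  rw [h1, Matrix.det_updateRow_sum, smul_eq_mul]

end Pool.Agent.RM90
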