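import Pool.Agent.Lib.MP_df59e7_lc.Defs
import Pool.Agent.Lib.MP_df59e7_lc.Inv
import Pool.Agent.Lib.MP_df59e7_lc.Upd
import Pool.Agent.Lib.MP_df59e7_lc.Reg

set_option autoImplicit false

/-! MP_df59e7_lc, module DnsA. -/

namespace Pool.Agent.RM90

open MvPolynomial

/-- A vertical curve in the set `E` through `w`: all components of `evm F` stay constant except
the component `e`, which moves with unit speed. -/
def Vert {n : ℕ} (E : Set (Fin n → ℝ)) (F : Fin n → MvPolynomial (Fin n) ℝ) (e : Fin n)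
    (w : Fin n → ℝ) : Prop :=
  ∃ ρ > 0, ∃ x : ℝ → (Fin n → ℝ), x 0 = w ∧ ContinuousOn x (Set.Ioo (-ρ) ρ) ∧
    ∀ t ∈ Set.Ioo (-ρ) ρ, x t ∈ E ∧ evm F (x t) = evm F w + t • (Pi.single e 1 : Fin n → ℝ)

/-- If the new Jacobian vanishes on the next set near `w0` then there is a vertical curve.
Proof: let `h = G - lf i c`, `E = Ehs U i F G c`. By `jac_upd`, `lam_e = v_e` on `E` near `w0`
(within `ε`). By `reg` choose `a < i` with `lam_a(w0) ≠ v_a`, so `a ≠ e`. Let
`F' = Function.update F a h` and `ρ, s, V` from `loc_inv` for `F'` at `w0` and the open set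
`U ∩ ball w0 ε`. Put `x(t) = s (evm F' w0 + t e_e)` for `|t| < ρ` (sup norm). It is
differentiable, `x(t) ∈ V`, `F'_j(x(t))` is constant for `j ≠ e`; in particular `h(x(t)) = 0`
and `F_j(x(t)) = 0` for `j ≥ i`, so `x(t) ∈ E`; and `F_e(x(t)) = F_e(w0) + t`. It remains to see
that `F_a(x(t))` is constant: its derivative `d` satisfies, by `grad_h` and the chain rule
(`Warren46.hasFDerivAt_eval`, `Warren46.gradL`),
`0 = (h ∘ x)'(t) = sum_b (lam_b - v_b)(x(t)) (F_b ∘ x)'(t) = (lam_a - v_a) d + (lam_e - v_e)`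
where `lam_e - v_e = 0` at `x(t) ∈ E ∩ ball w0 ε` and `lam_a - v_a ≠ 0` since `jac F'` does not
vanish on `V` (`jac_upd`). So `d = 0`. -/
theorem dns_a {n : ℕ} [NeZero n] (i : ℕ) (hi : 1 ≤ i) (e : Fin n) (he : (e : ℕ) + 1 = i)
    (F : Fin n → MvPolynomial (Fin n) ℝ)
    (hstd : Std i F) (G : MvPolynomial (Fin n) ℝ) (c : Fin n → ℝ) (hg : Gen i F G c)
    (U : Set (Fin n → ℝ)) (hU : IsOpen U) (hj : ∀ w ∈ Ehs U i F G c, eval w (jac F) ≠ 0)
    (w0 : Fin n → ℝ) (hw0 : w0 ∈ Ehs U i F G c) (ε : ℝ) (hε : 0 < ε)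
    (hdeg : ∀ y ∈ Ehs U i F G c, dist y w0 < ε →
      eval y (jac (Function.update F e (G - lf i c))) = 0) :
    Vert (Ehs U i F G c) F e w0 := by
  have hei : (e : ℕ) < i := by omega
  have hlam : ∀ y ∈ Ehs U i F G c, dist y w0 < ε → lam F G y e - vv i c e = 0 := by
    intro y hy hd
    have h1 := hdeg y hy hd
    rw [jac_upd i F hstd G c y (hj y hy) e] at h1
    exact (mul_eq_zero.mp h1).resolve_right (hj y hy)
  obtain ⟨a, hai, hla⟩ := reg i hi F hstd G c hg w0 (hj w0 hw0) hw0.2.1 hw0.2.2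
  have hae : a ≠ e := by
    rintro rfl
    exact hla (sub_eq_zero.mp (hlam w0 hw0 (by rw [dist_self]; exact hε)))
  have hjF' : ∀ y, eval y (jac F) ≠ 0 →
      eval y (jac (Function.update F a (G - lf i c))) =
        (lam F G y a - vv i c a) * eval y (jac F) :=
    fun y hy => jac_upd i F hstd G c y hy a
  set F' := Function.update F a (G - lf i c) with hF'
  have hF'a : F' a = G - lf i c := Function.update_self a _ F
  have hF'b : ∀ b, b ≠ a → F' b = F b := fun b hb => Function.update_of_ne hb _ F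
  have hw0' : eval w0 (jac F') ≠ 0 := by
    rw [hjF' w0 (hj w0 hw0)]
    exact mul_ne_zero (sub_ne_zero.mpr hla) (hj w0 hw0)
  obtain ⟨ρ, hρ, s, V, hVo, hwV, hVU, hVj, hVs, hsV, hsan⟩ := loc_inv F' (U ∩ Metric.ball w0 ε)
    (hU.inter Metric.isOpen_ball) w0 ⟨hw0.1, Metric.mem_ball_self hε⟩ hw0'
  set ln : ℝ → (Fin n → ℝ) := fun t => evm F' w0 + t • (Pi.single e 1 : Fin n → ℝ) with hln
  have hlnb : ∀ t ∈ Set.Ioo (-ρ) ρ, ln t ∈ Metric.ball (evm F' w0) ρ := by
    intro t ht
    rw [Metric.mem_ball, hln, dist_eq_norm]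
    simp only [add_sub_cancel_left]
    rw [norm_smul, Pi.norm_single, norm_one, mul_one, Real.norm_eq_abs, abs_lt]
    exact ht
  have hlnd : ∀ t, HasDerivAt ln (Pi.single e 1 : Fin n → ℝ) t := by
    intro t
    have h := ((hasDerivAt_id t).smul_const (Pi.single e 1 : Fin n → ℝ)).const_add (evm F' w0)
    rw [one_smul] at h
    exact h
  set x : ℝ → (Fin n → ℝ) := fun t => s (ln t) with hx
  have hxV : ∀ t ∈ Set.Ioo (-ρ) ρ, x t ∈ V := fun t ht => (hsV _ (hlnb t ht)).1
  have hxF' : ∀ t ∈ Set.Ioo (-ρ) ρ, ∀ j, eval (x t) (F' j) =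
      eval w0 (F' j) + t * (Pi.single e 1 : Fin n → ℝ) j := by
    intro t ht j
    have h1 := congrFun (hsV _ (hlnb t ht)).2 j
    exact h1
  have hxh : ∀ t ∈ Set.Ioo (-ρ) ρ, eval (x t) (G - lf i c) = 0 := by
    intro t ht
    have h1 := hxF' t ht a
    rw [hF'a, Pi.single_eq_of_ne hae, mul_zero, add_zero] at h1
    rw [h1]
    exact hw0.2.2
  have hxF : ∀ t ∈ Set.Ioo (-ρ) ρ, ∀ j, j ≠ a → eval (x t) (F j) =
      eval w0 (F j) + t * (Pi.single e 1 : Fin n → ℝ) j := by
    intro t ht j hja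
    have h1 := hxF' t ht j
    rwa [hF'b j hja] at h1
  have hxE : ∀ t ∈ Set.Ioo (-ρ) ρ, x t ∈ Ehs U i F G c := by
    intro t ht
    refine ⟨(hVU (hxV t ht)).1, fun j hij => ?_, hxh t ht⟩
    have hja : j ≠ a := by
      rintro rfl
      omega
    have hje : j ≠ e := by
      rintro rfl
      omega
    rw [hxF t ht j hja, Pi.single_eq_of_ne hje, mul_zero, add_zero]
    exact hw0.2.1 j hij
  have hxd : ∀ t ∈ Set.Ioo (-ρ) ρ, HasDerivAt x (deriv x t) t := by
    intro t ht
    have h1 : DifferentiableAt ℝ s (ln t) := (hsan _ (hlnb t ht)).differentiableAt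
    have h2 : DifferentiableAt ℝ x t := h1.comp t (hlnd t).differentiableAt
    exact h2.hasDerivAt
  have hpoly : ∀ (p : MvPolynomial (Fin n) ℝ), ∀ t ∈ Set.Ioo (-ρ) ρ,
      HasDerivAt (fun t => eval (x t) p)
        (∑ l, eval (x t) (pderiv l p) * (deriv x t) l) t := by
    intro p t ht
    have h1 := (Warren46.hasFDerivAt_eval p (x t)).comp_hasDerivAt t (hxd t ht)
    rwa [Warren46.gradL_apply] at h1
  have hnhds : ∀ t ∈ Set.Ioo (-ρ) ρ, Set.Ioo (-ρ) ρ ∈ nhds t := fun t ht =>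
    isOpen_Ioo.mem_nhds ht
  -- the derivatives of the components
  have hda : ∀ t ∈ Set.Ioo (-ρ) ρ, ∑ l, eval (x t) (pderiv l (F a)) * (deriv x t) l = 0 := by
    intro t ht
    have h1 : ∑ l, eval (x t) (pderiv l (G - lf i c)) * (deriv x t) l = 0 := by
      have h2 := hpoly (G - lf i c) t ht
      have h3 : HasDerivAt (fun t => eval (x t) (G - lf i c)) 0 t := by
        refine (hasDerivAt_const t (0 : ℝ)).congr_of_eventuallyEq ?_
        filter_upwards [hnhds t ht] with u hu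
        exact hxh u hu
      exact h2.unique h3
    have h4 : ∑ b, (lam F G (x t) b - vv i c b) *
        (∑ l, eval (x t) (pderiv l (F b)) * (deriv x t) l) = 0 := by
      rw [← h1]
      simp_rw [grad_h i F hstd G c (x t) (hj _ (hxE t ht)), Finset.sum_mul, Finset.mul_sum]
      rw [Finset.sum_comm]
      refine Finset.sum_congr rfl fun l _ => Finset.sum_congr rfl fun b _ => ?_
      ring
    rw [Finset.sum_eq_single a] at h4
    · refine (mul_eq_zero.mp h4).resolve_left ?_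
      have h5 := hVj (x t) (hxV t ht)
      rw [hjF' _ (hj _ (hxE t ht))] at h5
      exact left_ne_zero_of_mul h5
    · intro b _ hba
      by_cases hbe : b = e
      · rw [hbe, hlam (x t) (hxE t ht) (hVU (hxV t ht)).2, zero_mul]
      · have h2 := hpoly (F b) t ht
        have h3 : HasDerivAt (fun t => eval (x t) (F b)) 0 t := by
          refine (hasDerivAt_const t (eval w0 (F b))).congr_of_eventuallyEq ?_
          filter_upwards [hnhds t ht] with u hu
          rw [hxF u hu b hba, Pi.single_eq_of_ne hbe, mul_zero, add_zero]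
        rw [h2.unique h3, mul_zero]
    · intro h
      exact absurd (Finset.mem_univ a) h
  have h0 : (0 : ℝ) ∈ Set.Ioo (-ρ) ρ := ⟨by linarith, hρ⟩
  have hx0 : x 0 = w0 := by
    rw [hx, hln]
    simp only [zero_smul, add_zero]
    exact (hVs w0 hwV).2
  have hFa : ∀ t ∈ Set.Ioo (-ρ) ρ, eval (x t) (F a) = eval w0 (F a) := by
    intro t ht
    have h1 : DifferentiableOn ℝ (fun t => eval (x t) (F a)) (Set.Ioo (-ρ) ρ) := fun u hu =>
      (hpoly (F a) u hu).differentiableAt.differentiableWithinAt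
    have h2 : Set.EqOn (deriv fun t => eval (x t) (F a)) 0 (Set.Ioo (-ρ) ρ) := fun u hu => by
      rw [(hpoly (F a) u hu).deriv, hda u hu]
      rfl
    have h3 := isOpen_Ioo.is_const_of_deriv_eq_zero isPreconnected_Ioo h1 h2 ht h0
    rw [hx0] at h3
    exact h3
  refine ⟨ρ, hρ, x, hx0, fun t ht => (hxd t ht).continuousAt.continuousWithinAt,
    fun t ht => ⟨hxE t ht, ?_⟩⟩
  funext j
  show eval (x t) (F j) = eval w0 (F j) + t * (Pi.single e 1 : Fin n → ℝ) j
  by_cases hja : j = a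
  · rw [hja, Pi.single_eq_of_ne hae, mul_zero, add_zero]
    exact hFa t ht
  · exact hxF t ht j hja

end Pool.Agent.RM90
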