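import Pool.Agent.Lib.MP_df59e7_lc.Defs
import Pool.Agent.Lib.MP_df59e7_lc.Inv
import Pool.Agent.Lib.MP_df59e7_lc.DnsA

set_option autoImplicit false

/-! MP_df59e7_lc, module DnsB. -/

namespace Pool.Agent.RM90

open MvPolynomial

open Filter Topology in
/-- the set of the points with vertical curves is closed -/
private theorem dnsb_closed {n : ℕ} (i : ℕ) (e : Fin n) (he : (e : ℕ) + 1 = i)
    (F : Fin n → MvPolynomial (Fin n) ℝ) (hstd : Std i F) (h : MvPolynomial (Fin n) ℝ)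
    (U : Set (Fin n → ℝ)) (hU : IsOpen U) (E : Set (Fin n → ℝ))
    (hE : E = {x | x ∈ U ∧ (∀ j : Fin n, i ≤ (j : ℕ) → eval x (F j) = 0) ∧ eval x h = 0})
    (hc : IsCompact E) (hj : ∀ x ∈ E, eval x (jac F) ≠ 0) (w : Fin n → ℝ) :
    IsClosed {y | y ∈ E ∧ Vert E F e y ∧ ∀ j : Fin n, (j : ℕ) + 1 < i → y j = w j} := by
  refine isClosed_of_closure_subset fun z hz => ?_
  have hFe : ∀ x : Fin n → ℝ, ∀ j : Fin n, (j : ℕ) < i → evm F x j = x j := by
    intro x j hji
    show eval x (F j) = x j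
    rw [hstd j hji, eval_X]
  have hzE : z ∈ E := by
    have h1 := closure_mono (fun y hy => hy.1 : {y | y ∈ E ∧ Vert E F e y ∧
      ∀ j : Fin n, (j : ℕ) + 1 < i → y j = w j} ⊆ E) hz
    rwa [hc.isClosed.closure_eq] at h1
  have hzw : ∀ j : Fin n, (j : ℕ) + 1 < i → z j = w j := by
    intro j hji
    have h1 : IsClosed {y : Fin n → ℝ | y j = w j} :=
      isClosed_eq (continuous_apply j) continuous_const
    have h2 := closure_mono (fun y hy => hy.2.2 j hji : {y | y ∈ E ∧ Vert E F e y ∧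
      ∀ j : Fin n, (j : ℕ) + 1 < i → y j = w j} ⊆ {y : Fin n → ℝ | y j = w j}) hz
    have h3 : z ∈ closure {y : Fin n → ℝ | y j = w j} := h2
    rw [h1.closure_eq] at h3
    exact h3
  have hzE' := hzE
  rw [hE] at hzE'
  obtain ⟨hzU, hzF, hzh⟩ := hzE'
  obtain ⟨ρ, hρ, s, V, hVo, hzV, hVU, hVj, hV1, hV2, hs⟩ := loc_inv F U hU z hzU (hj z hzE)
  obtain ⟨y, hyV, hyE, ⟨ρ', hρ', x, hx0, hxc, hx⟩, hyw⟩ := mem_closure_iff.1 hz V hVo hzV
  have hyE' := hyE
  rw [hE] at hyE'
  obtain ⟨hyU, hyF, hyh⟩ := hyE'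
  have hyz : evm F y = evm F z + (y e - z e) • (Pi.single e 1 : Fin n → ℝ) := by
    funext j
    rw [Pi.add_apply, Pi.smul_apply, smul_eq_mul]
    by_cases hje : j = e
    · subst hje
      rw [Pi.single_eq_same, hFe y j (by omega), hFe z j (by omega)]
      ring
    · rw [Pi.single_eq_of_ne hje, mul_zero, add_zero]
      have hje' : (j : ℕ) ≠ (e : ℕ) := fun hh => hje (Fin.ext hh)
      by_cases hji : i ≤ (j : ℕ)
      · show eval y (F j) = eval z (F j)
        rw [hyF j hji, hzF j hji]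
      · rw [hFe y j (by omega), hFe z j (by omega), hyw j (by omega), hzw j (by omega)]
  set τ : ℝ := y e - z e with hτ
  have hτρ : |τ| < ρ := by
    have h1 := (hV1 y hyV).1
    rw [Metric.mem_ball] at h1
    have h2 := dist_le_pi_dist (evm F y) (evm F z) e
    rw [hFe y e (by omega), hFe z e (by omega), Real.dist_eq] at h2
    exact h2.trans_lt h1
  have hball : ∀ t : ℝ, |t| < ρ → evm F z + t • (Pi.single e 1 : Fin n → ℝ) ∈
      Metric.ball (evm F z) ρ := by
    intro t ht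
    rw [Metric.mem_ball, dist_eq_norm, add_sub_cancel_left, norm_smul, Real.norm_eq_abs]
    have h1 : ‖(Pi.single e 1 : Fin n → ℝ)‖ = 1 := by
      rw [Pi.norm_single, norm_one]
    rwa [h1, mul_one]
  set φ : ℝ → ℝ := fun t => eval (s (evm F z + t • (Pi.single e 1 : Fin n → ℝ))) h with hφ
  have hsa : ∀ t ∈ Set.Ioo (-ρ) ρ,
      AnalyticAt ℝ (fun t : ℝ => s (evm F z + t • (Pi.single e 1 : Fin n → ℝ))) t := by
    intro t ht
    have h1 : AnalyticAt ℝ (fun t : ℝ => evm F z + t • (Pi.single e 1 : Fin n → ℝ)) t :=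
      analyticAt_const.add (analyticAt_id.smul analyticAt_const)
    exact AnalyticAt.fun_comp (hs _ (hball t (abs_lt.2 ht))) h1
  have hφa : AnalyticOnNhd ℝ φ (Set.Ioo (-ρ) ρ) := by
    intro t ht
    have h2 : AnalyticAt ℝ (fun x : Fin n → ℝ => eval x h)
        (s (evm F z + t • (Pi.single e 1 : Fin n → ℝ))) :=
      AnalyticOnNhd.eval_continuousLinearMap (ContinuousLinearMap.id ℝ (Fin n → ℝ)) h _
        (Set.mem_univ _)
    exact AnalyticAt.fun_comp (g := fun x : Fin n → ℝ => eval x h)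
      (f := fun t : ℝ => s (evm F z + t • (Pi.single e 1 : Fin n → ℝ))) h2 (hsa t ht)
  have hev : φ =ᶠ[𝓝 τ] 0 := by
    have h1 : ∀ᶠ t in 𝓝 (0 : ℝ), t ∈ Set.Ioo (-ρ') ρ' ∧ x t ∈ V := by
      have h2 : Set.Ioo (-ρ') ρ' ∈ 𝓝 (0 : ℝ) := Ioo_mem_nhds (by linarith) hρ'
      have h3 : ContinuousAt x 0 := hxc.continuousAt h2
      have h4 : ∀ᶠ t in 𝓝 (0 : ℝ), x t ∈ V := by
        apply h3.eventually_mem
        rw [hx0]
        exact hVo.mem_nhds hyV
      exact (Filter.eventually_mem_set.2 h2).and h4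
    have h5 : Tendsto (fun u : ℝ => u - τ) (𝓝 τ) (𝓝 0) := by
      have h6 : Continuous fun u : ℝ => u - τ := by fun_prop
      have h7 := h6.tendsto τ
      rwa [sub_self] at h7
    filter_upwards [h5.eventually h1] with u hu
    have h8 := (hx (u - τ) hu.1)
    have h9 := (hV1 _ hu.2).2
    have h10 : evm F (x (u - τ)) = evm F z + u • (Pi.single e 1 : Fin n → ℝ) := by
      rw [h8.2, hyz, add_assoc, ← add_smul]
      congr 2
      ring
    rw [h10] at h9
    show eval (s (evm F z + u • (Pi.single e 1 : Fin n → ℝ))) h = 0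
    rw [h9]
    have h11 := h8.1
    rw [hE] at h11
    exact h11.2.2
  have hφ0 := hφa.eqOn_zero_of_preconnected_of_eventuallyEq_zero isPreconnected_Ioo
    (abs_lt.1 hτρ : τ ∈ Set.Ioo (-ρ) ρ) hev
  refine ⟨hzE, ⟨ρ, hρ, fun t => s (evm F z + t • (Pi.single e 1 : Fin n → ℝ)), ?_, ?_, ?_⟩, hzw⟩
  · simp only [zero_smul, add_zero]
    exact (hV1 z hzV).2
  · intro t ht
    exact (hsa t ht).continuousAt.continuousWithinAt
  · intro t ht
    have h1 := hV2 _ (hball t (abs_lt.2 ht))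
    refine ⟨?_, h1.2⟩
    rw [hE]
    refine ⟨hVU h1.1, fun j hji => ?_, hφ0 ht⟩
    have h2 := congrFun h1.2 j
    have h3 : (evm F z + t • (Pi.single e 1 : Fin n → ℝ)) j = 0 := by
      have hje : j ≠ e := by
        rintro rfl
        omega
      rw [Pi.add_apply, Pi.smul_apply, Pi.single_eq_of_ne hje, smul_zero, add_zero]
      exact hzF j hji
    rw [h3] at h2
    exact h2

/-- A compact set of the form below contains no vertical curve.
Proof: suppose `Vert E F e w`. Let `L` be the set of all `y ∈ E` with `Vert E F e y` and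
`y_j = w_j` for all `j < i - 1` (i.e. `j + 1 < i`). `w ∈ L`.
(1) `L` is closed: let `w_m → w*`, `w_m ∈ L`. `w* ∈ E` by compactness, `jac F (w*) ≠ 0`; take
`ρ, s, V` from `loc_inv` for `F` at `w*`. For large `m`, `w_m ∈ V`. All `evm F w_m` lie on the
line through `evm F w*` in direction `e` (`F_j = X_j` for `j < i`, `F_j(w_m) = 0` for `j ≥ i`):
`evm F w_m = evm F w* + τ_m e_e`, `|τ_m| < ρ`. The vertical curve `x_m` through `w_m` stays in
`V` for small `t` (continuity), so `x_m(t) = s (evm F w* + (τ_m + t) e_e)` and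
`φ(t) = eval (s (evm F w* + t e_e)) h`, analytic on `(-ρ, ρ)`, vanishes near `τ_m`. By the
identity theorem (`AnalyticOnNhd.eqOn_zero_of_preconnected_of_eventuallyEq_zero`) `φ = 0` on
`(-ρ, ρ)`. So `x(t) = s (evm F w* + t e_e)` is a vertical curve in `E` through `w*`.
(2) `L` is compact and nonempty, let `z` be a point of `L` with maximal coordinate `z_e`
(`F_e = X_e`). The vertical curve `x` through `z` consists of points of `L` (it is, after a
shift of the parameter, a vertical curve through each of its points, and `x(t)_j = z_j` for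
`j < i - 1`), and `x(t)_e = z_e + t > z_e` for `t > 0`: contradiction. -/
theorem dns_b {n : ℕ} (i : ℕ) (e : Fin n) (he : (e : ℕ) + 1 = i)
    (F : Fin n → MvPolynomial (Fin n) ℝ) (hstd : Std i F) (h : MvPolynomial (Fin n) ℝ)
    (U : Set (Fin n → ℝ)) (hU : IsOpen U) (E : Set (Fin n → ℝ))
    (hE : E = {x | x ∈ U ∧ (∀ j : Fin n, i ≤ (j : ℕ) → eval x (F j) = 0) ∧ eval x h = 0})
    (hc : IsCompact E) (hj : ∀ x ∈ E, eval x (jac F) ≠ 0) (w : Fin n → ℝ) (hw : w ∈ E) :
    ¬ Vert E F e w := by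
  intro hv
  set L : Set (Fin n → ℝ) :=
    {y | y ∈ E ∧ Vert E F e y ∧ ∀ j : Fin n, (j : ℕ) + 1 < i → y j = w j} with hL
  have hLc : IsCompact L :=
    hc.of_isClosed_subset (dnsb_closed i e he F hstd h U hU E hE hc hj w) fun y hy => hy.1
  have hLne : L.Nonempty := ⟨w, hw, hv, fun j _ => rfl⟩
  obtain ⟨z, hz, hmax⟩ := hLc.exists_isMaxOn hLne
    (f := fun y : Fin n → ℝ => y e) (continuous_apply e).continuousOn
  obtain ⟨hzE, ⟨ρ, hρ, x, hx0, hxc, hx⟩, hzw⟩ := hz
  have hFe : ∀ x : Fin n → ℝ, ∀ j : Fin n, (j : ℕ) < i → evm F x j = x j := by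
    intro x j hji
    show eval x (F j) = x j
    rw [hstd j hji, eval_X]
  have hmem : ρ / 2 ∈ Set.Ioo (-ρ) ρ := ⟨by linarith, by linarith⟩
  have hx2 := hx (ρ / 2) hmem
  have hin : x (ρ / 2) ∈ L := by
    refine ⟨hx2.1, ⟨ρ / 2, by linarith, fun t => x (ρ / 2 + t), by simp, ?_, ?_⟩, ?_⟩
    · refine hxc.comp (by fun_prop) fun t ht => ?_
      rw [Set.mem_Ioo] at ht ⊢
      constructor <;> linarith
    · intro t ht
      have h1 := hx (ρ / 2 + t) ⟨by linarith [ht.1], by linarith [ht.2]⟩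
      refine ⟨h1.1, ?_⟩
      rw [h1.2, hx2.2, add_assoc, ← add_smul]
    · intro j hji
      have h1 := congrFun hx2.2 j
      have hje : j ≠ e := by
        rintro rfl
        omega
      rw [Pi.add_apply, Pi.smul_apply, Pi.single_eq_of_ne hje, smul_zero, add_zero,
        hFe _ j (by omega), hFe _ j (by omega)] at h1
      rw [h1, hzw j hji]
  have h1 := hmax hin
  have h2 := congrFun hx2.2 e
  rw [Pi.add_apply, Pi.smul_apply, Pi.single_eq_same, smul_eq_mul, mul_one,
    hFe _ e (by omega), hFe _ e (by omega)] at h2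
  have h3 : x (ρ / 2) e ≤ z e := h1
  linarith

end Pool.Agent.RM90
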