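import Pool.Agent.Lib.MP_df59e7_lc.Defs

set_option autoImplicit false

/-! MP_df59e7_lc, module Sec. -/

namespace Pool.Agent.RM90

open MvPolynomial

/-- Substituting two linear forms into a bivariate polynomial. -/
theorem lin_subst {k : ℕ} (u v : Fin k → ℝ) (q : MvPolynomial (Fin 2) ℝ) :
    ∃ p : MvPolynomial (Fin k) ℝ, p.totalDegree ≤ q.totalDegree ∧
      ∀ x, eval x p = eval ![u ⬝ᵥ x, v ⬝ᵥ x] q := by
  set L : Fin 2 → MvPolynomial (Fin k) ℝ := ![∑ i, C (u i) * X i, ∑ i, C (v i) * X i] with hL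
  have hLd : ∀ i, (L i).totalDegree ≤ 1 := by
    have h : ∀ w : Fin k → ℝ, (∑ i, C (w i) * X i : MvPolynomial (Fin k) ℝ).totalDegree ≤ 1 := by
      intro w
      refine totalDegree_finsetSum_le fun i _ => ?_
      refine (totalDegree_mul _ _).trans ?_
      rw [totalDegree_C, totalDegree_X]
    intro i
    fin_cases i
    · exact h u
    · exact h v
  have hLe : ∀ x : Fin k → ℝ, (fun i => eval x (L i)) = ![u ⬝ᵥ x, v ⬝ᵥ x] := by
    intro x
    funext i
    fin_cases i <;> simp [hL, dotProduct]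
  refine ⟨aeval L q, ?_, fun x => ?_⟩
  · rw [aeval_def, eval₂_eq]
    refine totalDegree_finsetSum_le fun d hd => ?_
    refine (totalDegree_mul _ _).trans ?_
    have h1 : (algebraMap ℝ (MvPolynomial (Fin k) ℝ) (coeff d q)).totalDegree = 0 :=
      totalDegree_C _
    rw [h1, zero_add]
    refine (totalDegree_finsetProd _ _).trans ?_
    refine le_trans ?_ (le_totalDegree hd)
    rw [Finsupp.sum]
    refine Finset.sum_le_sum fun i _ => (totalDegree_pow _ _).trans ?_
    calc d i * (L i).totalDegree ≤ d i * 1 := Nat.mul_le_mul_left _ (hLd i)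
      _ = d i := mul_one _
  · rw [← hLe x, aeval_def]
    have h2 : eval x (eval₂ (algebraMap ℝ (MvPolynomial (Fin k) ℝ)) L q) =
        eval₂ ((eval x).comp (algebraMap ℝ (MvPolynomial (Fin k) ℝ))) (fun i => eval x (L i)) q :=
      hom_eval₂ q (algebraMap ℝ (MvPolynomial (Fin k) ℝ)) (eval x) L
    rw [h2]
    have h3 : (eval x).comp (algebraMap ℝ (MvPolynomial (Fin k) ℝ)) = RingHom.id ℝ := by
      ext r
      simp
    rw [h3, eval₂_id]

/-- A linear form which separates the points of countably many finite sets. -/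
theorem sec_sep {k : ℕ} (F : ℕ → Finset (Fin k → ℝ)) :
    ∃ v : Fin k → ℝ, ∀ m, ∀ x ∈ F m, ∀ y ∈ F m, v ⬝ᵥ x = v ⬝ᵥ y → x = y := by
  set S : Set (ℕ × (Fin k → ℝ) × (Fin k → ℝ)) :=
    {a | a.2.1 ∈ F a.1 ∧ a.2.2 ∈ F a.1 ∧ a.2.1 ≠ a.2.2} with hS
  have hSc : S.Countable := by
    have h1 : S ⊆ ⋃ m : ℕ, ({m} : Set ℕ) ×ˢ ((F m : Set (Fin k → ℝ)) ×ˢ
        (F m : Set (Fin k → ℝ))) := by
      rintro ⟨m, x, y⟩ ⟨hx, hy, _⟩
      exact Set.mem_iUnion.mpr ⟨m, rfl, hx, hy⟩
    refine Set.Countable.mono h1 (Set.countable_iUnion fun m => ?_)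
    exact (Set.countable_singleton m).prod
      ((F m).countable_toSet.prod (F m).countable_toSet)
  set bad : (ℕ × (Fin k → ℝ) × (Fin k → ℝ)) → Set ℝ := fun a =>
    {s | ∑ j : Fin k, s ^ (j : ℕ) * (a.2.1 j - a.2.2 j) = 0} with hbad
  have hfin : ∀ a ∈ S, (bad a).Countable := by
    rintro ⟨m, x, y⟩ ⟨_, _, hxy⟩
    obtain ⟨j, hj⟩ := Function.ne_iff.mp hxy
    set p : Polynomial ℝ := ∑ j : Fin k, Polynomial.monomial (j : ℕ) (x j - y j) with hp
    have hp0 : p ≠ 0 := by
      intro h0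
      have h1 : p.coeff (j : ℕ) = x j - y j := by
        rw [hp, Polynomial.finsetSum_coeff, Finset.sum_eq_single j]
        · rw [Polynomial.coeff_monomial, if_pos rfl]
        · intro b _ hb
          rw [Polynomial.coeff_monomial, if_neg]
          exact fun h => hb (Fin.ext h)
        · intro h
          exact absurd (Finset.mem_univ j) h
      rw [h0, Polynomial.coeff_zero] at h1
      exact hj (by linarith)
    refine ((Polynomial.finite_setOfPred_isRoot hp0).subset fun s hs => ?_).countable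
    have h2 : p.eval s = ∑ j : Fin k, s ^ (j : ℕ) * (x j - y j) := by
      rw [hp, Polynomial.eval_finsetSum]
      refine Finset.sum_congr rfl fun j _ => ?_
      rw [Polynomial.eval_monomial, mul_comm]
    exact h2.trans hs
  have hU : (⋃ a ∈ S, bad a).Countable := hSc.biUnion hfin
  obtain ⟨s, hs⟩ : ∃ s : ℝ, s ∉ ⋃ a ∈ S, bad a := by
    by_contra hcon
    push Not at hcon
    exact Set.not_countable_univ (hU.mono fun s _ => hcon s)
  refine ⟨fun j => s ^ (j : ℕ), fun m x hx y hy hxy => ?_⟩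
  by_contra hne
  refine hs (Set.mem_iUnion₂.mpr ⟨(m, x, y), ⟨hx, hy, hne⟩, ?_⟩)
  have h3 : ∑ j : Fin k, s ^ (j : ℕ) * (x j - y j) = 0 := by
    simp only [mul_sub, Finset.sum_sub_distrib]
    unfold dotProduct at hxy
    linarith
  exact h3

/-- A bivariate polynomial as a polynomial in the second variable. -/
noncomputable def secP (q : MvPolynomial (Fin 2) ℝ) (t : ℝ) : Polynomial ℝ :=
  aeval ![Polynomial.C t, Polynomial.X] q

/-- A bivariate polynomial as a polynomial in the first variable. -/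
noncomputable def secQ (q : MvPolynomial (Fin 2) ℝ) (y : ℝ) : Polynomial ℝ :=
  aeval ![Polynomial.X, Polynomial.C y] q

theorem eval_sec (q : MvPolynomial (Fin 2) ℝ) (g : Fin 2 → Polynomial ℝ) (s : ℝ) :
    (aeval g q).eval s = eval (fun i => (g i).eval s) q := by
  rw [aeval_def]
  have h2 := hom_eval₂ q (algebraMap ℝ (Polynomial ℝ)) (Polynomial.evalRingHom s) g
  have h3 : (Polynomial.evalRingHom s).comp (algebraMap ℝ (Polynomial ℝ)) = RingHom.id ℝ := by
    ext r
    simp
  rw [h3, eval₂_id] at h2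
  exact h2

theorem eval_secP (q : MvPolynomial (Fin 2) ℝ) (t y : ℝ) : (secP q t).eval y = eval ![t, y] q := by
  unfold secP
  rw [eval_sec]
  congr 2
  funext i
  fin_cases i <;> simp

theorem eval_secQ (q : MvPolynomial (Fin 2) ℝ) (t y : ℝ) : (secQ q y).eval t = eval ![t, y] q := by
  unfold secQ
  rw [eval_sec]
  congr 2
  funext i
  fin_cases i <;> simp

theorem deg_secP (q : MvPolynomial (Fin 2) ℝ) (t : ℝ) :
    (secP q t).natDegree ≤ q.totalDegree := by
  unfold secP
  rw [aeval_def, eval₂_eq']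
  refine Polynomial.natDegree_sum_le_of_forall_le _ _ fun d hd => ?_
  rw [Fin.prod_univ_two]
  have h1 : (algebraMap ℝ (Polynomial ℝ) (coeff d q) *
      ((![Polynomial.C t, Polynomial.X] : Fin 2 → Polynomial ℝ) 0 ^ d 0 *
        (![Polynomial.C t, Polynomial.X] : Fin 2 → Polynomial ℝ) 1 ^ d 1)) =
      Polynomial.C (coeff d q * t ^ d 0) * Polynomial.X ^ d 1 := by
    simp [Polynomial.C_mul, Polynomial.C_pow, mul_assoc]
  rw [h1]
  refine (Polynomial.natDegree_C_mul_X_pow_le _ _).trans ?_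
  refine le_trans ?_ (le_totalDegree hd)
  rw [Finsupp.sum_fintype _ _ (fun _ => rfl), Fin.sum_univ_two]
  omega

/-- The Zariski closure of `R` in degree `N` has at most `N` points on almost all hyperplanes
`u ⬝ᵥ x = t`.
Proof: suppose there are infinitely many `t`, say `t_m` (`m : ℕ`, injective) for which there are
`N + 1` distinct points of `V` with `u ⬝ᵥ x = t_m`; let `F_m` be a finset of such points. Choose
`v` with `v ⬝ᵥ x ≠ v ⬝ᵥ y` for all `m` and all `x ≠ y` in `F_m`: countably many proper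
hyperplanes (null sets, `Measure.addHaar_submodule` or Baire) do not cover `Fin k → ℝ`. Take
`q ≠ 0` from `Alg` for `(u, v)`, `deg q ≤ N`; by `lin_subst` and the definition of `V`,
`q(u ⬝ᵥ x, v ⬝ᵥ x) = 0` on `V`. So `q(t_m, Y)`, a polynomial of degree at most `N` in `Y`, has
`N + 1` distinct roots `v ⬝ᵥ x`, `x ∈ F_m`, so `q(t_m, Y) = 0` for all `m`; so every coefficient
`q_b(X)` of `q = sum_b q_b(X) Y^b` has infinitely many roots, `q = 0`: contradiction (use
`MvPolynomial.funext` or `finSuccEquiv`). -/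
theorem sec_card {k : ℕ} (N : ℕ) (R V : Set (Fin k → ℝ)) (hR : Alg N R)
    (hV : ∀ x ∈ V, ∀ p : MvPolynomial (Fin k) ℝ, p.totalDegree ≤ N →
      (∀ y ∈ R, eval y p = 0) → eval x p = 0) (u : Fin k → ℝ) :
    {t : ℝ | (N : ℕ∞) < (V ∩ {x | u ⬝ᵥ x = t}).encard}.Finite := by
  by_contra hinf
  set T : Set ℝ := {t : ℝ | (N : ℕ∞) < (V ∩ {x | u ⬝ᵥ x = t}).encard} with hT
  have hinf' : T.Infinite := hinf
  have hF : ∀ t ∈ T, ∃ F : Finset (Fin k → ℝ), (∀ x ∈ F, x ∈ V ∧ u ⬝ᵥ x = t) ∧
      F.card = N + 1 := by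
    intro t ht
    have h1 : ((N + 1 : ℕ) : ℕ∞) ≤ (V ∩ {x | u ⬝ᵥ x = t}).encard := by
      rw [Nat.cast_add, Nat.cast_one]
      exact Order.add_one_le_of_lt ht
    obtain ⟨G, hG1, hG2⟩ := Set.exists_subset_encard_eq h1
    have hGf : G.Finite := Set.finite_of_encard_eq_coe hG2
    refine ⟨hGf.toFinset, fun x hx => hG1 (hGf.mem_toFinset.mp hx), ?_⟩
    rw [hGf.encard_eq_coe_toFinset_card] at hG2
    exact_mod_cast hG2
  set t : ℕ → ℝ := fun m => (hinf'.natEmbedding T m : ℝ) with ht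
  have htinj : Function.Injective t := fun a b hab =>
    (hinf'.natEmbedding T).injective (Subtype.ext hab)
  have htT : ∀ m, t m ∈ T := fun m => (hinf'.natEmbedding T m).2
  choose F hF1 hF2 using fun m => hF (t m) (htT m)
  obtain ⟨v, hv⟩ := sec_sep F
  obtain ⟨q, hq0, hqN, hq⟩ := hR u v
  have hqV : ∀ x ∈ V, eval ![u ⬝ᵥ x, v ⬝ᵥ x] q = 0 := by
    intro x hx
    obtain ⟨p, hp1, hp2⟩ := lin_subst u v q
    rw [← hp2 x]
    refine hV x hx p (hp1.trans hqN) fun y hy => ?_
    rw [hp2 y]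
    exact hq y hy
  have hzero : ∀ m, secP q (t m) = 0 := by
    intro m
    refine Polynomial.eq_zero_of_natDegree_lt_card_of_eval_eq_zero' _
      ((F m).image fun x => v ⬝ᵥ x) ?_ ?_
    · intro y hy
      obtain ⟨x, hx, rfl⟩ := Finset.mem_image.mp hy
      rw [eval_secP, ← (hF1 m x hx).2]
      exact hqV x (hF1 m x hx).1
    · rw [Finset.card_image_of_injOn fun x hx y hy hxy => hv m x hx y hy hxy, hF2 m]
      exact Nat.lt_succ_of_le ((deg_secP q (t m)).trans hqN)
  have hzero2 : ∀ y, secQ q y = 0 := by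
    intro y
    refine Polynomial.eq_zero_of_infinite_isRoot _ ?_
    refine (Set.infinite_range_of_injective htinj).mono ?_
    rintro _ ⟨m, rfl⟩
    have h1 : (secQ q y).eval (t m) = 0 := by
      rw [eval_secQ, ← eval_secP, hzero m, Polynomial.eval_zero]
    exact h1
  refine hq0 (MvPolynomial.funext fun w => ?_)
  have h2 : w = ![w 0, w 1] := by
    funext i
    fin_cases i <;> rfl
  rw [h2, ← eval_secQ, hzero2, Polynomial.eval_zero, map_zero]

end Pool.Agent.RM90
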