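import Pool.Agent.Lib.MP_df59e7_lc.Defs
import Pool.Agent.Lib.MP_df59e7_lc.Sec

set_option autoImplicit false

/-! MP_df59e7_lc, module SecV. -/

namespace Pool.Agent.RM90

open MvPolynomial

/-- The linear forms `g_j(x) = sum_l j^l x_l`. -/
noncomputable def gfm {k : ℕ} (j : ℕ) (x : Fin k → ℝ) : ℝ := ∑ l : Fin k, (j : ℝ) ^ (l : ℕ) * x l

/-- The algebraic set defined by bivariate polynomials in `(x_a, g_j(x))`. -/
def Vset {k R : ℕ} (q : Fin k → Fin R → MvPolynomial (Fin 2) ℝ) : Set (Fin k → ℝ) :=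
  {x | ∀ (a : Fin k) (j : Fin R), eval ![x a, gfm (j : ℕ) x] (q a j) = 0}

/-- The degree of the polynomial in the first variable. -/
theorem deg_secQ (q : MvPolynomial (Fin 2) ℝ) (t : ℝ) :
    (secQ q t).natDegree ≤ q.totalDegree := by
  unfold secQ
  rw [aeval_def, eval₂_eq']
  refine Polynomial.natDegree_sum_le_of_forall_le _ _ fun d hd => ?_
  rw [Fin.prod_univ_two]
  have h1 : (algebraMap ℝ (Polynomial ℝ) (coeff d q) *
      ((![Polynomial.X, Polynomial.C t] : Fin 2 → Polynomial ℝ) 0 ^ d 0 *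
        (![Polynomial.X, Polynomial.C t] : Fin 2 → Polynomial ℝ) 1 ^ d 1)) =
      Polynomial.C (coeff d q * t ^ d 1) * Polynomial.X ^ d 0 := by
    simp only [Matrix.cons_val_zero, Matrix.cons_val_one, Polynomial.C_mul, Polynomial.C_pow,
      Polynomial.algebraMap_eq]
    ring
  rw [h1]
  refine (Polynomial.natDegree_C_mul_X_pow_le _ _).trans ?_
  refine le_trans ?_ (le_totalDegree hd)
  rw [Finsupp.sum_fintype _ _ (fun _ => rfl), Fin.sum_univ_two]
  omega

/-- The zeros of a nonzero polynomial. -/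
theorem card_zeros (p : Polynomial ℝ) (hp : p ≠ 0) (N : ℕ) (hN : p.natDegree ≤ N) :
    {t : ℝ | p.eval t = 0}.encard ≤ (N : ℕ∞) := by
  classical
  have h1 : {t : ℝ | p.eval t = 0} ⊆ ↑p.roots.toFinset := by
    intro t ht
    rw [Finset.mem_coe, Multiset.mem_toFinset, Polynomial.mem_roots hp]
    exact ht
  refine (Set.encard_le_encard h1).trans ?_
  rw [Set.encard_coe_eq_coe_finsetCard]
  have h2 : p.roots.toFinset.card ≤ N :=
    ((Multiset.toFinset_card_le _).trans (Polynomial.card_roots' p)).trans hN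
  exact_mod_cast h2

/-- Few bad vertical lines.
Proof: write `q = sum_b q_b(X 0) * (X 1)^b` (for example through `MvPolynomial.finSuccEquiv`, or
with explicit coefficients `q_b(T) = sum_a coeff (a, b) q * T^a`); some `q_b` is a nonzero
polynomial of degree at most `N`, and `t` in the set is a root of `q_b` (a real polynomial
function of `y` which vanishes identically has zero coefficients). -/
theorem bad_lines (q : MvPolynomial (Fin 2) ℝ) (hq : q ≠ 0) (N : ℕ) (hN : q.totalDegree ≤ N) :
    {t : ℝ | ∀ y : ℝ, eval ![t, y] q = 0}.encard ≤ (N : ℕ∞) := by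
  obtain ⟨y, hy⟩ : ∃ y : ℝ, secQ q y ≠ 0 := by
    by_contra hcon
    push Not at hcon
    refine hq (MvPolynomial.funext fun w => ?_)
    have h2 : w = ![w 0, w 1] := by
      funext i
      fin_cases i <;> rfl
    rw [h2, ← eval_secQ, hcon, Polynomial.eval_zero, map_zero]
  refine (Set.encard_le_encard fun t ht => ?_).trans
    (card_zeros (secQ q y) hy N ((deg_secQ q y).trans hN))
  have h1 : eval ![t, y] q = 0 := ht y
  rw [← eval_secQ] at h1
  exact h1

/-- On the other lines there are at most `N` zeros. Proof: `y ↦ eval ![t, y] q` is a nonzero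
polynomial in `y` of degree at most `N`. -/
theorem good_line (q : MvPolynomial (Fin 2) ℝ) (N : ℕ) (hN : q.totalDegree ≤ N) (t : ℝ)
    (ht : ∃ y : ℝ, eval ![t, y] q ≠ 0) : {y : ℝ | eval ![t, y] q = 0}.encard ≤ (N : ℕ∞) := by
  have hp : secP q t ≠ 0 := by
    intro h0
    obtain ⟨y, hy⟩ := ht
    refine hy ?_
    rw [← eval_secP, h0, Polynomial.eval_zero]
  refine (Set.encard_le_encard fun y hy => ?_).trans
    (card_zeros (secP q t) hp N ((deg_secP q t).trans hN))
  have h1 : eval ![t, y] q = 0 := hy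
  rw [← eval_secP] at h1
  exact h1

/-- For two different points few linear forms agree. -/
theorem sep_pair {k : ℕ} (x y : Fin k → ℝ) (hxy : x ≠ y) (R : ℕ) :
    ((Finset.univ : Finset (Fin R)).filter fun j : Fin R => gfm (k := k) (j : ℕ) x =
      gfm (k := k) (j : ℕ) y).card ≤ k - 1 := by
  classical
  obtain ⟨l, hl⟩ := Function.ne_iff.mp hxy
  set p : Polynomial ℝ := ∑ l : Fin k, Polynomial.monomial (l : ℕ) (x l - y l) with hp
  have hp0 : p ≠ 0 := by
    intro h0
    have h1 : p.coeff (l : ℕ) = x l - y l := by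
      rw [hp, Polynomial.finsetSum_coeff, Finset.sum_eq_single l]
      · rw [Polynomial.coeff_monomial, if_pos rfl]
      · intro b _ hb
        rw [Polynomial.coeff_monomial, if_neg]
        exact fun h => hb (Fin.ext h)
      · intro h
        exact absurd (Finset.mem_univ l) h
    rw [h0, Polynomial.coeff_zero] at h1
    exact hl (by linarith)
  have hdeg : p.natDegree ≤ k - 1 := by
    rw [hp]
    refine Polynomial.natDegree_sum_le_of_forall_le _ _ fun b _ => ?_
    refine (Polynomial.natDegree_monomial_le _).trans ?_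
    have := b.2
    omega
  have hev : ∀ s : ℝ, p.eval s = ∑ l : Fin k, s ^ (l : ℕ) * (x l - y l) := by
    intro s
    rw [hp, Polynomial.eval_finsetSum]
    refine Finset.sum_congr rfl fun j _ => ?_
    rw [Polynomial.eval_monomial, mul_comm]
  have hinj : Set.InjOn (fun j : Fin R => ((j : ℕ) : ℝ))
      ↑((Finset.univ : Finset (Fin R)).filter fun j : Fin R => gfm (k := k) (j : ℕ) x =
        gfm (k := k) (j : ℕ) y) := fun a _ b _ hab => Fin.ext (Nat.cast_injective hab)
  rw [← Finset.card_image_of_injOn hinj]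
  refine (Finset.card_le_card fun s hs => ?_).trans
    (((Multiset.toFinset_card_le _).trans (Polynomial.card_roots' p)).trans hdeg)
  obtain ⟨j, hj, rfl⟩ := Finset.mem_image.mp hs
  rw [Multiset.mem_toFinset, Polynomial.mem_roots hp0]
  have h1 := (Finset.mem_filter.mp hj).2
  unfold gfm at h1
  have h2 : p.eval ((j : ℕ) : ℝ) = 0 := by
    rw [hev]
    simp only [mul_sub, Finset.sum_sub_distrib]
    linarith
  exact h2

/-- Separation by one of the linear forms.
Proof: for `x ≠ y` in `T` the polynomial `sum_l (x_l - y_l) Z^l` is nonzero of degree `< k`, so it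
has fewer than `k` roots; the number of pairs is at most `(N+1)^2`, so at most
`(k - 1) * (N+1)^2 < k * (N+1)^2` of the `j` are bad for some pair. -/
theorem separate {k : ℕ} (hk : 1 ≤ k) (N : ℕ) (T : Finset (Fin k → ℝ)) (hT : T.card = N + 1) :
    ∃ j : Fin (k * (N + 1) ^ 2), Set.InjOn (gfm (k := k) (j : ℕ)) ↑T := by
  classical
  by_contra hcon
  push Not at hcon
  have hcov : (Finset.univ : Finset (Fin (k * (N + 1) ^ 2))) ⊆
      (T ×ˢ T).biUnion fun a => if a.1 = a.2 then ∅ else
        (Finset.univ : Finset (Fin (k * (N + 1) ^ 2))).filter fun j : Fin (k * (N + 1) ^ 2) =>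
          gfm (k := k) (j : ℕ) a.1 = gfm (k := k) (j : ℕ) a.2 := by
    intro j _
    have h1 := hcon j
    unfold Set.InjOn at h1
    push Not at h1
    obtain ⟨x, hx, y, hy, hxy, hne⟩ := h1
    refine Finset.mem_biUnion.mpr ⟨(x, y), Finset.mem_product.mpr ⟨hx, hy⟩, ?_⟩
    rw [if_neg hne]
    exact Finset.mem_filter.mpr ⟨Finset.mem_univ _, hxy⟩
  have h2 := (Finset.card_le_card hcov).trans (Finset.card_biUnion_le_card_mul _ _ (k - 1)
    fun a _ => by
      split_ifs with h3
      · simp
      · exact sep_pair a.1 a.2 h3 _)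
  rw [Finset.card_univ, Fintype.card_fin, Finset.card_product, hT] at h2
  have h4 : (N + 1) * (N + 1) * (k - 1) < k * (N + 1) ^ 2 := by
    obtain ⟨m, rfl⟩ : ∃ m, k = m + 1 := ⟨k - 1, by omega⟩
    rw [Nat.add_sub_cancel]
    nlinarith [Nat.succ_pos N]
  omega

/-- Sections of `Vset q` by coordinate hyperplanes.
Proof: let `t` be outside of the union over `j` of the sets of `bad_lines` for `q a j` (at most
`R * N` values in total). If the section `{x ∈ Vset q | x a = t}` had more than `N` points, take a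
finset `T` of `N + 1` of them and `j` from `separate`; the `N + 1` different values `gfm j x` are
zeros of `y ↦ eval ![t, y] (q a j)`, contradiction to `good_line`. -/
theorem sec_V {k : ℕ} (hk : 1 ≤ k) (N : ℕ)
    (q : Fin k → Fin (k * (N + 1) ^ 2) → MvPolynomial (Fin 2) ℝ) (hq : ∀ a j, q a j ≠ 0)
    (hd : ∀ a j, (q a j).totalDegree ≤ N) (a : Fin k) :
    {t : ℝ | (N : ℕ∞) < (Vset q ∩ {x | x a = t}).encard}.encard ≤
      ((k * (N + 1) ^ 2 * N : ℕ) : ℕ∞) := by
  classical
  have hsub : {t : ℝ | (N : ℕ∞) < (Vset q ∩ {x | x a = t}).encard} ⊆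
      ⋃ j ∈ (Finset.univ : Finset (Fin (k * (N + 1) ^ 2))),
        {t : ℝ | ∀ y : ℝ, eval ![t, y] (q a j) = 0} := by
    intro t ht
    by_contra hcon
    have hg : ∀ j, ∃ y : ℝ, eval ![t, y] (q a j) ≠ 0 := by
      intro j
      by_contra h1
      push Not at h1
      exact hcon (Set.mem_iUnion₂.mpr ⟨j, Finset.mem_univ _, h1⟩)
    have h1 : ((N + 1 : ℕ) : ℕ∞) ≤ (Vset q ∩ {x | x a = t}).encard := by
      rw [Nat.cast_add, Nat.cast_one]
      exact Order.add_one_le_of_lt ht
    obtain ⟨G, hG1, hG2⟩ := Set.exists_subset_encard_eq h1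
    have hGf : G.Finite := Set.finite_of_encard_eq_coe hG2
    rw [hGf.encard_eq_coe_toFinset_card] at hG2
    have hG3 : hGf.toFinset.card = N + 1 := by exact_mod_cast hG2
    obtain ⟨j, hj⟩ := separate hk N hGf.toFinset hG3
    have h4 := good_line (q a j) N (hd a j) t (hg j)
    have h5 : ((hGf.toFinset.image (gfm (k := k) (j : ℕ)) : Finset ℝ) : Set ℝ) ⊆
        {y : ℝ | eval ![t, y] (q a j) = 0} := by
      intro y hy
      obtain ⟨x, hx, rfl⟩ := Finset.mem_image.mp (Finset.mem_coe.mp hy)
      have hx' := hG1 (hGf.mem_toFinset.mp hx)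
      have h6 := hx'.1 a j
      have h7 : x a = t := hx'.2
      rw [h7] at h6
      exact h6
    have h6 := (Set.encard_le_encard h5).trans h4
    rw [Set.encard_coe_eq_coe_finsetCard, Finset.card_image_of_injOn hj, hG3] at h6
    have h7 : N + 1 ≤ N := by exact_mod_cast h6
    omega
  refine (Set.encard_le_encard hsub).trans ?_
  have hfin : ∀ j : Fin (k * (N + 1) ^ 2),
      {t : ℝ | ∀ y : ℝ, eval ![t, y] (q a j) = 0}.Finite := fun j =>
    Set.finite_of_encard_le_coe (bad_lines (q a j) (hq a j) N (hd a j))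
  have h8 : (⋃ j ∈ (Finset.univ : Finset (Fin (k * (N + 1) ^ 2))),
        {t : ℝ | ∀ y : ℝ, eval ![t, y] (q a j) = 0}) =
      (((Finset.univ : Finset (Fin (k * (N + 1) ^ 2))).biUnion fun j =>
        (hfin j).toFinset : Finset ℝ) : Set ℝ) := by
    ext t
    simp
  rw [h8, Set.encard_coe_eq_coe_finsetCard]
  have h9 : ((Finset.univ : Finset (Fin (k * (N + 1) ^ 2))).biUnion fun j =>
      (hfin j).toFinset).card ≤ k * (N + 1) ^ 2 * N := by
    refine (Finset.card_biUnion_le_card_mul _ _ N fun j _ => ?_).trans ?_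
    · have h10 := bad_lines (q a j) (hq a j) N (hd a j)
      rw [(hfin j).encard_eq_coe_toFinset_card] at h10
      exact_mod_cast h10
    · rw [Finset.card_univ, Fintype.card_fin]
  exact_mod_cast h9

end Pool.Agent.RM90
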