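import Pool.Agent.Lib.MP_df59e7_lc.Lim
import Pool.Agent.Lib.MP_df59e7_lc.SecV

set_option autoImplicit false

/-! MP_df59e7_lc, assembly: the final statement. -/

namespace Pool.Agent.RM90

open MvPolynomial

theorem dot_single {k : ℕ} (a : Fin k) (x : Fin k → ℝ) : (Pi.single a 1 : Fin k → ℝ) ⬝ᵥ x = x a := by
  simp

theorem roadmap_main {k s : ℕ} [NeZero k] (d : ℕ) (P : Fin s → MvPolynomial (Fin k) ℝ)
    (hdeg : ∀ i, (P i).totalDegree ≤ d)
    (hb : Bornology.IsBounded {x : Fin k → ℝ | ∀ i, 0 ≤ eval x (P i)})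
    (A : Finset (Fin k → ℝ)) (hA : ∀ a ∈ A, ∀ i, 0 ≤ eval a (P i)) (N : ℕ)
    (hN : N = 4 * BB (k + 1) (s * d + 2) * (2 ^ k - 1) *
        (A.card + 8 * (BB (k + 1) (s * d + 2)) ^ 2)) :
    ∃ (q : Fin k → Fin (k * (N + 1) ^ 2) → MvPolynomial (Fin 2) ℝ) (M : Set (Fin k → ℝ)),
      (∀ a j, q a j ≠ 0 ∧ (q a j).totalDegree ≤ N) ∧
      (∀ a, {t : ℝ | (N : ℕ∞) < (Vset q ∩ {x | x a = t}).encard}.encard ≤
        ((k * (N + 1) ^ 2 * N : ℕ) : ℕ∞)) ∧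
      M ⊆ {x | ∀ i, 0 ≤ eval x (P i)} ∩ Vset q ∧
      (∀ x ∈ M, connectedComponentIn ({x | ∀ i, 0 ≤ eval x (P i)} ∩ Vset q) x ⊆ M) ∧
      ↑A ⊆ M ∧
      (∀ x ∈ {x : Fin k → ℝ | ∀ i, 0 ≤ eval x (P i)}, IsConnected (M ∩
        connectedComponentIn {x | ∀ i, 0 ≤ eval x (P i)} x)) ∧
      (∀ x ∈ {x : Fin k → ℝ | ∀ i, 0 ≤ eval x (P i)}, (M ∩
        connectedComponentIn {y | y ∈ {x : Fin k → ℝ | ∀ i, 0 ≤ eval x (P i)} ∧
          y 0 = x 0} x).Nonempty) := by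
  have hk : 1 ≤ k := Nat.one_le_iff_ne_zero.mpr (NeZero.ne k)
  obtain ⟨M0, h1, h2, h3, h4, h5⟩ := lim_set d P hdeg hb A hA
  rw [← hN] at h2
  have hq : ∀ (a : Fin k) (j : Fin (k * (N + 1) ^ 2)), ∃ q : MvPolynomial (Fin 2) ℝ, q ≠ 0 ∧
      q.totalDegree ≤ N ∧ ∀ x ∈ M0, eval ![x a, gfm (j : ℕ) x] q = 0 := by
    intro a j
    obtain ⟨q, hq1, hq2, hq3⟩ := h2 (Pi.single a 1) (fun l => ((j : ℕ) : ℝ) ^ (l : ℕ))
    refine ⟨q, hq1, hq2, fun x hx => ?_⟩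
    have := hq3 x hx
    rwa [dot_single] at this
  choose q hq1 hq2 hq3 using hq
  set S : Set (Fin k → ℝ) := {x | ∀ i, 0 ≤ eval x (P i)} with hS
  set W : Set (Fin k → ℝ) := S ∩ Vset q with hW
  have hMW : M0 ⊆ W := fun x hx => ⟨h1 hx, fun a j => hq3 a j x hx⟩
  set M : Set (Fin k → ℝ) := {y | ∃ x ∈ M0, y ∈ connectedComponentIn W x} with hM
  have hMS : M ⊆ W := by
    rintro y ⟨x, _, hy⟩
    exact connectedComponentIn_subset _ _ hy
  have hM0M : M0 ⊆ M := fun x hx => ⟨x, hx, mem_connectedComponentIn (hMW hx)⟩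
  have hcomp : ∀ x ∈ S, ∀ x0 ∈ M0 ∩ connectedComponentIn S x,
      M ∩ connectedComponentIn S x = connectedComponentIn W x0 := by
    intro x hx x0 hx0
    have hWS : connectedComponentIn W x0 ⊆ connectedComponentIn S x := by
      refine (connectedComponentIn_mono x0 Set.inter_subset_left).trans ?_
      rw [connectedComponentIn_eq hx0.2]
    have hsub : M0 ∩ connectedComponentIn S x ⊆ connectedComponentIn W x0 :=
      (h4 x hx).2.subset_connectedComponentIn hx0 (fun y hy => hMW hy.1)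
    ext y
    constructor
    · rintro ⟨⟨x1, hx1, hy⟩, hyx⟩
      have hy1 : y ∈ connectedComponentIn S x1 :=
        connectedComponentIn_mono x1 Set.inter_subset_left hy
      have he : connectedComponentIn S x1 = connectedComponentIn S x := by
        rw [connectedComponentIn_eq hy1, connectedComponentIn_eq hyx]
      have hx1' : x1 ∈ M0 ∩ connectedComponentIn S x :=
        ⟨hx1, he ▸ mem_connectedComponentIn (h1 hx1)⟩
      rw [connectedComponentIn_eq (hsub hx1')]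
      exact hy
    · intro hy
      exact ⟨⟨x0, hx0.1, hy⟩, hWS hy⟩
  refine ⟨q, M, fun a j => ⟨hq1 a j, hq2 a j⟩, fun a => sec_V hk N q hq1 hq2 a, hMS, ?_,
    h3.trans hM0M, ?_, ?_⟩
  · rintro x ⟨x0, hx0, hx⟩ y hy
    refine ⟨x0, hx0, ?_⟩
    rw [connectedComponentIn_eq hx]; exact hy
  · intro x hx
    obtain ⟨x0, hx0⟩ := (h4 x hx).1
    rw [hcomp x hx x0 hx0]
    exact ⟨⟨x0, mem_connectedComponentIn (hMW hx0.1)⟩, isPreconnected_connectedComponentIn⟩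
  · intro x hx
    obtain ⟨y, hy1, hy2⟩ := h5 x hx
    exact ⟨y, hM0M hy1, hy2⟩

end Pool.Agent.RM90
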