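import Pool.Agent.Lib.MP_df59e7_lc.Defs

set_option autoImplicit false

/-! MP_df59e7_lc, module Forest. -/

namespace Pool.Agent.RM90

open MvPolynomial

/-- Spanning forests: a symmetric relation on a finite type contains a set of at most
`card ι` edges which crosses every cut crossed by the relation.
Proof: let `G` be the simple graph of `r` (without loops). In every connected component choose a
root; for every `i` which is not a root let `p i` be a neighbour of `i` with smaller distance
(`SimpleGraph.dist`) to the root; `T = {(i, p i)}`. Every `i` is joined to its root by a chain of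
`T`-edges (induction on the distance). If `i ∈ I`, `j ∉ I`, `r i j`, they have the same root, so
one of the two chains crosses the cut. -/
theorem forest {ι : Type*} [Fintype ι] (r : ι → ι → Prop) (hs : ∀ i j, r i j → r j i) :
    ∃ T : Finset (ι × ι), T.card ≤ Fintype.card ι ∧ (∀ e ∈ T, r e.1 e.2) ∧
      ∀ I : Set ι, (∃ i j, i ∈ I ∧ j ∉ I ∧ r i j) →
        ∃ e ∈ T, (e.1 ∈ I ∧ e.2 ∉ I) ∨ (e.1 ∉ I ∧ e.2 ∈ I) := by
  classical
  suffices H : ∀ (n : ℕ) (T : Finset (ι × ι)) (c : ι → ι), (Finset.univ.image c).card ≤ n →
      T.card + (Finset.univ.image c).card ≤ Fintype.card ι → (∀ e ∈ T, r e.1 e.2) →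
      (∀ I : Set ι, (∀ e ∈ T, (e.1 ∈ I ↔ e.2 ∈ I)) → ∀ x y, c x = c y → (x ∈ I ↔ y ∈ I)) →
      ∃ T : Finset (ι × ι), T.card ≤ Fintype.card ι ∧ (∀ e ∈ T, r e.1 e.2) ∧
      ∀ I : Set ι, (∃ i j, i ∈ I ∧ j ∉ I ∧ r i j) →
        ∃ e ∈ T, (e.1 ∈ I ∧ e.2 ∉ I) ∨ (e.1 ∉ I ∧ e.2 ∈ I) by
    refine H (Finset.univ.image (id : ι → ι)).card ∅ id le_rfl ?_ ?_ ?_
    · rw [Finset.card_empty, zero_add]
      exact Finset.card_le_univ _
    · intro e he
      exact absurd he (Finset.notMem_empty e)
    · intro I _ x y hxy
      have hxy' : x = y := hxy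
      rw [hxy']
  intro n
  induction n with
  | zero =>
    intro T c hc hcard hT hP
    refine ⟨T, by omega, hT, ?_⟩
    rintro I ⟨i, -, -, -, -⟩
    exfalso
    have h1 : c i ∈ Finset.univ.image c := Finset.mem_image_of_mem c (Finset.mem_univ i)
    have h2 := Finset.card_pos.2 ⟨_, h1⟩
    omega
  | succ n ih =>
    intro T c hc hcard hT hP
    by_cases h : ∀ i j, r i j → c i = c j
    · refine ⟨T, by omega, hT, ?_⟩
      rintro I ⟨i, j, hi, hj, hr⟩
      by_contra hno
      push Not at hno
      refine hj ((hP I (fun e he => ?_) i j (h i j hr)).1 hi)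
      obtain ⟨h1, h2⟩ := hno e he
      constructor
      · exact h1
      · intro h3
        by_contra h4
        exact h2 h4 h3
    · push Not at h
      obtain ⟨i, j, hr, hij⟩ := h
      have himg : Finset.univ.image (fun x => if c x = c j then c i else c x) ⊆
          (Finset.univ.image c).erase (c j) := by
        intro y hy
        rw [Finset.mem_image] at hy
        obtain ⟨x, -, rfl⟩ := hy
        rw [Finset.mem_erase]
        split_ifs with hx
        · exact ⟨hij, Finset.mem_image_of_mem c (Finset.mem_univ i)⟩
        · exact ⟨hx, Finset.mem_image_of_mem c (Finset.mem_univ x)⟩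
      have hcj : c j ∈ Finset.univ.image c := Finset.mem_image_of_mem c (Finset.mem_univ j)
      have hpos := Finset.card_pos.2 ⟨_, hcj⟩
      have hcard' := Finset.card_le_card himg
      rw [Finset.card_erase_of_mem hcj] at hcard'
      have hins := Finset.card_insert_le (i, j) T
      refine ih (insert (i, j) T) (fun x => if c x = c j then c i else c x) (by omega)
        (by omega) ?_ ?_
      · intro e he
        rcases Finset.mem_insert.1 he with rfl | he
        · exact hr
        · exact hT e he
      · intro I hI x y hxy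
        have hI' : ∀ e ∈ T, (e.1 ∈ I ↔ e.2 ∈ I) := fun e he =>
          hI e (Finset.mem_insert_of_mem he)
        have hIij : i ∈ I ↔ j ∈ I := hI (i, j) (Finset.mem_insert_self _ _)
        have hQ := hP I hI'
        split_ifs at hxy with hx hy hy
        · exact hQ x y (hx.trans hy.symm)
        · rw [hQ x j hx, ← hIij]
          exact hQ i y hxy
        · rw [hQ y j hy, ← hIij]
          exact hQ x i hxy
        · exact hQ x y hxy

end Pool.Agent.RM90
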