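import Pool.Agent.Lib.MP_df59e7_lc.Defs
import Pool.Agent.Lib.MP_df59e7_lc.AlgU
import Pool.Agent.Lib.MP_df59e7_lc.Forest

set_option autoImplicit false

/-! MP_df59e7_lc, module Glue. -/

namespace Pool.Agent.RM90

open MvPolynomial

/-- The properties of the limit sets: `M` is contained in `S`, contains `A`, projects to plane
curves of degree at most `N` and satisfies the two roadmap conditions. -/
structure LMap {k : ℕ} [NeZero k] (S : Set (Fin k → ℝ)) (A : Finset (Fin k → ℝ)) (N : ℕ)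
    (M : Set (Fin k → ℝ)) : Prop where
  sub : M ⊆ S
  alg : Alg N M
  pts : ↑A ⊆ M
  rm1 : ∀ x ∈ S, IsConnected (M ∩ connectedComponentIn S x)
  rm2 : ∀ x ∈ S, (M ∩ connectedComponentIn {y | y ∈ S ∧ y 0 = x 0} x).Nonempty

private theorem Glue_symm {X : Type*} [TopologicalSpace X] {S : Set X} {x y : X} (hx : x ∈ S)
    (h : y ∈ connectedComponentIn S x) : x ∈ connectedComponentIn S y := by
  rw [← connectedComponentIn_eq h]
  exact mem_connectedComponentIn hx

private theorem Glue_cover {X : Type*} [TopologicalSpace X] (S : Set X) (B : ℕ)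
    (h : ∀ T : Finset X, ↑T ⊆ S →
      (∀ x ∈ T, ∀ y ∈ T, y ∈ connectedComponentIn S x → x = y) → T.card ≤ B) :
    ∃ T : Finset X, ↑T ⊆ S ∧ T.card ≤ B ∧ ∀ x ∈ S, ∃ t ∈ T, x ∈ connectedComponentIn S t := by
  classical
  by_contra hno
  have H : ∀ n : ℕ, ∃ T : Finset X, ↑T ⊆ S ∧
      (∀ x ∈ T, ∀ y ∈ T, y ∈ connectedComponentIn S x → x = y) ∧ T.card = n := by
    intro n
    induction n with
    | zero => exact ⟨∅, by simp, by simp, rfl⟩
    | succ n ih =>
      obtain ⟨T, hT1, hT2, hT3⟩ := ih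
      have h1 : ∃ x ∈ S, ∀ t ∈ T, x ∉ connectedComponentIn S t := by
        by_contra hc
        push Not at hc
        exact hno ⟨T, hT1, h T hT1 hT2, hc⟩
      obtain ⟨x, hx, hxT⟩ := h1
      have hxn : x ∉ T := fun hc => hxT x hc (mem_connectedComponentIn hx)
      refine ⟨insert x T, ?_, ?_, by rw [Finset.card_insert_of_notMem hxn, hT3]⟩
      · rw [Finset.coe_insert]
        exact Set.insert_subset hx hT1
      · intro a ha b hb hab
        rcases Finset.mem_insert.1 ha with h1 | h1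
        · rcases Finset.mem_insert.1 hb with h2 | h2
          · rw [h1, h2]
          · rw [h1] at hab
            exact absurd (Glue_symm hx hab) (hxT b h2)
        · rcases Finset.mem_insert.1 hb with h2 | h2
          · rw [h2] at hab
            exact absurd hab (hxT a h1)
          · exact hT2 a h1 b h2 hab
  obtain ⟨T, hT1, hT2, hT3⟩ := H (B + 1)
  have := h T hT1 hT2
  omega

private theorem Glue_closed {X : Type*} [TopologicalSpace X] {S : Set X} (hS : IsClosed S)
    {x : X} (hx : x ∈ S) : IsClosed (connectedComponentIn S x) := by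
  refine isClosed_of_closure_subset ?_
  exact isPreconnected_connectedComponentIn.closure.subset_connectedComponentIn
    (subset_closure (mem_connectedComponentIn hx))
    (closure_minimal (connectedComponentIn_subset S x) hS)

/-- Gluing of roadmaps of finitely many closed sets.
Proof: for every `i` choose a maximal finset `T i ⊆ S i` of points in pairwise different
components of `S i` (sizes at most `B`): every component of `S i` contains one of them. Vertices:
pairs `(i, t)`, `t ∈ T i`; `r (i,t) (j,t')`: the components `connectedComponentIn (S i) t` and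
`connectedComponentIn (S j) t'` have a common point. Take the edge set from `forest`, at most
`card ι * B` edges, and for each edge a common point `a_e`. Let `A i` be the set of points of `A`
in `S i` and of all points `a_e` in `S i` (at most `A.card + card ι * B` points), `M i` from
`hM`, `M = ⋃ M i`. `alg`: `alg_biUnion`. `rm2`: `x ∈ S i` for some `i`,
`connectedComponentIn_mono`. `rm1`: let `C` be a component of `S = ⋃ S i`. Every component of
every `S i` is contained in `C` or disjoint from `C`, and `C` is the union of the closed sets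
`connectedComponentIn (S i) t ⊆ C`. `M ∩ C` is the union of the connected sets
`M i ∩ connectedComponentIn (S i) t`. If it were covered by two open sets `u`, `v` as in the
definition of preconnectedness, each of these connected sets would be contained in exactly one of
them; let `I` be the set of vertices in `C` of the first kind; by connectedness of `C`
(`isPreconnected_closed_iff`) some component with vertex in `I` meets one with vertex in `C` not
in `I`, so by `forest` there is an edge `e` with one end in `I` and the other not; both ends are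
in `C` (their components have a common point), and `a_e ∈ M i ∩ M j` belongs to both pieces:
contradiction. -/
theorem glue {k : ℕ} [NeZero k] {ι : Type} [Fintype ι] (S : ι → Set (Fin k → ℝ))
    (hcl : ∀ i, IsClosed (S i)) (B : ℕ) (Nf : ℕ → ℕ) (hNf : Monotone Nf)
    (hcomp : ∀ i, ∀ T : Finset (Fin k → ℝ), ↑T ⊆ S i →
      (∀ x ∈ T, ∀ y ∈ T, y ∈ connectedComponentIn (S i) x → x = y) → T.card ≤ B)
    (hM : ∀ i, ∀ A : Finset (Fin k → ℝ), ↑A ⊆ S i → ∃ M, LMap (S i) A (Nf A.card) M)
    (A : Finset (Fin k → ℝ)) (hA : ↑A ⊆ ⋃ i, S i) :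
    ∃ M, LMap (⋃ i, S i) A
      (Fintype.card ι * Nf (A.card + Fintype.card ι * B)) M := by
  classical
  choose T hT1 hT2 hT3 using fun i => Glue_cover (S i) B (hcomp i)
  -- the graph of the components
  obtain ⟨E, hE1, hE2, hE3⟩ := forest
    (fun v w : (Σ i : ι, {t // t ∈ T i}) => (connectedComponentIn (S v.1) v.2.1 ∩
      connectedComponentIn (S w.1) w.2.1).Nonempty)
    (fun v w h => by rwa [Set.inter_comm])
  have hcardV : Fintype.card (Σ i : ι, {t // t ∈ T i}) ≤ Fintype.card ι * B := by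
    rw [Fintype.card_sigma]
    calc ∑ i : ι, Fintype.card {t // t ∈ T i} ≤ ∑ _i : ι, B :=
          Finset.sum_le_sum fun i _ => by
            rw [Fintype.card_coe]
            exact hT2 i
      _ = Fintype.card ι * B := by
          rw [Finset.sum_const, Finset.card_univ, smul_eq_mul]
  have hpt : ∀ e : (Σ i : ι, {t // t ∈ T i}) × (Σ i : ι, {t // t ∈ T i}), ∃ p : Fin k → ℝ,
      e ∈ E → p ∈ connectedComponentIn (S e.1.1) e.1.2.1 ∧
        p ∈ connectedComponentIn (S e.2.1) e.2.2.1 := by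
    intro e
    by_cases he : e ∈ E
    · obtain ⟨p, hp⟩ := hE2 e he
      exact ⟨p, fun _ => hp⟩
    · exact ⟨0, fun h => absurd h he⟩
  choose pt hpt using hpt
  set P : Finset (Fin k → ℝ) := A ∪ E.image pt with hP
  have hPc : P.card ≤ A.card + Fintype.card ι * B := by
    rw [hP]
    refine (Finset.card_union_le _ _).trans (add_le_add le_rfl ?_)
    exact Finset.card_image_le.trans (hE1.trans hcardV)
  have hex : ∀ i, ∃ M, LMap (S i) (P.filter fun p => p ∈ S i)
      (Nf (P.filter fun p => p ∈ S i).card) M := fun i =>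
    hM i _ (fun p hp => by
      rw [Finset.mem_coe, Finset.mem_filter] at hp
      exact hp.2)
  choose M hM' using hex
  have hMsub : ∀ i, M i ⊆ S i := fun i => (hM' i).sub
  have hPM : ∀ i, ∀ p ∈ P, p ∈ S i → p ∈ M i := fun i p hp hpS =>
    (hM' i).pts (by
      rw [Finset.mem_coe, Finset.mem_filter]
      exact ⟨hp, hpS⟩)
  have hSU : ∀ i, S i ⊆ ⋃ i, S i := fun i => Set.subset_iUnion S i
  have hcc : ∀ i x, connectedComponentIn (S i) x ⊆ connectedComponentIn (⋃ i, S i) x :=
    fun i x => connectedComponentIn_mono x (hSU i)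
  refine ⟨⋃ i, M i, ?_, ?_, ?_, ?_, ?_⟩
  · exact Set.iUnion_mono hMsub
  · have h1 := alg_biUnion Finset.univ (Nf (A.card + Fintype.card ι * B)) M fun i _ =>
      alg_mono (hNf ((Finset.card_filter_le _ _).trans hPc)) le_rfl (hM' i).alg
    rw [Finset.card_univ] at h1
    simpa using h1
  · intro a ha
    obtain ⟨i, hi⟩ := Set.mem_iUnion.1 (hA ha)
    exact Set.mem_iUnion.2 ⟨i, hPM i a (Finset.mem_union_left _ ha) hi⟩
  · -- connectedness
    intro x hx
    set C := connectedComponentIn (⋃ i, S i) x with hC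
    have hCy : ∀ y ∈ C, connectedComponentIn (⋃ i, S i) y = C := fun y hy =>
      (connectedComponentIn_eq hy).symm
    -- the components contained in `C`
    have hin : ∀ i t, t ∈ C → connectedComponentIn (S i) t ⊆ C := fun i t ht => by
      rw [← hCy t ht]
      exact hcc i t
    have hvert : ∀ i, ∀ y ∈ C, y ∈ S i → ∃ t, ∃ ht : t ∈ T i, t ∈ C ∧
        y ∈ connectedComponentIn (S i) t := by
      intro i y hy hyS
      obtain ⟨t, ht, hyt⟩ := hT3 i y hyS
      exact ⟨t, ht, hin i y hy (Glue_symm (hT1 i ht) hyt), hyt⟩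
    have hKc : ∀ i t, t ∈ T i → IsConnected (M i ∩ connectedComponentIn (S i) t) := fun i t ht =>
      (hM' i).rm1 t (hT1 i ht)
    have hKsub : ∀ i t, t ∈ C → M i ∩ connectedComponentIn (S i) t ⊆ (⋃ i, M i) ∩ C :=
      fun i t ht y hy => ⟨Set.mem_iUnion.2 ⟨i, hy.1⟩, hin i t ht hy.2⟩
    refine ⟨?_, ?_⟩
    · obtain ⟨i, hi⟩ := Set.mem_iUnion.1 hx
      obtain ⟨y, hy1, hy2⟩ := ((hM' i).rm1 x hi).nonempty
      exact ⟨y, Set.mem_iUnion.2 ⟨i, hy1⟩, hcc i x hy2⟩
    · intro u v hu hv huv hnu hnv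
      by_contra hemp
      have hemp' : ∀ y ∈ (⋃ i, M i) ∩ C, y ∈ u → y ∈ v → False := fun y hy h1 h2 =>
        hemp ⟨y, hy, h1, h2⟩
      -- each piece meets exactly one of `u`, `v`
      have hone : ∀ i t, t ∈ T i → t ∈ C →
          ((M i ∩ connectedComponentIn (S i) t) ∩ u).Nonempty →
          ((M i ∩ connectedComponentIn (S i) t) ∩ v).Nonempty → False := by
        intro i t ht htC h1 h2
        obtain ⟨y, hy, hyu, hyv⟩ := (hKc i t ht).isPreconnected u v hu hv
          ((hKsub i t htC).trans huv) h1 h2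
        exact hemp' y (hKsub i t htC hy) hyu hyv
      set I : Set (Σ i : ι, {t // t ∈ T i}) := {w | w.2.1 ∈ C ∧
        ((M w.1 ∩ connectedComponentIn (S w.1) w.2.1) ∩ u).Nonempty} with hI
      set F1 : Set (Fin k → ℝ) := ⋃ w ∈ I, connectedComponentIn (S w.1) w.2.1 with hF1
      set F2 : Set (Fin k → ℝ) := ⋃ w ∈ {w : (Σ i : ι, {t // t ∈ T i}) | w.2.1 ∈ C ∧ w ∉ I},
        connectedComponentIn (S w.1) w.2.1 with hF2
      have hF1c : IsClosed F1 := by
        rw [hF1]
        exact (Set.toFinite I).isClosed_biUnion fun w _ =>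
          Glue_closed (hcl w.1) (hT1 w.1 w.2.2)
      have hF2c : IsClosed F2 := by
        rw [hF2]
        exact (Set.toFinite _).isClosed_biUnion fun w _ =>
          Glue_closed (hcl w.1) (hT1 w.1 w.2.2)
      have hcov : C ⊆ F1 ∪ F2 := by
        intro y hy
        obtain ⟨i, hi⟩ := Set.mem_iUnion.1 (connectedComponentIn_subset _ _ hy)
        obtain ⟨t, ht, htC, hyt⟩ := hvert i y hy hi
        by_cases hw : (⟨i, ⟨t, ht⟩⟩ : Σ i : ι, {t // t ∈ T i}) ∈ I
        · exact Or.inl (Set.mem_biUnion hw hyt)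
        · exact Or.inr (Set.mem_biUnion (⟨htC, hw⟩ :
            (⟨i, ⟨t, ht⟩⟩ : Σ i : ι, {t // t ∈ T i}) ∈ {w | w.2.1 ∈ C ∧ w ∉ I}) hyt)
      have hn1 : (C ∩ F1).Nonempty := by
        obtain ⟨y, ⟨hyM, hyC⟩, hyu⟩ := hnu
        obtain ⟨i, hi⟩ := Set.mem_iUnion.1 hyM
        obtain ⟨t, ht, htC, hyt⟩ := hvert i y hyC (hMsub i hi)
        exact ⟨y, hyC, Set.mem_biUnion (⟨htC, y, ⟨hi, hyt⟩, hyu⟩ :
            (⟨i, ⟨t, ht⟩⟩ : Σ i : ι, {t // t ∈ T i}) ∈ I) hyt⟩
      have hn2 : (C ∩ F2).Nonempty := by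
        obtain ⟨y, ⟨hyM, hyC⟩, hyv⟩ := hnv
        obtain ⟨i, hi⟩ := Set.mem_iUnion.1 hyM
        obtain ⟨t, ht, htC, hyt⟩ := hvert i y hyC (hMsub i hi)
        exact ⟨y, hyC, Set.mem_biUnion (⟨htC, fun hw =>
          hone i t ht htC hw.2 ⟨y, ⟨hi, hyt⟩, hyv⟩⟩ :
            (⟨i, ⟨t, ht⟩⟩ : Σ i : ι, {t // t ∈ T i}) ∈ {w | w.2.1 ∈ C ∧ w ∉ I}) hyt⟩
      obtain ⟨y, hyC, hy1, hy2⟩ := isPreconnected_closed_iff.1
        (isPreconnected_connectedComponentIn (F := ⋃ i, S i) (x := x)) F1 F2 hF1c hF2c hcov hn1 hn2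
      obtain ⟨w1, hw1, hyw1⟩ := Set.mem_iUnion₂.1 hy1
      obtain ⟨w2, hw2, hyw2⟩ := Set.mem_iUnion₂.1 hy2
      -- an edge crossing the cut
      obtain ⟨e, heE, he⟩ := hE3 I ⟨w1, w2, hw1, hw2.2, y, hyw1, hyw2⟩
      obtain ⟨hp1, hp2⟩ := hpt e heE
      have hpP : pt e ∈ P := Finset.mem_union_right _ (Finset.mem_image_of_mem pt heE)
      have hm1 : pt e ∈ M e.1.1 ∩ connectedComponentIn (S e.1.1) e.1.2.1 :=
        ⟨hPM _ _ hpP (connectedComponentIn_subset _ _ hp1), hp1⟩
      have hm2 : pt e ∈ M e.2.1 ∩ connectedComponentIn (S e.2.1) e.2.2.1 :=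
        ⟨hPM _ _ hpP (connectedComponentIn_subset _ _ hp2), hp2⟩
      have hfin : ∀ w w' : (Σ i : ι, {t // t ∈ T i}), w ∈ I → w' ∉ I →
          pt e ∈ M w.1 ∩ connectedComponentIn (S w.1) w.2.1 →
          pt e ∈ M w'.1 ∩ connectedComponentIn (S w'.1) w'.2.1 → False := by
        intro w w' hw hw' h1 h2
        have hpC : pt e ∈ C := hin w.1 w.2.1 hw.1 h1.2
        have hw'C : w'.2.1 ∈ C :=
          hin w'.1 (pt e) hpC (Glue_symm (hT1 w'.1 w'.2.2) h2.2)
        rcases huv (hKsub w.1 w.2.1 hw.1 h1) with hpu | hpv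
        · exact hw' ⟨hw'C, pt e, h2, hpu⟩
        · exact hone w.1 w.2.1 w.2.2 hw.1 hw.2 ⟨pt e, h1, hpv⟩
      rcases he with ⟨h1, h2⟩ | ⟨h1, h2⟩
      · exact hfin _ _ h1 h2 hm1 hm2
      · exact hfin _ _ h2 h1 hm2 hm1
  · intro x hx
    obtain ⟨i, hi⟩ := Set.mem_iUnion.1 hx
    obtain ⟨y, hy1, hy2⟩ := (hM' i).rm2 x hi
    refine ⟨y, Set.mem_iUnion.2 ⟨i, hy1⟩, connectedComponentIn_mono x ?_ hy2⟩
    rintro z ⟨hz1, hz2⟩
    exact ⟨hSU i hz1, hz2⟩

end Pool.Agent.RM90
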