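import Pool.Agent.Lib.MP_df59e7_lc.Defs
import Pool.Agent.Lib.MP_5a1161_co_h27.Warren

set_option autoImplicit false

/-! MP_df59e7_lc, module SgnCnt. -/

namespace Pool.Agent.RM90

open MvPolynomial

private theorem sgnCnt_eps {k s : ℕ} (P : Fin s → MvPolynomial (Fin k) ℝ)
    (T : Finset (Fin k → ℝ)) :
    ∃ ε : ℝ, 0 < ε ∧ ∀ x ∈ T, ∀ i, eval x (P i) ≠ 0 → ε < |eval x (P i)| := by
  have h1 : ∀ᶠ ε : ℝ in nhdsWithin 0 (Set.Ioi 0),
      ∀ x ∈ T, ∀ i, eval x (P i) ≠ 0 → ε < |eval x (P i)| := by
    rw [Filter.eventually_all_finset]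
    intro x _
    rw [Filter.eventually_all]
    intro i
    by_cases h : eval x (P i) = 0
    · exact Filter.Eventually.of_forall fun ε h' => absurd h h'
    · filter_upwards [Ioo_mem_nhdsGT (abs_pos.2 h)] with ε hε _
      exact hε.2
  obtain ⟨ε, h2, h3⟩ := (h1.and self_mem_nhdsWithin).exists
  exact ⟨ε, h3, h2⟩

private theorem sgnCnt_loc {k : ℕ} (p : MvPolynomial (Fin k) ℝ) (c : ℝ) (x : Fin k → ℝ)
    (hx : eval x p ≠ c) : ∀ᶠ z in nhds x, (c < eval z p) = (c < eval x p) := by
  have hc : Continuous fun z : Fin k → ℝ => eval z p := MvPolynomial.continuous_eval p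
  rcases lt_or_gt_of_ne hx with h | h
  · filter_upwards [hc.continuousAt.eventually (gt_mem_nhds h)] with z hz
    exact propext ⟨fun h1 => absurd h1 (not_lt.2 (le_of_lt hz)),
      fun h1 => absurd h1 (not_lt.2 h.le)⟩
  · filter_upwards [hc.continuousAt.eventually (lt_mem_nhds h)] with z hz
    exact propext ⟨fun _ => h, fun _ => hz⟩

/-- The number of sign conditions.
Proof: let `R` be larger than all coordinates' square sums `sum_j x_j^2` of points of `T`, and let
`0 < ε` be smaller than all nonzero `|eval x (P i)|`, `x ∈ T`. For `x ∈ T` let `S x` be the set of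
all `y` with `sum_j y_j^2 < R` such that for all `i`: `eval y (P i) - ε` has the (nonzero) sign
of `eval x (P i) - ε` and `eval y (P i) + ε` has the sign of `eval x (P i) + ε`. These sets are
open, bounded, contain `x`, and are pairwise disjoint (the signs of `P_i(x) ± ε` determine
whether `P_i(x)` is positive, zero or negative). Apply `Pool.Agent.Warren46.card_cells` with
`Q = prod_i (P_i - ε)(P_i + ε) * (R - sum_j X_j^2)`, of degree at most `2 s d + 2` in every
variable; a limit point of `S x` where `Q ≠ 0` is in `S x`. -/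
theorem sign_count {k s : ℕ} (d : ℕ) (P : Fin s → MvPolynomial (Fin k) ℝ)
    (hdeg : ∀ i, (P i).totalDegree ≤ d) (T : Finset (Fin k → ℝ))
    (hT : ∀ x ∈ T, ∀ y ∈ T, (∀ i, (0 ≤ eval x (P i) ↔ 0 ≤ eval y (P i)) ∧
      (eval x (P i) ≤ 0 ↔ eval y (P i) ≤ 0)) → x = y) :
    T.card ≤ (k * (2 * s * d + 2) + 1) ^ k := by
  obtain ⟨ε, hε, hεT⟩ := sgnCnt_eps P T
  obtain ⟨f, hf⟩ : ∃ f : MvPolynomial (Fin k) ℝ, f = ∏ i, ((P i - C ε) * (P i + C ε)) :=
    ⟨_, rfl⟩
  have hfe : ∀ x, eval x f = ∏ i, ((eval x (P i) - ε) * (eval x (P i) + ε)) := by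
    intro x
    rw [hf]
    simp [map_prod]
  have hdf : f.totalDegree ≤ 2 * s * d := by
    rw [hf]
    refine (totalDegree_finset_prod _ _).trans ?_
    have h1 : ∀ i ∈ (Finset.univ : Finset (Fin s)),
        ((P i - C ε) * (P i + C ε)).totalDegree ≤ 2 * d := by
      intro i _
      refine (totalDegree_mul _ _).trans ?_
      have h2 : (P i - C ε).totalDegree ≤ d := by
        refine (totalDegree_sub _ _).trans ?_
        rw [totalDegree_C]
        exact max_le (hdeg i) (Nat.zero_le _)
      have h3 : (P i + C ε).totalDegree ≤ d := by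
        refine (totalDegree_add _ _).trans ?_
        rw [totalDegree_C]
        exact max_le (hdeg i) (Nat.zero_le _)
      omega
    refine (Finset.sum_le_sum h1).trans ?_
    rw [Finset.sum_const, Finset.card_univ, Fintype.card_fin, smul_eq_mul]
    apply le_of_eq
    ring
  have hne : ∀ x, eval x f ≠ 0 → ∀ i, eval x (P i) ≠ ε ∧ eval x (P i) ≠ -ε := by
    intro x hx i
    rw [hfe, Finset.prod_ne_zero_iff] at hx
    have h1 := hx i (Finset.mem_univ i)
    constructor
    · intro h2
      exact h1 (by rw [h2, sub_self, zero_mul])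
    · intro h2
      exact h1 (by rw [h2, neg_add_cancel, mul_zero])
  refine Pool.Agent.MP_5a1161_co.card_locally_const k (2 * s * d) f hdf
    (h := fun z => fun i : Fin s => ((ε < eval z (P i) : Prop), (-ε < eval z (P i) : Prop)))
    ?_ T ?_ ?_
  · intro x hx
    have h1 : ∀ᶠ z in nhds x, ∀ i, (ε < eval z (P i)) = (ε < eval x (P i)) ∧
        (-ε < eval z (P i)) = (-ε < eval x (P i)) := by
      rw [Filter.eventually_all]
      intro i
      exact (sgnCnt_loc (P i) ε x (hne x hx i).1).and (sgnCnt_loc (P i) (-ε) x (hne x hx i).2)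
    filter_upwards [h1] with z hz
    funext i
    exact Prod.ext (hz i).1 (hz i).2
  · intro x hx
    rw [hfe, Finset.prod_ne_zero_iff]
    intro i _
    by_cases h : eval x (P i) = 0
    · rw [h]
      simp only [zero_sub, zero_add]
      exact mul_ne_zero (neg_ne_zero.2 hε.ne') hε.ne'
    · have h1 := hεT x hx i h
      refine mul_ne_zero ?_ ?_
      · intro h2
        have h3 : eval x (P i) = ε := by linarith
        rw [h3, abs_of_pos hε] at h1
        exact lt_irrefl _ h1
      · intro h2
        have h3 : eval x (P i) = -ε := by linarith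
        rw [h3, abs_neg, abs_of_pos hε] at h1
        exact lt_irrefl _ h1
  · intro x hx y hy hxy
    have hkey : ∀ z ∈ T, ∀ i, (0 ≤ eval z (P i) ↔ -ε < eval z (P i)) ∧
        (eval z (P i) ≤ 0 ↔ ¬ ε < eval z (P i)) := by
      intro z hz i
      constructor
      · constructor
        · intro h
          linarith
        · intro h
          by_contra hneg
          push Not at hneg
          have h1 := hεT z hz i hneg.ne
          rw [abs_of_neg hneg] at h1
          linarith
      · constructor
        · intro h h2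
          linarith
        · intro h
          by_contra hpos
          push Not at hpos
          have h1 := hεT z hz i hpos.ne'
          rw [abs_of_pos hpos] at h1
          exact h h1
    refine hT x hx y hy fun i => ?_
    have h1 := congrFun hxy i
    have h2 : (ε < eval x (P i)) = (ε < eval y (P i)) := congrArg Prod.fst h1
    have h3 : (-ε < eval x (P i)) = (-ε < eval y (P i)) := congrArg Prod.snd h1
    rw [(hkey x hx i).1, (hkey x hx i).2, (hkey y hy i).1, (hkey y hy i).2, h2, h3]
    exact ⟨Iff.rfl, Iff.rfl⟩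

end Pool.Agent.RM90
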