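import Pool.Agent.Lib.MP_df59e7_lc.CompS
import Pool.Agent.Lib.MP_df59e7_lc.Glue
import Pool.Agent.Lib.MP_df59e7_lc.SgnCnt
import Pool.Agent.Lib.MP_df59e7_lc.SecV

set_option autoImplicit false

/-! MP_df59e7_lc, assembly: closed bounded semialgebraic sets. -/

namespace Pool.Agent.RM90

open MvPolynomial

theorem fin_of_lmap {k : ℕ} [NeZero k] (S : Set (Fin k → ℝ)) (A : Finset (Fin k → ℝ)) (N : ℕ)
    (M0 : Set (Fin k → ℝ)) (h : LMap S A N M0) :
    ∃ (q : Fin k → Fin (k * (N + 1) ^ 2) → MvPolynomial (Fin 2) ℝ) (M : Set (Fin k → ℝ)),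
      (∀ a j, q a j ≠ 0 ∧ (q a j).totalDegree ≤ N) ∧
      (∀ a, {t : ℝ | (N : ℕ∞) < (Vset q ∩ {x | x a = t}).encard}.encard ≤
        ((k * (N + 1) ^ 2 * N : ℕ) : ℕ∞)) ∧
      M ⊆ S ∩ Vset q ∧
      (∀ x ∈ M, connectedComponentIn (S ∩ Vset q) x ⊆ M) ∧
      ↑A ⊆ M ∧
      (∀ x ∈ S, IsConnected (M ∩ connectedComponentIn S x)) ∧
      (∀ x ∈ S, (M ∩ connectedComponentIn {y | y ∈ S ∧ y 0 = x 0} x).Nonempty) := by
  have hk : 1 ≤ k := Nat.one_le_iff_ne_zero.mpr (NeZero.ne k)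
  obtain ⟨h1, h2, h3, h4, h5⟩ := h
  have hq : ∀ (a : Fin k) (j : Fin (k * (N + 1) ^ 2)), ∃ q : MvPolynomial (Fin 2) ℝ, q ≠ 0 ∧
      q.totalDegree ≤ N ∧ ∀ x ∈ M0, eval ![x a, gfm (j : ℕ) x] q = 0 := by
    intro a j
    obtain ⟨q, hq1, hq2, hq3⟩ := h2 (Pi.single a 1) (fun l => ((j : ℕ) : ℝ) ^ (l : ℕ))
    refine ⟨q, hq1, hq2, fun x hx => ?_⟩
    have := hq3 x hx
    have he : (Pi.single a 1 : Fin k → ℝ) ⬝ᵥ x = x a := by simp
    rwa [he] at this
  choose q hq1 hq2 hq3 using hq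
  set W : Set (Fin k → ℝ) := S ∩ Vset q with hW
  have hMW : M0 ⊆ W := fun x hx => ⟨h1 hx, fun a j => hq3 a j x hx⟩
  set M : Set (Fin k → ℝ) := {y | ∃ x ∈ M0, y ∈ connectedComponentIn W x} with hM
  have hMS : M ⊆ W := by
    rintro y ⟨x, _, hy⟩
    exact connectedComponentIn_subset _ _ hy
  have hM0M : M0 ⊆ M := fun x hx => ⟨x, hx, mem_connectedComponentIn (hMW hx)⟩
  have hcomp : ∀ x ∈ S, ∀ x0 ∈ M0 ∩ connectedComponentIn S x,
      M ∩ connectedComponentIn S x = connectedComponentIn W x0 := by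
    intro x hx x0 hx0
    have hWS : connectedComponentIn W x0 ⊆ connectedComponentIn S x := by
      refine (connectedComponentIn_mono x0 Set.inter_subset_left).trans ?_
      rw [connectedComponentIn_eq hx0.2]
    have hsub : M0 ∩ connectedComponentIn S x ⊆ connectedComponentIn W x0 :=
      (h4 x hx).2.subset_connectedComponentIn hx0 (fun y hy => hMW hy.1)
    ext y
    constructor
    · rintro ⟨⟨x1, hx1, hy⟩, hyx⟩
      have hy1 : y ∈ connectedComponentIn S x1 :=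
        connectedComponentIn_mono x1 Set.inter_subset_left hy
      have he : connectedComponentIn S x1 = connectedComponentIn S x := by
        rw [connectedComponentIn_eq hy1, connectedComponentIn_eq hyx]
      have hx1' : x1 ∈ M0 ∩ connectedComponentIn S x :=
        ⟨hx1, he ▸ mem_connectedComponentIn (h1 hx1)⟩
      rw [connectedComponentIn_eq (hsub hx1')]
      exact hy
    · intro hy
      exact ⟨⟨x0, hx0.1, hy⟩, hWS hy⟩
  refine ⟨q, M, fun a j => ⟨hq1 a j, hq2 a j⟩, fun a => sec_V hk N q hq1 hq2 a, hMS, ?_,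
    h3.trans hM0M, ?_, ?_⟩
  · rintro x ⟨x0, hx0, hx⟩ y hy
    refine ⟨x0, hx0, ?_⟩
    rw [connectedComponentIn_eq hx]; exact hy
  · intro x hx
    obtain ⟨x0, hx0⟩ := (h4 x hx).1
    rw [hcomp x hx x0 hx0]
    exact ⟨⟨x0, mem_connectedComponentIn (hMW hx0.1)⟩, isPreconnected_connectedComponentIn⟩
  · intro x hx
    obtain ⟨y, hy1, hy2⟩ := h5 x hx
    exact ⟨y, hM0M hy1, hy2⟩

/-- Maximal finite sets exist when the sizes are bounded. -/
theorem exists_max_finset {α : Type*} (p : Finset α → Prop) (B : ℕ) (h0 : p ∅)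
    (hB : ∀ T, p T → T.card ≤ B) : ∃ T, p T ∧ ∀ T', p T' → T ⊆ T' → T' = T := by
  classical
  by_contra hcon
  push Not at hcon
  have hstep : ∀ m : ℕ, ∃ T, p T ∧ m ≤ T.card := by
    intro m
    induction m with
    | zero => exact ⟨∅, h0, le_refl _⟩
    | succ m ih =>
      obtain ⟨T, hT, hm⟩ := ih
      obtain ⟨T', hT', hsub, hne⟩ := hcon T hT
      refine ⟨T', hT', ?_⟩
      have : T ⊂ T' := Finset.ssubset_iff_subset_ne.mpr ⟨hsub, Ne.symm hne⟩
      exact Nat.succ_le_of_lt (lt_of_le_of_lt hm (Finset.card_lt_card this))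
  obtain ⟨T, hT, hm⟩ := hstep (B + 1)
  have := hB T hT
  omega

/-- The closed sign condition of a point as a basic closed set. -/
noncomputable def Psg {k s : ℕ} (P : Fin s → MvPolynomial (Fin k) ℝ) (t : Fin k → ℝ) :
    Fin (s + s) → MvPolynomial (Fin k) ℝ := by
  classical
  exact Fin.append (fun i => if 0 ≤ eval t (P i) then P i else 0)
    (fun i => if eval t (P i) ≤ 0 then -P i else 0)

theorem Psg_set {k s : ℕ} (P : Fin s → MvPolynomial (Fin k) ℝ) (t x : Fin k → ℝ) :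
    (∀ j, 0 ≤ eval x (Psg P t j)) ↔ ∀ i, (0 ≤ eval t (P i) → 0 ≤ eval x (P i)) ∧
      (eval t (P i) ≤ 0 → eval x (P i) ≤ 0) := by
  classical
  constructor
  · intro h i
    constructor
    · intro hi
      have := h (Fin.castAdd s i)
      simp only [Psg, Fin.append_left, if_pos hi] at this
      exact this
    · intro hi
      have := h (Fin.natAdd s i)
      simp only [Psg, Fin.append_right, if_pos hi, map_neg] at this
      linarith
  · intro h j
    refine Fin.addCases (fun i => ?_) (fun i => ?_) j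
    · simp only [Psg, Fin.append_left]
      split_ifs with hi
      · exact (h i).1 hi
      · simp
    · simp only [Psg, Fin.append_right]
      split_ifs with hi
      · rw [map_neg]
        have := (h i).2 hi
        linarith
      · simp

theorem Psg_deg {k s : ℕ} (d : ℕ) (P : Fin s → MvPolynomial (Fin k) ℝ)
    (hdeg : ∀ i, (P i).totalDegree ≤ d) (t : Fin k → ℝ) (j : Fin (s + s)) :
    (Psg P t j).totalDegree ≤ d := by
  classical
  refine Fin.addCases (fun i => ?_) (fun i => ?_) j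
  · simp only [Psg, Fin.append_left]
    split_ifs
    · exact hdeg i
    · simp
  · simp only [Psg, Fin.append_right]
    split_ifs
    · rw [totalDegree_neg]; exact hdeg i
    · simp

theorem count_le_BB (k s d : ℕ) :
    (k * (2 * s * d + 2) + 1) ^ k ≤ BB (k + 1) ((s + s) * d + 2) := by
  unfold BB
  have h1 : k * (2 * s * d + 2) + 1 ≤ 2 * (k + 1) * 3 ^ (k + 1) * ((s + s) * d + 2) + 1 := by
    have h2 : (s + s) * d + 2 = 2 * s * d + 2 := by ring
    rw [h2]
    have h3 : k ≤ 2 * (k + 1) * 3 ^ (k + 1) := by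
      have : 1 ≤ 3 ^ (k + 1) := Nat.one_le_pow _ _ (by norm_num)
      nlinarith
    exact Nat.add_le_add_right (Nat.mul_le_mul_right _ h3) 1
  calc (k * (2 * s * d + 2) + 1) ^ k
      ≤ (2 * (k + 1) * 3 ^ (k + 1) * ((s + s) * d + 2) + 1) ^ k := Nat.pow_le_pow_left h1 k
    _ ≤ (2 * (k + 1) * 3 ^ (k + 1) * ((s + s) * d + 2) + 1) ^ (k + 1) :=
        Nat.pow_le_pow_right (by omega) (by omega)

theorem closed_lmap {k s : ℕ} [NeZero k] (d : ℕ) (P : Fin s → MvPolynomial (Fin k) ℝ)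
    (hdeg : ∀ i, (P i).totalDegree ≤ d) (Φ : (Fin s → Prop) → (Fin s → Prop) → Prop)
    (hΦ : ∀ f f' g g' : Fin s → Prop, (∀ i, f i → f' i) → (∀ i, g i → g' i) → Φ f g → Φ f' g')
    (S : Set (Fin k → ℝ))
    (hS : S = {x | Φ (fun i => 0 ≤ eval x (P i)) (fun i => eval x (P i) ≤ 0)})
    (hb : Bornology.IsBounded S) (A : Finset (Fin k → ℝ)) (hA : ↑A ⊆ S) (B : ℕ)
    (hB : B = BB (k + 1) ((s + s) * d + 2)) :
    ∃ M, LMap S A (4 * B ^ 2 * (2 ^ k - 1) * (A.card + 9 * B ^ 2)) M := by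
  classical
  set p : Finset (Fin k → ℝ) → Prop := fun T => ↑T ⊆ S ∧ ∀ x ∈ T, ∀ y ∈ T,
    (∀ i, (0 ≤ eval x (P i) ↔ 0 ≤ eval y (P i)) ∧
      (eval x (P i) ≤ 0 ↔ eval y (P i) ≤ 0)) → x = y with hp
  obtain ⟨T, hT, hmax⟩ := exists_max_finset p ((k * (2 * s * d + 2) + 1) ^ k)
    ⟨by simp, by simp⟩ (fun T hT => sign_count d P hdeg T hT.2)
  have hTB : T.card ≤ B := by
    rw [hB]
    exact (sign_count d P hdeg T hT.2).trans (count_le_BB k s d)
  have hcov : ∀ x ∈ S, ∃ t ∈ T, ∀ i, (0 ≤ eval t (P i) ↔ 0 ≤ eval x (P i)) ∧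
      (eval t (P i) ≤ 0 ↔ eval x (P i) ≤ 0) := by
    intro x hx
    by_contra hcon
    have hxT : x ∉ T := fun hxT => hcon ⟨x, hxT, fun i => ⟨Iff.rfl, Iff.rfl⟩⟩
    have h1 : p (insert x T) := by
      refine ⟨?_, ?_⟩
      · rw [Finset.coe_insert]
        exact Set.insert_subset hx hT.1
      · intro y hy z hz hyz
        rw [Finset.mem_insert] at hy hz
        rcases hy with rfl | hy
        · rcases hz with rfl | hz
          · rfl
          · exact absurd ⟨z, hz, fun i => ⟨(hyz i).1.symm, (hyz i).2.symm⟩⟩ hcon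
        · rcases hz with rfl | hz
          · exact absurd ⟨y, hy, fun i => ⟨(hyz i).1, (hyz i).2⟩⟩ hcon
          · exact hT.2 y hy z hz hyz
    have h2 := hmax _ h1 (Finset.subset_insert x T)
    exact hxT (h2 ▸ Finset.mem_insert_self x T)
  set St : T → Set (Fin k → ℝ) := fun t => {x | ∀ j, 0 ≤ eval x (Psg P t j)} with hSt
  have hStS : ∀ t, St t ⊆ S := by
    intro t x hx
    have h1 := (Psg_set P t x).mp hx
    have h2 : (t : Fin k → ℝ) ∈ S := hT.1 t.2
    rw [hS] at h2 ⊢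
    exact hΦ _ _ _ _ (fun i => (h1 i).1) (fun i => (h1 i).2) h2
  have hU : (⋃ t, St t) = S := by
    apply Set.Subset.antisymm
    · exact Set.iUnion_subset hStS
    · intro x hx
      obtain ⟨t, ht, h1⟩ := hcov x hx
      rw [Set.mem_iUnion]
      exact ⟨⟨t, ht⟩, (Psg_set P t x).mpr fun i => ⟨(h1 i).1.mp, (h1 i).2.mp⟩⟩
  have hbt : ∀ t, Bornology.IsBounded (St t) := fun t => hb.subset (hStS t)
  have hB1 : 1 ≤ B := by rw [hB]; exact BB_pos _ _
  obtain ⟨M, hM⟩ := glue St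
    (fun t => by
      have : St t = ⋂ j, {x | 0 ≤ eval x (Psg P t j)} := by
        ext x; simp [hSt]
      rw [this]
      exact isClosed_iInter fun j => isClosed_le continuous_const (continuous_evalp _))
    B (fun m => 4 * B * (2 ^ k - 1) * (m + 8 * B ^ 2))
    (fun a b hab => Nat.mul_le_mul_left _ (Nat.add_le_add_right hab _))
    (fun t T' hT' hd => by
      rw [hB]
      exact comp_count d (Psg P t) (Psg_deg d P hdeg t) (hbt t) T' hT' hd)
    (fun t A' hA' => by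
      obtain ⟨M0, h1, h2, h3, h4, h5⟩ := lim_set d (Psg P t) (Psg_deg d P hdeg t) (hbt t) A'
        (fun a ha => hA' ha)
      exact ⟨M0, ⟨h1, by rw [hB]; exact h2, h3, h4, h5⟩⟩)
    A (by rw [hU]; exact hA)
  rw [hU] at hM
  refine ⟨M, ⟨hM.sub, alg_mono ?_ le_rfl hM.alg, hM.pts, hM.rm1, hM.rm2⟩⟩
  rw [Fintype.card_coe]
  have h6 : A.card + T.card * B + 8 * B ^ 2 ≤ A.card + 9 * B ^ 2 := by nlinarith
  calc T.card * (4 * B * (2 ^ k - 1) * (A.card + T.card * B + 8 * B ^ 2))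
      ≤ B * (4 * B * (2 ^ k - 1) * (A.card + 9 * B ^ 2)) :=
        Nat.mul_le_mul hTB (Nat.mul_le_mul_left _ h6)
    _ = 4 * B ^ 2 * (2 ^ k - 1) * (A.card + 9 * B ^ 2) := by ring

end Pool.Agent.RM90
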