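import Pool.Agent.Lib.MP_df59e7_lc.Defs
import Pool.Agent.Lib.MP_df59e7_lc.Inv
import Pool.Agent.Lib.MP_df59e7_lc.Upd
import Pool.Agent.Lib.MP_df59e7_lc.LamF

set_option autoImplicit false

/-! MP_df59e7_lc, module Str. -/

namespace Pool.Agent.RM90

open MvPolynomial

private theorem str_lam {n : ℕ} [NeZero n] (i : ℕ) (hi : 2 ≤ i)
    (F : Fin n → MvPolynomial (Fin n) ℝ)
    (hstd : Std i F) (G : MvPolynomial (Fin n) ℝ) (c : Fin n → ℝ)
    (U : Set (Fin n → ℝ)) (hU : IsOpen U) (hj : ∀ w ∈ Ehs U i F G c, eval w (jac F) ≠ 0)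
    (w : Fin n → ℝ) (hw : LM (Ehs U i F G c) (fun x => x 0) w) (a : Fin n)
    (ha : 1 ≤ (a : ℕ)) (hai : (a : ℕ) < i) : lam F G w a = c a := by
  by_contra hne
  obtain ⟨hwE, ε, hε, hmin⟩ := hw
  have hjw := hj w hwE
  have h0 : ((0 : Fin n) : ℕ) = 0 := by simp
  have h0a : (0 : Fin n) ≠ a := fun h => by
    rw [← h, h0] at ha
    omega
  have hvv : vv i c a = c a := by
    unfold vv
    rw [if_neg (by omega), if_pos hai]
  have hjac : eval w (jac (Function.update F a (G - lf i c))) ≠ 0 := by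
    rw [jac_upd i F hstd G c w hjw a, hvv]
    exact mul_ne_zero (sub_ne_zero.2 hne) hjw
  obtain ⟨ρ, hρ, s, V, hVo, hwV, hVU, -, hV1, hV2, hs⟩ :=
    loc_inv (Function.update F a (G - lf i c)) U hU w hwE.1 hjac
  set F' := Function.update F a (G - lf i c) with hF'
  have hF'0 : F' 0 = X 0 := by
    rw [hF', Function.update_of_ne h0a]
    exact hstd 0 (by rw [h0]; omega)
  have hF'j : ∀ j : Fin n, i ≤ (j : ℕ) → F' j = F j := by
    intro j hij
    rw [hF', Function.update_of_ne]
    intro h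
    rw [h] at hij
    omega
  have hF'a : F' a = G - lf i c := by rw [hF', Function.update_self]
  -- the curve
  have hcont : ContinuousAt s (evm F' w) :=
    (hs (evm F' w) (Metric.mem_ball_self hρ)).continuousAt
  have hsw : s (evm F' w) = w := (hV1 w hwV).2
  rw [Metric.continuousAt_iff] at hcont
  obtain ⟨η, hη, hcl⟩ := hcont ε hε
  set t : ℝ := -(min ρ η / 2) with ht
  have hmpos : 0 < min ρ η := lt_min hρ hη
  have htneg : t < 0 := by rw [ht]; linarith
  set y : Fin n → ℝ := evm F' w + Pi.single 0 t with hy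
  have hyd : dist y (evm F' w) = |t| := by
    rw [hy, dist_self_add_left, Pi.norm_single, Real.norm_eq_abs]
  have habs : |t| = min ρ η / 2 := by
    rw [ht, abs_neg, abs_of_pos (by linarith)]
  have hyball : y ∈ Metric.ball (evm F' w) ρ := by
    rw [Metric.mem_ball, hyd, habs]
    have := min_le_left ρ η
    linarith
  obtain ⟨hsV, hsy⟩ := hV2 y hyball
  have hdist : dist (s y) w < ε := by
    have h1 := hcl (x := y) (by
      rw [hyd, habs]
      have := min_le_right ρ η
      linarith)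
    rw [hsw] at h1
    exact h1
  have hcomp : ∀ j : Fin n, eval (s y) (F' j) = y j := fun j => congrFun hsy j
  have hyj : ∀ j : Fin n, j ≠ 0 → y j = eval w (F' j) := by
    intro j hj0
    rw [hy, Pi.add_apply, Pi.single_eq_of_ne hj0, add_zero]
    rfl
  have hsE : s y ∈ Ehs U i F G c := by
    refine ⟨hVU hsV, ?_, ?_⟩
    · intro j hij
      have hj0 : j ≠ 0 := fun h => by
        rw [h, h0] at hij
        omega
      rw [← hF'j j hij, hcomp j, hyj j hj0, hF'j j hij]
      exact hwE.2.1 j hij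
    · rw [← hF'a, hcomp a, hyj a (Ne.symm h0a), hF'a]
      exact hwE.2.2
  have hlow := hmin (s y) hsE hdist
  have hs0 : (s y) 0 = w 0 + t := by
    have h1 := hcomp 0
    rw [hF'0, eval_X] at h1
    rw [h1, hy, Pi.add_apply, Pi.single_eq_same]
    congr 1
    show eval w (F' 0) = w 0
    rw [hF'0, eval_X]
  have hlow' : w 0 ≤ (s y) 0 := hlow
  rw [hs0] at hlow'
  linarith

private theorem str_TT {n : ℕ} [NeZero n] (i : ℕ) (hi : 2 ≤ i)
    (F : Fin n → MvPolynomial (Fin n) ℝ)
    (hstd : Std i F) (G : MvPolynomial (Fin n) ℝ) (c : Fin n → ℝ)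
    (U : Set (Fin n → ℝ)) (hU : IsOpen U) (hj : ∀ w ∈ Ehs U i F G c, eval w (jac F) ≠ 0)
    (w : Fin n → ℝ) (hw : LM (Ehs U i F G c) (fun x => x 0) w) :
    TT i F G w = fun j : Fin n => if i ≤ (j : ℕ) then (0 : ℝ) else c j := by
  have hlam := str_lam i hi F hstd G c U hU hj w hw
  funext j
  show TT i F G w j = if i ≤ (j : ℕ) then 0 else c j
  unfold TT
  by_cases h1 : i ≤ (j : ℕ)
  · rw [if_pos h1, if_pos h1]
    exact hw.1.2.1 j h1
  · rw [if_neg h1, if_neg h1]
    by_cases h2 : (j : ℕ) = 0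
    · rw [if_pos h2]
      have h3 : j = 0 := by
        apply Fin.ext
        rw [h2]
        simp
      have h4 : eval w (G - lf i c) = 0 := hw.1.2.2
      rw [map_sub, eval_lf] at h4
      have h5 : ∑ l : Fin n, (if 1 ≤ (l : ℕ) ∧ (l : ℕ) < i then w l * lam F G w l else 0) =
          ∑ l : Fin n, (if 1 ≤ (l : ℕ) ∧ (l : ℕ) < i then w l * c l else 0) := by
        refine Finset.sum_congr rfl fun l _ => ?_
        by_cases h6 : 1 ≤ (l : ℕ) ∧ (l : ℕ) < i
        · rw [if_pos h6, if_pos h6, hlam l h6.1 h6.2]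
        · rw [if_neg h6, if_neg h6]
      rw [h5, h3]
      linarith
    · rw [if_neg h2]
      exact hlam j (by omega) (by omega)

/-- Local minima of the first coordinate on the next set are strict.
Proof: let `w` be a local minimum. For `1 ≤ a < i` we have `lam_a = v_a = c_a`: otherwise by
`jac_upd` and `loc_inv` the map `F' = Function.update F a (G - lf i c)` has a local inverse `s` at
`w` (inside `U`) and the curve `x(t) = s (evm F' w + t e_0)` lies in `Ehs` (its components `a` and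
`j ≥ i` of `evm F'` stay `0`; `0 ≠ a`, `0 < i`) with `x(t)_0 = w_0 + t` (as `F'_0 = X_0`), which
contradicts minimality for small `t < 0`. So `TT_j(w) = c_j` for all `j < i` (for `j = 0` use
`eval_lf` and `eval w (G - lf i c) = 0`). By `Gen` the map `TT` has an invertible strict
derivative at `w`, so it is injective on a neighbourhood of `w`
(`HasStrictFDerivAt.toOpenPartialHomeomorph` or `approximates_deriv_on_nhds`). Every `w' ∈ Ehs`
close to `w` with `w'_0 ≤ w_0` has `w'_0 = w_0` and is again a local minimum, so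
`TT_j(w') = c_j` for `j < i`, and `TT_j(w') = F_j(w') = 0` for `j ≥ i`: `TT w' = TT w`, `w' = w`. -/
theorem str_E {n : ℕ} [NeZero n] (i : ℕ) (hi : 2 ≤ i) (F : Fin n → MvPolynomial (Fin n) ℝ)
    (hstd : Std i F) (G : MvPolynomial (Fin n) ℝ) (c : Fin n → ℝ) (hg : Gen i F G c)
    (U : Set (Fin n → ℝ)) (hU : IsOpen U) (hj : ∀ w ∈ Ehs U i F G c, eval w (jac F) ≠ 0)
    (w : Fin n → ℝ) (hw : LM (Ehs U i F G c) (fun x => x 0) w) :
    SLM (Ehs U i F G c) (fun x => x 0) w := by
  have hTw := str_TT i hi F hstd G c U hU hj w hw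
  obtain ⟨L, hL⟩ := hg w (hj w hw.1) hw.1.2.1 (fun j hji => by
    rw [hTw]
    show (if i ≤ (j : ℕ) then 0 else c j) = c j
    rw [if_neg (by omega)])
  obtain ⟨e, he, hsrc⟩ : ∃ e : OpenPartialHomeomorph (Fin n → ℝ) (Fin n → ℝ),
      (∀ x, e x = TT i F G x) ∧ w ∈ e.source :=
    ⟨hL.toOpenPartialHomeomorph (TT i F G), fun x => rfl,
      hL.mem_toOpenPartialHomeomorph_source⟩
  obtain ⟨ε', hε', hball⟩ := Metric.isOpen_iff.1 e.open_source w hsrc
  obtain ⟨hwE, ε, hε, hmin⟩ := hw
  refine ⟨hwE, min (ε / 2) ε', lt_min (by linarith) hε', ?_⟩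
  intro y hy hyd hyne
  have hd1 : dist y w < ε / 2 := lt_of_lt_of_le hyd (min_le_left _ _)
  have hd2 : dist y w < ε' := lt_of_lt_of_le hyd (min_le_right _ _)
  by_contra hcon
  have hle : y 0 ≤ w 0 := not_lt.1 hcon
  have hge : w 0 ≤ y 0 := hmin y hy (by linarith)
  have hLM : LM (Ehs U i F G c) (fun x => x 0) y := by
    refine ⟨hy, ε / 2, by linarith, ?_⟩
    intro z hz hzd
    have h1 : dist z w < ε := by
      have := dist_triangle z y w
      linarith
    have h2 : w 0 ≤ z 0 := hmin z hz h1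
    show y 0 ≤ z 0
    linarith
  have hTy := str_TT i hi F hstd G c U hU hj y hLM
  apply hyne
  apply e.injOn (hball (Metric.mem_ball.2 hd2)) hsrc
  rw [he, he, hTy, hTw]

end Pool.Agent.RM90
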