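import Pool.Agent.Lib.MP_df59e7_lc.LcE
import Pool.Agent.Lib.MP_df59e7_lc.Str
import Pool.Agent.Lib.MP_df59e7_lc.DnsA
import Pool.Agent.Lib.MP_df59e7_lc.DnsB
import Pool.Agent.Lib.MP_df59e7_lc.DegJ

set_option autoImplicit false

/-! MP_df59e7_lc, assembly: a generic next stage is good. -/

namespace Pool.Agent.RM90

open MvPolynomial

theorem est_nxt {n : ℕ} (i : ℕ) (hi : 1 ≤ i) (hin : i ≤ n) (U : Set (Fin n → ℝ))
    (F : Fin n → MvPolynomial (Fin n) ℝ) (G : MvPolynomial (Fin n) ℝ) (c : Fin n → ℝ) :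
    Est U (i - 1) (nxt i F G c) = Ehs U i F G c := by
  ext x
  simp only [Est, Ehs, Set.mem_setOf_eq]
  constructor
  · rintro ⟨hU, h⟩
    refine ⟨hU, fun j hj => ?_, ?_⟩
    · have := h j (by omega)
      rwa [nxt, if_neg (by omega)] at this
    · have := h ⟨i - 1, by omega⟩ (le_refl _)
      rwa [nxt, if_pos (by simp; omega)] at this
  · rintro ⟨hU, h, h0⟩
    refine ⟨hU, fun j hj => ?_⟩
    by_cases hji : (j : ℕ) + 1 = i
    · rw [nxt, if_pos hji]; exact h0
    · rw [nxt, if_neg hji]; exact h j (by omega)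

theorem nxt_eq {n : ℕ} (i : ℕ) (e : Fin n) (he : (e : ℕ) + 1 = i)
    (F : Fin n → MvPolynomial (Fin n) ℝ) (G : MvPolynomial (Fin n) ℝ) (c : Fin n → ℝ) :
    nxt i F G c = Function.update F e (G - lf i c) := by
  funext j
  by_cases hj : j = e
  · subst hj; rw [Function.update_self, nxt, if_pos he]
  · rw [Function.update_of_ne hj, nxt, if_neg]
    intro h
    exact hj (Fin.ext (by omega))

theorem gen_good {n : ℕ} [NeZero n] (i : ℕ) (hi : 2 ≤ i) (hin : i ≤ n) (U : Set (Fin n → ℝ))
    (hU : IsOpen U) (hUb : Bornology.IsBounded U) (F : Fin n → MvPolynomial (Fin n) ℝ)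
    (hstd : Std i F) (d0 : ℕ) (hd0 : 1 ≤ d0)
    (hdeg : ∀ j : Fin n, i ≤ (j : ℕ) → (F j).totalDegree ≤ 3 ^ (n - 1 - (j : ℕ)) * d0)
    (G : MvPolynomial (Fin n) ℝ) (hGd : G.totalDegree ≤ 3 ^ (n - i) * d0) (c : Fin n → ℝ)
    (hg : Gen i F G c) (hj : ∀ w ∈ Ehs U i F G c, eval w (jac F) ≠ 0)
    (hc : IsCompact (Ehs U i F G c)) :
    Good U (i - 1) (nxt i F G c) d0 := by
  have hE := est_nxt i (by omega) hin U F G c
  set e : Fin n := ⟨i - 1, by omega⟩ with he
  have he1 : (e : ℕ) + 1 = i := by simp [he]; omega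
  refine
    { isOpen := hU
      bdd := hUb
      std := ?_
      deg := ?_
      cpt := by rw [hE]; exact hc
      lcn := by rw [hE]; exact lc_E i (by omega) F hstd G c hg U hU hj
      str := by
        intro w hw
        rw [hE] at hw ⊢
        exact str_E i hi F hstd G c hg U hU hj w hw
      dns := ?_ }
  · intro j hj'
    rw [nxt, if_neg (by omega)]
    exact hstd j (by omega)
  · intro j hj'
    by_cases hji : (j : ℕ) + 1 = i
    · rw [nxt, if_pos hji]
      refine le_trans (totalDegree_sub _ _) (max_le ?_ ?_)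
      · have : n - 1 - (j : ℕ) = n - i := by omega
        rw [this]; exact hGd
      · refine le_trans (deg_lf i c) ?_
        exact Nat.succ_le_of_lt (Nat.mul_pos (pow_pos (by norm_num) _) hd0)
    · rw [nxt, if_neg hji]
      exact hdeg j (by omega)
  · rw [hE]
    intro w hw ε hε
    by_contra hcon
    push Not at hcon
    have hv := dns_a i (by omega) e he1 F hstd G c hg U hU hj w hw ε hε (fun y hy hd => by
      have := hcon y hy hd
      rwa [nxt_eq i e he1] at this)
    exact dns_b i e he1 F hstd (G - lf i c) U hU (Ehs U i F G c) rfl hc hj w hw hv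

end Pool.Agent.RM90
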