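import Pool.Agent.Lib.MP_df59e7_lc.Defs

set_option autoImplicit false

/-! MP_df59e7_lc, module InitA. -/

namespace Pool.Agent.RM90

open MvPolynomial

/-- Choice of `ε`.
Proof: on the compact sphere `{‖x‖ = R0}` some `eval x (P i)` is negative at every point; the
open sets `{x | ∃ i, eval x (P i) < -1/(m+1)}` increase and cover it. -/
theorem init_eps {k s : ℕ} (P : Fin s → MvPolynomial (Fin k) ℝ) (R0 : ℝ)
    (hR0 : ∀ x : Fin k → ℝ, (∀ i, 0 ≤ eval x (P i)) → ‖x‖ < R0) (δ : ℝ) (hδ : 0 < δ) :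
    ∃ ε : ℝ, 0 < ε ∧ ε < δ ∧ ∀ x : Fin k → ℝ, ‖x‖ = R0 → ∃ i, eval x (P i) < -ε := by
  have hK : IsCompact {x : Fin k → ℝ | ‖x‖ = R0} := by
    refine Metric.isCompact_of_isClosed_isBounded (isClosed_eq continuous_norm continuous_const) ?_
    refine (Metric.isBounded_closedBall (x := (0 : Fin k → ℝ)) (r := R0)).subset fun x hx => ?_
    rw [mem_closedBall_zero_iff]
    exact le_of_eq hx
  obtain ⟨m, hm⟩ := hK.elim_directed_cover
    (fun m : ℕ => {x : Fin k → ℝ | ∃ i, eval x (P i) < -(1 / ((m : ℝ) + 1))})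
    (fun m => by
      have : {x : Fin k → ℝ | ∃ i, eval x (P i) < -(1 / ((m : ℝ) + 1))} =
          ⋃ i, {x : Fin k → ℝ | eval x (P i) < -(1 / ((m : ℝ) + 1))} := by
        ext x
        simp
      rw [this]
      exact isOpen_iUnion fun i => isOpen_lt (MvPolynomial.continuous_eval _) continuous_const)
    (fun x hx => by
      have h1 : ∃ i, eval x (P i) < 0 := by
        by_contra hcon
        push Not at hcon
        have := hR0 x hcon
        exact absurd hx this.ne
      obtain ⟨i, hi⟩ := h1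
      obtain ⟨m, hm⟩ := exists_nat_one_div_lt (neg_pos.mpr hi)
      exact Set.mem_iUnion.mpr ⟨m, i, by linarith⟩)
    (directed_of_isDirected_le fun a b hab x hx => by
      obtain ⟨i, hi⟩ := hx
      refine ⟨i, hi.trans_le ?_⟩
      have : 1 / ((b : ℝ) + 1) ≤ 1 / ((a : ℝ) + 1) := by
        have : (a : ℝ) ≤ b := by exact_mod_cast hab
        gcongr
      linarith)
  refine ⟨min (1 / ((m : ℝ) + 1)) (δ / 2), by positivity, ?_, fun x hx => ?_⟩
  · exact (min_le_right _ _).trans_lt (by linarith)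
  · obtain ⟨i, hi⟩ := hm hx
    refine ⟨i, hi.trans_le ?_⟩
    have := min_le_left (1 / ((m : ℝ) + 1)) (δ / 2)
    linarith

/-- The polynomial `prod_i (P_i + ε) - z^2`, `z` the last variable. -/
noncomputable def QQ {k s : ℕ} (P : Fin s → MvPolynomial (Fin k) ℝ) (ε : ℝ) :
    MvPolynomial (Fin (k + 1)) ℝ :=
  ∏ i, (rename Fin.castSucc (P i) + C ε) - X (Fin.last k) ^ 2

theorem eval_QQ {k s : ℕ} (P : Fin s → MvPolynomial (Fin k) ℝ) (ε : ℝ)
    (y : Fin (k + 1) → ℝ) :
    eval y (QQ P ε) = ∏ i, (eval (fun j : Fin k => y j.castSucc) (P i) + ε) -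
      (y (Fin.last k)) ^ 2 := by
  unfold QQ
  rw [map_sub, map_prod, map_pow, eval_X]
  congr 1
  refine Finset.prod_congr rfl fun i _ => ?_
  rw [map_add, eval_C, eval_rename]
  rfl

theorem deg_QQ {k s : ℕ} (P : Fin s → MvPolynomial (Fin k) ℝ) (ε : ℝ) (d : ℕ)
    (hd : ∀ i, (P i).totalDegree ≤ d) : (QQ P ε).totalDegree ≤ s * d + 2 := by
  unfold QQ
  refine (totalDegree_sub _ _).trans (max_le ?_ ?_)
  · refine (totalDegree_finsetProd _ _).trans ?_
    refine (Finset.sum_le_card_nsmul _ _ d fun i _ => ?_).trans ?_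
    · refine (totalDegree_add _ _).trans (max_le ?_ ?_)
      · exact (totalDegree_rename_le _ _).trans (hd i)
      · rw [totalDegree_C]
        exact Nat.zero_le _
    · simp
  · refine (totalDegree_pow _ _).trans ?_
    rw [totalDegree_X]
    omega

/-- The open set `{y : P_i > -ε, ‖x‖ < R0, |z| < R1}`. -/
def UU {k s : ℕ} (P : Fin s → MvPolynomial (Fin k) ℝ) (ε R0 R1 : ℝ) :
    Set (Fin (k + 1) → ℝ) :=
  {y | (∀ i, -ε < eval (fun j : Fin k => y j.castSucc) (P i)) ∧
    ‖(fun j : Fin k => y j.castSucc)‖ < R0 ∧ |y (Fin.last k)| < R1}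

theorem UU_cont {k : ℕ} : Continuous fun y : Fin (k + 1) → ℝ => (fun j : Fin k => y j.castSucc) :=
  continuous_pi fun _ => continuous_apply _

theorem UU_open {k s : ℕ} (P : Fin s → MvPolynomial (Fin k) ℝ) (ε R0 R1 : ℝ) :
    IsOpen (UU P ε R0 R1) := by
  unfold UU
  rw [Set.ofPred_and, Set.ofPred_and]
  refine IsOpen.inter ?_ (IsOpen.inter ?_ ?_)
  · rw [Set.ofPred_forall]
    exact isOpen_iInter_of_finite fun i => isOpen_lt continuous_const
      ((MvPolynomial.continuous_eval _).comp UU_cont)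
  · exact isOpen_lt UU_cont.norm continuous_const
  · exact isOpen_lt (continuous_apply _).abs continuous_const

theorem UU_bdd {k s : ℕ} (P : Fin s → MvPolynomial (Fin k) ℝ) (ε R0 R1 : ℝ) :
    Bornology.IsBounded (UU P ε R0 R1) := by
  refine (Metric.isBounded_closedBall (x := (0 : Fin (k + 1) → ℝ))
    (r := max |R0| |R1|)).subset fun y hy => ?_
  rw [mem_closedBall_zero_iff, pi_norm_le_iff_of_nonneg (by positivity)]
  intro j
  refine Fin.lastCases ?_ (fun j => ?_) j
  · rw [Real.norm_eq_abs]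
    exact (hy.2.2.le.trans (le_abs_self _)).trans (le_max_right _ _)
  · have h1 := norm_le_pi_norm (fun j : Fin k => y j.castSucc) j
    exact ((h1.trans hy.2.1.le).trans (le_abs_self _)).trans (le_max_left _ _)

/-- An upper bound for the product. Proof: compactness of the ball. -/
theorem prod_bdd {k s : ℕ} (P : Fin s → MvPolynomial (Fin k) ℝ) (ε R0 : ℝ) :
    ∃ Mx : ℝ, 1 ≤ Mx ∧ ∀ x : Fin k → ℝ, ‖x‖ ≤ R0 → ∏ i, (eval x (P i) + ε) ≤ Mx := by
  have hc : Continuous fun x : Fin k → ℝ => ∏ i, (eval x (P i) + ε) :=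
    continuous_finsetProd _ fun i _ => (MvPolynomial.continuous_eval _).add continuous_const
  obtain ⟨C, hC⟩ := (isCompact_closedBall (0 : Fin k → ℝ) R0).exists_bound_of_continuousOn
    hc.continuousOn
  refine ⟨max C 1, le_max_right _ _, fun x hx => ?_⟩
  exact ((le_abs_self _).trans (hC x (mem_closedBall_zero_iff.mpr hx))).trans (le_max_left _ _)

end Pool.Agent.RM90
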