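import Pool.Agent.Lib.MP_df59e7_lc.Defs
import Pool.Agent.Lib.MP_df59e7_lc.InitA
import Pool.Agent.Lib.MP_df59e7_lc.LamF

set_option autoImplicit false

/-! MP_df59e7_lc, module InitC. -/

namespace Pool.Agent.RM90

open MvPolynomial

/-- Compactness of the initial hypersurface.
Proof: let `K = {y | -ε ≤ P_i, ‖x‖ ≤ R0, |z| ≤ R1}`, compact. The set is
`{y ∈ K | eval y (QQ P ε) = eval y (lf (k+1) c)}`, closed in `K`: on `K` with this equation, if
`P_i = -ε` for some `i` then `QQ = -z^2 ≤ 0 < lf` (`eval_QQ`), impossible; `‖x‖ = R0` is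
impossible by `hε`; if `|z| = R1` then `QQ ≤ Mx - R1^2 < 0 < lf`, impossible. (The conditions on
`j ≥ k + 1` are void.) -/
theorem init_cpt {k s : ℕ} (P : Fin s → MvPolynomial (Fin k) ℝ) (ε R0 R1 Mx : ℝ)
    (hε0 : 0 < ε) (hε : ∀ x : Fin k → ℝ, ‖x‖ = R0 → ∃ i, eval x (P i) < -ε) (hM1 : 1 ≤ Mx)
    (hMx : ∀ x : Fin k → ℝ, ‖x‖ ≤ R0 → ∏ i, (eval x (P i) + ε) ≤ Mx) (hR1 : R1 = Mx + 2)
    (c : Fin (k + 1) → ℝ)
    (hc : ∀ x : Fin (k + 1) → ℝ, (∀ j, |x j| ≤ max R0 R1) → 0 < eval x (lf (k + 1) c)) :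
    IsCompact (Ehs (UU P ε R0 R1) (k + 1) (fun j => X j) (QQ P ε) c) := by
  have hpr : Continuous fun y : Fin (k + 1) → ℝ => (fun j : Fin k => y j.castSucc) :=
    continuous_pi fun _ => continuous_apply _
  have hE : Ehs (UU P ε R0 R1) (k + 1) (fun j => X j) (QQ P ε) c =
      {y | (∀ i, -ε ≤ eval (fun j : Fin k => y j.castSucc) (P i)) ∧
        ‖(fun j : Fin k => y j.castSucc)‖ ≤ R0 ∧ |y (Fin.last k)| ≤ R1 ∧
        eval y (QQ P ε - lf (k + 1) c) = 0} := by
    ext y
    constructor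
    · rintro ⟨⟨h1, h2, h3⟩, _, h4⟩
      exact ⟨fun i => (h1 i).le, h2.le, h3.le, h4⟩
    · rintro ⟨h1, h2, h3, h4⟩
      have hnn : 0 ≤ R0 := (norm_nonneg _).trans h2
      have hlf : 0 < eval y (lf (k + 1) c) := by
        refine hc y fun j => ?_
        refine Fin.lastCases ?_ (fun j => ?_) j
        · exact h3.trans (le_max_right _ _)
        · have h5 := norm_le_pi_norm (fun j : Fin k => y j.castSucc) j
          exact (h5.trans h2).trans (le_max_left _ _)
      have hQ : eval y (QQ P ε) = eval y (lf (k + 1) c) := by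
        rw [map_sub] at h4
        linarith
      rw [eval_QQ] at hQ
      have hb := hMx _ h2
      refine ⟨⟨fun i => ?_, ?_, ?_⟩, fun j hj => absurd j.2 (by omega), h4⟩
      · refine lt_of_le_of_ne (h1 i) fun h6 => ?_
        have h7 : ∏ i, (eval (fun j : Fin k => y j.castSucc) (P i) + ε) = 0 :=
          Finset.prod_eq_zero (Finset.mem_univ i) (by rw [← h6]; ring)
        rw [h7] at hQ
        nlinarith [sq_nonneg (y (Fin.last k))]
      · refine lt_of_le_of_ne h2 fun h6 => ?_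
        obtain ⟨i, hi⟩ := hε _ h6
        exact absurd (h1 i) (not_le.mpr hi)
      · refine lt_of_le_of_ne h3 fun h6 => ?_
        have h7 : (y (Fin.last k)) ^ 2 = R1 ^ 2 := by rw [← h6, sq_abs]
        rw [h7, hR1] at hQ
        nlinarith
  rw [hE]
  refine Metric.isCompact_of_isClosed_isBounded ?_ ?_
  · rw [Set.ofPred_and, Set.ofPred_and, Set.ofPred_and]
    refine IsClosed.inter ?_ (IsClosed.inter ?_ (IsClosed.inter ?_ ?_))
    · rw [Set.ofPred_forall]
      exact isClosed_iInter fun i => isClosed_le continuous_const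
        ((MvPolynomial.continuous_eval _).comp hpr)
    · exact isClosed_le hpr.norm continuous_const
    · exact isClosed_le (continuous_apply _).abs continuous_const
    · exact isClosed_eq (MvPolynomial.continuous_eval _) continuous_const
  · refine (Metric.isBounded_closedBall (x := (0 : Fin (k + 1) → ℝ))
      (r := max |R0| |R1|)).subset fun y hy => ?_
    rw [mem_closedBall_zero_iff, pi_norm_le_iff_of_nonneg (by positivity)]
    intro j
    refine Fin.lastCases ?_ (fun j => ?_) j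
    · rw [Real.norm_eq_abs]
      exact (hy.2.2.1.trans (le_abs_self _)).trans (le_max_right _ _)
    · have h1 := norm_le_pi_norm (fun j : Fin k => y j.castSucc) j
      exact ((h1.trans hy.2.1).trans (le_abs_self _)).trans (le_max_left _ _)

/-- `eval_lf` for the last coordinate: `lf (x, z) = lf (x, 0) + z c_k`. -/
theorem init_lf {k : ℕ} (hk : 1 ≤ k) (c : Fin (k + 1) → ℝ) (x : Fin k → ℝ) (z : ℝ) :
    eval (Fin.snoc (α := fun _ => ℝ) x z) (lf (k + 1) c) =
      eval (Fin.snoc (α := fun _ => ℝ) x 0) (lf (k + 1) c) + z * c (Fin.last k) := by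
  rw [eval_lf, eval_lf, Fin.sum_univ_castSucc, Fin.sum_univ_castSucc]
  simp only [Fin.snoc_castSucc, Fin.snoc_last]
  rw [if_pos ⟨by simpa using hk, by simp⟩, if_pos ⟨by simpa using hk, by simp⟩]
  ring

/-- The lift.
Proof: `L x = (x, z)` with `z = -c_k/2 + sqrt (c_k^2/4 + w)`,
`w = prod (P_i x + ε) - eval (x, 0) (lf (k+1) c)`; for `x ∈ S` all factors are at least `ε`, so
the product is at least `ε^s` and `w > 0` by `hc2`. `z^2 + c_k z = w` gives
`QQ (x, z) = lf (x, z)` (`eval_lf`; the last index is not `0` as `1 ≤ k`). `z ≥ 0` and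
`z^2 ≤ Mx + z` give `z ≤ Mx + 1 < R1`. -/
theorem init_lift {k s : ℕ} (hk : 1 ≤ k) (P : Fin s → MvPolynomial (Fin k) ℝ)
    (ε R0 R1 Mx : ℝ) (hε0 : 0 < ε)
    (hR0 : ∀ x : Fin k → ℝ, (∀ i, 0 ≤ eval x (P i)) → ‖x‖ < R0) (hM1 : 1 ≤ Mx)
    (hMx : ∀ x : Fin k → ℝ, ‖x‖ ≤ R0 → ∏ i, (eval x (P i) + ε) ≤ Mx) (hR1 : R1 = Mx + 2)
    (c : Fin (k + 1) → ℝ) (hc1 : ∀ j, |c j| < 1)
    (hc : ∀ x : Fin (k + 1) → ℝ, (∀ j, |x j| ≤ max R0 R1) →
      0 < eval x (lf (k + 1) c) ∧ eval x (lf (k + 1) c) < ε ^ s) :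
    ∃ L : (Fin k → ℝ) → (Fin (k + 1) → ℝ), ContinuousOn L {x | ∀ i, 0 ≤ eval x (P i)} ∧
      ∀ x, (∀ i, 0 ≤ eval x (P i)) →
        L x ∈ Ehs (UU P ε R0 R1) (k + 1) (fun j => X j) (QQ P ε) c ∧
        (fun j : Fin k => L x j.castSucc) = x := by
  set w : (Fin k → ℝ) → ℝ := fun x => ∏ i, (eval x (P i) + ε) -
    eval (Fin.snoc (α := fun _ => ℝ) x 0) (lf (k + 1) c) with hw
  set z : (Fin k → ℝ) → ℝ := fun x => -c (Fin.last k) / 2 +
    Real.sqrt (c (Fin.last k) ^ 2 / 4 + w x) with hz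
  have hsn : ∀ g : (Fin k → ℝ) → ℝ, Continuous g →
      Continuous fun x : Fin k → ℝ => (Fin.snoc (α := fun _ => ℝ) x (g x) : Fin (k + 1) → ℝ) := by
    intro g hg
    refine continuous_pi fun j => ?_
    refine Fin.lastCases ?_ (fun j => ?_) j
    · simpa using hg
    · simpa using continuous_apply j
  have hwc : Continuous w := by
    refine Continuous.sub ?_ ?_
    · exact continuous_finsetProd _ fun i _ =>
        (MvPolynomial.continuous_eval _).add continuous_const
    · exact (MvPolynomial.continuous_eval _).comp (hsn (fun _ => 0) continuous_const)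
  have hzc : Continuous z := by
    refine continuous_const.add (Real.continuous_sqrt.comp ?_)
    exact continuous_const.add hwc
  refine ⟨fun x => Fin.snoc (α := fun _ => ℝ) x (z x), (hsn z hzc).continuousOn, fun x hx => ?_⟩
  have hxR := hR0 x hx
  have hnn : 0 ≤ R0 := (norm_nonneg _).trans hxR.le
  have hR1n : 0 ≤ R1 := by rw [hR1]; linarith
  have hl0 := hc (Fin.snoc (α := fun _ => ℝ) x 0) (fun j => by
    refine Fin.lastCases ?_ (fun j => ?_) j
    · rw [Fin.snoc_last, abs_zero]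
      exact hnn.trans (le_max_left _ _)
    · rw [Fin.snoc_castSucc]
      exact ((norm_le_pi_norm x j).trans hxR.le).trans (le_max_left _ _))
  have hprod : ε ^ s ≤ ∏ i, (eval x (P i) + ε) := by
    calc ε ^ s = ∏ _i : Fin s, ε := by simp
      _ ≤ _ := Finset.prod_le_prod (fun _ _ => hε0.le) fun i _ => by linarith [hx i]
  have hw0 : 0 < w x := by
    rw [hw]
    dsimp only
    linarith [hl0.2]
  have hwM : w x ≤ Mx := by
    have := hMx x hxR.le
    rw [hw]
    dsimp only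
    linarith [hl0.1]
  have hck := abs_lt.mp (hc1 (Fin.last k))
  have hsq : Real.sqrt (c (Fin.last k) ^ 2 / 4 + w x) ^ 2 = c (Fin.last k) ^ 2 / 4 + w x :=
    Real.sq_sqrt (by positivity)
  have hs0 := Real.sqrt_nonneg (c (Fin.last k) ^ 2 / 4 + w x)
  have hzeq : z x ^ 2 + c (Fin.last k) * z x = w x := by
    rw [hz]
    dsimp only
    linear_combination hsq
  have hz0 : 0 ≤ z x := by
    have h1 : |c (Fin.last k) / 2| ≤ Real.sqrt (c (Fin.last k) ^ 2 / 4 + w x) := by
      refine Real.le_sqrt_of_sq_le ?_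
      rw [sq_abs]
      linarith [hw0, (by ring : (c (Fin.last k) / 2) ^ 2 = c (Fin.last k) ^ 2 / 4)]
    have h2 := (le_abs_self (c (Fin.last k) / 2)).trans h1
    rw [hz]
    dsimp only
    linarith
  have hzM : z x < R1 := by
    rw [hR1]
    by_contra hcon
    push Not at hcon
    nlinarith
  have hsx : (fun j : Fin k => (Fin.snoc (α := fun _ => ℝ) x (z x) : Fin (k + 1) → ℝ)
      j.castSucc) = x := by
    funext j
    rw [Fin.snoc_castSucc]
  refine ⟨⟨⟨?_, ?_, ?_⟩, fun j hj => absurd j.2 (by omega), ?_⟩, hsx⟩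
  · intro i
    rw [hsx]
    linarith [hx i]
  · rw [hsx]
    exact hxR
  · beta_reduce
    rw [Fin.snoc_last, abs_of_nonneg hz0]
    exact hzM
  · beta_reduce
    rw [map_sub, eval_QQ, hsx, Fin.snoc_last, init_lf hk]
    have h3 : w x = ∏ i, (eval x (P i) + ε) -
      eval (Fin.snoc (α := fun _ => ℝ) x 0) (lf (k + 1) c) := rfl
    linear_combination h3 - hzeq

end Pool.Agent.RM90
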