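import Pool.Agent.Lib.MP_df59e7_lc.Step
import Pool.Agent.Lib.MP_df59e7_lc.InitC

set_option autoImplicit false

/-! MP_df59e7_lc, assembly: the initial stage. -/

namespace Pool.Agent.RM90

open MvPolynomial

theorem jac_X {n : ℕ} (w : Fin n → ℝ) :
    eval w (jac (fun j : Fin n => (X j : MvPolynomial (Fin n) ℝ))) = 1 := by
  have h : (Matrix.of fun j l : Fin n => pderiv l (X j : MvPolynomial (Fin n) ℝ)) = 1 := by
    ext j l : 2
    simp only [Matrix.of_apply, pderiv_X, Matrix.one_apply, Pi.single_apply]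
  rw [jac, h, Matrix.det_one, map_one]

theorem init_stage {k s : ℕ} (hk : 1 ≤ k) (d : ℕ) (P : Fin s → MvPolynomial (Fin k) ℝ)
    (hdeg : ∀ i, (P i).totalDegree ≤ d) (R0 : ℝ)
    (hR0 : ∀ x : Fin k → ℝ, (∀ i, 0 ≤ eval x (P i)) → ‖x‖ < R0) (δ : ℝ) (hδ : 0 < δ) :
    ∃ (U : Set (Fin (k + 1) → ℝ)) (F : Fin (k + 1) → MvPolynomial (Fin (k + 1)) ℝ),
      Good U k F (s * d + 2) ∧
      (∀ y ∈ Est U k F, (∀ i, -δ ≤ eval (fun j : Fin k => y j.castSucc) (P i)) ∧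
        ‖(fun j : Fin k => y j.castSucc)‖ ≤ R0) ∧
      ∃ L : (Fin k → ℝ) → (Fin (k + 1) → ℝ), ContinuousOn L {x | ∀ i, 0 ≤ eval x (P i)} ∧
        ∀ x, (∀ i, 0 ≤ eval x (P i)) → L x ∈ Est U k F ∧
          (fun j : Fin k => L x j.castSucc) = x := by
  obtain ⟨ε, hε0, hεδ, hε⟩ := init_eps P R0 hR0 δ hδ
  obtain ⟨Mx, hM1, hMx⟩ := prod_bdd P ε R0
  set R1 : ℝ := Mx + 2 with hR1
  set F0 : Fin (k + 1) → MvPolynomial (Fin (k + 1)) ℝ := fun j => X j with hF0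
  obtain ⟨c, hc1, hc2, hc3⟩ := exists_par (k + 1) _ (sard_gen (k + 1) F0 (QQ P ε)) (max R0 R1)
    (min 1 (ε ^ s)) (lt_min one_pos (pow_pos hε0 s))
  have hcpt := init_cpt P ε R0 R1 Mx hε0 hε hM1 hMx hR1 c (fun x hx => (hc3 x hx).1)
  obtain ⟨L, hL1, hL2⟩ := init_lift hk P ε R0 R1 Mx hε0 hR0 hM1 hMx hR1 c
    (fun j => lt_of_lt_of_le (hc2 j) (min_le_left _ _))
    (fun x hx => ⟨(hc3 x hx).1, lt_of_lt_of_le (hc3 x hx).2 (min_le_right _ _)⟩)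
  have hE := est_nxt (k + 1) (by omega) le_rfl (UU P ε R0 R1) F0 (QQ P ε) c
  rw [Nat.add_sub_cancel] at hE
  have hgood := gen_good (k + 1) (by omega) le_rfl (UU P ε R0 R1) (UU_open P ε R0 R1)
    (UU_bdd P ε R0 R1) F0 (fun j _ => rfl) (s * d + 2) (by omega)
    (fun j hj => absurd j.2 (by omega)) (QQ P ε)
    (by rw [Nat.sub_self, pow_zero, one_mul]; exact deg_QQ P ε d hdeg) c hc1
    (fun w _ => by rw [jac_X]; exact one_ne_zero) hcpt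
  rw [Nat.add_sub_cancel] at hgood
  refine ⟨UU P ε R0 R1, nxt (k + 1) F0 (QQ P ε) c, hgood, ?_, L, hL1, ?_⟩
  · intro y hy
    rw [hE] at hy
    refine ⟨fun i => ?_, hy.1.2.1.le⟩
    have := hy.1.1 i
    linarith
  · intro x hx
    rw [hE]
    exact hL2 x hx

end Pool.Agent.RM90
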