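import Pool.Agent.Lib.MP_df59e7_lc.Defs
import Pool.Agent.Lib.MP_df59e7_lc.Inv
import Pool.Agent.Lib.MP_df59e7_lc.Upd
import Pool.Agent.Lib.MP_df59e7_lc.Reg

set_option autoImplicit false

/-! MP_df59e7_lc, module LcE. -/

namespace Pool.Agent.RM90

open MvPolynomial

/-- The next set is locally connected.
Proof: let `w` be a point of it and `ε > 0`. By `reg` choose `a < i` with `lam_a ≠ v_a`; by
`jac_upd` the Jacobian of `F' = Function.update F a (G - lf i c)` does not vanish at `w`; take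
`ρ0, s, V` from `loc_inv` for `F'` and the open set `U ∩ ball w ε`. Then `Ehs ∩ V` is
`s '' (ball (evm F' w) ρ0 ∩ {y | y_a = 0, y_j = 0 for j ≥ i})` (note `a < i`), a continuous image
of a convex set, so preconnected: this is `N`; choose `ρ` with `ball w ρ ⊆ V`. -/
theorem lc_E {n : ℕ} [NeZero n] (i : ℕ) (hi : 1 ≤ i) (F : Fin n → MvPolynomial (Fin n) ℝ)
    (hstd : Std i F) (G : MvPolynomial (Fin n) ℝ) (c : Fin n → ℝ) (hg : Gen i F G c)
    (U : Set (Fin n → ℝ)) (hU : IsOpen U) (hj : ∀ w ∈ Ehs U i F G c, eval w (jac F) ≠ 0) :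
    LCn (Ehs U i F G c) := by
  intro w hw ε hε
  obtain ⟨hwU, hwF, hwh⟩ := hw
  have hjw := hj w ⟨hwU, hwF, hwh⟩
  obtain ⟨a, hai, hla⟩ := reg i hi F hstd G c hg w hjw hwF hwh
  set F' := Function.update F a (G - lf i c) with hF'
  have hj' : eval w (jac F') ≠ 0 := by
    rw [hF', jac_upd i F hstd G c w hjw a]
    exact mul_ne_zero (sub_ne_zero.2 hla) hjw
  obtain ⟨ρ0, hρ0, s, V, hVo, hwV, hVU, -, hV2, hV3, hsan⟩ := loc_inv F' (U ∩ Metric.ball w ε)
    (hU.inter Metric.isOpen_ball) w ⟨hwU, Metric.mem_ball_self hε⟩ hj'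
  have hFa : F' a = G - lf i c := by rw [hF', Function.update_self]
  have hFj : ∀ j : Fin n, i ≤ (j : ℕ) → F' j = F j := by
    intro j hji
    rw [hF', Function.update_of_ne]
    rintro rfl
    omega
  have hconv : Convex ℝ (Metric.ball (evm F' w) ρ0 ∩
      {y | y a = 0 ∧ ∀ j : Fin n, i ≤ (j : ℕ) → y j = 0}) := by
    refine (convex_ball _ _).inter ?_
    intro x hx y hy p q _ _ _
    refine ⟨?_, fun j hj => ?_⟩
    · simp [hx.1, hy.1]
    · simp [hx.2 j hj, hy.2 j hj]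
  obtain ⟨ρ, hρ, hρV⟩ := Metric.isOpen_iff.1 hVo w hwV
  refine ⟨ρ, hρ, s '' (Metric.ball (evm F' w) ρ0 ∩
      {y | y a = 0 ∧ ∀ j : Fin n, i ≤ (j : ℕ) → y j = 0}), ?_, ?_, ?_⟩
  · exact hconv.isPreconnected.image s (hsan.continuousOn.mono Set.inter_subset_left)
  · rintro _ ⟨y, ⟨hyb, hya, hyj⟩, rfl⟩
    obtain ⟨h1, h2⟩ := hV3 y hyb
    have h3 := hVU h1
    refine ⟨⟨h3.1, fun j hji => ?_, ?_⟩, h3.2⟩
    · have h4 := congrFun h2 j
      unfold evm at h4
      rw [hFj j hji, hyj j hji] at h4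
      exact h4
    · have h4 := congrFun h2 a
      unfold evm at h4
      rw [hFa, hya] at h4
      exact h4
  · rintro x ⟨⟨hxU, hxF, hxh⟩, hxb⟩
    have hxV := hρV hxb
    obtain ⟨h1, h2⟩ := hV2 x hxV
    refine ⟨evm F' x, ⟨h1, ?_, fun j hji => ?_⟩, h2⟩
    · unfold evm
      rw [hFa]
      exact hxh
    · unfold evm
      rw [hFj j hji]
      exact hxF j hji

end Pool.Agent.RM90
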