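import Pool.Agent.Lib.MP_df59e7_lc.Rec
import Pool.Agent.Lib.MP_df59e7_lc.InitS
import Pool.Agent.Lib.MP_df59e7_lc.AlgLim
import Pool.Agent.Lib.MP_df59e7_lc.AlgPr

set_option autoImplicit false

/-! MP_df59e7_lc, assembly: the limit. -/

namespace Pool.Agent.RM90

open MvPolynomial Filter

/-- Projection to the first `k` coordinates. -/
def prl {k : ℕ} (y : Fin (k + 1) → ℝ) : Fin k → ℝ := fun j => y j.castSucc

theorem dist_prl {k : ℕ} (y z : Fin (k + 1) → ℝ) : dist (prl y) (prl z) ≤ dist y z := by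
  rw [dist_pi_le_iff dist_nonneg]
  exact fun j => dist_le_pi_dist y z j.castSucc

theorem continuous_prl {k : ℕ} : Continuous (prl (k := k)) :=
  continuous_pi fun j => continuous_apply j.castSucc

theorem chained_prl {k : ℕ} {θ : ℝ} {S : Set (Fin (k + 1) → ℝ)} (hS : Chained θ S) :
    Chained θ (prl '' S) := by
  intro S1 S2 h h1 h2
  have hmem : ∀ T : Set (Fin k → ℝ), T ⊆ prl '' S → T.Nonempty →
      (S ∩ prl ⁻¹' T).Nonempty := by
    rintro T hT ⟨y, hy⟩
    obtain ⟨x, hx, rfl⟩ := hT hy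
    exact ⟨x, hx, hy⟩
  obtain ⟨a, ha, b, hb, hab⟩ := hS (S ∩ prl ⁻¹' S1) (S ∩ prl ⁻¹' S2) (by
    rw [← Set.inter_union_distrib_left, ← Set.preimage_union, ← h]
    exact (Set.inter_eq_left.mpr (Set.subset_preimage_image _ _)).symm)
    (hmem S1 (h ▸ Set.subset_union_left) h1) (hmem S2 (h ▸ Set.subset_union_right) h2)
  exact ⟨prl a, ha.2, prl b, hb.2, (dist_prl a b).trans hab⟩

theorem tendsto_inv : Tendsto (fun p : ℕ => 1 / ((p : ℝ) + 1))
    (Filter.hyperfilter ℕ : Filter ℕ) (nhds 0) :=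
  (tendsto_one_div_add_atTop_nhds_zero_nat (𝕜 := ℝ)).mono_left Nat.hyperfilter_le_atTop

theorem lim_set {k s : ℕ} [NeZero k] (d : ℕ) (P : Fin s → MvPolynomial (Fin k) ℝ)
    (hdeg : ∀ i, (P i).totalDegree ≤ d)
    (hb : Bornology.IsBounded {x : Fin k → ℝ | ∀ i, 0 ≤ eval x (P i)})
    (A : Finset (Fin k → ℝ)) (hA : ∀ a ∈ A, ∀ i, 0 ≤ eval a (P i)) :
    ∃ M0 : Set (Fin k → ℝ), M0 ⊆ {x | ∀ i, 0 ≤ eval x (P i)} ∧
      Alg (4 * BB (k + 1) (s * d + 2) * (2 ^ k - 1) *
        (A.card + 8 * (BB (k + 1) (s * d + 2)) ^ 2)) M0 ∧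
      ↑A ⊆ M0 ∧
      (∀ x ∈ {x : Fin k → ℝ | ∀ i, 0 ≤ eval x (P i)}, IsConnected (M0 ∩
        connectedComponentIn {x | ∀ i, 0 ≤ eval x (P i)} x)) ∧
      (∀ x ∈ {x : Fin k → ℝ | ∀ i, 0 ≤ eval x (P i)}, (M0 ∩
        connectedComponentIn {y | y ∈ {x : Fin k → ℝ | ∀ i, 0 ≤ eval x (P i)} ∧
          y 0 = x 0} x).Nonempty) := by
  classical
  have hk : 1 ≤ k := Nat.one_le_iff_ne_zero.mpr (NeZero.ne k)
  set S : Set (Fin k → ℝ) := {x | ∀ i, 0 ≤ eval x (P i)} with hS
  set N : ℕ := 4 * BB (k + 1) (s * d + 2) * (2 ^ k - 1) *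
        (A.card + 8 * (BB (k + 1) (s * d + 2)) ^ 2) with hN
  obtain ⟨R00, hR00⟩ := hb.exists_norm_le
  set R0 : ℝ := R00 + 1 with hR0d
  have hR0 : ∀ x : Fin k → ℝ, (∀ i, 0 ≤ eval x (P i)) → ‖x‖ < R0 := fun x hx => by
    have := hR00 x hx; rw [hR0d]; linarith
  have hpos : ∀ p : ℕ, (0 : ℝ) < 1 / ((p : ℝ) + 1) := fun p => by positivity
  have hst := fun p : ℕ => init_stage hk d P hdeg R0 hR0 (1 / ((p : ℝ) + 1)) (hpos p)
  choose U F hG hE1 L hLc hL using hst
  have hrec : ∀ p : ℕ, ∃ R, RMap (1 / ((p : ℝ) + 1)) (Est (U p) k (F p)) (A.image (L p)) N R := by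
    intro p
    obtain ⟨R, hR⟩ := rec_main (s * d + 2) (by omega) k hk (by omega) (U p) (F p) (hG p)
      (1 / ((p : ℝ) + 1)) (hpos p) (A.image (L p)) (by
        intro y hy
        rw [Finset.coe_image] at hy
        obtain ⟨a, ha, rfl⟩ := hy
        exact (hL p a (hA a ha)).1)
    exact ⟨R, rmap_mono (Nat.mul_le_mul_left _
      (Nat.add_le_add_right Finset.card_image_le _)) hR⟩
  choose R hR using hrec
  set E : ℕ → Set (Fin (k + 1) → ℝ) := fun p => Est (U p) k (F p) with hE
  have hLS : ∀ p, ∀ x ∈ S, L p x ∈ E p ∧ prl (L p x) = x := fun p x hx => hL p x hx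
  have hK : IsCompact (Metric.closedBall (0 : Fin k → ℝ) R0) := isCompact_closedBall 0 R0
  have hEK : ∀ p, prl '' E p ⊆ Metric.closedBall (0 : Fin k → ℝ) R0 := by
    rintro p _ ⟨y, hy, rfl⟩
    rw [mem_closedBall_zero_iff]
    exact (hE1 p y hy).2
  -- the limit of the projections is in S
  have hES : ulim (fun p => prl '' E p) ⊆ S := by
    intro x hx i
    obtain ⟨a, ha, hax⟩ := exists_sel _ x hx
    have h1 : Tendsto (fun p => eval (a p) (P i)) (Filter.hyperfilter ℕ : Filter ℕ)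
        (nhds (eval x (P i))) := ((continuous_evalp (P i)).tendsto x).comp hax
    have h2 : Tendsto (fun p : ℕ => -(1 / ((p : ℝ) + 1))) (Filter.hyperfilter ℕ : Filter ℕ)
        (nhds 0) := by simpa using tendsto_inv.neg
    refine le_of_tendsto_of_tendsto h2 h1 ?_
    filter_upwards [ha] with p hp
    obtain ⟨y, hy, hya⟩ := hp
    rw [← hya]
    exact (hE1 p y hy).1 i
  set C : ℕ → (Fin k → ℝ) → Set (Fin (k + 1) → ℝ) :=
    fun p x => connectedComponentIn (E p) (L p x) with hC
  set Mx : (Fin k → ℝ) → Set (Fin k → ℝ) := fun x => ulim (fun p => prl '' (R p ∩ C p x))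
    with hMx
  have hCE : ∀ p x, C p x ⊆ E p := fun p x => connectedComponentIn_subset _ _
  have hCcomp : ∀ x ∈ S, ulim (fun p => prl '' C p x) ⊆ connectedComponentIn S x := by
    intro x hx
    have hpre : IsPreconnected (ulim (fun p => prl '' C p x)) := by
      refine ulim_preconnected _ hK _ (fun p => 1 / ((p : ℝ) + 1)) tendsto_inv
        (Eventually.of_forall fun p => ⟨(Set.image_mono (hCE p x)).trans (hEK p), ?_⟩)
      exact chained_prl (chained_of_preconnected _ isPreconnected_connectedComponentIn _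
        (hpos p))
    refine hpre.subset_connectedComponentIn ?_ ?_
    · refine mem_ulim_of_tendsto _ (fun _ => x) x (Eventually.of_forall fun p => ?_)
        tendsto_const_nhds
      exact ⟨L p x, mem_connectedComponentIn (hLS p x hx).1, (hLS p x hx).2⟩
    · exact (ulim_mono _ _ (Eventually.of_forall fun p => Set.image_mono (hCE p x))).trans hES
  have hMcomp : ∀ x ∈ S, Mx x ⊆ connectedComponentIn S x := fun x hx =>
    (ulim_mono _ _ (Eventually.of_forall fun p =>
      Set.image_mono Set.inter_subset_right)).trans (hCcomp x hx)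
  have hMeq : ∀ x ∈ S, ∀ x' ∈ connectedComponentIn S x, Mx x' = Mx x := by
    intro x hx x' hx'
    have : ∀ p : ℕ, C p x' = C p x := by
      intro p
      have h1 : L p '' (connectedComponentIn S x) ⊆ C p x := by
        refine (isPreconnected_connectedComponentIn.image _ ((hLc p).mono
          (connectedComponentIn_subset _ _))).subset_connectedComponentIn
          ⟨x, mem_connectedComponentIn hx, rfl⟩ ?_
        rintro _ ⟨z, hz, rfl⟩
        exact (hLS p z (connectedComponentIn_subset _ _ hz)).1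
      exact (connectedComponentIn_eq (h1 ⟨x', hx', rfl⟩)).symm
    simp only [hMx, this]
  have hMpre : ∀ x ∈ S, IsPreconnected (Mx x) := by
    intro x hx
    refine ulim_preconnected _ hK _ (fun p => 1 / ((p : ℝ) + 1)) tendsto_inv
      (Eventually.of_forall fun p => ⟨(Set.image_mono
        (Set.inter_subset_right.trans (hCE p x))).trans (hEK p), ?_⟩)
    exact chained_prl ((hR p).chn _ (hLS p x hx).1)
  have hMne : ∀ x ∈ S, (Mx x).Nonempty := by
    intro x hx
    have h1 : ∀ p : ℕ, ∃ r, r ∈ R p ∩ C p x := fun p => (hR p).ne _ (hLS p x hx).1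
    choose r hr using h1
    obtain ⟨y, _, hy⟩ := exists_lim _ hK (fun p => prl (r p)) (Eventually.of_forall fun p =>
      hEK p ⟨r p, hCE p x (hr p).2, rfl⟩)
    exact ⟨y, mem_ulim_of_tendsto _ _ y (Eventually.of_forall fun p => ⟨r p, hr p, rfl⟩) hy⟩
  set M0 : Set (Fin k → ℝ) := {y | ∃ x ∈ S, y ∈ Mx x} with hM0
  have hM0comp : ∀ x ∈ S, M0 ∩ connectedComponentIn S x = Mx x := by
    intro x hx
    ext y
    constructor
    · rintro ⟨⟨x', hx', hy⟩, hyx⟩
      have h1 := hMcomp x' hx' hy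
      have h2 : connectedComponentIn S x' = connectedComponentIn S x := by
        rw [connectedComponentIn_eq h1, connectedComponentIn_eq hyx]
      have h3 : x' ∈ connectedComponentIn S x := h2 ▸ mem_connectedComponentIn hx'
      rw [← hMeq x hx x' h3]; exact hy
    · intro hy
      exact ⟨⟨x, hx, hy⟩, hMcomp x hx hy⟩
  refine ⟨M0, ?_, ?_, ?_, ?_, ?_⟩
  · rintro y ⟨x, hx, hy⟩
    exact connectedComponentIn_subset _ _ (hMcomp x hx hy)
  · refine alg_mono le_rfl (?_ : M0 ⊆ ulim (fun p => prl '' R p))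
      (alg_ulim N _ fun p => alg_pr N (R p) (hR p).alg)
    rintro y ⟨x, hx, hy⟩
    exact ulim_mono _ _ (Eventually.of_forall fun p => Set.image_mono Set.inter_subset_left) hy
  · intro a ha
    have haS : a ∈ S := hA a ha
    refine ⟨a, haS, ?_⟩
    have h1 : ∀ p : ℕ, ∃ r ∈ R p ∩ connectedComponentIn (E p) (L p a),
        dist (L p a) r ≤ 1 / ((p : ℝ) + 1) := fun p =>
      (hR p).pts (L p a) (Finset.mem_image_of_mem _ ha)
    choose r hr hd using h1
    refine mem_ulim_of_tendsto _ (fun p => prl (r p)) a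
      (Eventually.of_forall fun p => ⟨r p, hr p, rfl⟩) ?_
    rw [tendsto_iff_dist_tendsto_zero]
    refine squeeze_zero (fun _ => dist_nonneg) (fun p => ?_) tendsto_inv
    have h2 := dist_prl (r p) (L p a)
    rw [(hLS p a haS).2] at h2
    exact h2.trans (by rw [dist_comm]; exact hd p)
  · intro x hx
    rw [hM0comp x hx]
    exact ⟨hMne x hx, hMpre x hx⟩
  · intro x hx
    have h1 := fun p => (hR p).fib (L p x) (hLS p x hx).1
    choose T hT1 hT2 hT3 hT4 hT5 using h1
    have hTK : ∀ p, prl '' T p ⊆ Metric.closedBall (0 : Fin k → ℝ) R0 := fun p =>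
      (Set.image_mono ((hT1 p).trans (hCE p x))).trans (hEK p)
    have h0 : ∀ y : Fin (k + 1) → ℝ, prl y 0 = y 0 := by
      intro y
      unfold prl
      rw [Fin.castSucc_zero']
    have hpre : IsPreconnected (ulim (fun p => prl '' T p)) :=
      ulim_preconnected _ hK _ (fun p => 1 / ((p : ℝ) + 1)) tendsto_inv
        (Eventually.of_forall fun p => ⟨hTK p, chained_prl (hT2 p)⟩)
    have hsub : ulim (fun p => prl '' T p) ⊆ {y | y ∈ S ∧ y 0 = x 0} := by
      intro y hy
      refine ⟨hES (ulim_mono _ _ (Eventually.of_forall fun p =>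
        Set.image_mono ((hT1 p).trans (hCE p x))) hy), ?_⟩
      obtain ⟨a, ha, hay⟩ := exists_sel _ y hy
      have hay0 : Tendsto (fun p => a p 0) (Filter.hyperfilter ℕ : Filter ℕ) (nhds (y 0)) :=
        ((continuous_apply 0).tendsto y).comp hay
      have hx0 : Tendsto (fun p => a p 0) (Filter.hyperfilter ℕ : Filter ℕ) (nhds (x 0)) := by
        rw [tendsto_iff_dist_tendsto_zero]
        refine squeeze_zero' (Eventually.of_forall fun _ => dist_nonneg) ?_ tendsto_inv
        filter_upwards [ha] with p hp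
        obtain ⟨z, hz, hza⟩ := hp
        have h2 := hT5 p z hz
        rw [← hza, h0, Real.dist_eq]
        have h3 : (L p x) 0 = x 0 := by
          rw [← h0 (L p x), (hLS p x hx).2]
        rw [← h3]; exact h2
      exact tendsto_nhds_unique hay0 hx0
    have hxm : x ∈ ulim (fun p => prl '' T p) :=
      mem_ulim_of_tendsto _ (fun _ => x) x (Eventually.of_forall fun p =>
        ⟨L p x, hT3 p, (hLS p x hx).2⟩) tendsto_const_nhds
    choose r hr using hT4
    obtain ⟨y, _, hy⟩ := exists_lim _ hK (fun p => prl (r p)) (Eventually.of_forall fun p =>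
      hTK p ⟨r p, (hr p).1, rfl⟩)
    refine ⟨y, ⟨x, hx, ?_⟩, ?_⟩
    · exact mem_ulim_of_tendsto _ _ y (Eventually.of_forall fun p =>
        ⟨r p, ⟨(hr p).2, hT1 p (hr p).1⟩, rfl⟩) hy
    · exact hpre.subset_connectedComponentIn hxm hsub
        (mem_ulim_of_tendsto _ _ y (Eventually.of_forall fun p => ⟨r p, (hr p).1, rfl⟩) hy)

end Pool.Agent.RM90
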