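import Pool.Agent.Lib.MP_df59e7_lc.Defs
import Pool.Agent.Lib.MP_df59e7_lc.Forest
import Pool.Agent.Lib.MP_df59e7_lc.UlimC
import Pool.Agent.Lib.MP_df59e7_lc.AlgU
import Pool.Agent.Lib.MP_df59e7_lc.Comp

set_option autoImplicit false

/-! MP_df59e7_lc, module RecS. -/

namespace Pool.Agent.RM90

open MvPolynomial

/-- One step of the recursion.
Proof: let `M'` be the finite set of local minima of `x_0` on `E'` (at most `B`), every component
of `E'` contains one of them (`comp_min`). Pieces: `ι = M' ⊕ X1` (subtypes of finsets), with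
`K (inl m) = connectedComponentIn E' m`, `K (inr y) = Γ y`. Let `r i j` say: some `x ∈ E` has
`K i ⊆ connectedComponentIn E x`, `K j ⊆ connectedComponentIn E x`, and there are `u ∈ K i`,
`v ∈ K j` with `dist u v ≤ θ/3`. Take `T` from `forest`, `|T| ≤ B + |X1|`, choose `u_e, v_e` for
`e ∈ T`; `A'` = all `u_e` with `e.1 = inl _` and all `v_e` with `e.2 = inl _`: a subset of `E'` with
`|A'| ≤ 2 (B + |X1|)`. Take `R'` from `hrec` and `R = R' ∪ ⋃ y ∈ X1, Γ y`.
`alg`: `alg_union`, `alg_biUnion`. `ne`: by `hZ` there is `y ∈ E' ∩ connectedComponentIn E x`, and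
`R' ∩ connectedComponentIn E' y` is nonempty and contained in `connectedComponentIn E x`.
`pts`: `hA` and `y ∈ Γ y`.
`fib`: `hZ` gives `T'`, `z`, `y`; `RMap.fib` for `y ∈ E'` gives `S'`; take `S = T' ∪ S'`
(`chained_union`, `chained_mono`, `chained_of_preconnected`),
`|y'_0 - x_0| ≤ |y'_0 - y_0| + |y_0 - z_0| ≤ 2θ/3`.
`chn`: let `R ∩ C = S1 ∪ S2` (`C = connectedComponentIn E x`), both nonempty, and suppose
`θ < dist a b` for all `a ∈ S1`, `b ∈ S2`. For a piece `i` with `K i ⊆ C` let `R i = R' ∩ K i` if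
`i = inl _`, and `R i = K i` if `i = inr _`: nonempty, contained in `R ∩ C`, chained with
`θ/3`, so contained in `S1` or in `S2`, not in both. Let `I = {i | K i ⊆ C, R i ⊆ S1}`. Every
point of `R ∩ C` is in some `R i` with `K i ⊆ C` (a point of `R'` is in the component in `E'` of
some `m ∈ M'`), so there are pieces in `C` of both kinds. By `hch` for
`(⋃ i ∈ I, K i) ∪ (⋃ i ∉ I, K i ⊆ C, K i) = (E' ∪ ⋃ Γ) ∩ C` there are `i ∈ I`, `j ∉ I` with
`r i j`, so by `forest` there is `e ∈ T` with exactly one end in `I`, both ends in `C`. The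
points `u_e`, `v_e` have distance `≤ θ/3`, and each is within `θ/3` of a point of `R e.1`,
resp. `R e.2` (`RMap.pts`, or the point itself), so two points of `S1` and `S2` have distance
`≤ θ`: contradiction. -/
theorem rec_step {n : ℕ} [NeZero n] (θ : ℝ) (hθ : 0 < θ) (E E' : Set (Fin n → ℝ))
    (hE'E : E' ⊆ E) (hc' : IsCompact E') (hl' : LCn E') (B K N' : ℕ)
    (hcard : {w | LM E' (fun x => x 0) w}.encard ≤ (B : ℕ∞))
    (X1 : Finset (Fin n → ℝ)) (Γ : (Fin n → ℝ) → Set (Fin n → ℝ))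
    (hΓ : ∀ y ∈ X1, IsPreconnected (Γ y) ∧ y ∈ Γ y ∧ Γ y ⊆ E ∧ Alg K (Γ y))
    (hch : ∀ x ∈ E, Chained (θ / 3) ((E' ∪ ⋃ y ∈ X1, Γ y) ∩ connectedComponentIn E x))
    (hZ : ∀ x ∈ E, ∃ T ⊆ connectedComponentIn E x, IsPreconnected T ∧ x ∈ T ∧
      (∀ y ∈ T, y 0 = x 0) ∧ ∃ z ∈ T, ∃ y ∈ E', y ∈ connectedComponentIn E x ∧
      dist z y ≤ θ / 3)
    (A : Finset (Fin n → ℝ))
    (hA : ∀ a ∈ A, ∃ y ∈ X1, y ∈ connectedComponentIn E a ∧ dist a y ≤ θ)
    (hrec : ∀ A' : Finset (Fin n → ℝ), ↑A' ⊆ E' → A'.card ≤ 2 * (B + X1.card) →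
      ∃ R', RMap (θ / 3) E' A' N' R') :
    ∃ R, RMap θ E A (N' + X1.card * K) R := by
  classical
  -- local minima
  have hMfin : {w : Fin n → ℝ | LM E' (fun x => x 0) w}.Finite :=
    Set.finite_of_encard_le_coe hcard
  obtain ⟨M, hM⟩ : ∃ M : Finset (Fin n → ℝ), M = hMfin.toFinset := ⟨_, rfl⟩
  have hMm : ∀ w, w ∈ M ↔ LM E' (fun x => x 0) w := by
    intro w
    rw [hM, Set.Finite.mem_toFinset, Set.mem_setOf_eq]
  have hMc : M.card ≤ B := by
    rw [hMfin.encard_eq_coe_toFinset_card, ← hM] at hcard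
    exact_mod_cast hcard
  have hf0 : Continuous fun x : Fin n → ℝ => x 0 := continuous_apply 0
  -- components of `E'` in components of `E`
  have hmono : ∀ x y : Fin n → ℝ, y ∈ E' → y ∈ connectedComponentIn E x →
      connectedComponentIn E' y ⊆ connectedComponentIn E x := by
    intro x y hy hyx
    rw [connectedComponentIn_eq hyx]
    exact isPreconnected_connectedComponentIn.subset_connectedComponentIn
      (mem_connectedComponentIn hy) ((connectedComponentIn_subset _ _).trans hE'E)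
  have hmonoΓ : ∀ x s y : Fin n → ℝ, y ∈ X1 → s ∈ Γ y → s ∈ connectedComponentIn E x →
      Γ y ⊆ connectedComponentIn E x := by
    intro x s y hy hs hsx
    rw [connectedComponentIn_eq hsx]
    exact (hΓ y hy).1.subset_connectedComponentIn hs (hΓ y hy).2.2.1
  -- the pieces
  obtain ⟨Kp, hKp⟩ : ∃ Kp : {m // m ∈ M} ⊕ {y // y ∈ X1} → Set (Fin n → ℝ),
      Kp = Sum.elim (fun m => connectedComponentIn E' m.1) (fun y => Γ y.1) := ⟨_, rfl⟩
  have hKl : ∀ m, Kp (Sum.inl m) = connectedComponentIn E' m.1 := by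
    intro m
    rw [hKp, Sum.elim_inl]
  have hKr : ∀ y, Kp (Sum.inr y) = Γ y.1 := by
    intro y
    rw [hKp, Sum.elim_inr]
  have hmE : ∀ m : {m // m ∈ M}, m.1 ∈ E' := fun m => ((hMm _).1 m.2).1
  have hKne : ∀ i, (Kp i).Nonempty := by
    rintro (m | y)
    · rw [hKl]
      exact ⟨m.1, mem_connectedComponentIn (hmE m)⟩
    · rw [hKr]
      exact ⟨y.1, (hΓ y.1 y.2).2.1⟩
  obtain ⟨r, hr⟩ : ∃ r : {m // m ∈ M} ⊕ {y // y ∈ X1} → {m // m ∈ M} ⊕ {y // y ∈ X1} → Prop,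
      ∀ i j, r i j ↔ ∃ x ∈ E, Kp i ⊆ connectedComponentIn E x ∧
        Kp j ⊆ connectedComponentIn E x ∧ ∃ u ∈ Kp i, ∃ v ∈ Kp j, dist u v ≤ θ / 3 :=
    ⟨_, fun _ _ => Iff.rfl⟩
  obtain ⟨T, hTc, hTr, hTI⟩ := forest r (by
    intro i j hij
    rw [hr] at hij ⊢
    obtain ⟨x, hx, h1, h2, u, hu, v, hv, huv⟩ := hij
    exact ⟨x, hx, h2, h1, v, hv, u, hu, by rwa [dist_comm]⟩)
  have hTc' : T.card ≤ B + X1.card := by
    rw [Fintype.card_sum, Fintype.card_coe, Fintype.card_coe] at hTc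
    omega
  have hT2 : ∀ e ∈ T, ∃ x ∈ E, Kp e.1 ⊆ connectedComponentIn E x ∧
        Kp e.2 ⊆ connectedComponentIn E x ∧ ∃ u ∈ Kp e.1, ∃ v ∈ Kp e.2, dist u v ≤ θ / 3 :=
    fun e he => (hr _ _).1 (hTr e he)
  choose! xe hxe hK1 hK2 u hu v hv huv using hT2
  obtain ⟨A', hA'⟩ : ∃ A' : Finset (Fin n → ℝ), A' =
    (T.filter fun e => e.1.isLeft = true).image u ∪
      (T.filter fun e => e.2.isLeft = true).image v := ⟨_, rfl⟩
  have hA'E : (↑A' : Set (Fin n → ℝ)) ⊆ E' := by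
    intro a ha
    rw [hA', Finset.mem_coe, Finset.mem_union, Finset.mem_image, Finset.mem_image] at ha
    rcases ha with ⟨⟨i, j⟩, he, rfl⟩ | ⟨⟨i, j⟩, he, rfl⟩
    · rw [Finset.mem_filter] at he
      rcases i with m | y
      · have := hu _ he.1
        rw [hKl] at this
        exact connectedComponentIn_subset _ _ this
      · exact absurd he.2 (by simp)
    · rw [Finset.mem_filter] at he
      rcases j with m | y
      · have := hv _ he.1
        rw [hKl] at this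
        exact connectedComponentIn_subset _ _ this
      · exact absurd he.2 (by simp)
  have hA'c : A'.card ≤ 2 * (B + X1.card) := by
    have h1 : A'.card ≤ ((T.filter fun e => e.1.isLeft = true).image u).card +
        ((T.filter fun e => e.2.isLeft = true).image v).card := by
      rw [hA']
      exact Finset.card_union_le _ _
    have h2 : ((T.filter fun e => e.1.isLeft = true).image u).card ≤ T.card :=
      Finset.card_image_le.trans (Finset.card_filter_le _ _)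
    have h3 : ((T.filter fun e => e.2.isLeft = true).image v).card ≤ T.card :=
      Finset.card_image_le.trans (Finset.card_filter_le _ _)
    omega
  obtain ⟨R', hR'⟩ := hrec A' hA'E hA'c
  have hθ3 : θ / 3 ≤ θ := by linarith
  -- the small pieces
  obtain ⟨Rp, hRp⟩ : ∃ Rp : {m // m ∈ M} ⊕ {y // y ∈ X1} → Set (Fin n → ℝ),
      Rp = Sum.elim (fun m => R' ∩ connectedComponentIn E' m.1) (fun y => Γ y.1) := ⟨_, rfl⟩
  have hRl : ∀ m, Rp (Sum.inl m) = R' ∩ connectedComponentIn E' m.1 := by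
    intro m
    rw [hRp, Sum.elim_inl]
  have hRr : ∀ y, Rp (Sum.inr y) = Γ y.1 := by
    intro y
    rw [hRp, Sum.elim_inr]
  have hRne : ∀ i, (Rp i).Nonempty := by
    rintro (m | y)
    · rw [hRl]
      exact hR'.ne m.1 (hmE m)
    · rw [hRr]
      exact ⟨y.1, (hΓ y.1 y.2).2.1⟩
  have hRK : ∀ i, Rp i ⊆ Kp i := by
    rintro (m | y)
    · rw [hRl, hKl]
      exact Set.inter_subset_right
    · rw [hRr, hKr]
  have hRR : ∀ i, Rp i ⊆ R' ∪ ⋃ y ∈ X1, Γ y := by
    rintro (m | y)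
    · rw [hRl]
      exact fun w hw => Or.inl hw.1
    · rw [hRr]
      exact fun w hw => Or.inr (Set.mem_iUnion₂.2 ⟨y.1, y.2, hw⟩)
  have hRch : ∀ i, Chained θ (Rp i) := by
    rintro (m | y)
    · rw [hRl]
      exact chained_mono hθ3 (hR'.chn m.1 (hmE m))
    · rw [hRr]
      exact chained_of_preconnected _ (hΓ y.1 y.2).1 θ hθ
  refine ⟨R' ∪ ⋃ y ∈ X1, Γ y, ?_⟩
  constructor
  · -- sub
    refine Set.union_subset (hR'.sub.trans hE'E) ?_
    exact Set.iUnion₂_subset fun y hy => (hΓ y hy).2.2.1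
  · -- alg
    exact alg_union hR'.alg (alg_biUnion X1 K Γ fun y hy => (hΓ y hy).2.2.2)
  · -- ne
    intro x hx
    obtain ⟨-, -, -, -, -, -, -, y, hy, hyx, -⟩ := hZ x hx
    obtain ⟨w, hwR, hw⟩ := hR'.ne y hy
    exact ⟨w, Or.inl hwR, hmono x y hy hyx hw⟩
  · -- chn
    intro x hx S1 S2 hSS hn1 hn2
    by_contra hcon
    push Not at hcon
    have hdisj : ∀ p, p ∈ S1 → p ∈ S2 → False := by
      intro p h1 h2
      have h3 := hcon p h1 p h2
      rw [dist_self] at h3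
      linarith
    have hdich : ∀ i, Kp i ⊆ connectedComponentIn E x → Rp i ⊆ S1 ∨ Rp i ⊆ S2 := by
      intro i hi
      have hsub : Rp i ⊆ S1 ∪ S2 := by
        rw [← hSS]
        exact fun w hw => ⟨hRR i hw, hi (hRK i hw)⟩
      by_contra hno
      push Not at hno
      obtain ⟨h1, h2⟩ := hno
      obtain ⟨a, haR, ha⟩ := Set.not_subset.1 h1
      obtain ⟨b, hbR, hb⟩ := Set.not_subset.1 h2
      have ha2 : a ∈ S2 := (hsub haR).resolve_left ha
      have hb1 : b ∈ S1 := (hsub hbR).resolve_right hb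
      obtain ⟨c, hc, d, hd, hcd⟩ := hRch i (Rp i ∩ S1) (Rp i ∩ S2)
        (by rw [← Set.inter_union_distrib_left, Set.inter_eq_left.2 hsub])
        ⟨b, hbR, hb1⟩ ⟨a, haR, ha2⟩
      exact absurd (hcon c hc.2 d hd.2) (not_lt.2 hcd)
    -- every point is in a piece
    have hpE : ∀ s ∈ E', s ∈ connectedComponentIn E x → ∃ m : {m // m ∈ M},
        Kp (Sum.inl m) ⊆ connectedComponentIn E x ∧ s ∈ connectedComponentIn E' m.1 := by
      intro s hs hsx
      obtain ⟨m, hm, hmL⟩ := comp_min E' hc' hl' (fun x => x 0) hf0 s hs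
      refine ⟨⟨m, (hMm m).2 hmL⟩, ?_, ?_⟩
      · rw [hKl, ← connectedComponentIn_eq hm]
        exact hmono x s hs hsx
      · rw [← connectedComponentIn_eq hm]
        exact mem_connectedComponentIn hs
    have hpΓ : ∀ s ∈ ⋃ y ∈ X1, Γ y, s ∈ connectedComponentIn E x → ∃ y : {y // y ∈ X1},
        Kp (Sum.inr y) ⊆ connectedComponentIn E x ∧ s ∈ Γ y.1 := by
      intro s hs hsx
      obtain ⟨y, hy, hsy⟩ := Set.mem_iUnion₂.1 hs
      refine ⟨⟨y, hy⟩, ?_, hsy⟩
      rw [hKr]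
      exact hmonoΓ x s y hy hsy hsx
    have hpR : ∀ s ∈ (R' ∪ ⋃ y ∈ X1, Γ y) ∩ connectedComponentIn E x, ∃ i,
        Kp i ⊆ connectedComponentIn E x ∧ s ∈ Rp i := by
      rintro s ⟨hs | hs, hsx⟩
      · obtain ⟨m, h1, h2⟩ := hpE s (hR'.sub hs) hsx
        exact ⟨Sum.inl m, h1, by rw [hRl]; exact ⟨hs, h2⟩⟩
      · obtain ⟨y, h1, h2⟩ := hpΓ s hs hsx
        exact ⟨Sum.inr y, h1, by rw [hRr]; exact h2⟩
    have hpK : ∀ s ∈ (E' ∪ ⋃ y ∈ X1, Γ y) ∩ connectedComponentIn E x, ∃ i,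
        Kp i ⊆ connectedComponentIn E x ∧ s ∈ Kp i := by
      rintro s ⟨hs | hs, hsx⟩
      · obtain ⟨m, h1, h2⟩ := hpE s hs hsx
        exact ⟨Sum.inl m, h1, by rw [hKl]; exact h2⟩
      · obtain ⟨y, h1, h2⟩ := hpΓ s hs hsx
        exact ⟨Sum.inr y, h1, by rw [hKr]; exact h2⟩
    have hKS : ∀ i, Kp i ⊆ E' ∪ ⋃ y ∈ X1, Γ y := by
      rintro (m | y)
      · rw [hKl]
        exact fun w hw => Or.inl (connectedComponentIn_subset _ _ hw)
      · rw [hKr]
        exact fun w hw => Or.inr (Set.mem_iUnion₂.2 ⟨y.1, y.2, hw⟩)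
    obtain ⟨I, hI⟩ : ∃ I : Set ({m // m ∈ M} ⊕ {y // y ∈ X1}),
      ∀ i, i ∈ I ↔ Kp i ⊆ connectedComponentIn E x ∧ Rp i ⊆ S1 :=
        ⟨{i | Kp i ⊆ connectedComponentIn E x ∧ Rp i ⊆ S1}, fun _ => Iff.rfl⟩
    have hI1 : ∃ i, i ∈ I := by
      obtain ⟨s, hs⟩ := hn1
      have hs' : s ∈ (R' ∪ ⋃ y ∈ X1, Γ y) ∩ connectedComponentIn E x := by
        rw [hSS]
        exact Or.inl hs
      obtain ⟨i, h1, h2⟩ := hpR s hs'
      refine ⟨i, (hI i).2 ⟨h1, ?_⟩⟩
      rcases hdich i h1 with h3 | h3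
      · exact h3
      · exact absurd (h3 h2) (fun h => hdisj s hs h)
    have hI2 : ∃ i, Kp i ⊆ connectedComponentIn E x ∧ i ∉ I := by
      obtain ⟨s, hs⟩ := hn2
      have hs' : s ∈ (R' ∪ ⋃ y ∈ X1, Γ y) ∩ connectedComponentIn E x := by
        rw [hSS]
        exact Or.inr hs
      obtain ⟨i, h1, h2⟩ := hpR s hs'
      exact ⟨i, h1, fun h => hdisj s (((hI i).1 h).2 h2) hs⟩
    obtain ⟨a, ha, b, hb, hab⟩ := hch x hx (⋃ i ∈ I, Kp i)
      (⋃ i ∈ {i | Kp i ⊆ connectedComponentIn E x ∧ i ∉ I}, Kp i) (by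
        apply Set.Subset.antisymm
        · intro s hs
          obtain ⟨i, h1, h2⟩ := hpK s hs
          by_cases hi : i ∈ I
          · exact Or.inl (Set.mem_iUnion₂.2 ⟨i, hi, h2⟩)
          · exact Or.inr (Set.mem_iUnion₂.2 ⟨i, ⟨h1, hi⟩, h2⟩)
        · rintro s (hs | hs)
          · obtain ⟨i, hi, h2⟩ := Set.mem_iUnion₂.1 hs
            exact ⟨hKS i h2, ((hI i).1 hi).1 h2⟩
          · obtain ⟨i, hi, h2⟩ := Set.mem_iUnion₂.1 hs
            exact ⟨hKS i h2, hi.1 h2⟩)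
      (by
        obtain ⟨i, hi⟩ := hI1
        obtain ⟨w, hw⟩ := hKne i
        exact ⟨w, Set.mem_iUnion₂.2 ⟨i, hi, hw⟩⟩)
      (by
        obtain ⟨i, hi, hi'⟩ := hI2
        obtain ⟨w, hw⟩ := hKne i
        exact ⟨w, Set.mem_iUnion₂.2 ⟨i, ⟨hi, hi'⟩, hw⟩⟩)
    obtain ⟨i, hi, hai⟩ := Set.mem_iUnion₂.1 ha
    obtain ⟨j, hj, hbj⟩ := Set.mem_iUnion₂.1 hb
    obtain ⟨e, heT, he⟩ := hTI I ⟨i, j, hi, hj.2, (hr i j).2
      ⟨x, hx, ((hI i).1 hi).1, hj.1, a, hai, b, hbj, hab⟩⟩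
    -- both ends in `C`
    have hcc : ∀ k : {m // m ∈ M} ⊕ {y // y ∈ X1}, Kp k ⊆ connectedComponentIn E (xe e) →
        Kp k ⊆ connectedComponentIn E x →
        connectedComponentIn E (xe e) = connectedComponentIn E x := by
      intro k h1 h2
      obtain ⟨w, hw⟩ := hKne k
      rw [connectedComponentIn_eq (h1 hw), connectedComponentIn_eq (h2 hw)]
    have hboth : Kp e.1 ⊆ connectedComponentIn E x ∧ Kp e.2 ⊆ connectedComponentIn E x := by
      rcases he with ⟨h1, -⟩ | ⟨-, h1⟩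
      · have h2 := ((hI _).1 h1).1
        have h3 := hcc e.1 (hK1 e heT) h2
        exact ⟨h2, by rw [← h3]; exact hK2 e heT⟩
      · have h2 := ((hI _).1 h1).1
        have h3 := hcc e.2 (hK2 e heT) h2
        exact ⟨by rw [← h3]; exact hK1 e heT, h2⟩
    have hclose : ∀ (k : {m // m ∈ M} ⊕ {y // y ∈ X1}) (w : Fin n → ℝ), w ∈ Kp k →
        (k.isLeft = true → w ∈ A') → ∃ p ∈ Rp k, dist w p ≤ θ / 3 := by
      rintro (m | y) w hw hwA
      · rw [hKl] at hw
        obtain ⟨p, hp, hwp⟩ := hR'.pts w (hwA rfl)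
        refine ⟨p, ?_, hwp⟩
        rw [hRl, connectedComponentIn_eq hw]
        exact hp
      · rw [hKr] at hw
        refine ⟨w, by rw [hRr]; exact hw, ?_⟩
        rw [dist_self]
        positivity
    obtain ⟨p, hp, hpd⟩ := hclose e.1 (u e) (hu e heT) (fun hl => by
      rw [hA']
      exact Finset.mem_union_left _ (Finset.mem_image_of_mem u (Finset.mem_filter.2 ⟨heT, hl⟩)))
    obtain ⟨q, hq, hqd⟩ := hclose e.2 (v e) (hv e heT) (fun hl => by
      rw [hA']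
      exact Finset.mem_union_right _ (Finset.mem_image_of_mem v (Finset.mem_filter.2 ⟨heT, hl⟩)))
    have hpq : dist p q ≤ θ := by
      have h1 := dist_triangle4 p (u e) (v e) q
      have h2 := huv e heT
      rw [dist_comm p (u e)] at h1
      linarith
    rcases he with ⟨h1, h2⟩ | ⟨h1, h2⟩
    · have hp1 : p ∈ S1 := ((hI _).1 h1).2 hp
      have hq2 : q ∈ S2 := by
        rcases hdich e.2 hboth.2 with h3 | h3
        · exact absurd ((hI _).2 ⟨hboth.2, h3⟩) h2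
        · exact h3 hq
      exact absurd (hcon p hp1 q hq2) (not_lt.2 hpq)
    · have hq1 : q ∈ S1 := ((hI _).1 h2).2 hq
      have hp2 : p ∈ S2 := by
        rcases hdich e.1 hboth.1 with h3 | h3
        · exact absurd ((hI _).2 ⟨hboth.1, h3⟩) h1
        · exact h3 hp
      have := hcon q hq1 p hp2
      rw [dist_comm] at this
      exact absurd this (not_lt.2 hpq)
  · -- pts
    intro a ha
    obtain ⟨y, hy, hya, hd⟩ := hA a ha
    exact ⟨y, ⟨Or.inr (Set.mem_iUnion₂.2 ⟨y, hy, (hΓ y hy).2.1⟩), hya⟩, hd⟩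
  · -- fib
    intro x hx
    obtain ⟨T', hT'E, hT'pc, hxT', hT'0, z, hz, y, hy, hyx, hzy⟩ := hZ x hx
    obtain ⟨S', hS'E, hS'c, hyS', ⟨w, hwS, hwR⟩, hS'0⟩ := hR'.fib y hy
    refine ⟨T' ∪ S', Set.union_subset hT'E (hS'E.trans (hmono x y hy hyx)), ?_, Or.inl hxT',
      ⟨w, Or.inr hwS, Or.inl hwR⟩, ?_⟩
    · exact chained_union (chained_of_preconnected T' hT'pc θ hθ) (chained_mono hθ3 hS'c) z y
        hz hyS' (hzy.trans hθ3)
    · rintro s (hs | hs)
      · rw [hT'0 s hs, sub_self, abs_zero]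
        exact hθ.le
      · have h1 := hS'0 s hs
        have h2 : |z 0 - y 0| ≤ θ / 3 := by
          rw [← Real.dist_eq]
          exact (dist_le_pi_dist z y 0).trans hzy
        have h3 := hT'0 z hz
        rw [← h3]
        have h4 : s 0 - z 0 = (s 0 - y 0) + (y 0 - z 0) := by ring
        rw [h4]
        rw [abs_sub_comm] at h2
        have h5 := abs_add_le (s 0 - y 0) (y 0 - z 0)
        linarith

end Pool.Agent.RM90
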