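import Pool.Agent.Lib.MP_df59e7_lc.Step
import Pool.Agent.Lib.MP_df59e7_lc.Act
import Pool.Agent.Lib.MP_df59e7_lc.RecS
import Pool.Agent.Lib.MP_df59e7_lc.AlgE1
import Pool.Agent.Lib.MP_df59e7_lc.GamAlg
import Pool.Agent.Lib.MP_df59e7_lc.Meet
import Pool.Agent.Lib.MP_df59e7_lc.CntG

set_option autoImplicit false

/-! MP_df59e7_lc, assembly: the recursion. -/

namespace Pool.Agent.RM90

open MvPolynomial

theorem BB_pos (n d0 : ℕ) : 1 ≤ BB n d0 := Nat.one_le_pow _ _ (by omega)

theorem rmap_mono {n : ℕ} [NeZero n] {θ : ℝ} {E : Set (Fin n → ℝ)} {A : Finset (Fin n → ℝ)}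
    {N N' : ℕ} {R : Set (Fin n → ℝ)} (hN : N ≤ N') (h : RMap θ E A N R) :
    RMap θ E A N' R where
  sub := h.sub
  alg := alg_mono hN (subset_refl _) h.alg
  ne := h.ne
  chn := h.chn
  pts := h.pts
  fib := h.fib

theorem continuous_prj {n : ℕ} (i : ℕ) : Continuous (prj (n := n) i) := by
  refine continuous_pi fun j => ?_
  unfold prj
  by_cases h : (j : ℕ) + 1 < i
  · simp only [h, if_true]; exact continuous_apply j
  · simp only [h, if_false]; exact continuous_const

/-- The hypotheses of the approximate connectivity theorem at a good stage. -/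
theorem actE_good {n : ℕ} [NeZero n] (U : Set (Fin n → ℝ)) (i : ℕ) (hi : 2 ≤ i) (hin : i < n)
    (F : Fin n → MvPolynomial (Fin n) ℝ) (d0 : ℕ) (hd0 : 1 ≤ d0) (hG : Good U i F d0) :
    ActE (Est U i F) {z | z ∈ Est U i F ∧ eval z (jac F) = 0}
      {x | x ∈ Est U i F ∧ eval x (jac F) ≠ 0} (fun x => x 0) (prj i) (Gam U i F)
      (BB n d0) := by
  have he : (((⟨i - 1, by omega⟩ : Fin n) : Fin n) : ℕ) + 1 = i := by simp; omega
  have harc := fun (x : Fin n → ℝ) (hx : x ∈ Est U i F) (hj : eval x (jac F) ≠ 0) =>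
    arc i ⟨i - 1, by omega⟩ he F hG.std U hG.isOpen hG.cpt x hx hj
  refine
    { cE := hG.cpt
      lE := hG.lcn
      cf := continuous_apply 0
      cπ := continuous_prj i
      fπ := ?_
      str := hG.str
      card := cnt_good U i F d0 hd0 hG
      cZ := ?_
      ZE := fun x hx => hx.1
      meet := ?_
      DE := fun x hx => hx.1
      dD := ?_
      Γp := fun x hx => (harc x hx.1 hx.2).2.1
      Γc := fun x hx => (harc x hx.1 hx.2).1.isClosed
      Γm := fun x hx => (harc x hx.1 hx.2).2.2.1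
      Γf := fun x hx => (harc x hx.1 hx.2).2.2.2.1
      ΓZ := ?_ }
  · intro x _ y _ hxy
    have := congrFun hxy 0
    simp only [prj] at this
    have h0 : ((0 : Fin n) : ℕ) + 1 < i := by
      have : ((0 : Fin n) : ℕ) = 0 := Fin.val_zero _
      omega
    rwa [if_pos h0, if_pos h0] at this
  · exact hG.cpt.isClosed.inter (isClosed_eq (continuous_evalp _) continuous_const)
  · intro x hx
    obtain ⟨z, hz1, hz2⟩ := meet i ⟨i - 1, by omega⟩ he F hG.std U hG.isOpen hG.cpt x hx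
    exact ⟨z, hz1, (connectedComponentIn_subset _ _ hz1).1, hz2⟩
  · intro x hx
    rw [Metric.mem_closure_iff]
    intro ε hε
    obtain ⟨y, hy, hd, hne⟩ := hG.dns x hx ε hε
    exact ⟨y, ⟨hy, hne⟩, by rw [dist_comm]; exact hd⟩
  · intro x hx
    obtain ⟨_, _, _, h4, z, hz1, hz2⟩ := harc x hx.1 hx.2
    exact ⟨z, hz1, (h4 hz1).1, hz2⟩

theorem rec_arith (b m x q : ℕ) (hb : 1 ≤ b) (hx : x ≤ 2 * b ^ 2 + b + m) :
    4 * b * q * (2 * (b + x) + 8 * b ^ 2) + x * (4 * b) ≤
      4 * b * (2 * q + 1) * (m + 8 * b ^ 2) := by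
  have hbb : b ≤ b ^ 2 := by nlinarith
  have h1 : 2 * (b + x) + 8 * b ^ 2 ≤ 2 * (m + 8 * b ^ 2) := by omega
  have h2 : x ≤ m + 8 * b ^ 2 := by omega
  calc 4 * b * q * (2 * (b + x) + 8 * b ^ 2) + x * (4 * b)
      ≤ 4 * b * q * (2 * (m + 8 * b ^ 2)) + (m + 8 * b ^ 2) * (4 * b) :=
        Nat.add_le_add (Nat.mul_le_mul_left _ h1) (Nat.mul_le_mul_right _ h2)
    _ = 4 * b * (2 * q + 1) * (m + 8 * b ^ 2) := by ring

theorem rec_main {n : ℕ} [NeZero n] (d0 : ℕ) (hd0 : 1 ≤ d0) (i : ℕ) (hi : 1 ≤ i) :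
    i < n → ∀ (U : Set (Fin n → ℝ)) (F : Fin n → MvPolynomial (Fin n) ℝ), Good U i F d0 →
    ∀ θ > 0, ∀ A : Finset (Fin n → ℝ), ↑A ⊆ Est U i F →
    ∃ R, RMap θ (Est U i F) A
      (4 * BB n d0 * (2 ^ i - 1) * (A.card + 8 * (BB n d0) ^ 2)) R := by
  classical
  induction i, hi using Nat.le_induction with
  | base =>
    intro _ U F hG θ hθ A hA
    refine ⟨Est U 1 F,
      { sub := subset_refl _
        alg := ?_
        ne := ?_
        chn := ?_
        pts := ?_
        fib := ?_ }⟩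
    · refine alg_mono ?_ (subset_refl _) (alg_E1 U F d0 hd0 hG)
      have hb := BB_pos n d0
      set b := BB n d0
      have : b ≤ A.card + 8 * b ^ 2 := by nlinarith
      calc b * (4 * b) = 4 * b * (2 ^ 1 - 1) * b := by norm_num; ring
        _ ≤ 4 * b * (2 ^ 1 - 1) * (A.card + 8 * b ^ 2) := Nat.mul_le_mul_left _ this
    · intro x hx
      exact ⟨x, hx, mem_connectedComponentIn hx⟩
    · intro x hx
      rw [Set.inter_eq_right.mpr (connectedComponentIn_subset _ _)]
      exact chained_of_preconnected _ isPreconnected_connectedComponentIn θ hθ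
    · intro a ha
      exact ⟨a, ⟨hA ha, mem_connectedComponentIn (hA ha)⟩, by simp [hθ.le]⟩
    · intro x hx
      refine ⟨{x}, ?_, ?_, rfl, ⟨x, rfl, hx⟩, ?_⟩
      · rintro y rfl
        exact mem_connectedComponentIn hx
      · exact chained_of_preconnected _ isPreconnected_singleton θ hθ
      · rintro y rfl
        simp [hθ.le]
  | succ i hi ih =>
    intro hin U F hG θ hθ A hA
    have hθ3 : 0 < θ / 3 := by positivity
    obtain ⟨F', hF1, hF2, hF3, hF4⟩ := step_seq (i + 1) (by omega) hin U F d0 hd0 hG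
    rw [Nat.add_sub_cancel] at hF1 hF2 hF3 hF4
    have hE := actE_good U (i + 1) (by omega) hin F d0 hd0 hG
    have hP : ActP (Est U (i + 1) F) {z | z ∈ Est U (i + 1) F ∧ eval z (jac F) = 0}
        (fun x => x 0) (BB n d0) (fun p => Est U i (F' p)) :=
      { cpt := fun p => (hF1 p).cpt
        sub := hF2
        lcn := fun p => (hF1 p).lcn
        card := fun p => cnt_good U i (F' p) d0 hd0 (hF1 p)
        toZ := fun ε hε => by
          filter_upwards [hF3 ε hε] with p hp y hy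
          obtain ⟨z, h1, h2, h3⟩ := hp y hy
          exact ⟨z, ⟨h1, h2⟩, h3⟩
        ofZ := fun ε hε => by
          filter_upwards [hF4 ε hε] with p hp z hz
          obtain ⟨y, h1, h2, h3⟩ := hp z hz.1 hz.2
          exact ⟨y, h2, h3⟩ }
    obtain ⟨X0, hX0D, hX0c, hX0⟩ := act _ _ _ _ _ _ _ hE _ hP (θ / 3) hθ3
    -- approximations of the given points
    have happr : ∀ a ∈ A, ∃ y, (y ∈ Est U (i + 1) F ∧ eval y (jac F) ≠ 0) ∧
        y ∈ connectedComponentIn (Est U (i + 1) F) a ∧ dist a y ≤ θ := by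
      intro a ha
      have haE := hA ha
      obtain ⟨ρ, hρ, hb⟩ := comp_open (Est U (i + 1) F) hG.lcn a a
        (mem_connectedComponentIn haE)
      obtain ⟨y, hy, hd, hne⟩ := hG.dns a haE (min ρ θ) (lt_min hρ hθ)
      refine ⟨y, ⟨hy, hne⟩, hb ⟨hy, ?_⟩, ?_⟩
      · exact lt_of_lt_of_le hd (min_le_left _ _)
      · rw [dist_comm]; exact (lt_of_lt_of_le hd (min_le_right _ _)).le
    have happr' : ∀ a : Fin n → ℝ, ∃ y, a ∈ A →
        ((y ∈ Est U (i + 1) F ∧ eval y (jac F) ≠ 0) ∧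
        y ∈ connectedComponentIn (Est U (i + 1) F) a ∧ dist a y ≤ θ) := by
      intro a
      by_cases ha : a ∈ A
      · obtain ⟨y, hy⟩ := happr a ha
        exact ⟨y, fun _ => hy⟩
      · exact ⟨a, fun h => absurd h ha⟩
    choose g hg using happr'
    set X1 : Finset (Fin n → ℝ) := X0 ∪ A.image g with hX1
    have hX1c : X1.card ≤ 2 * (BB n d0) ^ 2 + BB n d0 + A.card :=
      (Finset.card_union_le _ _).trans (Nat.add_le_add hX0c Finset.card_image_le)
    have hX1D : ↑X1 ⊆ {x | x ∈ Est U (i + 1) F ∧ eval x (jac F) ≠ 0} := by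
      intro x hx
      rw [hX1, Finset.coe_union, Finset.coe_image] at hx
      rcases hx with hx | ⟨a, ha, rfl⟩
      · exact hX0D hx
      · exact (hg a ha).1
    obtain ⟨p, hp1, hp2⟩ := ((hX0 X1 Finset.subset_union_left hX1D).and
      ((hF4 (θ / 3) hθ3).filter_mono Nat.hyperfilter_le_atTop)).exists
    have harc := fun (x : Fin n → ℝ) (hx : x ∈ Est U (i + 1) F) (hj : eval x (jac F) ≠ 0) =>
      arc (i + 1) ⟨i, by omega⟩ rfl F hG.std U hG.isOpen hG.cpt x hx hj
    obtain ⟨R, hR⟩ := rec_step θ hθ (Est U (i + 1) F) (Est U i (F' p)) (hF2 p) (hF1 p).cpt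
      (hF1 p).lcn (BB n d0) (4 * BB n d0)
      (4 * BB n d0 * (2 ^ i - 1) * (2 * (BB n d0 + X1.card) + 8 * (BB n d0) ^ 2))
      (cnt_good U i (F' p) d0 hd0 (hF1 p)) X1 (Gam U (i + 1) F)
      (fun y hy => by
        have hyD := hX1D hy
        obtain ⟨_, h2, h3, h4, _⟩ := harc y hyD.1 hyD.2
        refine ⟨h2, h3, fun x hx => (h4 hx).1, ?_⟩
        exact gam_alg (i + 1) ⟨i, by omega⟩ rfl F hG.std U hG.isOpen d0 hd0 hG.deg y
          hyD.1 hyD.2)
      hp1
      (fun x hx => by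
        obtain ⟨z, hz1, hz2⟩ := hE.meet x hx
        obtain ⟨y, hy1, hy2, hy3⟩ := hp2 z hz2.1 hz2.2
        have hsub : connectedComponentIn (Est U (i + 1) F ∩
            prj (i + 1) ⁻¹' {prj (i + 1) x}) x ⊆ connectedComponentIn (Est U (i + 1) F) x :=
          connectedComponentIn_mono x Set.inter_subset_left
        have hxm : x ∈ Est U (i + 1) F ∩ prj (i + 1) ⁻¹' {prj (i + 1) x} := ⟨hx, rfl⟩
        refine ⟨_, hsub, isPreconnected_connectedComponentIn, mem_connectedComponentIn hxm,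
          ?_, z, hz1, y, hy2, ?_, ?_⟩
        · intro w hw
          have hw' := connectedComponentIn_subset _ _ hw
          exact hE.fπ w hw'.1 x hx hw'.2
        · have := connectedComponentIn_eq (hsub hz1)
          rw [this]; exact hy1
        · rw [dist_comm]; exact hy3.le)
      A
      (fun a ha => by
        refine ⟨g a, ?_, (hg a ha).2.1, (hg a ha).2.2⟩
        rw [hX1]
        exact Finset.mem_union_right _ (Finset.mem_image_of_mem g ha))
      (fun A' hA' hc => by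
        obtain ⟨R', hR'⟩ := ih (by omega) U (F' p) (hF1 p) (θ / 3) hθ3 A' hA'
        exact ⟨R', rmap_mono (Nat.mul_le_mul_left _ (by omega)) hR'⟩)
    refine ⟨R, rmap_mono ?_ hR⟩
    have hq : 2 ^ (i + 1) - 1 = 2 * (2 ^ i - 1) + 1 := by
      have : 1 ≤ 2 ^ i := Nat.one_le_two_pow
      rw [pow_succ]; omega
    rw [hq]
    exact rec_arith _ _ _ _ (BB_pos n d0) hX1c

end Pool.Agent.RM90
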