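import Pool.Agent.Lib.MP_df59e7_lc.GenGood
import Pool.Agent.Lib.MP_df59e7_lc.Sard
import Pool.Agent.Lib.MP_df59e7_lc.Par
import Pool.Agent.Lib.MP_df59e7_lc.Apx

set_option autoImplicit false

/-! MP_df59e7_lc, assembly: the sequence of next stages. -/

namespace Pool.Agent.RM90

open MvPolynomial

theorem continuous_evalp {n : ℕ} (P : MvPolynomial (Fin n) ℝ) :
    Continuous (fun x : Fin n → ℝ => eval x P) :=
  continuous_iff_continuousAt.mpr fun x =>
    (Warren46.hasFDerivAt_eval P x).continuousAt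

theorem bdd_coord {n : ℕ} (U : Set (Fin n → ℝ)) (hU : Bornology.IsBounded U) :
    ∃ R : ℝ, ∀ x ∈ U, ∀ j, |x j| ≤ R := by
  obtain ⟨R, hR⟩ := hU.exists_norm_le
  refine ⟨R, fun x hx j => ?_⟩
  have := norm_le_pi_norm x j
  rw [Real.norm_eq_abs] at this
  exact this.trans (hR x hx)

theorem step_seq {n : ℕ} [NeZero n] (i : ℕ) (hi : 2 ≤ i) (hin : i < n)
    (U : Set (Fin n → ℝ)) (F : Fin n → MvPolynomial (Fin n) ℝ) (d0 : ℕ) (hd0 : 1 ≤ d0)
    (hG : Good U i F d0) :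
    ∃ F' : ℕ → (Fin n → MvPolynomial (Fin n) ℝ),
      (∀ p, Good U (i - 1) (F' p) d0) ∧ (∀ p, Est U (i - 1) (F' p) ⊆ Est U i F) ∧
      (∀ ε > 0, ∀ᶠ p in Filter.atTop, ∀ y ∈ Est U (i - 1) (F' p),
        ∃ z ∈ Est U i F, eval z (jac F) = 0 ∧ dist y z < ε) ∧
      (∀ ε > 0, ∀ᶠ p in Filter.atTop, ∀ z ∈ Est U i F, eval z (jac F) = 0 →
        ∃ y ∈ connectedComponentIn (Est U i F) z, y ∈ Est U (i - 1) (F' p) ∧ dist y z < ε) := by
  obtain ⟨R, hR⟩ := bdd_coord U hG.bdd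
  have hpar : ∀ p : ℕ, ∃ c : Fin n → ℝ, Gen i F ((jac F) ^ 2) c ∧
      (∀ j, |c j| < 1 / ((p : ℝ) + 1)) ∧
      ∀ x : Fin n → ℝ, (∀ j, |x j| ≤ R) → 0 < eval x (lf i c) ∧
        eval x (lf i c) < 1 / ((p : ℝ) + 1) := fun p =>
    exists_par i _ (sard_gen i F ((jac F) ^ 2)) R (1 / ((p : ℝ) + 1)) (by positivity)
  choose c hc1 _ hc3 using hpar
  have hE : ∀ p, Est U (i - 1) (nxt i F ((jac F) ^ 2) (c p)) =
      {x | x ∈ Est U i F ∧ (eval x (jac F)) ^ 2 = eval x (lf i (c p))} := by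
    intro p
    rw [est_nxt i (by omega) (by omega)]
    ext x
    constructor
    · rintro ⟨h1, h2, h3⟩
      rw [map_sub, map_pow, sub_eq_zero] at h3
      exact ⟨⟨h1, h2⟩, h3⟩
    · rintro ⟨⟨h1, h2⟩, h3⟩
      refine ⟨h1, h2, ?_⟩
      rw [map_sub, map_pow, sub_eq_zero]
      exact h3
  have hpos : ∀ p, ∀ x ∈ Est U i F, 0 < eval x (lf i (c p)) := fun p x hx =>
    (hc3 p x (hR x hx.1)).1
  have happ := apx (Est U i F) hG.cpt hG.lcn (fun x => (eval x (jac F)) ^ 2)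
    ((continuous_evalp _).pow 2) (fun x => by positivity)
    (fun w hw ε hε => by
      obtain ⟨y, hy, hd, hne⟩ := hG.dns w hw ε hε
      exact ⟨y, hy, hd, pow_ne_zero 2 hne⟩)
    (fun p x => eval x (lf i (c p))) (fun p => continuous_evalp _) hpos
    (fun p x hx => (hc3 p x (hR x hx.1)).2)
  refine ⟨fun p => nxt i F ((jac F) ^ 2) (c p), fun p => ?_, fun p => ?_, ?_, ?_⟩
  · have hEh := est_nxt i (by omega) (by omega) U F ((jac F) ^ 2) (c p)
    refine gen_good i hi (by omega) U hG.isOpen hG.bdd F hG.std d0 hd0 hG.deg ((jac F) ^ 2)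
      (deg_jac i (by omega) F hG.std d0 hG.deg) (c p) (hc1 p) ?_ ?_
    · intro w hw
      rw [← hEh, hE] at hw
      intro h0
      have := hpos p w hw.1
      rw [← hw.2, h0] at this
      simp at this
    · rw [← hEh, hE]
      have : {x | x ∈ Est U i F ∧ (eval x (jac F)) ^ 2 = eval x (lf i (c p))} =
          Est U i F ∩ {x | (eval x (jac F)) ^ 2 = eval x (lf i (c p))} := rfl
      rw [this]
      exact hG.cpt.inter_right
        (isClosed_eq ((continuous_evalp _).pow 2) (continuous_evalp _))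
  · rw [hE]
    exact fun x hx => hx.1
  · intro ε hε
    filter_upwards [happ.1 ε hε] with p hp y hy
    rw [hE] at hy
    obtain ⟨z, hz, h0, hd⟩ := hp y hy.1 hy.2
    exact ⟨z, hz, by simpa using h0, hd⟩
  · intro ε hε
    filter_upwards [happ.2 ε hε] with p hp z hz h0
    obtain ⟨y, hy, h1, hd⟩ := hp z hz (by simp [h0])
    refine ⟨y, hy, ?_, hd⟩
    rw [hE]
    exact ⟨connectedComponentIn_subset _ _ hy, h1⟩

end Pool.Agent.RM90
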